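import Pool.Agent.TH829.Kim.Main

/-!
# Contractions of products of values of correspondences
-/

open CategoryTheory AlgebraicGeometry

universe u v w

namespace Pool.Agent.Helper70_bl

open Pool.Agent.H914 Pool.Agent.H914.VarClass Pool.Agent.H914.VarClass.Obj Pool.Agent.W492.BB
  Pool.Agent.W550.Corr Pool.Agent.TH133 Pool.Agent.TH829.Prime Pool.Agent.TH829.Kim

set_option linter.unusedSectionVars false

variable {k : Type u} [Field k] {𝒱 : VarClass k}

/-- The permutation `σ` of `S` respects the labels `w` and acts transitively on the elements of `S`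
without label. -/
def Good {ι : Type} {L : Type} (w : ι → Option L) (σ : Equiv.Perm ι) (S : Finset ι) : Prop :=
  (∀ i ∈ S, w (σ i) = w i) ∧ ∀ A ⊆ S, (∀ i ∈ A, w i = none) → (∀ i ∈ A, σ i ∈ A) →
    A = ∅ ∨ ∀ i ∈ S, w i = none → i ∈ A

section comb

variable {ι : Type} [DecidableEq ι] {L : Type} {w : ι → Option L}

lemma good_fix_some {σ : Equiv.Perm ι} {S : Finset ι} {c : ι} (hc : σ c = c)
    (hw : w c ≠ none) : Good w σ S ↔ Good w σ (S.erase c) := by
  constructor
  · rintro ⟨h1, h2⟩
    refine ⟨fun i hi => h1 i (Finset.mem_of_mem_erase hi), fun A hA hA1 hA2 => ?_⟩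
    rcases h2 A (hA.trans (Finset.erase_subset _ _)) hA1 hA2 with h | h
    · exact Or.inl h
    · exact Or.inr fun i hi => h i (Finset.mem_of_mem_erase hi)
  · rintro ⟨h1, h2⟩
    refine ⟨fun i hi => ?_, fun A hA hA1 hA2 => ?_⟩
    · by_cases hic : i = c
      · rw [hic, hc]
      · exact h1 i (Finset.mem_erase.2 ⟨hic, hi⟩)
    · have hA' : A ⊆ S.erase c := fun i hi => Finset.mem_erase.2
        ⟨by rintro rfl; exact hw (hA1 _ hi), hA hi⟩
      rcases h2 A hA' hA1 hA2 with h | h
      · exact Or.inl h
      · refine Or.inr fun i hi hi' => h i (Finset.mem_erase.2 ⟨?_, hi⟩) hi'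
        rintro rfl
        exact hw hi'

lemma good_fix_none {σ : Equiv.Perm ι} {S : Finset ι} {c i0 : ι} (hcS : c ∈ S) (hc : σ c = c)
    (hw : w c = none) (hi0 : i0 ∈ S) (hw0 : w i0 = none) (hne : i0 ≠ c) : ¬ Good w σ S := by
  rintro ⟨-, h2⟩
  rcases h2 {c} (Finset.singleton_subset_iff.2 hcS)
    (fun i hi => by rw [Finset.mem_singleton.1 hi, hw])
    (fun i hi => by rw [Finset.mem_singleton.1 hi, hc]; exact Finset.mem_singleton_self _) with h | h
  · exact Finset.singleton_ne_empty _ h
  · exact hne (Finset.mem_singleton.1 (h i0 hi0 hw0))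

lemma good_move {σ : Equiv.Perm ι} {S : Finset ι} {c i : ι} (hcS : c ∈ S) (hiS : i ∈ S)
    (hi : σ i = c) (hic : i ≠ c) (hw : w i = w c) :
    Good w σ S ↔ Good w (Equiv.swap c (σ c) * σ) (S.erase c) := by
  set τ := Equiv.swap c (σ c) * σ with hτ
  have hτi : τ i = σ c := by
    rw [hτ, Equiv.Perm.mul_apply, hi, Equiv.swap_apply_left]
  have hσc : σ c ≠ c := by
    intro h
    exact hic (σ.injective (hi.trans h.symm))
  have hτj : ∀ j, j ≠ i → j ≠ c → τ j = σ j := by
    intro j hj hjc
    rw [hτ, Equiv.Perm.mul_apply, Equiv.swap_apply_of_ne_of_ne]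
    · intro h
      exact hj (σ.injective (h.trans hi.symm))
    · intro h
      exact hjc (σ.injective h)
  have hw' : (∀ j ∈ S, w (σ j) = w j) ↔ ∀ j ∈ S.erase c, w (τ j) = w j := by
    constructor
    · intro h j hj
      obtain ⟨hjc, hjS⟩ := Finset.mem_erase.1 hj
      by_cases hji : j = i
      · subst hji
        rw [hτi, h c hcS, hw]
      · rw [hτj j hji hjc, h j hjS]
    · intro h j hj
      by_cases hji : j = i
      · subst hji
        rw [hi, hw]
      · by_cases hjc : j = c
        · subst hjc
          have h1 := h i (Finset.mem_erase.2 ⟨hic, hiS⟩)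
          rw [hτi] at h1
          rw [h1, hw]
        · rw [← hτj j hji hjc]
          exact h j (Finset.mem_erase.2 ⟨hjc, hj⟩)
  rw [Good, Good, hw']
  refine and_congr_right fun _ => ?_
  constructor
  · intro h A hA hA1 hA2
    by_cases hiA : i ∈ A
    · have hwc : w c = none := by rw [← hw]; exact hA1 i hiA
      rcases h (insert c A) (Finset.insert_subset hcS (hA.trans (Finset.erase_subset _ _)))
        (fun j hj => by
          rcases Finset.mem_insert.1 hj with h1 | h1
          · rw [h1, hwc]
          · exact hA1 j h1)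
        (fun j hj => by
          rcases Finset.mem_insert.1 hj with h1 | h1
          · rw [h1, ← hτi]
            exact Finset.mem_insert_of_mem (hA2 i hiA)
          · by_cases hji : j = i
            · rw [hji, hi]
              exact Finset.mem_insert_self _ _
            · rw [← hτj j hji (Finset.mem_erase.1 (hA h1)).1]
              exact Finset.mem_insert_of_mem (hA2 j h1)) with h1 | h1
      · exact absurd h1 (Finset.insert_ne_empty _ _)
      · refine Or.inr fun j hj hj' => ?_
        rcases Finset.mem_insert.1 (h1 j (Finset.mem_of_mem_erase hj) hj') with h2 | h2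
        · exact absurd h2 (Finset.mem_erase.1 hj).1
        · exact h2
    · rcases h A (hA.trans (Finset.erase_subset _ _)) hA1 (fun j hj => by
        have hji : j ≠ i := by rintro rfl; exact hiA hj
        rw [← hτj j hji (Finset.mem_erase.1 (hA hj)).1]
        exact hA2 j hj) with h1 | h1
      · exact Or.inl h1
      · exact Or.inr fun j hj hj' => h1 j (Finset.mem_of_mem_erase hj) hj'
  · intro h A hA hA1 hA2
    have hiff : i ∈ A → c ∈ A := fun hiA => by rw [← hi]; exact hA2 i hiA
    rcases h (A.erase c) (Finset.erase_subset_erase _ hA)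
      (fun j hj => hA1 j (Finset.mem_of_mem_erase hj))
      (fun j hj => by
        obtain ⟨hjc, hjA⟩ := Finset.mem_erase.1 hj
        by_cases hji : j = i
        · subst hji
          rw [hτi]
          exact Finset.mem_erase.2 ⟨hσc, hA2 c (hiff hjA)⟩
        · rw [hτj j hji hjc]
          refine Finset.mem_erase.2 ⟨?_, hA2 j hjA⟩
          intro h1
          exact hji (σ.injective (h1.trans hi.symm))) with h1 | h1
    · by_cases hcA : c ∈ A
      · exfalso
        have h2 : σ c ∈ A.erase c := Finset.mem_erase.2 ⟨hσc, hA2 c hcA⟩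
        rw [h1] at h2
        exact absurd h2 (Finset.notMem_empty _)
      · rw [Finset.erase_eq_of_notMem hcA] at h1
        exact Or.inl h1
    · refine Or.inr fun j hj hj' => ?_
      by_cases hjc : j = c
      · subst hjc
        apply hiff
        exact Finset.mem_of_mem_erase (h1 i (Finset.mem_erase.2 ⟨hic, hiS⟩) (by rw [hw, hj']))
      · exact Finset.mem_of_mem_erase (h1 j (Finset.mem_erase.2 ⟨hjc, hj⟩) hj')

end comb

section chow

variable {C : TheoryData.{u, v, 0} 𝒱 ℚ} [hC : IsChowProj C] {X Y Z W V : 𝒱.Obj}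
variable {ι : Type} [Fintype ι] [DecidableEq ι]

variable (C X ι) in
/-- Functions of pairs of points indexed by `ι`. -/
abbrev FamI : Type _ := ∀ W : 𝒱.Obj, (ι → (W ⟶ X)) → (ι → (W ⟶ X)) → C.A W

include hC

/-- The contraction of the pair of points with index `c`. -/
noncomputable def con (c : ι) : FamI C X ι →ₗ[ℚ] FamI C X ι where
  toFun G W x y := C.push (fst W X) (G (W.prod X)
    (Function.update (fun i => fst W X ≫ x i) c (snd W X))
    (Function.update (fun i => fst W X ≫ y i) c (snd W X)))
  map_add' G G' := by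
    funext W x y
    exact map_add _ _ _
  map_smul' q G := by
    funext W x y
    exact map_smul _ _ _

/-- The product of the values `p i (x i, y (σ i))` for `i ∈ S`. -/
noncomputable def mon (p : ι → C.A (X.prod X)) (σ : Equiv.Perm ι) (S : Finset ι) : FamI C X ι :=
  fun _ x y => ∏ i ∈ S, ev (p i) (x i) (y (σ i))

lemma con_mon_fix {p : ι → C.A (X.prod X)} {σ : Equiv.Perm ι} {S : Finset ι} {c : ι} (hc : c ∈ S)
    (hσ : σ c = c) {q : ℚ} (hq : HasDegree C (ev (p c) (𝟙 X) (𝟙 X)) q) :
    con c (mon p σ S) = q • mon p σ (S.erase c) := by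
  funext W x y
  change C.push (fst W X) (∏ i ∈ S, ev (p i) (Function.update (fun i => fst W X ≫ x i) c
    (snd W X) i) (Function.update (fun i => fst W X ≫ y i) c (snd W X) (σ i))) =
      q • ∏ i ∈ S.erase c, ev (p i) (x i) (y (σ i))
  rw [← Finset.mul_prod_erase S _ hc, hσ, Function.update_self, Function.update_self]
  have h1 : ∏ i ∈ S.erase c, ev (p i) (Function.update (fun i => fst W X ≫ x i) c
      (snd W X) i) (Function.update (fun i => fst W X ≫ y i) c (snd W X) (σ i)) =
      C.pull (fst W X) (∏ i ∈ S.erase c, ev (p i) (x i) (y (σ i))) := by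
    rw [map_prod]
    apply Finset.prod_congr rfl
    intro i hi
    have hic : i ≠ c := (Finset.mem_erase.1 hi).1
    have hic' : σ i ≠ c := fun h => hic (σ.injective (h.trans hσ.symm))
    rw [Function.update_of_ne hic, Function.update_of_ne hic', pull_ev]
  rw [h1, C.proj_right, push_ev_diag hq, smul_mul_assoc, one_mul]

lemma con_mon_move {p : ι → C.A (X.prod X)} {σ : Equiv.Perm ι} {S : Finset ι} {c i : ι}
    (hc : c ∈ S) (hiS : i ∈ S) (hi : σ i = c) (hic : i ≠ c) :
    con c (mon p σ S) = mon (Function.update p i (C.comp (p i) (p c)))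
      (Equiv.swap c (σ c) * σ) (S.erase c) := by
  funext W x y
  change C.push (fst W X) (∏ j ∈ S, ev (p j) (Function.update (fun i => fst W X ≫ x i) c
    (snd W X) j) (Function.update (fun i => fst W X ≫ y i) c (snd W X) (σ j))) =
      ∏ j ∈ S.erase c, ev (Function.update p i (C.comp (p i) (p c)) j) (x j)
        (y ((Equiv.swap c (σ c) * σ) j))
  have hσc : σ c ≠ c := fun h => hic (σ.injective (hi.trans h.symm))
  have hiS' : i ∈ S.erase c := Finset.mem_erase.2 ⟨hic, hiS⟩
  rw [← Finset.mul_prod_erase S _ hc, ← Finset.mul_prod_erase _ _ hiS',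
    ← Finset.mul_prod_erase (S.erase c) _ hiS', Function.update_self, Function.update_self,
    Function.update_of_ne hσc, Function.update_of_ne hic, hi, Function.update_self,
    Equiv.Perm.mul_apply, hi, Equiv.swap_apply_left, ev_comp]
  have h1 : ∏ j ∈ (S.erase c).erase i, ev (p j) (Function.update (fun i => fst W X ≫ x i) c
      (snd W X) j) (Function.update (fun i => fst W X ≫ y i) c (snd W X) (σ j)) =
      C.pull (fst W X) (∏ j ∈ (S.erase c).erase i, ev (Function.update p i (C.comp (p i) (p c)) j)
        (x j) (y ((Equiv.swap c (σ c) * σ) j))) := by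
    rw [map_prod]
    apply Finset.prod_congr rfl
    intro j hj
    obtain ⟨hji, hj'⟩ := Finset.mem_erase.1 hj
    obtain ⟨hjc, -⟩ := Finset.mem_erase.1 hj'
    have h2 : σ j ≠ c := fun h => hji (σ.injective (h.trans hi.symm))
    have h3 : σ j ≠ σ c := fun h => hjc (σ.injective h)
    rw [Function.update_of_ne hjc, Function.update_of_ne h2, Function.update_of_ne hji,
      Equiv.Perm.mul_apply, Equiv.swap_apply_of_ne_of_ne h2 h3, pull_ev]
  rw [h1, ← mul_assoc, C.proj_right, mul_comm (ev (p c) _ _)]

/-- The contraction of several pairs of points. -/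
noncomputable def conList : List ι → FamI C X ι →ₗ[ℚ] FamI C X ι
  | [] => LinearMap.id
  | c :: l => conList l ∘ₗ con c

open Classical in
/-- The contraction of all but one pairs of points in a product of orthogonal idempotents. -/
lemma conList_mon {L : Type} (w : ι → Option L) {P : Option L → C.A (X.prod X)}
    (hP : ∀ s t, C.comp (P s) (P t) = if s = t then P s else 0)
    (hP0 : HasDegree C (ev (P none) (𝟙 X) (𝟙 X)) 0)
    (hP1 : ∀ l, HasDegree C (ev (P (some l)) (𝟙 X) (𝟙 X)) 1) {i0 : ι} (hw0 : w i0 = none)
    (l : List ι) (hl : l.Nodup) (hi0 : i0 ∉ l) (S : Finset ι) (hS : S = insert i0 l.toFinset)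
    (σ : Equiv.Perm ι) (hσ : ∀ i ∈ S, σ i ∈ S) :
    conList l (mon (fun i => P (w i)) σ S) =
      (if Good w σ S then (1 : ℚ) else 0) • mon (fun _ => P none) 1 {i0} := by
  induction l generalizing S σ with
  | nil =>
    have hS' : S = {i0} := by rw [hS]; rfl
    subst hS'
    have h1 : σ i0 = i0 := Finset.mem_singleton.1 (hσ i0 (Finset.mem_singleton_self _))
    have h2 : Good w σ {i0} := by
      refine ⟨fun i hi => by rw [Finset.mem_singleton.1 hi, h1], fun A hA _ _ => ?_⟩
      rcases Finset.subset_singleton_iff.1 hA with h | h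
      · exact Or.inl h
      · exact Or.inr fun i hi _ => by rw [h]; exact hi
    rw [if_pos h2, one_smul]
    funext W x y
    change ∏ i ∈ {i0}, ev (P (w i)) (x i) (y (σ i)) = ∏ i ∈ {i0}, ev (P none) (x i) (y i)
    rw [Finset.prod_singleton, Finset.prod_singleton, hw0, h1]
  | cons c l ih =>
    have hcl : c ∉ l := (List.nodup_cons.1 hl).1
    have hl' : l.Nodup := (List.nodup_cons.1 hl).2
    have hci0 : i0 ≠ c := fun h => hi0 (h ▸ List.mem_cons_self)
    have hi0l : i0 ∉ l := fun h => hi0 (List.mem_cons_of_mem _ h)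
    have hcS : c ∈ S := by
      rw [hS]
      exact Finset.mem_insert_of_mem (List.mem_toFinset.2 List.mem_cons_self)
    have hi0S : i0 ∈ S := by
      rw [hS]
      exact Finset.mem_insert_self _ _
    have hS' : S.erase c = insert i0 l.toFinset := by
      rw [hS, List.toFinset_cons, Finset.insert_comm, Finset.erase_insert]
      rw [Finset.mem_insert, List.mem_toFinset]
      rintro (h | h)
      · exact hci0 h.symm
      · exact hcl h
    rw [conList, LinearMap.comp_apply]
    by_cases hσc : σ c = c
    · have hσ' : ∀ i ∈ S.erase c, σ i ∈ S.erase c := by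
        intro i hi
        obtain ⟨h1, h2⟩ := Finset.mem_erase.1 hi
        exact Finset.mem_erase.2 ⟨fun h => h1 (σ.injective (h.trans hσc.symm)), hσ i h2⟩
      cases hwc : w c with
      | none =>
        rw [con_mon_fix (q := 0) hcS hσc (by beta_reduce; rw [hwc]; exact hP0), zero_smul, map_zero,
          if_neg (good_fix_none hcS hσc hwc hi0S hw0 hci0), zero_smul]
      | some m =>
        rw [con_mon_fix (q := 1) hcS hσc (by beta_reduce; rw [hwc]; exact hP1 m), one_smul,
          ih hl' hi0l _ hS' σ hσ', good_fix_some (S := S) hσc (by rw [hwc]; exact Option.some_ne_none _)]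
    · -- the element mapped to `c`
      have hbij : ∃ i ∈ S, σ i = c := by
        have h1 : S.image σ = S := by
          apply Finset.eq_of_subset_of_card_le
          · intro j hj
            obtain ⟨i, hi, rfl⟩ := Finset.mem_image.1 hj
            exact hσ i hi
          · rw [Finset.card_image_of_injective _ σ.injective]
        rw [← h1] at hcS
        obtain ⟨i, hi, h2⟩ := Finset.mem_image.1 hcS
        exact ⟨i, hi, h2⟩
      obtain ⟨i, hiS, hi⟩ := hbij
      have hic : i ≠ c := by
        rintro rfl
        exact hσc hi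
      rw [con_mon_move hcS hiS hi hic]
      have hσ' : ∀ j ∈ S.erase c, (Equiv.swap c (σ c) * σ) j ∈ S.erase c := by
        intro j hj
        obtain ⟨h1, h2⟩ := Finset.mem_erase.1 hj
        by_cases hji : j = i
        · subst hji
          rw [Equiv.Perm.mul_apply, hi, Equiv.swap_apply_left]
          exact Finset.mem_erase.2 ⟨hσc, hσ c hcS⟩
        · have h3 : σ j ≠ c := fun h => hji (σ.injective (h.trans hi.symm))
          have h4 : σ j ≠ σ c := fun h => h1 (σ.injective h)
          rw [Equiv.Perm.mul_apply, Equiv.swap_apply_of_ne_of_ne h3 h4]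
          exact Finset.mem_erase.2 ⟨h3, hσ j h2⟩
      by_cases hw : w i = w c
      · have e1 : Function.update (fun i => P (w i)) i (C.comp (P (w i)) (P (w c))) =
            fun i => P (w i) := by
          rw [Function.update_eq_self_iff, hP, if_pos hw]
        beta_reduce
        rw [e1, ih hl' hi0l _ hS' _ hσ', ← good_move hcS hiS hi hic hw]
      · have e1 : ¬ Good w σ S := by
          rintro ⟨h1, -⟩
          have h2 := h1 i hiS
          rw [hi] at h2
          exact hw h2.symm
        rw [if_neg e1, zero_smul]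
        have e2 : mon (Function.update (fun i => P (w i)) i (C.comp (P (w i)) (P (w c))))
            (Equiv.swap c (σ c) * σ) (S.erase c) = 0 := by
          funext W x y
          change ∏ j ∈ S.erase c, ev (Function.update (fun i => P (w i)) i
            (C.comp (P (w i)) (P (w c))) j) (x j) _ = 0
          apply Finset.prod_eq_zero (Finset.mem_erase.2 ⟨hic, hiS⟩)
          rw [Function.update_self, hP, if_neg hw, ev, map_zero]
        beta_reduce
        rw [e2, map_zero]

end chow

end Pool.Agent.Helper70_bl
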