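import Pool.Agent.Helper70_bl.Bl9

/-!
# Contractions of Young symmetrizers
-/

open CategoryTheory AlgebraicGeometry

universe u v w

namespace Pool.Agent.Helper70_bl

open Pool.Agent.H914 Pool.Agent.H914.VarClass Pool.Agent.H914.VarClass.Obj Pool.Agent.W492.BB
  Pool.Agent.W550.Corr Pool.Agent.TH133 Pool.Agent.TH829.Prime Pool.Agent.TH829.Kim

set_option linter.unusedSectionVars false

variable {k : Type u} [Field k] {𝒱 : VarClass k}

section chow

variable {C : TheoryData.{u, v, 0} 𝒱 ℚ} [hC : IsChowProj C] {X Y Z W V : 𝒱.Obj}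
variable {ι : Type} [Fintype ι] [DecidableEq ι]

include hC

omit hC in
lemma lineF_erase_fix {ℓ : ι → ℕ} {S : Finset ι} {c : ι} {g : Equiv.Perm ι}
    (hg : g ∈ lineF ℓ (S.erase c)) : g c = c :=
  (mem_lineF.1 hg).1 c (Finset.notMem_erase c S)

omit hC in
lemma inv_fix {g : Equiv.Perm ι} {c : ι} (hg : g c = c) : g⁻¹ c = c := by
  conv_lhs => rw [← hg]
  exact inv_app _ _

/-- The general expansion of the contraction. -/
lemma con_young_expand (row col : ι → ℕ) (p : ι → C.A (X.prod X)) {S : Finset ι} {c : ι}
    (hc : c ∈ S) : con c (young row col p S) =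
      ∑ a ∈ S.filter (fun a => row a = row c), ∑ b ∈ S.filter (fun b => col b = col c),
        ∑ r ∈ lineF row (S.erase c), ∑ g ∈ lineF col (S.erase c),
          ((Equiv.Perm.sign (g * Equiv.swap c b) : ℤ) : ℚ) •
            con c (mon p (g * Equiv.swap c b * (Equiv.swap c a * r⁻¹)) S) := by
  rw [young, map_sum, sum_lineF hc]
  apply Finset.sum_congr rfl
  intro a _
  rw [Finset.sum_comm]
  apply Finset.sum_congr rfl
  intro r _
  rw [map_sum, sum_lineF hc]
  apply Finset.sum_congr rfl
  intro b _
  apply Finset.sum_congr rfl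
  intro g _
  rw [map_smul, mul_inv_rev, Equiv.swap_inv]

/-- The contraction of a cell of a row with a label. -/
lemma con_young_T {L : Type} [DecidableEq L] {w : ι → Option L} {P : Option L → C.A (X.prod X)}
    (hP : ∀ s t, C.comp (P s) (P t) = if s = t then P s else 0) {row col : ι → ℕ}
    (hinj : ∀ i j, row i = row j → col i = col j → i = j)
    (hw : ∀ i j, row i = row j → w i = w j)
    (hT : ∀ i j, w i = w j → w i ≠ none → row i = row j) {S : Finset ι} {c : ι} (hc : c ∈ S)
    (hwc : w c ≠ none) (hP1 : HasDegree C (ev (P (w c)) (𝟙 X) (𝟙 X)) 1) :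
    con c (young row col (fun i => P (w i)) S) =
      ((S.filter (fun a => row a = row c)).card : ℚ) •
        young row col (fun i => P (w i)) (S.erase c) := by
  rw [con_young_expand row col _ hc, Nat.cast_smul_eq_nsmul, ← Finset.sum_const]
  apply Finset.sum_congr rfl
  intro a ha
  obtain ⟨haS, har⟩ := Finset.mem_filter.1 ha
  rw [Finset.sum_eq_single c]
  · rw [young]
    apply Finset.sum_congr rfl
    intro r hr
    apply Finset.sum_congr rfl
    intro g hg
    have hgc : g c = c := lineF_erase_fix hg
    have hrc : r c = c := lineF_erase_fix hr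
    rw [Equiv.swap_self]
    change ((Equiv.Perm.sign (g * 1) : ℤ) : ℚ) • con c (mon _ (g * 1 * (Equiv.swap c a * r⁻¹)) S) = _
    rw [mul_one]
    congr 1
    by_cases hac : a = c
    · subst hac
      rw [Equiv.swap_self]
      change con a (mon _ (g * (1 * r⁻¹)) S) = _
      rw [one_mul, con_mon_fix (q := 1) hc (by rw [Equiv.Perm.mul_apply, inv_fix hrc, hgc]) hP1,
        one_smul]
    · have haS' : a ∈ S.erase c := Finset.mem_erase.2 ⟨hac, haS⟩
      have hra : r a ∈ S.erase c := lineF_maps hr haS'
      have h1 : (g * (Equiv.swap c a * r⁻¹)) (r a) = c := by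
        rw [Equiv.Perm.mul_apply, Equiv.Perm.mul_apply, inv_app, Equiv.swap_apply_right, hgc]
      have h2 : (g * (Equiv.swap c a * r⁻¹)) c = g a := by
        rw [Equiv.Perm.mul_apply, Equiv.Perm.mul_apply, inv_fix hrc, Equiv.swap_apply_left]
      rw [con_mon hP hc (Finset.mem_of_mem_erase hra) h1 (Finset.mem_erase.1 hra).1, if_pos (by
        rw [hw _ _ ((mem_lineF.1 hr).2 a), hw _ _ har]), h2]
      congr 1
      have h3 := Equiv.mul_swap_eq_swap_mul g c a
      rw [hgc] at h3
      rw [← mul_assoc g, h3, ← mul_assoc, ← mul_assoc, Equiv.swap_mul_self, one_mul]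
  · intro b hb hbc
    obtain ⟨hbS, hbcol⟩ := Finset.mem_filter.1 hb
    apply Finset.sum_eq_zero
    intro r hr
    apply Finset.sum_eq_zero
    intro g hg
    have hgc : g c = c := lineF_erase_fix hg
    have hrc : r c = c := lineF_erase_fix hr
    have hbS' : b ∈ S.erase c := Finset.mem_erase.2 ⟨hbc, hbS⟩
    have hrb : r b ∈ S.erase c := lineF_maps hr hbS'
    have hba : b ≠ a := by
      rintro rfl
      exact hbc (hinj _ _ har hbcol)
    have h1 : (g * Equiv.swap c b * (Equiv.swap c a * r⁻¹)) (r b) = c := by
      rw [Equiv.Perm.mul_apply, Equiv.Perm.mul_apply, Equiv.Perm.mul_apply, inv_app,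
        Equiv.swap_apply_of_ne_of_ne hbc hba, Equiv.swap_apply_right, hgc]
    rw [con_mon hP hc (Finset.mem_of_mem_erase hrb) h1 (Finset.mem_erase.1 hrb).1, if_neg,
      smul_zero]
    intro h2
    rw [hw _ _ ((mem_lineF.1 hr).2 b)] at h2
    exact hbc (hinj _ _ (hT _ _ h2 (by rw [h2]; exact hwc)) hbcol)
  · intro h
    exact (h (Finset.mem_filter.2 ⟨hc, rfl⟩)).elim

/-- The contraction of a corner for an idempotent of rank zero. -/
lemma con_young_N {p : C.A (X.prod X)} (hp : C.comp p p = p)
    (hp0 : HasDegree C (ev p (𝟙 X) (𝟙 X)) 0) {row col : ι → ℕ} {S : Finset ι}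
    (hinj : ∀ i ∈ S, ∀ j ∈ S, row i = row j → col i = col j → i = j) {c : ι} (hc : c ∈ S)
    (hlow : ∀ a ∈ S, row a = row c → a ≠ c → ∀ b ∈ S, col b = col c → b ≠ c →
      ∃ m ∈ S.erase c, row m = row b ∧ col m = col a) :
    con c (young row col (fun _ => p) S) =
      (((S.filter (fun a => row a = row c)).card : ℚ) - (S.filter (fun a => col a = col c)).card) •
        young row col (fun _ => p) (S.erase c) := by
  have hP : ∀ s t : Option (Fin 0), C.comp ((fun _ => p) s) ((fun _ => p) t) =
      if s = t then (fun _ => p) s else 0 := by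
    intro s t
    have hst : s = t := by
      rcases s with _ | s
      · rcases t with _ | t
        · rfl
        · exact t.elim0
      · exact s.elim0
    rw [if_pos hst]
    exact hp
  have hcon : ∀ {σ : Equiv.Perm ι} {i : ι}, i ∈ S → σ i = c → i ≠ c →
      con c (mon (fun _ => p) σ S) = mon (fun _ => p) (Equiv.swap c (σ c) * σ) (S.erase c) := by
    intro σ i hiS hi hic
    have h1 := con_mon (w := fun _ : ι => (none : Option (Fin 0))) (P := fun _ => p) hP hc hiS hi hic
    rw [if_pos rfl] at h1
    exact h1
  -- the value of the inner sums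
  have key : ∀ a ∈ S.filter (fun a => row a = row c), ∀ b ∈ S.filter (fun b => col b = col c),
      (∑ r ∈ lineF row (S.erase c), ∑ g ∈ lineF col (S.erase c),
          ((Equiv.Perm.sign (g * Equiv.swap c b) : ℤ) : ℚ) •
            con c (mon (fun _ => p) (g * Equiv.swap c b * (Equiv.swap c a * r⁻¹)) S)) =
      ((if b = c then 1 else 0) - (if a = c then 1 else 0) : ℚ) •
        young row col (fun _ => p) (S.erase c) := by
    intro a ha b hb
    obtain ⟨haS, har⟩ := Finset.mem_filter.1 ha
    obtain ⟨hbS, hbcol⟩ := Finset.mem_filter.1 hb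
    by_cases hbc : b = c
    · subst hbc
      by_cases hac : a = b
      · subst hac
        rw [if_pos rfl, sub_self, zero_smul]
        apply Finset.sum_eq_zero
        intro r hr
        apply Finset.sum_eq_zero
        intro g hg
        have hgc : g a = a := lineF_erase_fix hg
        have hrc : r a = a := lineF_erase_fix hr
        rw [Equiv.swap_self]
        change _ • con a (mon _ (g * 1 * (1 * r⁻¹)) S) = _
        rw [mul_one, one_mul, con_mon_fix (q := 0) hc (by
          rw [Equiv.Perm.mul_apply, inv_fix hrc, hgc]) hp0, zero_smul, smul_zero]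
      · rw [if_pos rfl, if_neg hac, sub_zero, one_smul, young]
        apply Finset.sum_congr rfl
        intro r hr
        apply Finset.sum_congr rfl
        intro g hg
        have hgc : g b = b := lineF_erase_fix hg
        have hrc : r b = b := lineF_erase_fix hr
        rw [Equiv.swap_self]
        change ((Equiv.Perm.sign (g * 1) : ℤ) : ℚ) •
          con b (mon _ (g * 1 * (Equiv.swap b a * r⁻¹)) S) = _
        rw [mul_one]
        congr 1
        have haS' : a ∈ S.erase b := Finset.mem_erase.2 ⟨hac, haS⟩
        have hra : r a ∈ S.erase b := lineF_maps hr haS'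
        have h1 : (g * (Equiv.swap b a * r⁻¹)) (r a) = b := by
          rw [Equiv.Perm.mul_apply, Equiv.Perm.mul_apply, inv_app, Equiv.swap_apply_right, hgc]
        have h2 : (g * (Equiv.swap b a * r⁻¹)) b = g a := by
          rw [Equiv.Perm.mul_apply, Equiv.Perm.mul_apply, inv_fix hrc, Equiv.swap_apply_left]
        rw [hcon (Finset.mem_of_mem_erase hra) h1 (Finset.mem_erase.1 hra).1, h2]
        congr 1
        have h3 := Equiv.mul_swap_eq_swap_mul g b a
        rw [hgc] at h3
        rw [← mul_assoc g, h3, ← mul_assoc, ← mul_assoc, Equiv.swap_mul_self, one_mul]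
    · have hsgn : ∀ g : Equiv.Perm ι, ((Equiv.Perm.sign (g * Equiv.swap c b) : ℤ) : ℚ) =
          -((Equiv.Perm.sign g : ℤ) : ℚ) := by
        intro g
        rw [Equiv.Perm.sign_mul, Equiv.Perm.sign_swap (Ne.symm hbc)]
        push_cast
        ring
      have hbS' : b ∈ S.erase c := Finset.mem_erase.2 ⟨hbc, hbS⟩
      by_cases hac : a = c
      · subst hac
        rw [if_neg hbc, if_pos rfl, zero_sub, neg_smul, one_smul, young, ← Finset.sum_neg_distrib]
        apply Finset.sum_congr rfl
        intro r hr
        rw [← Finset.sum_neg_distrib]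
        apply Finset.sum_congr rfl
        intro g hg
        have hgc : g a = a := lineF_erase_fix hg
        have hrc : r a = a := lineF_erase_fix hr
        rw [hsgn, neg_smul, Equiv.swap_self]
        change -(_ • con a (mon _ (g * Equiv.swap a b * (1 * r⁻¹)) S)) = _
        rw [one_mul]
        have hrb : r b ∈ S.erase a := lineF_maps hr hbS'
        have h1 : (g * Equiv.swap a b * r⁻¹) (r b) = a := by
          rw [Equiv.Perm.mul_apply, Equiv.Perm.mul_apply, inv_app, Equiv.swap_apply_right, hgc]
        have h2 : (g * Equiv.swap a b * r⁻¹) a = g b := by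
          rw [Equiv.Perm.mul_apply, Equiv.Perm.mul_apply, inv_fix hrc, Equiv.swap_apply_left]
        rw [hcon (Finset.mem_of_mem_erase hrb) h1 (Finset.mem_erase.1 hrb).1, h2]
        congr 3
        have h3 := Equiv.mul_swap_eq_swap_mul g a b
        rw [hgc] at h3
        rw [h3, ← mul_assoc, ← mul_assoc, Equiv.swap_mul_self, one_mul]
      · rw [if_neg hbc, if_neg hac, sub_self, zero_smul]
        have haS' : a ∈ S.erase c := Finset.mem_erase.2 ⟨hac, haS⟩
        have hab : a ≠ b := by
          rintro rfl
          exact hbc (hinj _ haS _ hc har hbcol)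
        obtain ⟨m, hm, hmr, hmc⟩ := hlow a haS har hac b hbS hbcol hbc
        have hma : m ≠ a := by
          rintro rfl
          exact hbc (hinj _ hbS _ hc (hmr.symm.trans har) hbcol)
        have hmb : m ≠ b := by
          rintro rfl
          exact hac (hinj _ haS _ hc har (hmc.symm.trans hbcol))
        set U := ∑ r ∈ lineF row (S.erase c), ∑ g ∈ lineF col (S.erase c),
          ((Equiv.Perm.sign g : ℤ) : ℚ) • mon (fun _ => p) (g * Equiv.swap a b * r⁻¹)
            (S.erase c) with hU
        have h0 : (∑ r ∈ lineF row (S.erase c), ∑ g ∈ lineF col (S.erase c),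
          ((Equiv.Perm.sign (g * Equiv.swap c b) : ℤ) : ℚ) •
            con c (mon (fun _ => p) (g * Equiv.swap c b * (Equiv.swap c a * r⁻¹)) S)) = -U := by
          rw [hU, ← Finset.sum_neg_distrib]
          apply Finset.sum_congr rfl
          intro r hr
          rw [← Finset.sum_neg_distrib]
          apply Finset.sum_congr rfl
          intro g hg
          have hgc : g c = c := lineF_erase_fix hg
          have hrc : r c = c := lineF_erase_fix hr
          rw [hsgn, neg_smul]
          have hrb : r b ∈ S.erase c := lineF_maps hr hbS'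
          have h1 : (g * Equiv.swap c b * (Equiv.swap c a * r⁻¹)) (r b) = c := by
            rw [Equiv.Perm.mul_apply, Equiv.Perm.mul_apply, Equiv.Perm.mul_apply, inv_app,
              Equiv.swap_apply_of_ne_of_ne hbc hab.symm, Equiv.swap_apply_right, hgc]
          have h2 : (g * Equiv.swap c b * (Equiv.swap c a * r⁻¹)) c = g a := by
            rw [Equiv.Perm.mul_apply, Equiv.Perm.mul_apply, Equiv.Perm.mul_apply, inv_fix hrc,
              Equiv.swap_apply_left, Equiv.swap_apply_of_ne_of_ne hac hab]
          rw [hcon (Finset.mem_of_mem_erase hrb) h1 (Finset.mem_erase.1 hrb).1, h2]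
          congr 3
          have h3 := Equiv.mul_swap_eq_swap_mul g c a
          rw [hgc] at h3
          have h4 := Equiv.mul_swap_eq_swap_mul (Equiv.swap c a) c b
          rw [Equiv.swap_apply_left, Equiv.swap_apply_of_ne_of_ne hbc hab.symm] at h4
          have h5 : Equiv.swap c a * Equiv.swap c b * Equiv.swap c a = Equiv.swap a b := by
            rw [h4, mul_assoc, Equiv.swap_mul_self, mul_one]
          rw [← h5]
          calc Equiv.swap c (g a) * (g * Equiv.swap c b * (Equiv.swap c a * r⁻¹))
              = (Equiv.swap c (g a) * g) * Equiv.swap c b * Equiv.swap c a * r⁻¹ := by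
                simp only [mul_assoc]
            _ = g * Equiv.swap c a * Equiv.swap c b * Equiv.swap c a * r⁻¹ := by rw [← h3]
            _ = g * (Equiv.swap c a * Equiv.swap c b * Equiv.swap c a) * r⁻¹ := by
                simp only [mul_assoc]
        have hmS : Equiv.swap b m ∈ lineF row (S.erase c) := lineF_swap hbS' hm hmr.symm
        have hmS' : Equiv.swap m a ∈ lineF col (S.erase c) := lineF_swap hm haS' hmc
        have h1 : U = -U := by
          conv_lhs => rw [hU]
          rw [← Finset.sum_equiv (s := lineF row (S.erase c)) (Equiv.mulRight (Equiv.swap b m))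
            (fun r => ⟨fun h => lineF_mul h hmS, fun h => by
              have := lineF_mul h hmS
              rwa [Equiv.coe_mulRight, mul_assoc, Equiv.swap_mul_self, mul_one] at this⟩)
            (fun r _ => rfl), hU, ← Finset.sum_neg_distrib]
          apply Finset.sum_congr rfl
          intro r _
          rw [← Finset.sum_equiv (s := lineF col (S.erase c)) (Equiv.mulRight (Equiv.swap m a))
            (fun r => ⟨fun h => lineF_mul h hmS', fun h => by
              have := lineF_mul h hmS'
              rwa [Equiv.coe_mulRight, mul_assoc, Equiv.swap_mul_self, mul_one] at this⟩)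
            (fun r _ => rfl), ← Finset.sum_neg_distrib]
          apply Finset.sum_congr rfl
          intro g _
          rw [Equiv.coe_mulRight, Equiv.coe_mulRight, Equiv.Perm.sign_mul,
            Equiv.Perm.sign_swap hma, mul_inv_rev, Equiv.swap_inv]
          have h4 := Equiv.mul_swap_eq_swap_mul (Equiv.swap a b) m b
          rw [Equiv.swap_apply_of_ne_of_ne hma hmb, Equiv.swap_apply_right] at h4
          have h5 : Equiv.swap m a * Equiv.swap a b * Equiv.swap b m = Equiv.swap a b := by
            rw [← h4, Equiv.swap_comm m b, mul_assoc, Equiv.swap_mul_self, mul_one]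
          have h6 : g * Equiv.swap m a * Equiv.swap a b * (Equiv.swap b m * r⁻¹) =
              g * Equiv.swap a b * r⁻¹ := by
            calc _ = g * (Equiv.swap m a * Equiv.swap a b * Equiv.swap b m) * r⁻¹ := by
                  simp only [mul_assoc]
              _ = _ := by rw [h5]
          rw [h6]
          push_cast
          rw [mul_neg, mul_one, neg_smul]
        have h2 : (2 : ℚ) • U = 0 := by
          rw [two_smul]
          nth_rewrite 1 [h1]
          exact neg_add_cancel U
        have h3 : U = 0 := by
          have h4 : (2 : ℚ)⁻¹ • (2 : ℚ) • U = U := by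
            rw [smul_smul, inv_mul_cancel₀ (by norm_num), one_smul]
          rw [← h4, h2, smul_zero]
        rw [h0, h3, neg_zero]
  rw [con_young_expand row col _ hc,
    Finset.sum_congr rfl (fun a ha => Finset.sum_congr rfl (fun b hb => key a ha b hb))]
  have hcr : c ∈ S.filter (fun a => row a = row c) := Finset.mem_filter.2 ⟨hc, rfl⟩
  have hcc : c ∈ S.filter (fun b => col b = col c) := Finset.mem_filter.2 ⟨hc, rfl⟩
  simp only [← Finset.sum_smul]
  congr 1
  simp only [Finset.sum_sub_distrib, Finset.sum_ite_eq', if_pos hcc, Finset.sum_const,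
    nsmul_eq_mul, mul_one]
  rw [← Finset.mul_sum, Finset.sum_ite_eq', if_pos hcr, mul_one]

end chow

end Pool.Agent.Helper70_bl
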