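import Pool.Agent.Helper70_bl.Bl10

/-!
# The square with two rows and two columns
-/

open CategoryTheory AlgebraicGeometry

universe u v w

namespace Pool.Agent.Helper70_bl

open Pool.Agent.H914 Pool.Agent.H914.VarClass Pool.Agent.H914.VarClass.Obj Pool.Agent.W492.BB
  Pool.Agent.W550.Corr Pool.Agent.TH133 Pool.Agent.TH829.Prime Pool.Agent.TH829.Kim

set_option linter.unusedSectionVars false

section comb

variable {ι : Type} [Fintype ι] [DecidableEq ι]

lemma lineF_empty (ℓ : ι → ℕ) : lineF ℓ (∅ : Finset ι) = {1} := by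
  ext g
  rw [mem_lineF, Finset.mem_singleton]
  constructor
  · intro h
    apply Equiv.ext
    intro i
    exact h.1 i (Finset.notMem_empty i)
  · rintro rfl
    exact ⟨fun _ _ => rfl, fun _ => rfl⟩

lemma sum_lineF_alone {M : Type*} [AddCommMonoid M] {ℓ : ι → ℕ} {S : Finset ι} {c : ι}
    (hc : c ∈ S) (hS : S.filter (fun p => ℓ p = ℓ c) = {c}) (f : Equiv.Perm ι → M) :
    ∑ g ∈ lineF ℓ S, f g = ∑ g ∈ lineF ℓ (S.erase c), f g := by
  rw [sum_lineF hc, hS, Finset.sum_singleton]
  apply Finset.sum_congr rfl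
  intro g _
  rw [Equiv.swap_self]
  rfl

lemma sum_lineF_pair {M : Type*} [AddCommMonoid M] {ℓ : ι → ℕ} {S : Finset ι} {c d : ι}
    (hc : c ∈ S) (hcd : c ≠ d) (hS : S.filter (fun p => ℓ p = ℓ c) = {c, d})
    (f : Equiv.Perm ι → M) : ∑ g ∈ lineF ℓ S, f g =
      ∑ g ∈ lineF ℓ (S.erase c), f g + ∑ g ∈ lineF ℓ (S.erase c), f (g * Equiv.swap c d) := by
  rw [sum_lineF hc, hS, Finset.sum_pair hcd]
  congr 1
  apply Finset.sum_congr rfl
  intro g _
  rw [Equiv.swap_self]
  rfl

/-- The lines of a square. -/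
lemma sum_lineF_sq {M : Type*} [AddCommMonoid M] {ℓ : ι → ℕ} {a b c d : ι} (hab : a ≠ b)
    (hac : a ≠ c) (had : a ≠ d) (hbc : b ≠ c) (hbd : b ≠ d) (hcd : c ≠ d) (h1 : ℓ a = ℓ b)
    (h2 : ℓ c = ℓ d) (h3 : ℓ a ≠ ℓ c) (f : Equiv.Perm ι → M) :
    ∑ g ∈ lineF ℓ {a, b, c, d}, f g = f 1 + f (Equiv.swap c d) +
      (f (Equiv.swap a b) + f (Equiv.swap c d * Equiv.swap a b)) := by
  have f1 : ({a, b, c, d} : Finset ι).filter (fun p => ℓ p = ℓ a) = {a, b} := by
    ext i
    simp only [Finset.mem_filter, Finset.mem_insert, Finset.mem_singleton]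
    constructor
    · rintro ⟨h | h | h | h, h'⟩
      · exact Or.inl h
      · exact Or.inr h
      · rw [h] at h'; exact absurd h'.symm h3
      · rw [h, ← h2] at h'; exact absurd h'.symm h3
    · rintro (h | h)
      · exact ⟨Or.inl h, by rw [h]⟩
      · exact ⟨Or.inr (Or.inl h), by rw [h, h1]⟩
  have e1 : ({a, b, c, d} : Finset ι).erase a = {b, c, d} := by
    rw [Finset.erase_insert]
    simp [hab, hac, had]
  have f2 : ({b, c, d} : Finset ι).filter (fun p => ℓ p = ℓ b) = {b} := by
    ext i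
    simp only [Finset.mem_filter, Finset.mem_insert, Finset.mem_singleton]
    constructor
    · rintro ⟨h | h | h, h'⟩
      · exact h
      · rw [h, ← h1] at h'; exact absurd h'.symm h3
      · rw [h, ← h1, ← h2] at h'; exact absurd h'.symm h3
    · intro h
      exact ⟨Or.inl h, by rw [h]⟩
  have e2 : ({b, c, d} : Finset ι).erase b = {c, d} := by
    rw [Finset.erase_insert]
    simp [hbc, hbd]
  have f3 : ({c, d} : Finset ι).filter (fun p => ℓ p = ℓ c) = {c, d} := by
    ext i
    simp only [Finset.mem_filter, Finset.mem_insert, Finset.mem_singleton]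
    constructor
    · rintro ⟨h, -⟩
      exact h
    · rintro (h | h)
      · exact ⟨Or.inl h, by rw [h]⟩
      · exact ⟨Or.inr h, by rw [h, h2]⟩
  have e3 : ({c, d} : Finset ι).erase c = {d} := by
    rw [Finset.erase_insert]
    simp [hcd]
  have f4 : ({d} : Finset ι).filter (fun p => ℓ p = ℓ d) = {d} := by
    ext i
    simp only [Finset.mem_filter, Finset.mem_singleton]
    constructor
    · rintro ⟨h, -⟩
      exact h
    · intro h
      exact ⟨h, by rw [h]⟩
  have e4 : ({d} : Finset ι).erase d = ∅ := by simp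
  have key : ∀ f : Equiv.Perm ι → M, ∑ g ∈ lineF ℓ ({b, c, d} : Finset ι), f g =
      f 1 + f (Equiv.swap c d) := by
    intro f
    rw [sum_lineF_alone (c := b) (by simp) f2, e2, sum_lineF_pair (c := c) (by simp) hcd f3, e3,
      sum_lineF_alone (c := d) (by simp) f4, sum_lineF_alone (c := d) (by simp) f4, e4,
      lineF_empty, Finset.sum_singleton, Finset.sum_singleton, one_mul]
  rw [sum_lineF_pair (c := a) (by simp) hab f1, e1, key, key, one_mul]

end comb

variable {k : Type u} [Field k] {𝒱 : VarClass k}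

section chow

variable {C : TheoryData.{u, v, 0} 𝒱 ℚ} [hC : IsChowProj C] {X Y Z W V : 𝒱.Obj}
variable {ι : Type} [Fintype ι] [DecidableEq ι]

include hC

section sym

variable {p : C.A (X.prod X)} (hp : C.comp p p = p) (hp0 : HasDegree C (ev p (𝟙 X) (𝟙 X)) 0)
  (hsym : ∀ (W : 𝒱.Obj) (x y : W ⟶ X), ev p x y = ev p y x)

include hp hsym in
/-- The integral of a product of two values. -/
lemma int_two (A B : W ⟶ X) (R : C.A W) :
    C.push (fst W X) (ev p (fst W X ≫ A) (snd W X) * ev p (fst W X ≫ B) (snd W X) *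
      C.pull (fst W X) R) = ev p A B * R := by
  rw [C.proj_right, hsym _ (fst W X ≫ B), ← ev_comp, hp]

include hp0 in
/-- The integral of a value on the diagonal. -/
lemma int_diag (R : C.A W) :
    C.push (fst W X) (ev p (snd W X) (snd W X) * C.pull (fst W X) R) = 0 := by
  rw [C.proj_right, push_ev_diag hp0, zero_smul, zero_mul]

/-- The push-forward of a family of classes belonging to `I`. -/
lemma push_fam {I : Family C} (hI : IsAdequate C I) {z : C.A (W.prod X)} {e : ℤ}
    (hz : z ∈ I (W.prod X) e) : C.push (fst W X) z ∈ I W (e - X.dim) := by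
  refine hI.congr ?_ (hI.push_mem (fst W X) hz)
  rw [dim_prod]; push_cast; ring

include hp hp0 hsym in
/-- A symmetric idempotent of rank zero killed by the Young symmetrizer of the square vanishes. -/
theorem square_step {I : Family C} (hI : IsAdequate C I)
    (h : ∀ (W : 𝒱.Obj) (z w s t v : W ⟶ X),
      ev p z v * ev p z v * (ev p w s * ev p w t) - ev p z s * ev p z v * (ev p w v * ev p w t) -
        ev p z v * ev p z t * (ev p w s * ev p w v) + ev p z s * ev p z t * (ev p w v * ev p w v) ∈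
        I W (4 * X.dim)) : p ∈ I (X.prod X) X.dim := by
  -- the integral over `v`
  have h3 : ∀ (W : 𝒱.Obj) (z w s t : W ⟶ X),
      ev p z z * (ev p w s * ev p w t) - ev p z w * (ev p z s * ev p w t) -
        ev p z w * (ev p z t * ev p w s) + ev p w w * (ev p z s * ev p z t) ∈
        I W (3 * X.dim) := by
    intro W z w s t
    have h1 := push_fam hI (h (W.prod X) (fst W X ≫ z) (fst W X ≫ w) (fst W X ≫ s) (fst W X ≫ t)
      (snd W X))
    have e1 : ev p (fst W X ≫ z) (snd W X) * ev p (fst W X ≫ z) (snd W X) *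
        (ev p (fst W X ≫ w) (fst W X ≫ s) * ev p (fst W X ≫ w) (fst W X ≫ t)) -
        ev p (fst W X ≫ z) (fst W X ≫ s) * ev p (fst W X ≫ z) (snd W X) *
          (ev p (fst W X ≫ w) (snd W X) * ev p (fst W X ≫ w) (fst W X ≫ t)) -
        ev p (fst W X ≫ z) (snd W X) * ev p (fst W X ≫ z) (fst W X ≫ t) *
          (ev p (fst W X ≫ w) (fst W X ≫ s) * ev p (fst W X ≫ w) (snd W X)) +
        ev p (fst W X ≫ z) (fst W X ≫ s) * ev p (fst W X ≫ z) (fst W X ≫ t) *
          (ev p (fst W X ≫ w) (snd W X) * ev p (fst W X ≫ w) (snd W X)) =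
        ev p (fst W X ≫ z) (snd W X) * ev p (fst W X ≫ z) (snd W X) *
          C.pull (fst W X) (ev p w s * ev p w t) -
        ev p (fst W X ≫ z) (snd W X) * ev p (fst W X ≫ w) (snd W X) *
          C.pull (fst W X) (ev p z s * ev p w t) -
        ev p (fst W X ≫ z) (snd W X) * ev p (fst W X ≫ w) (snd W X) *
          C.pull (fst W X) (ev p z t * ev p w s) +
        ev p (fst W X ≫ w) (snd W X) * ev p (fst W X ≫ w) (snd W X) *
          C.pull (fst W X) (ev p z s * ev p z t) := by
      simp only [map_mul, pull_ev]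
      ring
    rw [e1, map_add, map_sub, map_sub, int_two hp hsym, int_two hp hsym, int_two hp hsym,
      int_two hp hsym] at h1
    exact hI.congr (by ring) h1
  -- the integral over `w`
  have h2 : ∀ (W : 𝒱.Obj) (z s t : W ⟶ X),
      ev p z z * ev p s t - ev p z t * ev p z s - ev p z s * ev p z t ∈ I W (2 * X.dim) := by
    intro W z s t
    have h1 := push_fam hI (h3 (W.prod X) (fst W X ≫ z) (snd W X) (fst W X ≫ s) (fst W X ≫ t))
    have e1 : ev p (fst W X ≫ z) (fst W X ≫ z) *
        (ev p (snd W X) (fst W X ≫ s) * ev p (snd W X) (fst W X ≫ t)) -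
        ev p (fst W X ≫ z) (snd W X) *
          (ev p (fst W X ≫ z) (fst W X ≫ s) * ev p (snd W X) (fst W X ≫ t)) -
        ev p (fst W X ≫ z) (snd W X) *
          (ev p (fst W X ≫ z) (fst W X ≫ t) * ev p (snd W X) (fst W X ≫ s)) +
        ev p (snd W X) (snd W X) *
          (ev p (fst W X ≫ z) (fst W X ≫ s) * ev p (fst W X ≫ z) (fst W X ≫ t)) =
        ev p (fst W X ≫ s) (snd W X) * ev p (fst W X ≫ t) (snd W X) *
          C.pull (fst W X) (ev p z z) -
        ev p (fst W X ≫ z) (snd W X) * ev p (fst W X ≫ t) (snd W X) *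
          C.pull (fst W X) (ev p z s) -
        ev p (fst W X ≫ z) (snd W X) * ev p (fst W X ≫ s) (snd W X) *
          C.pull (fst W X) (ev p z t) +
        ev p (snd W X) (snd W X) * C.pull (fst W X) (ev p z s * ev p z t) := by
      simp only [map_mul, pull_ev]
      rw [hsym _ (snd W X) (fst W X ≫ s), hsym _ (snd W X) (fst W X ≫ t)]
      ring
    rw [e1, map_add, map_sub, map_sub, int_two hp hsym, int_two hp hsym, int_two hp hsym,
      int_diag hp0, add_zero] at h1
    have e2 : ev p z z * ev p s t - ev p z t * ev p z s - ev p z s * ev p z t =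
        ev p s t * ev p z z - ev p z t * ev p z s - ev p z s * ev p z t := by ring
    rw [e2]
    exact hI.congr (by ring) h1
  -- the integral over `z`
  have h1 : ∀ (W : 𝒱.Obj) (s t : W ⟶ X), (-2 : ℚ) • ev p s t ∈ I W X.dim := by
    intro W s t
    have h4 := push_fam hI (h2 (W.prod X) (snd W X) (fst W X ≫ s) (fst W X ≫ t))
    have e1 : ev p (snd W X) (snd W X) * ev p (fst W X ≫ s) (fst W X ≫ t) -
        ev p (snd W X) (fst W X ≫ t) * ev p (snd W X) (fst W X ≫ s) -
        ev p (snd W X) (fst W X ≫ s) * ev p (snd W X) (fst W X ≫ t) =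
        ev p (snd W X) (snd W X) * C.pull (fst W X) (ev p s t) -
        ev p (fst W X ≫ t) (snd W X) * ev p (fst W X ≫ s) (snd W X) *
          C.pull (fst W X) 1 -
        ev p (fst W X ≫ s) (snd W X) * ev p (fst W X ≫ t) (snd W X) *
          C.pull (fst W X) 1 := by
      simp only [map_one, pull_ev, mul_one]
      rw [hsym _ (snd W X) (fst W X ≫ s), hsym _ (snd W X) (fst W X ≫ t)]
    rw [e1, map_sub, map_sub, int_two hp hsym, int_two hp hsym, int_diag hp0, mul_one, mul_one,
      hsym _ t s] at h4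
    have e2 : (0 : C.A W) - ev p s t - ev p s t = (-2 : ℚ) • ev p s t := by
      rw [neg_smul, two_smul]
      ring
    rw [e2] at h4
    exact hI.congr (by ring) h4
  have h5 := h1 (X.prod X) (fst X X) (snd X X)
  rw [ev_univ] at h5
  have h6 := Submodule.smul_mem _ (-2 : ℚ)⁻¹ h5
  rwa [smul_smul, inv_mul_cancel₀ (by norm_num), one_smul] at h6

end sym

end chow

end Pool.Agent.Helper70_bl
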