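import Pool.Agent.Helper70_bl.Bl11

/-!
# Stripping cells
-/

open CategoryTheory AlgebraicGeometry

universe u v w

namespace Pool.Agent.Helper70_bl

open Pool.Agent.H914 Pool.Agent.H914.VarClass Pool.Agent.H914.VarClass.Obj Pool.Agent.W492.BB
  Pool.Agent.W550.Corr Pool.Agent.TH133 Pool.Agent.TH829.Prime Pool.Agent.TH829.Kim

set_option linter.unusedSectionVars false

section comb

variable {ι : Type} [Fintype ι] [DecidableEq ι]

/-- The set `S` of cells is the diagram of a partition. -/
structure IsDiag (row col : ι → ℕ) (S : Finset ι) : Prop where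
  inj : ∀ i ∈ S, ∀ j ∈ S, row i = row j → col i = col j → i = j
  low : ∀ i ∈ S, ∀ r s, r ≤ row i → s ≤ col i → ∃ j ∈ S, row j = r ∧ col j = s

/-- The cell `c` is a corner of `S`. -/
structure IsCorner (row col : ι → ℕ) (S : Finset ι) (c : ι) : Prop where
  mem : c ∈ S
  right : ∀ i ∈ S, row i = row c → col i ≤ col c
  down : ∀ i ∈ S, col i = col c → row i ≤ row c

variable {row col : ι → ℕ} {S : Finset ι}

lemma IsDiag.card_row (h : IsDiag row col S) {c : ι} (hc : IsCorner row col S c) :
    (S.filter (fun a => row a = row c)).card = col c + 1 := by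
  have h1 : (S.filter (fun a => row a = row c)).image col = Finset.range (col c + 1) := by
    ext s
    rw [Finset.mem_image, Finset.mem_range]
    constructor
    · rintro ⟨a, ha, rfl⟩
      obtain ⟨h2, h3⟩ := Finset.mem_filter.1 ha
      have := hc.right a h2 h3
      omega
    · intro hs
      obtain ⟨j, hj, h2, h3⟩ := h.low c hc.mem (row c) s le_rfl (by omega)
      exact ⟨j, Finset.mem_filter.2 ⟨hj, h2⟩, h3⟩
  rw [← Finset.card_range (col c + 1), ← h1, Finset.card_image_of_injOn]
  intro a ha a' ha' haa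
  exact h.inj _ (Finset.mem_filter.1 ha).1 _ (Finset.mem_filter.1 ha').1
    ((Finset.mem_filter.1 ha).2.trans (Finset.mem_filter.1 ha').2.symm) haa

lemma IsDiag.card_col (h : IsDiag row col S) {c : ι} (hc : IsCorner row col S c) :
    (S.filter (fun a => col a = col c)).card = row c + 1 := by
  have h1 : (S.filter (fun a => col a = col c)).image row = Finset.range (row c + 1) := by
    ext s
    rw [Finset.mem_image, Finset.mem_range]
    constructor
    · rintro ⟨a, ha, rfl⟩
      obtain ⟨h2, h3⟩ := Finset.mem_filter.1 ha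
      have := hc.down a h2 h3
      omega
    · intro hs
      obtain ⟨j, hj, h2, h3⟩ := h.low c hc.mem s (col c) (by omega) le_rfl
      exact ⟨j, Finset.mem_filter.2 ⟨hj, h3⟩, h2⟩
  rw [← Finset.card_range (row c + 1), ← h1, Finset.card_image_of_injOn]
  intro a ha a' ha' haa
  exact h.inj _ (Finset.mem_filter.1 ha).1 _ (Finset.mem_filter.1 ha').1 haa
    ((Finset.mem_filter.1 ha).2.trans (Finset.mem_filter.1 ha').2.symm)

lemma IsDiag.erase (h : IsDiag row col S) {c : ι} (hc : IsCorner row col S c) :
    IsDiag row col (S.erase c) := by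
  refine ⟨fun i hi j hj => h.inj i (Finset.mem_of_mem_erase hi) j (Finset.mem_of_mem_erase hj),
    fun i hi r s hr hs => ?_⟩
  obtain ⟨hic, hiS⟩ := Finset.mem_erase.1 hi
  obtain ⟨j, hj, h1, h2⟩ := h.low i hiS r s hr hs
  refine ⟨j, Finset.mem_erase.2 ⟨?_, hj⟩, h1, h2⟩
  rintro rfl
  have h3 : col i ≤ col j := by
    by_contra hcon
    obtain ⟨m, hm, h4, h5⟩ := h.low i hiS (row j) (col i) (by omega) le_rfl
    have := hc.right m hm h4
    omega
  have h4 : row i ≤ row j := by
    by_contra hcon
    obtain ⟨m, hm, h4, h5⟩ := h.low i hiS (row i) (col j) le_rfl (by omega)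
    have := hc.down m hm h5
    omega
  exact hic (h.inj _ hiS _ hj (by omega) (by omega))

/-- A diagram without the cell `(2, 2)` is empty, a cell, the square, or has a corner outside the
diagonal. -/
lemma IsDiag.cases (h : IsDiag row col S) (h22 : ∀ i ∈ S, ¬ (2 ≤ row i ∧ 2 ≤ col i)) :
    S = ∅ ∨ (∃ a, S = {a}) ∨ (∃ a b c d, S = {a, b, c, d} ∧ row a = 0 ∧ col a = 0 ∧ row b = 0 ∧
      col b = 1 ∧ row c = 1 ∧ col c = 0 ∧ row d = 1 ∧ col d = 1) ∨
    ∃ c, IsCorner row col S c ∧ row c ≠ col c := by
  by_cases h11 : ∃ d ∈ S, row d = 1 ∧ col d = 1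
  · obtain ⟨d, hd, hd1, hd2⟩ := h11
    by_cases hB : (S.filter (fun i => ¬ (row i ≤ 1 ∧ col i ≤ 1))).Nonempty
    · right; right; right
      obtain ⟨c, hc, hmax⟩ := Finset.exists_max_image _ (fun i => row i + col i) hB
      obtain ⟨hcS, hc1⟩ := Finset.mem_filter.1 hc
      refine ⟨c, ⟨hcS, fun i hi hr => ?_, fun i hi hr => ?_⟩, ?_⟩
      · by_contra hcon
        have := hmax i (Finset.mem_filter.2 ⟨hi, by omega⟩)
        omega
      · by_contra hcon
        have := hmax i (Finset.mem_filter.2 ⟨hi, by omega⟩)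
        omega
      · intro heq
        have := h22 c hcS
        omega
    · right; right; left
      rw [Finset.not_nonempty_iff_eq_empty, Finset.filter_eq_empty_iff] at hB
      obtain ⟨a, ha, ha1, ha2⟩ := h.low d hd 0 0 (by omega) (by omega)
      obtain ⟨b, hb, hb1, hb2⟩ := h.low d hd 0 1 (by omega) (by omega)
      obtain ⟨c, hc, hc1, hc2⟩ := h.low d hd 1 0 (by omega) (by omega)
      refine ⟨a, b, c, d, ?_, ha1, ha2, hb1, hb2, hc1, hc2, hd1, hd2⟩
      ext i
      simp only [Finset.mem_insert, Finset.mem_singleton]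
      constructor
      · intro hi
        have h1 : row i ≤ 1 ∧ col i ≤ 1 := by
          by_contra hcon
          exact hB hi hcon
        rcases Nat.le_one_iff_eq_zero_or_eq_one.1 h1.1 with h2 | h2 <;>
          rcases Nat.le_one_iff_eq_zero_or_eq_one.1 h1.2 with h3 | h3
        · exact Or.inl (h.inj _ hi _ ha (by omega) (by omega))
        · exact Or.inr (Or.inl (h.inj _ hi _ hb (by omega) (by omega)))
        · exact Or.inr (Or.inr (Or.inl (h.inj _ hi _ hc (by omega) (by omega))))
        · exact Or.inr (Or.inr (Or.inr (h.inj _ hi _ hd (by omega) (by omega))))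
      · rintro (rfl | rfl | rfl | rfl) <;> assumption
  · by_cases hB : (S.filter (fun i => ¬ (row i = 0 ∧ col i = 0))).Nonempty
    · right; right; right
      obtain ⟨c, hc, hmax⟩ := Finset.exists_max_image _ (fun i => row i + col i) hB
      obtain ⟨hcS, hc1⟩ := Finset.mem_filter.1 hc
      refine ⟨c, ⟨hcS, fun i hi hr => ?_, fun i hi hr => ?_⟩, ?_⟩
      · by_contra hcon
        have := hmax i (Finset.mem_filter.2 ⟨hi, by omega⟩)
        omega
      · by_contra hcon
        have := hmax i (Finset.mem_filter.2 ⟨hi, by omega⟩)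
        omega
      · intro heq
        obtain ⟨d, hd, hd1, hd2⟩ := h.low c hcS 1 1 (by omega) (by omega)
        exact h11 ⟨d, hd, hd1, hd2⟩
    · rw [Finset.not_nonempty_iff_eq_empty, Finset.filter_eq_empty_iff] at hB
      rcases S.eq_empty_or_nonempty with h1 | ⟨a, ha⟩
      · exact Or.inl h1
      · right; left
        refine ⟨a, ?_⟩
        ext i
        rw [Finset.mem_singleton]
        constructor
        · intro hi
          have h2 : row i = 0 ∧ col i = 0 := by
            by_contra hcon
            exact hB hi hcon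
          have h3 : row a = 0 ∧ col a = 0 := by
            by_contra hcon
            exact hB ha hcon
          exact h.inj _ hi _ ha (by omega) (by omega)
        · rintro rfl
          exact ha

end comb

variable {k : Type u} [Field k] {𝒱 : VarClass k}

section chow

variable {C : TheoryData.{u, v, 0} 𝒱 ℚ} [hC : IsChowProj C] {X Y Z W V : 𝒱.Obj}
variable {ι : Type} [Fintype ι] [DecidableEq ι] {row col : ι → ℕ}

include hC

lemma InI.con1 {I : Family C} (hI : IsAdequate C I) {G : FamI C X ι} {e : ℤ} (h : InI I G e)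
    (c : ι) : InI I (con c G) (e - X.dim) := by
  intro W x y
  exact push_fam hI (h (W.prod X) (Function.update (fun i => fst W X ≫ x i) c (snd W X))
    (Function.update (fun i => fst W X ≫ y i) c (snd W X)))

lemma InI.cancel {I : Family C} {G : FamI C X ι} {e : ℤ} {q : ℚ} (hq : q ≠ 0)
    (h : InI I (q • G) e) : InI I G e := by
  intro W x y
  have h1 := Submodule.smul_mem _ q⁻¹ (h W x y)
  rwa [Pi.smul_apply, Pi.smul_apply, Pi.smul_apply, smul_smul, inv_mul_cancel₀ hq, one_smul] at h1

/-- Cells with a label can be removed. -/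
lemma strip_T {I : Family C} (hI : IsAdequate C I) {L : Type} [DecidableEq L]
    {w : ι → Option L} {P : Option L → C.A (X.prod X)}
    (hP : ∀ s t, C.comp (P s) (P t) = if s = t then P s else 0)
    (hP1 : ∀ l, HasDegree C (ev (P (some l)) (𝟙 X) (𝟙 X)) 1)
    (hinj : ∀ i j, row i = row j → col i = col j → i = j)
    (hw : ∀ i j, row i = row j → w i = w j)
    (hT : ∀ i j, w i = w j → w i ≠ none → row i = row j)
    (h : InI I (young row col (fun i => P (w i)) Finset.univ) (Fintype.card ι * X.dim))
    (T : Finset ι) (hTw : ∀ i ∈ T, w i ≠ none) :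
    InI I (young row col (fun i => P (w i)) Tᶜ) ((Tᶜ).card * X.dim) := by
  induction T using Finset.induction_on with
  | empty =>
    rw [Finset.compl_empty, Finset.card_univ]
    exact h
  | insert c T hcT ih =>
    have h1 := (ih fun i hi => hTw i (Finset.mem_insert_of_mem hi)).con1 hI c
    have hc : c ∈ Tᶜ := Finset.mem_compl.2 hcT
    have hwc : w c ≠ none := hTw c (Finset.mem_insert_self _ _)
    obtain ⟨l, hl⟩ := Option.ne_none_iff_exists'.1 hwc
    rw [con_young_T hP hinj hw hT hc hwc (by rw [hl]; exact hP1 l)] at h1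
    have h2 := InI.cancel (q := (((Tᶜ).filter (fun a => row a = row c)).card : ℚ)) (by
      have : 0 < ((Tᶜ).filter (fun a => row a = row c)).card :=
        Finset.card_pos.2 ⟨c, Finset.mem_filter.2 ⟨hc, rfl⟩⟩
      positivity) h1
    have h3 : (insert c T)ᶜ = (Tᶜ).erase c := by
      ext i
      simp
    rw [h3]
    intro W x y
    refine hI.congr ?_ (h2 W x y)
    rw [Finset.card_erase_of_mem hc, Nat.cast_sub (Finset.card_pos.2 ⟨c, hc⟩)]
    push_cast
    ring

lemma young_empty (p : C.A (X.prod X)) (W : 𝒱.Obj) (x y : ι → (W ⟶ X)) :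
    young row col (fun _ => p) (∅ : Finset ι) W x y = 1 := by
  rw [young, lineF_empty, lineF_empty, Finset.sum_singleton, Finset.sum_singleton,
    Equiv.Perm.sign_one]
  change (((1 : ℤˣ) : ℤ) : ℚ) • (∏ i ∈ (∅ : Finset ι), _) = (1 : C.A W)
  rw [Finset.prod_empty]
  norm_num

lemma young_single (p : C.A (X.prod X)) (a : ι) (W : 𝒱.Obj) (x y : ι → (W ⟶ X)) :
    young row col (fun _ => p) ({a} : Finset ι) W x y = ev p (x a) (y a) := by
  have h1 : ∀ ℓ : ι → ℕ, lineF ℓ ({a} : Finset ι) = {1} := by
    intro ℓ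
    ext g
    rw [mem_lineF, Finset.mem_singleton]
    constructor
    · intro h
      apply Equiv.ext
      intro i
      by_cases hi : i = a
      · rw [hi]
        by_contra hc
        have h2 := h.1 (g a) (by rw [Finset.mem_singleton]; exact hc)
        exact hc (g.injective h2)
      · exact h.1 i (by rw [Finset.mem_singleton]; exact hi)
    · rintro rfl
      exact ⟨fun _ _ => rfl, fun _ => rfl⟩
  rw [young, h1, h1, Finset.sum_singleton, Finset.sum_singleton, Equiv.Perm.sign_one]
  change (((1 : ℤˣ) : ℤ) : ℚ) • (∏ i ∈ ({a} : Finset ι), ev p (x i) (y ((1 * 1⁻¹ : Equiv.Perm ι) i))) = _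
  rw [Finset.prod_singleton]
  norm_num

/-- The square. -/
lemma young_sq (p : C.A (X.prod X)) {a b c d : ι} (hab : a ≠ b)
    (hac : a ≠ c) (had : a ≠ d) (hbc : b ≠ c) (hbd : b ≠ d) (hcd : c ≠ d)
    (r1 : row a = row b) (r2 : row c = row d) (r3 : row a ≠ row c)
    (c1 : col a = col c) (c2 : col b = col d) (c3 : col a ≠ col b) (W : 𝒱.Obj)
    (z w s t v : W ⟶ X) :
    young row col (fun _ => p) ({a, b, c, d} : Finset ι) W
      (fun i => if row i = row a then z else w)
      (fun i => if i = a ∨ i = b then v else if i = c then s else t) =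
    (4 : ℚ) • (ev p z v * ev p z v * (ev p w s * ev p w t) -
      ev p z s * ev p z v * (ev p w v * ev p w t) -
      ev p z v * ev p z t * (ev p w s * ev p w v) +
      ev p z s * ev p z t * (ev p w v * ev p w v)) := by
  set S : Finset ι := {a, b, c, d} with hS
  set x : ι → (W ⟶ X) := fun i => if row i = row a then z else w with hx
  set y : ι → (W ⟶ X) := fun i => if i = a ∨ i = b then v else if i = c then s else t with hy
  have hxa : x a = z := if_pos rfl
  have hxb : x b = z := if_pos r1.symm
  have hxc : x c = w := if_neg (Ne.symm r3)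
  have hxd : x d = w := if_neg (by rw [← r2]; exact Ne.symm r3)
  have hya : y a = v := if_pos (Or.inl rfl)
  have hyb : y b = v := if_pos (Or.inr rfl)
  have hyc : y c = s := by
    change (if c = a ∨ c = b then v else if c = c then s else t) = s
    rw [if_neg (by rintro (h | h); exacts [hac h.symm, hbc h.symm]), if_pos rfl]
  have hyd : y d = t := by
    change (if d = a ∨ d = b then v else if d = c then s else t) = t
    rw [if_neg (by rintro (h | h); exacts [had h.symm, hbd h.symm]), if_neg hcd.symm]
  -- the row permutations do not change the value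
  have hrow : ∀ r ∈ lineF row S, ∀ g : Equiv.Perm ι,
      mon (fun _ => p) (g * r⁻¹) S W x y = ∏ i ∈ S, ev p (x i) (y (g i)) := by
    intro r hr g
    change ∏ i ∈ S, ev p (x i) (y ((g * r⁻¹) i)) = _
    symm
    refine Finset.prod_bij (fun i _ => r i) (fun i hi => lineF_maps hr hi)
      (fun i _ j _ h => r.injective h) (fun j hj => ⟨r⁻¹ j, lineF_maps (lineF_inv hr) hj,
        app_inv _ _⟩) (fun i _ => ?_)
    have h1 : x (r i) = x i := by
      change (if row (r i) = row a then z else w) = _
      rw [(mem_lineF.1 hr).2 i]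
    rw [h1, Equiv.Perm.mul_apply, inv_app]
  have h1 : young row col (fun _ => p) S W x y =
      ∑ r ∈ lineF row S, ∑ g ∈ lineF col S, ((Equiv.Perm.sign g : ℤ) : ℚ) •
        ∏ i ∈ S, ev p (x i) (y (g i)) := by
    rw [young, Finset.sum_apply, Finset.sum_apply, Finset.sum_apply]
    apply Finset.sum_congr rfl
    intro r hr
    rw [Finset.sum_apply, Finset.sum_apply, Finset.sum_apply]
    apply Finset.sum_congr rfl
    intro g _
    rw [Pi.smul_apply, Pi.smul_apply, Pi.smul_apply, hrow r hr]
  have hcol : ({a, b, c, d} : Finset ι) = {a, c, b, d} := by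
    ext i
    simp only [Finset.mem_insert, Finset.mem_singleton]
    tauto
  have hprod : ∀ f : ι → C.A W, ∏ i ∈ S, f i = f a * f b * (f c * f d) := by
    intro f
    rw [hS, Finset.prod_insert (by simp [hab, hac, had]), Finset.prod_insert (by simp [hbc, hbd]),
      Finset.prod_insert (by simp [hcd]), Finset.prod_singleton, ← mul_assoc, ← mul_assoc]
  rw [h1, hS, sum_lineF_sq hab hac had hbc hbd hcd r1 r2 r3, ← hS]
  have h2 : ∑ g ∈ lineF col S, ((Equiv.Perm.sign g : ℤ) : ℚ) • ∏ i ∈ S, ev p (x i) (y (g i)) =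
      (ev p z v * ev p z v * (ev p w s * ev p w t) -
      ev p z s * ev p z v * (ev p w v * ev p w t) -
      ev p z v * ev p z t * (ev p w s * ev p w v) +
      ev p z s * ev p z t * (ev p w v * ev p w v)) := by
    rw [hS, hcol, sum_lineF_sq hac hab had hbc.symm hcd hbd c1 c2 c3, ← hcol, ← hS]
    simp only [hprod, Equiv.Perm.one_apply, Equiv.Perm.sign_one, Equiv.Perm.sign_mul,
      Equiv.Perm.sign_swap hbd, Equiv.Perm.sign_swap hac, Equiv.Perm.mul_apply,
      Equiv.swap_apply_left, Equiv.swap_apply_right,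
      Equiv.swap_apply_of_ne_of_ne hab had, Equiv.swap_apply_of_ne_of_ne hbc.symm hcd,
      Equiv.swap_apply_of_ne_of_ne hab.symm hbc, Equiv.swap_apply_of_ne_of_ne had.symm hcd.symm,
      hxa, hxb, hxc, hxd, hya, hyb, hyc, hyd]
    norm_num
    ring
  rw [h2, ← two_smul ℚ, ← two_smul ℚ (_ : C.A W), smul_smul] <;> norm_num

end chow

end Pool.Agent.Helper70_bl
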