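import Pool.Agent.Helper70_bl.Bl12

/-!
# Vanishing Schur functors
-/

open CategoryTheory AlgebraicGeometry

universe u v w

namespace Pool.Agent.Helper70_bl

open Pool.Agent.H914 Pool.Agent.H914.VarClass Pool.Agent.H914.VarClass.Obj Pool.Agent.W492.BB
  Pool.Agent.W550.Corr Pool.Agent.TH133 Pool.Agent.TH829.Prime Pool.Agent.TH829.Kim

set_option linter.unusedSectionVars false

variable {k : Type u} [Field k] {𝒱 : VarClass k}

section chow

variable {C : TheoryData.{u, v, 0} 𝒱 ℚ} [hC : IsChowProj C] {X Y Z W V : 𝒱.Obj}
variable {ι : Type} [Fintype ι] [DecidableEq ι] {row col : ι → ℕ}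

include hC

/-- A symmetric idempotent of rank zero killed by the Young symmetrizer of a diagram without the
cell `(2, 2)` vanishes. -/
theorem mem_of_young {p : C.A (X.prod X)} (hpd : p ∈ C.gr (X.prod X) X.dim)
    (hp : C.comp p p = p) (hp0 : HasDegree C (ev p (𝟙 X) (𝟙 X)) 0)
    (hsym : ∀ (W : 𝒱.Obj) (x y : W ⟶ X), ev p x y = ev p y x) {I : Family C}
    (hI : IsAdequate C I) (n : ℕ) (S : Finset ι) (hn : S.card = n) (hS : IsDiag row col S)
    (h22 : ∀ i ∈ S, ¬ (2 ≤ row i ∧ 2 ≤ col i))
    (h : InI I (young row col (fun _ => p) S) (S.card * X.dim)) : p ∈ I (X.prod X) X.dim := by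
  induction n generalizing S with
  | zero =>
    have hS0 : S = ∅ := Finset.card_eq_zero.1 hn
    subst hS0
    have h1 := h (X.prod X) (fun _ => fst X X) (fun _ => fst X X)
    rw [young_empty, Finset.card_empty] at h1
    have h2 := hI.mul_mem' hpd h1
    rw [mul_one] at h2
    exact hI.congr (by push_cast; ring) h2
  | succ n ih =>
    rcases hS.cases h22 with h1 | ⟨a, h1⟩ | ⟨a, b, c, d, h1, a1, a2, b1, b2, c1, c2, d1, d2⟩ |
      ⟨c, hc, hne⟩
    · rw [h1] at hn
      simp at hn
    · subst h1
      have h2 := h (X.prod X) (fun _ => fst X X) (fun _ => snd X X)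
      rw [young_single, ev_univ, Finset.card_singleton] at h2
      exact hI.congr (by push_cast; ring) h2
    · have hab : a ≠ b := by rintro rfl; omega
      have hac : a ≠ c := by rintro rfl; omega
      have had : a ≠ d := by rintro rfl; omega
      have hbc : b ≠ c := by rintro rfl; omega
      have hbd : b ≠ d := by rintro rfl; omega
      have hcd : c ≠ d := by rintro rfl; omega
      have hcard : S.card = 4 := by
        rw [h1, Finset.card_insert_of_notMem (by simp [hab, hac, had]),
          Finset.card_insert_of_notMem (by simp [hbc, hbd]),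
          Finset.card_insert_of_notMem (by simp [hcd]), Finset.card_singleton]
      apply square_step hp hp0 hsym hI
      intro W z w s t v
      have h2 := h W (fun i => if row i = row a then z else w)
        (fun i => if i = a ∨ i = b then v else if i = c then s else t)
      rw [hcard, h1, young_sq p hab hac had hbc hbd hcd (by omega) (by omega) (by omega)
        (by omega) (by omega) (by omega)] at h2
      have h3 := Submodule.smul_mem _ (4 : ℚ)⁻¹ h2
      rw [smul_smul, inv_mul_cancel₀ (by norm_num), one_smul] at h3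
      exact hI.congr (by push_cast; ring) h3
    · have h1 := h.con1 hI c
      rw [con_young_N hp hp0 hS.inj hc.mem (fun a ha har hac b hb hbcol hbc => ?_),
        hS.card_row hc, hS.card_col hc] at h1
      · have h2 := InI.cancel (by
          push_cast
          intro h3
          apply hne
          have h4 : ((col c : ℕ) : ℚ) = ((row c : ℕ) : ℚ) := by linarith
          exact_mod_cast h4.symm) h1
        have hcard : (S.erase c).card = n := by
          rw [Finset.card_erase_of_mem hc.mem, hn]
          rfl
        refine ih (S.erase c) hcard (hS.erase hc)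
          (fun i hi => h22 i (Finset.mem_of_mem_erase hi)) ?_
        intro W x y
        refine hI.congr ?_ (h2 W x y)
        rw [hcard, hn]
        push_cast
        ring
      · have hbr : row b < row c := by
          have h2 := hc.down b hb hbcol
          rcases h2.lt_or_eq with h3 | h3
          · exact h3
          · exact absurd (hS.inj b hb c hc.mem h3 hbcol) hbc
        obtain ⟨m, hm, hm1, hm2⟩ := hS.low c hc.mem (row b) (col a) hbr.le (hc.right a ha har)
        refine ⟨m, Finset.mem_erase.2 ⟨?_, hm⟩, hm1, hm2⟩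
        rintro rfl
        omega

/-- The Young symmetrizer of all cells as a combination of permutations. -/
lemma young_eq_comb (p : ι → C.A (X.prod X)) : young row col p Finset.univ =
    comb p (fun σ => ∑ r ∈ lineF row Finset.univ, ∑ c ∈ lineF col Finset.univ,
      if c * r⁻¹ = σ then ((Equiv.Perm.sign c : ℤ) : ℚ) else 0) := by
  rw [young, comb]
  simp only [Finset.sum_smul]
  symm
  rw [Finset.sum_comm]
  apply Finset.sum_congr rfl
  intro r _
  rw [Finset.sum_comm]
  apply Finset.sum_congr rfl
  intro c _
  simp only [ite_smul, zero_smul, Finset.sum_ite_eq, Finset.mem_univ, if_true]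

lemma ev_dg_symm (W : 𝒱.Obj) (x y : W ⟶ X) : ev (dg C X) x y = ev (dg C X) y x := by
  conv_lhs => rw [← tp_dg C X]
  rw [ev, tp, ← C.pull_comp, ev]
  congr 2
  apply prod_ext <;> simp [sw]

variable {b : ℕ} {e : Fin b → ℤ} {a a' : Fin b → C.A X}

lemma ev_pR_symm (ha : ∀ i, C.Deg (e i) (a i)) (ha' : ∀ i, C.Deg ((X.dim : ℤ) - e i) (a' i))
    (hs : ∑ i, C.ext (a i) (a' i) = ∑ i, C.ext (a' i) (a i)) (W : 𝒱.Obj) (x y : W ⟶ X) :
    ev (toA (pR ha ha' none)) x y = ev (toA (pR ha ha' none)) y x := by
  rw [pR_none]
  have h1 : ev (∑ i, C.ext (a i) (a' i)) x y = ev (∑ i, C.ext (a i) (a' i)) y x := by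
    conv_lhs => rw [ev, map_sum]
    conv_rhs => rw [hs, ev, map_sum]
    apply Finset.sum_congr rfl
    intro i _
    change ev _ _ _ = ev _ _ _
    rw [ev_ext, ev_ext, ch_comm C]
  have h2 := ev_dg_symm (C := C) W x y
  have h3 : ∀ x y : W ⟶ X, ev (dg C X - ∑ i, C.ext (a i) (a' i)) x y =
      ev (dg C X) x y - ev (∑ i, C.ext (a i) (a' i)) x y := fun _ _ => map_sub _ _ _
  rw [h3, h3, h1, h2]

/-- A vanishing Schur functor whose diagram does not contain the rectangle with `b + 3` rows and
three columns decomposes the diagonal. -/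
theorem split_of_young (hne : ∀ X : 𝒱.Obj, (1 : C.A X) ≠ 0) (ha : ∀ i, C.Deg (e i) (a i))
    (ha' : ∀ i, C.Deg ((X.dim : ℤ) - e i) (a' i))
    (hdual : ∀ i j, HasDegree C (a i * a' j) (if i = j then 1 else 0))
    (hs : ∑ i, C.ext (a i) (a' i) = ∑ i, C.ext (a' i) (a i))
    (hb : HasDegree C (ev (dg C X) (𝟙 X) (𝟙 X)) b) {I : Family C} (hI : IsAdequate C I)
    (hD : IsDiag row col (Finset.univ : Finset ι))
    (h22 : ∀ i : ι, ¬ (b + 2 ≤ row i ∧ 2 ≤ col i))
    (h : InI I (young row col (fun _ => dg C X) Finset.univ) (Fintype.card ι * X.dim)) :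
    dg C X - ∑ i, C.ext (a i) (a' i) ∈ I (X.prod X) X.dim := by
  rw [← pR_none ha ha']
  -- the labels
  let w : ι → Option (Fin b) := fun i => if h : row i < b then some ⟨row i, h⟩ else none
  have hw1 : ∀ i, w i = none ↔ b ≤ row i := by
    intro i
    change (if h : row i < b then some (⟨row i, h⟩ : Fin b) else none) = none ↔ _
    split_ifs with h1
    · simp only [false_iff, not_le]
      exact h1
    · simp only [true_iff]
      omega
  have hw : ∀ i j, row i = row j → w i = w j := by
    intro i j hij
    change (if h : row i < b then some (⟨row i, h⟩ : Fin b) else none) =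
      (if h : row j < b then some (⟨row j, h⟩ : Fin b) else none)
    simp only [hij]
  have hT : ∀ i j, w i = w j → w i ≠ none → row i = row j := by
    intro i j hij hi
    have h1 : ¬ b ≤ row i := fun h1 => hi ((hw1 i).2 h1)
    have h2 : ¬ b ≤ row j := fun h2 => hi (by rw [hij]; exact (hw1 j).2 h2)
    change (if h : row i < b then some (⟨row i, h⟩ : Fin b) else none) =
      (if h : row j < b then some (⟨row j, h⟩ : Fin b) else none) at hij
    rw [dif_pos (by omega), dif_pos (by omega)] at hij
    have h3 := Option.some_injective _ hij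
    exact congrArg Fin.val h3
  have hinj : ∀ i j, row i = row j → col i = col j → i = j := fun i j =>
    hD.inj i (Finset.mem_univ _) j (Finset.mem_univ _)
  have hP : ∀ s t : Option (Fin b), C.comp (toA (pR ha ha' s)) (toA (pR ha ha' t)) =
      if s = t then toA (pR ha ha' s) else 0 := by
    intro s t
    rw [← toA_mul, pR_mul ha ha' hdual]
    by_cases hst : s = t
    · rw [if_pos hst, if_pos hst.symm, hst]
    · rw [if_neg hst, if_neg (Ne.symm hst), map_zero]
  rw [young_eq_comb] at h
  have h1 := h.rows hI (a := fun i => toA (pR ha ha' (w i))) (fun i => toA_mem _)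
  rw [← young_eq_comb] at h1
  have h2 := strip_T hI (w := w) (P := fun s => toA (pR ha ha' s)) hP
    (fun l => tr_some ha ha' hdual l) hinj hw hT h1 (Finset.univ.filter (fun i => w i ≠ none))
    (fun i hi => (Finset.mem_filter.1 hi).2)
  set N : Finset ι := (Finset.univ.filter (fun i => w i ≠ none))ᶜ with hN
  have memN : ∀ i, i ∈ N ↔ b ≤ row i := by
    intro i
    rw [hN, Finset.mem_compl, Finset.mem_filter, ← hw1]
    simp
  -- all labels are `none` now
  let row' : ι → ℕ := fun i => row i - b
  have h3 : young row col (fun i => toA (pR ha ha' (w i))) N =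
      young row' col (fun _ => toA (pR ha ha' none)) N := by
    have e1 : lineF row N = lineF row' N := by
      ext g
      rw [mem_lineF, mem_lineF]
      refine and_congr_right fun hg => forall_congr' fun i => ?_
      change row (g i) = row i ↔ row (g i) - b = row i - b
      by_cases hi : i ∈ N
      · have hgi : g i ∈ N := by
          by_contra hc
          have h4 := g.injective (hg (g i) hc)
          rw [h4] at hc
          exact hc hi
        have h5 := (memN i).1 hi
        have h6 := (memN (g i)).1 hgi
        omega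
      · rw [hg i hi]
        exact ⟨fun _ => rfl, fun _ => rfl⟩
    rw [young, young, e1]
    apply Finset.sum_congr rfl
    intro r _
    apply Finset.sum_congr rfl
    intro c _
    congr 1
    funext W x y
    change ∏ i ∈ N, ev (toA (pR ha ha' (w i))) (x i) (y ((c * r⁻¹) i)) =
      ∏ i ∈ N, ev (toA (pR ha ha' none)) (x i) (y ((c * r⁻¹) i))
    apply Finset.prod_congr rfl
    intro i hi
    rw [(hw1 i).2 ((memN i).1 hi)]
  rw [h3] at h2
  refine mem_of_young (row := row') (col := col) (toA_mem _) ?_ (tr_none hne ha ha' hdual hb)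
    (ev_pR_symm ha ha' hs) hI N.card N rfl ?_ ?_ h2
  · have h4 := hP none none
    rwa [if_pos rfl] at h4
  · refine ⟨fun i hi j hj hr hc => hinj i j ?_ hc, fun i hi r s hr hs' => ?_⟩
    · change row i - b = row j - b at hr
      have h5 := (memN i).1 hi
      have h6 := (memN j).1 hj
      omega
    · change r ≤ row i - b at hr
      have h5 := (memN i).1 hi
      obtain ⟨j, -, hj1, hj2⟩ := hD.low i (Finset.mem_univ _) (r + b) s (by omega) hs'
      refine ⟨j, (memN j).2 (by omega), ?_, hj2⟩
      change row j - b = r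
      omega
  · intro i hi hcon
    change 2 ≤ row i - b ∧ 2 ≤ col i at hcon
    exact h22 i (by omega)

/-- A vanishing Schur functor of the remaining part of the diagonal. -/
theorem split_of_young_pi (hne : ∀ X : 𝒱.Obj, (1 : C.A X) ≠ 0) (ha : ∀ i, C.Deg (e i) (a i))
    (ha' : ∀ i, C.Deg ((X.dim : ℤ) - e i) (a' i))
    (hdual : ∀ i j, HasDegree C (a i * a' j) (if i = j then 1 else 0))
    (hs : ∑ i, C.ext (a i) (a' i) = ∑ i, C.ext (a' i) (a i))
    (hb : HasDegree C (ev (dg C X) (𝟙 X) (𝟙 X)) b) {I : Family C} (hI : IsAdequate C I)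
    (hD : IsDiag row col (Finset.univ : Finset ι))
    (h22 : ∀ i : ι, ¬ (2 ≤ row i ∧ 2 ≤ col i))
    (h : InI I (young row col (fun _ => dg C X - ∑ i, C.ext (a i) (a' i)) Finset.univ)
      (Fintype.card ι * X.dim)) :
    dg C X - ∑ i, C.ext (a i) (a' i) ∈ I (X.prod X) X.dim := by
  rw [← pR_none ha ha'] at h ⊢
  refine mem_of_young (row := row) (col := col) (toA_mem _) ?_ (tr_none hne ha ha' hdual hb)
    (ev_pR_symm ha ha' hs) hI Finset.univ.card Finset.univ rfl hD (fun i _ => h22 i) h
  rw [← toA_mul, pR_mul ha ha' hdual, if_pos rfl]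

end chow

end Pool.Agent.Helper70_bl
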