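import Pool.Agent.TH829.Kim.Defs
import Mathlib.GroupTheory.Perm.Sign
import Mathlib.Combinatorics.Young.YoungDiagram

/-!
# Linear relations between the graphs of permutations: definitions
-/

open CategoryTheory AlgebraicGeometry

universe u v w

namespace Pool.Agent.Helper70_bl

open Pool.Agent.H914 Pool.Agent.H914.VarClass Pool.Agent.H914.VarClass.Obj Pool.Agent.W492.BB
  Pool.Agent.W550.Corr Pool.Agent.TH133 Pool.Agent.TH829.Prime Pool.Agent.TH829.Kim

/-! ### Dual systems of classes -/

variable {k : Type u} [Field k] {𝒱 : VarClass k}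

/-- The classes `a i` and `a' i`, `i < b`, form a symmetric dual system of `X`: they are homogeneous
of complementary codimensions, dual to each other for the intersection form, the class
`∑ a i × a' i` is symmetric, and the self-intersection number of the diagonal of `X` is `b`. If `X`
is a complex surface with `p_g = q = 0` one can take for the `a i` a homogeneous basis of the
algebraic classes and for the `a' i` the dual basis, and `b` is the Euler number of `X`. -/
structure DualSystem (C : TheoryData.{u, v, 0} 𝒱 ℚ) (X : 𝒱.Obj) (b : ℕ) (a a' : Fin b → C.A X) :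
    Prop where
  deg : ∃ e : Fin b → ℤ, ∀ i, C.Deg (e i) (a i) ∧ C.Deg ((X.dim : ℤ) - e i) (a' i)
  dual : ∀ i j, HasDegree C (a i * a' j) (if i = j then 1 else 0)
  symm : ∑ i, C.ext (a i) (a' i) = ∑ i, C.ext (a' i) (a i)
  euler : HasDegree C (value C (dg C X) (𝟙 X) (𝟙 X)) b

/-- The remaining part `Δ - ∑ a i × a' i` of the diagonal. -/
noncomputable def rest (C : TheoryData.{u, v, 0} 𝒱 ℚ) {X : 𝒱.Obj} {b : ℕ} (a a' : Fin b → C.A X) :
    C.A (X.prod X) := dg C X - ∑ i, C.ext (a i) (a' i)

/-! ### Relations between the graphs of the permutations of `X^n` -/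

/-- The relation `∑ α σ · p_σ = 0` modulo the adequate relation `I`, for a self-correspondence `p`
of degree zero of `X`, where `p_σ` is the class of the product of the pull-backs of `p` under the
maps `(x i, y (σ i)) : X^n × X^n ⟶ X × X`. If `p` is the class of the diagonal of `X` then `p_σ` is
the class of the graph `Γ_σ ⊂ X^n × X^n` of the permutation `σ` of the factors of `X^n`, that is the
set of all `(x, y)` with `x i = y (σ i)` for all `i`. The relation is stated for points `x i`, `y i`
of `X` with values in an arbitrary variety `W`; the relation on `X^n × X^n` is the case where these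
are the `2 n` projections, and implies all others. -/
def Relation (C : TheoryData.{u, v, 0} 𝒱 ℚ) {X : 𝒱.Obj} (p : C.A (X.prod X)) (I : Family C)
    (n : ℕ) (α : Equiv.Perm (Fin n) → ℚ) : Prop :=
  ∀ (W : 𝒱.Obj) (x y : Fin n → (W ⟶ X)),
    ∑ σ, α σ • (List.ofFn fun i => value C p (x i) (y (σ i))).prod ∈ I W (n * X.dim)

/-- The classes `p_σ`, `σ ∈ S_n`, are linearly dependent modulo the adequate relation `I`. -/
def Dependent (C : TheoryData.{u, v, 0} 𝒱 ℚ) {X : 𝒱.Obj} (p : C.A (X.prod X)) (I : Family C)
    (n : ℕ) : Prop :=
  ∃ α : Equiv.Perm (Fin n) → ℚ, α ≠ 0 ∧ Relation C p I n α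

/-! ### Schur functors -/

/-- The permutations of the cells of the Young diagram `μ` that preserve every row. -/
def rowPerms (μ : YoungDiagram) : Finset (Equiv.Perm μ.cells) :=
  Finset.univ.filter fun g => ∀ i, (g i).1.1 = i.1.1

/-- The permutations of the cells of the Young diagram `μ` that preserve every column. -/
def colPerms (μ : YoungDiagram) : Finset (Equiv.Perm μ.cells) :=
  Finset.univ.filter fun g => ∀ i, (g i).1.2 = i.1.2

/-- The Schur functor `S_μ` of the Young diagram `μ` kills `(X, p)` modulo the adequate relation
`I`: the correspondence `∑ sign(c) p_{c r⁻¹}` is zero, the sum over the permutations `r` of the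
cells of `μ` preserving the rows and the permutations `c` preserving the columns (a multiple of the
Young symmetrizer of `μ`). It is written down for points `x i`, `y i` of `X`, one for each cell `i`
of `μ`, with values in an arbitrary variety `W`. -/
def SchurZero (C : TheoryData.{u, v, 0} 𝒱 ℚ) {X : 𝒱.Obj} (p : C.A (X.prod X)) (I : Family C)
    (μ : YoungDiagram) : Prop :=
  ∀ (W : 𝒱.Obj) (x y : μ.cells → (W ⟶ X)),
    ∑ r ∈ rowPerms μ, ∑ c ∈ colPerms μ, (Equiv.Perm.sign c : ℤ) •
      (μ.cells.attach.toList.map fun i => value C p (x (r i)) (y (c i))).prod ∈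
        I W (μ.card * X.dim)

/-- The element `α` of the group algebra of the symmetric group `S_n` acts non-trivially on the
Specht module of the Young diagram `μ` with `n` cells: for some numbering `T` of the cells, the
product of `α` and the Young symmetrizer `∑ sign(c) c r` of `T` is not zero. The number below is the
coefficient of this product at `τ` (replace `r`, `c` by their inverses). -/
def ActsOnSpecht {n : ℕ} (α : Equiv.Perm (Fin n) → ℚ) (μ : YoungDiagram) : Prop :=
  ∃ (T : μ.cells ≃ Fin n) (τ : Equiv.Perm (Fin n)),
    ∑ r ∈ rowPerms μ, ∑ c ∈ colPerms μ,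
      ((Equiv.Perm.sign c : ℤ) : ℚ) * α (τ * T.permCongr (r * c)) ≠ 0

/-- For some `n` there is a relation between the classes `p_σ`, `σ ∈ S_n`, modulo the adequate
relation `I`, that acts non-trivially on the Specht module of a Young diagram that does not contain
the rectangle with `b + 3` rows and three columns. -/
def Exceptional (C : TheoryData.{u, v, 0} 𝒱 ℚ) {X : 𝒱.Obj} (p : C.A (X.prod X)) (I : Family C)
    (b : ℕ) : Prop :=
  ∃ (n : ℕ) (α : Equiv.Perm (Fin n) → ℚ) (μ : YoungDiagram),
    Relation C p I n α ∧ (b + 2, 2) ∉ μ ∧ ActsOnSpecht α μ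

end Pool.Agent.Helper70_bl
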