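import Pool.Agent.Helper70_bl.Bl13
import Pool.Agent.Helper70_bl.BlDefs

/-!
# Schur functors of Young diagrams
-/

open CategoryTheory AlgebraicGeometry

universe u v w

namespace Pool.Agent.Helper70_bl

open Pool.Agent.H914 Pool.Agent.H914.VarClass Pool.Agent.H914.VarClass.Obj Pool.Agent.W492.BB
  Pool.Agent.W550.Corr Pool.Agent.TH133 Pool.Agent.TH829.Prime Pool.Agent.TH829.Kim

set_option linter.unusedSectionVars false

variable {k : Type u} [Field k] {𝒱 : VarClass k}

section chow

variable {C : TheoryData.{u, v, 0} 𝒱 ℚ} [hC : IsChowProj C] {X : 𝒱.Obj}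

/-- The row of a cell. -/
def rowOf (μ : YoungDiagram) (i : μ.cells) : ℕ := i.1.1

/-- The column of a cell. -/
def colOf (μ : YoungDiagram) (i : μ.cells) : ℕ := i.1.2

lemma rowPerms_eq (μ : YoungDiagram) : rowPerms μ = lineF (rowOf μ) Finset.univ := by
  ext g
  simp [rowPerms, lineF, rowOf]

lemma colPerms_eq (μ : YoungDiagram) : colPerms μ = lineF (colOf μ) Finset.univ := by
  ext g
  simp [colPerms, lineF, colOf]

lemma isDiag_of (μ : YoungDiagram) : IsDiag (rowOf μ) (colOf μ) Finset.univ where
  inj _ _ _ _ hr hc := Subtype.ext (Prod.ext hr hc)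
  low i _ r s hr hs := ⟨⟨(r, s), (YoungDiagram.mem_cells _).2
    (μ.up_left_mem hr hs ((YoungDiagram.mem_cells _).1 i.2))⟩, Finset.mem_univ _, rfl, rfl⟩

include hC

lemma relation_iff {p : C.A (X.prod X)} {I : Family C} {n : ℕ} {α : Equiv.Perm (Fin n) → ℚ} :
    Relation C p I n α ↔ InI I (comb (fun _ => p) α) (Fintype.card (Fin n) * X.dim) := by
  rw [Fintype.card_fin]
  refine forall_congr' fun W => forall_congr' fun x => forall_congr' fun y => ?_
  rw [comb_apply]
  have h1 : ∀ σ : Equiv.Perm (Fin n), (List.ofFn fun i => value C p (x i) (y (σ i))).prod =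
      ∏ i, ev p (x i) (y (σ i)) := fun σ => List.prod_ofFn
  simp only [h1]

lemma schurZero_iff {p : C.A (X.prod X)} {I : Family C} {μ : YoungDiagram} :
    SchurZero C p I μ ↔ InI I (young (rowOf μ) (colOf μ) (fun _ => p) Finset.univ)
      (Fintype.card μ.cells * X.dim) := by
  rw [Fintype.card_coe]
  refine forall_congr' fun W => forall_congr' fun x => forall_congr' fun y => ?_
  have h1 : ∀ r c : Equiv.Perm μ.cells,
      (μ.cells.attach.toList.map fun i => value C p (x (r i)) (y (c i))).prod =
      ∏ i, ev p (x i) (y ((c * r⁻¹) i)) := by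
    intro r c
    have h2 : (μ.cells.attach.toList.map fun i => value C p (x (r i)) (y (c i))).prod =
        ∏ i, ev p (x (r i)) (y (c i)) := by
      rw [Finset.prod_map_toList]
      rfl
    rw [h2, ← Equiv.prod_comp r (fun i => ev p (x i) (y ((c * r⁻¹) i)))]
    apply Finset.prod_congr rfl
    intro i _
    rw [Equiv.Perm.mul_apply, inv_app]
  have h3 : young (rowOf μ) (colOf μ) (fun _ => p) Finset.univ W x y =
      ∑ r ∈ rowPerms μ, ∑ c ∈ colPerms μ, (Equiv.Perm.sign c : ℤ) •
        (μ.cells.attach.toList.map fun i => value C p (x (r i)) (y (c i))).prod := by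
    rw [young, rowPerms_eq, colPerms_eq]
    simp only [Finset.sum_apply]
    apply Finset.sum_congr rfl
    intro r _
    apply Finset.sum_congr rfl
    intro c _
    rw [h1, ← Int.cast_smul_eq_zsmul ℚ]
    rfl
  rw [h3]

end chow

/-- The Young diagram with one column of `n` cells. -/
def column (n : ℕ) : YoungDiagram where
  cells := Finset.range n ×ˢ {0}
  isLowerSet := by
    intro a b hab ha
    simp only [Finset.coe_product, Finset.coe_range, Finset.coe_singleton, Set.mem_prod,
      Set.mem_Iio, Set.mem_singleton_iff] at ha ⊢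
    have h1 := hab.1
    have h2 := hab.2
    omega

lemma mem_column {n : ℕ} {c : ℕ × ℕ} : c ∈ column n ↔ c.1 < n ∧ c.2 = 0 := by
  rw [← YoungDiagram.mem_cells]
  change c ∈ Finset.range n ×ˢ {0} ↔ _
  rw [Finset.mem_product, Finset.mem_range, Finset.mem_singleton]

lemma lineF_row_column (n : ℕ) : lineF (rowOf (column n)) Finset.univ = {1} := by
  ext g
  rw [mem_lineF, Finset.mem_singleton]
  constructor
  · intro h
    apply Equiv.ext
    intro i
    have h1 := h.2 i
    have h2 := (mem_column.1 ((YoungDiagram.mem_cells _).1 i.2)).2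
    have h3 := (mem_column.1 ((YoungDiagram.mem_cells _).1 (g i).2)).2
    exact Subtype.ext (Prod.ext h1 (h3.trans h2.symm))
  · rintro rfl
    exact ⟨fun _ _ => rfl, fun _ => rfl⟩

lemma lineF_col_column (n : ℕ) : lineF (colOf (column n)) Finset.univ = Finset.univ := by
  ext g
  rw [mem_lineF]
  simp only [Finset.mem_univ, not_true_eq_false, false_implies, implies_true, true_and, iff_true]
  intro i
  have h2 := (mem_column.1 ((YoungDiagram.mem_cells _).1 i.2)).2
  have h3 := (mem_column.1 ((YoungDiagram.mem_cells _).1 (g i).2)).2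
  exact h3.trans h2.symm

lemma card_column (n : ℕ) : Fintype.card (column n).cells = n := by
  rw [Fintype.card_coe]
  simp [column]

section chow

variable {C : TheoryData.{u, v, 0} 𝒱 ℚ} [hC : IsChowProj C] {X : 𝒱.Obj}

include hC

lemma young_column (n : ℕ) (p : C.A (X.prod X)) :
    young (rowOf (column n)) (colOf (column n)) (fun _ => p) Finset.univ =
      comb (fun _ => p) (fun σ => ((Equiv.Perm.sign σ : ℤ) : ℚ)) := by
  rw [young, lineF_row_column, lineF_col_column, Finset.sum_singleton, comb]
  apply Finset.sum_congr rfl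
  intro c _
  rw [inv_one, mul_one]

/-- A combination of permutations of at least one strand of a correspondence that dies. -/
lemma comb_mem {ι : Type} [Fintype ι] [DecidableEq ι] {I : Family C} (hI : IsAdequate C I)
    {p : C.A (X.prod X)} (hpg : p ∈ C.gr (X.prod X) X.dim) (hp : p ∈ I (X.prod X) X.dim)
    (i0 : ι) (α : Equiv.Perm ι → ℚ) : InI I (comb (fun _ => p) α) (Fintype.card ι * X.dim) := by
  intro W x y
  rw [comb_apply]
  apply Submodule.sum_mem
  intro σ _
  apply Submodule.smul_mem
  have h1 : ∀ z t : W ⟶ X, ev p z t ∈ I W X.dim := fun z t => hI.pull_mem (Obj.lift z t) hp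
  have h2 := (prod_congr_mod hI (Finset.univ : Finset ι) (d := X.dim)
    (A := fun i => ev p (x i) (y (σ i))) (B := fun _ => 0)
    (fun i => ev_mem hpg _ _) (fun i => Submodule.zero_mem _) (fun i => by
      rw [sub_zero]
      exact h1 _ _)).2
  have h3 : ∏ i : ι, (fun _ => (0 : C.A W)) i = 0 := Finset.prod_eq_zero (Finset.mem_univ i0) rfl
  rwa [h3, sub_zero, Finset.card_univ] at h2

end chow

end Pool.Agent.Helper70_bl
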