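import Pool.Agent.Helper70_bl.Yg7
import Pool.Agent.Helper70_bl.BlDefs

/-!
# The criteria
-/

open CategoryTheory AlgebraicGeometry

universe u v w

namespace Pool.Agent.Helper70_bl

open Pool.Agent.H914 Pool.Agent.H914.VarClass Pool.Agent.H914.VarClass.Obj Pool.Agent.W492.BB
  Pool.Agent.W550.Corr Pool.Agent.TH133 Pool.Agent.TH829.Prime Pool.Agent.TH829.Kim

set_option linter.unusedSectionVars false

lemma sign_ne_zero (n : ℕ) : (fun σ : Equiv.Perm (Fin n) => ((Equiv.Perm.sign σ : ℤ) : ℚ)) ≠ 0 := by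
  intro h
  have h1 := congrFun h 1
  simp at h1

lemma notMem_column {n r s : ℕ} (hs : s ≠ 0) : (r, s) ∉ column n := fun h1 =>
  hs (mem_column.1 h1).2

theorem main {k : Type u} [Field k] {𝒱 : VarClass k} (C : TheoryData.{u, v, 0} 𝒱 ℚ)
    [IsChowProj C] (hne : ∀ X : 𝒱.Obj, (1 : C.A X) ≠ 0) (X : 𝒱.Obj) (b : ℕ)
    (a a' : Fin b → C.A X) (hD : DualSystem C X b a a') :
    -- (A) modulo an adequate relation `I`
    (∀ I : Family C, IsAdequate C I → List.TFAE [
      rest C a a' ∈ I (X.prod X) X.dim,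
      Relation C (dg C X) I (b + 1) (fun σ => ((Equiv.Perm.sign σ : ℤ) : ℚ)),
      ∃ n ≤ 3 * b + 8, Dependent C (dg C X) I n,
      ∃ μ : YoungDiagram, (b + 2, 2) ∉ μ ∧ SchurZero C (dg C X) I μ,
      Exceptional C (dg C X) I b,
      ∃ n ≤ 8, Dependent C (rest C a a') I n,
      ∃ μ : YoungDiagram, (2, 2) ∉ μ ∧ SchurZero C (rest C a a') I μ,
      Exceptional C (rest C a a') I 0]) ∧
    -- (B) the decomposition of the diagonal up to rational equivalence
    List.TFAE [
      dg C X = ∑ i, C.ext (a i) (a' i),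
      Exceptional C (dg C X) (ratFam C) b,
      ∃ I : Family C, IsAdequate C I ∧
        (∀ z ∈ I (X.prod X) X.dim, SmashNilpotent C z) ∧ Exceptional C (dg C X) I b,
      ∀ P : Family C, IsPrime C P → Exceptional C (dg C X) P b] ∧
    -- (C) zero-cycles
    (dg C X = ∑ i, C.ext (a i) (a' i) →
      ∀ x : C.A X, C.Deg X.dim x → HasDegree C x 0 → x = 0) := by
  obtain ⟨⟨e, hde⟩, hdual, hsym, hb⟩ := hD
  have ha : ∀ i, C.Deg (e i) (a i) := fun i => (hde i).1
  have ha' : ∀ i, C.Deg ((X.dim : ℤ) - e i) (a' i) := fun i => (hde i).2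
  change (∀ I : Family C, IsAdequate C I → List.TFAE [
      dg C X - ∑ i, C.ext (a i) (a' i) ∈ I (X.prod X) X.dim,
      Relation C (dg C X) I (b + 1) (fun σ => ((Equiv.Perm.sign σ : ℤ) : ℚ)),
      ∃ n ≤ 3 * b + 8, Dependent C (dg C X) I n,
      ∃ μ : YoungDiagram, (b + 2, 2) ∉ μ ∧ SchurZero C (dg C X) I μ,
      Exceptional C (dg C X) I b,
      ∃ n ≤ 8, Dependent C (dg C X - ∑ i, C.ext (a i) (a' i)) I n,
      ∃ μ : YoungDiagram, (2, 2) ∉ μ ∧ SchurZero C (dg C X - ∑ i, C.ext (a i) (a' i)) I μ,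
      Exceptional C (dg C X - ∑ i, C.ext (a i) (a' i)) I 0]) ∧ _
  have hb' : HasDegree C (ev (dg C X) (𝟙 X) (𝟙 X)) b := hb
  have hpm : dg C X - ∑ i, C.ext (a i) (a' i) ∈ C.gr (X.prod X) X.dim := by
    rw [← pR_none ha ha']
    exact toA_mem _
  have hA : (∀ I : Family C, IsAdequate C I → List.TFAE [
      dg C X - ∑ i, C.ext (a i) (a' i) ∈ I (X.prod X) X.dim,
      Relation C (dg C X) I (b + 1) (fun σ => ((Equiv.Perm.sign σ : ℤ) : ℚ)),
      ∃ n ≤ 3 * b + 8, Dependent C (dg C X) I n,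
      ∃ μ : YoungDiagram, (b + 2, 2) ∉ μ ∧ SchurZero C (dg C X) I μ,
      Exceptional C (dg C X) I b,
      ∃ n ≤ 8, Dependent C (dg C X - ∑ i, C.ext (a i) (a' i)) I n,
      ∃ μ : YoungDiagram, (2, 2) ∉ μ ∧ SchurZero C (dg C X - ∑ i, C.ext (a i) (a' i)) I μ,
      Exceptional C (dg C X - ∑ i, C.ext (a i) (a' i)) I 0]) := by
    intro I hI
    tfae_have 1 → 2 := by
      intro h
      rw [relation_iff]
      exact rel_of_split ha ha' hI h (by rw [Fintype.card_fin]; omega)
    tfae_have 2 → 3 := fun h => ⟨b + 1, by omega, _, sign_ne_zero (b + 1), h⟩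
    tfae_have 3 → 1 := by
      rintro ⟨n, hn, α, hα, h⟩
      exact split_of_dependent hne ha ha' hdual hsym hb' hI hn hα (relation_iff.1 h)
    tfae_have 1 → 4 := by
      intro h
      refine ⟨column (b + 1), notMem_column (by omega), ?_⟩
      rw [schurZero_iff, young_column]
      exact rel_of_split ha ha' hI h (by rw [card_column]; omega)
    tfae_have 4 → 1 := by
      rintro ⟨μ, hμ, h⟩
      refine split_of_young hne ha ha' hdual hsym hb' hI (isDiag_of μ) (fun i hi => hμ ?_)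
        (schurZero_iff.1 h)
      exact μ.up_left_mem hi.1 hi.2 ((YoungDiagram.mem_cells _).1 i.2)
    tfae_have 2 → 5 := fun h => ⟨b + 1, _, column (b + 1), h, notMem_column (by omega),
      acts_sign (b + 1)⟩
    tfae_have 5 → 1 := fun h => split_of_acts hne ha ha' hdual hsym hb' hI h
    have h16 : dg C X - ∑ i, C.ext (a i) (a' i) ∈ I (X.prod X) X.dim →
        Relation C (dg C X - ∑ i, C.ext (a i) (a' i)) I 1
          (fun σ => ((Equiv.Perm.sign σ : ℤ) : ℚ)) := by
      intro h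
      rw [relation_iff]
      exact comb_mem hI hpm h 0 _
    tfae_have 1 → 6 := fun h => ⟨1, by omega, _, sign_ne_zero 1, h16 h⟩
    tfae_have 6 → 1 := by
      rintro ⟨n, hn, α, hα, h⟩
      exact split_of_dependent_pi hne ha ha' hdual hsym hb' hI hn hα (relation_iff.1 h)
    tfae_have 1 → 7 := by
      intro h
      refine ⟨column (b + 1), notMem_column (by omega), ?_⟩
      rw [schurZero_iff, young_column]
      exact comb_mem hI hpm h ⟨(0, 0), (YoungDiagram.mem_cells _).2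
        (mem_column.2 ⟨by simp, rfl⟩)⟩ _
    tfae_have 7 → 1 := by
      rintro ⟨μ, hμ, h⟩
      refine split_of_young_pi hne ha ha' hdual hsym hb' hI (isDiag_of μ) (fun i hi => hμ ?_)
        (schurZero_iff.1 h)
      exact μ.up_left_mem hi.1 hi.2 ((YoungDiagram.mem_cells _).1 i.2)
    tfae_have 1 → 8 := fun h => ⟨1, _, column 1, h16 h, notMem_column (by omega), acts_sign 1⟩
    tfae_have 8 → 1 := fun h => split_of_acts_pi hne ha ha' hdual hsym hb' hI h
    tfae_finish
  have hA15 := fun (I : Family C) (hI : IsAdequate C I) => (hA I hI).out 0 4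
  have hrat : IsAdequate C (ratFam C) := isAdequate_bot
  have hz : dg C X - ∑ i, C.ext (a i) (a' i) ∈ ratFam C (X.prod X) X.dim ↔
      dg C X = ∑ i, C.ext (a i) (a' i) := by
    change dg C X - ∑ i, C.ext (a i) (a' i) ∈ (⊥ : Submodule ℚ (C.A (X.prod X))) ↔ _
    rw [Submodule.mem_bot, sub_eq_zero]
  have hidem : pR ha ha' none * pR ha ha' none = pR ha ha' none := by
    rw [pR_mul ha ha' hdual, if_pos rfl]
  have h5 : (∀ P : Family C, IsPrime C P → dg C X - ∑ i, C.ext (a i) (a' i) ∈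
      P (X.prod X) X.dim) → dg C X = ∑ i, C.ext (a i) (a' i) := by
    intro h
    have h1 : IsNilpotent (pR ha ha' none) := by
      apply isNilpotent_of_prime
      intro P hP
      refine ⟨1, ?_⟩
      rw [pow_one, mk_eq_zero, pR_none]
      exact h P hP
    obtain ⟨n, hn⟩ := h1
    have h2 : ∀ m : ℕ, pR ha ha' none ^ (m + 1) = pR ha ha' none := by
      intro m
      induction m with
      | zero => rw [zero_add, pow_one]
      | succ m ih => rw [pow_succ, ih, hidem]
    have h3 : pR ha ha' none = 0 := by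
      rw [← h2 n, pow_succ, hn, zero_mul]
    have h4 := pR_none ha ha'
    rw [h3, map_zero] at h4
    exact sub_eq_zero.1 h4.symm
  refine ⟨hA, ?_, fun h x hx hx0 => zero_cycle ha h hx hx0⟩
  tfae_have 1 ↔ 2 := by rw [← hz]; exact hA15 _ hrat
  tfae_have 2 → 3 := fun h => ⟨ratFam C, hrat, fun z hz' => ⟨0, (Submodule.mem_bot ℚ).1 hz'⟩, h⟩
  tfae_have 3 → 1 := by
    rintro ⟨I, hI, hI0, h⟩
    exact h5 ((smashNilpotent_iff hpm).1 (hI0 _ ((hA15 I hI).2 h)))
  tfae_have 1 → 4 := by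
    intro h P hP
    refine (hA15 P hP.toIsAdequate).1 ?_
    rw [h, sub_self]
    exact Submodule.zero_mem _
  tfae_have 4 → 1 := fun h => h5 fun P hP => (hA15 P hP.toIsAdequate).2 (h P hP)
  tfae_finish

end Pool.Agent.Helper70_bl
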