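import Pool.Agent.Helper70_bl.Bl1

/-!
# Relations between permutations modulo an adequate relation
-/

open CategoryTheory AlgebraicGeometry

universe u v w

namespace Pool.Agent.Helper70_bl

open Pool.Agent.H914 Pool.Agent.H914.VarClass Pool.Agent.H914.VarClass.Obj Pool.Agent.W492.BB
  Pool.Agent.W550.Corr Pool.Agent.TH133 Pool.Agent.TH829.Prime Pool.Agent.TH829.Kim

set_option linter.unusedSectionVars false

variable {k : Type u} [Field k] {𝒱 : VarClass k}

section chow

variable {C : TheoryData.{u, v, 0} 𝒱 ℚ} [hC : IsChowProj C] {X Y Z W V : 𝒱.Obj}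
variable {ι : Type} [Fintype ι] [DecidableEq ι]

include hC

/-- The combination `∑ α σ ∏ p i (x i, y (σ i))`. -/
noncomputable def comb (p : ι → C.A (X.prod X)) (α : Equiv.Perm ι → ℚ) : FamI C X ι :=
  ∑ σ, α σ • mon p σ Finset.univ

lemma comb_apply (p : ι → C.A (X.prod X)) (α : Equiv.Perm ι → ℚ) (W : 𝒱.Obj)
    (x y : ι → (W ⟶ X)) : comb p α W x y = ∑ σ, α σ • ∏ i, ev (p i) (x i) (y (σ i)) := by
  rw [comb, Finset.sum_apply, Finset.sum_apply, Finset.sum_apply]
  rfl

/-- Row operations. -/
lemma comb_row (p : ι → C.A (X.prod X)) (α : Equiv.Perm ι → ℚ) (i : ι) (a : C.A (X.prod X))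
    (x y : ι → (W ⟶ X)) :
    comb (Function.update p i (C.comp a (p i))) α W x y =
      C.push (fst W X) (ev a (fst W X ≫ x i) (snd W X) *
        comb p α (W.prod X) (Function.update (fun k => fst W X ≫ x k) i (snd W X))
          (fun k => fst W X ≫ y k)) := by
  rw [comb_apply, comb_apply, Finset.mul_sum, map_sum]
  apply Finset.sum_congr rfl
  intro σ _
  rw [mul_smul_comm, map_smul]
  congr 1
  rw [← Finset.mul_prod_erase Finset.univ _ (Finset.mem_univ i),
    ← Finset.mul_prod_erase Finset.univ _ (Finset.mem_univ i), Function.update_self,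
    Function.update_self, ev_comp, ← C.proj_right, map_prod, ← mul_assoc]
  congr 2
  apply Finset.prod_congr rfl
  intro j hj
  have hji : j ≠ i := (Finset.mem_erase.1 hj).1
  rw [Function.update_of_ne hji, Function.update_of_ne hji, pull_ev]

/-- The family `G` belongs to the adequate relation `I`. -/
def InI (I : Family C) (G : FamI C X ι) (e : ℤ) : Prop := ∀ W x y, G W x y ∈ I W e

lemma InI.row {I : Family C} (hI : IsAdequate C I) {p : ι → C.A (X.prod X)}
    {α : Equiv.Perm ι → ℚ} {e : ℤ} (h : InI I (comb p α) e) (i : ι) {a : C.A (X.prod X)}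
    (ha : a ∈ C.gr (X.prod X) X.dim) :
    InI I (comb (Function.update p i (C.comp a (p i))) α) e := by
  intro W x y
  rw [comb_row]
  have h1 := hI.push_mem (fst W X) (hI.mul_mem' (ev_mem ha (fst W X ≫ x i) (snd W X))
    (h (W.prod X) (Function.update (fun k => fst W X ≫ x k) i (snd W X))
      (fun k => fst W X ≫ y k)))
  refine hI.congr ?_ h1
  rw [dim_prod]; push_cast; ring

lemma InI.rows {I : Family C} (hI : IsAdequate C I) {α : Equiv.Perm ι → ℚ} {e : ℤ}
    (h : InI I (comb (fun _ => dg C X) α) e) {a : ι → C.A (X.prod X)}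
    (ha : ∀ i, a i ∈ C.gr (X.prod X) X.dim) : InI I (comb a α) e := by
  have key : ∀ T : Finset ι, InI I (comb (fun i => if i ∈ T then a i else dg C X) α) e := by
    intro T
    induction T using Finset.induction_on with
    | empty => simpa using h
    | insert i T hi ih =>
      have h1 := ih.row hI i (ha i)
      convert h1 using 2
      funext j
      by_cases hj : j = i
      · subst hj
        rw [Function.update_self, if_pos (Finset.mem_insert_self _ _), if_neg hi, comp_dg]
      · rw [Function.update_of_ne hj]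
        by_cases hjT : j ∈ T
        · rw [if_pos hjT, if_pos (Finset.mem_insert_of_mem hjT)]
        · rw [if_neg hjT, if_neg (by simp [hj, hjT])]
  have := key Finset.univ
  simpa using this

lemma InI.conList {I : Family C} (hI : IsAdequate C I) {G : FamI C X ι} {e : ℤ} (h : InI I G e)
    (l : List ι) : InI I (conList l G) (e - l.length * X.dim) := by
  induction l generalizing G e with
  | nil =>
    intro W x y
    refine hI.congr ?_ (h W x y)
    simp
  | cons c l ih =>
    have h1 : InI I (con c G) (e - X.dim) := by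
      intro W x y
      have h2 := hI.push_mem (fst W X) (h (W.prod X)
        (Function.update (fun i => fst W X ≫ x i) c (snd W X))
        (Function.update (fun i => fst W X ≫ y i) c (snd W X)))
      refine hI.congr ?_ h2
      rw [dim_prod]; push_cast; ring
    intro W x y
    refine hI.congr ?_ (ih h1 W x y)
    rw [List.length_cons]
    push_cast; ring

open Classical in
/-- If a combination of permutations dies then the sum of its coefficients at the good permutations
is zero or the idempotent `P none` dies. -/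
theorem mem_of_sum_ne_zero' {I : Family C} (hI : IsAdequate C I) {α : Equiv.Perm ι → ℚ}
    {L : Type} (w : ι → Option L) {P : Option L → C.A (X.prod X)}
    (h1 : InI I (comb (fun i => P (w i)) α) (Fintype.card ι * X.dim))
    (hP : ∀ s t, C.comp (P s) (P t) = if s = t then P s else 0)
    (hP0 : HasDegree C (ev (P none) (𝟙 X) (𝟙 X)) 0)
    (hP1 : ∀ l, HasDegree C (ev (P (some l)) (𝟙 X) (𝟙 X)) 1) {i0 : ι} (hw0 : w i0 = none)
    (hne : ∑ σ : Equiv.Perm ι, (if Good w σ Finset.univ then α σ else 0) ≠ 0) :
    P none ∈ I (X.prod X) X.dim := by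
  set l : List ι := (Finset.univ.erase i0).toList with hl
  have h2 := h1.conList hI l
  have h3 : conList l (comb (fun i => P (w i)) α) =
      (∑ σ : Equiv.Perm ι, (if Good w σ Finset.univ then α σ else 0)) •
        mon (fun _ => P none) 1 {i0} := by
    rw [comb, map_sum, Finset.sum_smul]
    apply Finset.sum_congr rfl
    intro σ _
    rw [map_smul, conList_mon w hP hP0 hP1 hw0 l (Finset.nodup_toList _) (by simp [hl])
      Finset.univ (by
        rw [hl, Finset.toList_toFinset, Finset.insert_erase (Finset.mem_univ _)]) σ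
      (fun i _ => Finset.mem_univ _), smul_smul]
    congr 1
    split_ifs <;> simp
  rw [h3] at h2
  have h4 := h2 (X.prod X) (fun _ => fst X X) (fun _ => snd X X)
  have h5 : mon (ι := ι) (fun _ => P none) 1 {i0} (X.prod X) (fun _ => fst X X)
      (fun _ => snd X X) = P none := by
    change ∏ i ∈ {i0}, ev (P none) (fst X X) (snd X X) = _
    rw [Finset.prod_singleton, ev_univ]
  have h6 : (∑ σ : Equiv.Perm ι, (if Good w σ Finset.univ then α σ else 0)) • P none ∈
      I (X.prod X) X.dim := by
    have h7 : ((∑ σ : Equiv.Perm ι, (if Good w σ Finset.univ then α σ else 0)) •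
        mon (ι := ι) (C := C) (X := X) (fun _ => P none) 1 {i0}) (X.prod X) (fun _ => fst X X)
        (fun _ => snd X X) = (∑ σ : Equiv.Perm ι, (if Good w σ Finset.univ then α σ else 0)) •
          P none := by
      rw [Pi.smul_apply, Pi.smul_apply, Pi.smul_apply, h5]
    rw [h7] at h4
    refine hI.congr ?_ h4
    have h8 : l.length + 1 = Fintype.card ι := by
      rw [hl, Finset.length_toList, Finset.card_erase_of_mem (Finset.mem_univ _),
        Finset.card_univ]
      have : 0 < Fintype.card ι := Fintype.card_pos_iff.2 ⟨i0⟩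
      omega
    rw [← h8]
    push_cast
    ring
  have h9 := Submodule.smul_mem _ (∑ σ : Equiv.Perm ι,
    (if Good w σ Finset.univ then α σ else 0))⁻¹ h6
  rwa [smul_smul, inv_mul_cancel₀ hne, one_smul] at h9

open Classical in
/-- The same, starting from a combination of permutations of the whole motive. -/
theorem mem_of_sum_ne_zero {I : Family C} (hI : IsAdequate C I) {α : Equiv.Perm ι → ℚ}
    (h : InI I (comb (fun _ => dg C X) α) (Fintype.card ι * X.dim))
    {L : Type} (w : ι → Option L) {P : Option L → C.A (X.prod X)}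
    (hPd : ∀ s, P s ∈ C.gr (X.prod X) X.dim)
    (hP : ∀ s t, C.comp (P s) (P t) = if s = t then P s else 0)
    (hP0 : HasDegree C (ev (P none) (𝟙 X) (𝟙 X)) 0)
    (hP1 : ∀ l, HasDegree C (ev (P (some l)) (𝟙 X) (𝟙 X)) 1) {i0 : ι} (hw0 : w i0 = none)
    (hne : ∑ σ : Equiv.Perm ι, (if Good w σ Finset.univ then α σ else 0) ≠ 0) :
    P none ∈ I (X.prod X) X.dim :=
  mem_of_sum_ne_zero' hI w (h.rows hI (a := fun i => P (w i)) (fun i => hPd _)) hP hP0 hP1 hw0 hne

/-- Translates of relations. -/
lemma InI.translate {I : Family C} {α : Equiv.Perm ι → ℚ} {e : ℤ} {p : C.A (X.prod X)}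
    (h : InI I (comb (fun _ => p) α) e) (g g' : Equiv.Perm ι) :
    InI I (comb (fun _ => p) (fun σ => α (g * σ * g'))) e := by
  intro W x y
  have h1 := h W (fun i => x (g' i)) (fun i => y (g⁻¹ i))
  rw [comb_apply] at h1 ⊢
  convert h1 using 1
  symm
  rw [← Equiv.sum_comp ((Equiv.mulLeft g).trans (Equiv.mulRight g'))]
  apply Finset.sum_congr rfl
  intro σ _
  congr 1
  symm
  rw [← Equiv.prod_comp g']
  apply Finset.prod_congr rfl
  intro i _
  change ev _ (x (g' i)) (y (σ (g' i))) = ev _ (x (g' i)) (y (g⁻¹ ((g * σ * g') i)))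
  simp

end chow

end Pool.Agent.Helper70_bl
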