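import Mathlib.Algebra.BigOperators.Group.Finset.Basic
import Mathlib.GroupTheory.Perm.Sign
import Mathlib.Data.Rat.Defs
import Mathlib.Tactic

/-!
# Tensor powers of a super vector space
-/

namespace Pool.Agent.Helper70_bl

/-! ### Tensor powers of a super vector space -/

section super

variable {ι : Type} {L : Type}

/-- The group of the permutations `σ` preserving the labelling `w`: `w (σ i) = w i`. -/
def stab (w : ι → L) : Subgroup (Equiv.Perm ι) where
  carrier := {σ | ∀ i, w (σ i) = w i}
  mul_mem' {a b} ha hb i := by
    rw [Equiv.Perm.mul_apply]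
    exact (ha (b i)).trans (hb i)
  one_mem' i := rfl
  inv_mem' {a} ha i := by
    have h := ha (a⁻¹ i)
    have h' : a (a⁻¹ i) = i := a.apply_symm_apply i
    rw [h'] at h
    exact h.symm

variable [Fintype ι] [DecidableEq ι]

noncomputable instance (w : ι → L) : Fintype (stab w) := Fintype.ofFinite _

/-- For a labelling `w` and a permutation `σ` preserving it: the sign of the permutation induced by
`σ` on the set of all `i` with `w i = none`. -/
def oddSign (w : ι → Option L) : stab w →* ℤˣ where
  toFun σ := Equiv.Perm.sign (σ.1.subtypePerm (p := fun i => w i = none) (fun i => by rw [σ.2 i]))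
  map_one' := by
    rw [← Equiv.Perm.sign_one (α := {i // w i = none})]
    rfl
  map_mul' a b := by
    rw [← Equiv.Perm.sign_mul]
    rfl

/-- The sign `oddSign` as a rational number. -/
def eps (w : ι → Option L) (σ : stab w) : ℚ := ((oddSign w σ : ℤ) : ℚ)

/-- The element `∑ α σ · σ` of the group algebra of the symmetric group acts as zero on the tensor
power `V^{⊗ ι}` of the super vector space `V = ℚ^{p|1}` with `p` even basis vectors (labelled by
`some 0, …, some (p - 1)`) and one odd basis vector (labelled by `none`). The number below is, up to
sign, the coefficient of the basis tensor `e_{w ∘ τ⁻¹}` in the image of the basis tensor `e_w`. -/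
def ZeroOn (p : ℕ) (α : Equiv.Perm ι → ℚ) : Prop :=
  ∀ (w : ι → Option (Fin p)) (τ : Equiv.Perm ι), ∑ σ : stab w, eps w σ * α (τ * σ.1) = 0

end super

end Pool.Agent.Helper70_bl
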