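import Pool.Agent.Helper70_bl.Bl2
import Pool.Agent.Helper70_bl.Sup
import Mathlib.GroupTheory.Perm.Cycle.Basic

/-!
# Permutations of a set of labelled elements
-/

namespace Pool.Agent.Helper70_bl

open Equiv

variable {ι : Type} [Fintype ι] [DecidableEq ι] {L M : Type}

set_option linter.unusedSectionVars false
set_option linter.style.haveILetI false

lemma app_inv {α : Type} (σ : Equiv.Perm α) (x : α) : σ (σ⁻¹ x) = x := σ.apply_symm_apply x

lemma inv_app {α : Type} (σ : Equiv.Perm α) (x : α) : σ⁻¹ (σ x) = x := σ.symm_apply_apply x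

lemma oddSign_apply (w : ι → Option L) (σ : stab w) : oddSign w σ =
    Perm.sign (σ.1.subtypePerm (p := fun i => w i = none) (fun i => by rw [σ.2 i])) := rfl

lemma eps_mul (w : ι → Option L) (σ τ : stab w) : eps w (σ * τ) = eps w σ * eps w τ := by
  rw [eps, eps, eps, map_mul]
  push_cast
  rfl

lemma eps_one (w : ι → Option L) : eps w 1 = 1 := by
  rw [eps, map_one]
  norm_num

lemma eps_sq (w : ι → Option L) (σ : stab w) : eps w σ * eps w σ = 1 := by
  rw [eps]
  rcases Int.units_eq_one_or (oddSign w σ) with h | h <;> rw [h] <;> norm_num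

lemma swap_mem_stab {w : ι → L} {a b : ι} (h : w a = w b) : Equiv.swap a b ∈ stab w := by
  intro i
  rw [Equiv.swap_apply_def]
  split_ifs with h1 h2
  · rw [h1, h]
  · rw [h2, h]
  · rfl

lemma oddSign_swap_none {w : ι → Option L} {a b : ι} (hab : a ≠ b) (ha : w a = none)
    (hb : w b = none) (h : Equiv.swap a b ∈ stab w) : oddSign w ⟨Equiv.swap a b, h⟩ = -1 := by
  have h1 : (Equiv.swap a b).subtypePerm (p := fun i => w i = none) (fun i => by rw [h i]) =
      Equiv.swap (⟨a, ha⟩ : {i // w i = none}) ⟨b, hb⟩ := by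
    apply Equiv.ext
    rintro ⟨x, hx⟩
    apply Subtype.ext
    change Equiv.swap a b x = _
    rw [Equiv.swap_apply_def, Equiv.swap_apply_def]
    simp only [Subtype.mk.injEq]
    split_ifs <;> rfl
  rw [oddSign_apply]
  change Perm.sign ((Equiv.swap a b).subtypePerm (p := fun i => w i = none) _) = -1
  rw [h1, Perm.sign_swap]
  intro h2
  exact hab (Subtype.ext_iff.1 h2)

lemma oddSign_of_fix {w : ι → Option L} {σ : Equiv.Perm ι} (h : σ ∈ stab w)
    (hf : ∀ i, w i = none → σ i = i) : oddSign w ⟨σ, h⟩ = 1 := by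
  have h1 : σ.subtypePerm (p := fun i => w i = none) (fun i => by rw [h i]) = 1 := by
    apply Equiv.ext
    rintro ⟨x, hx⟩
    apply Subtype.ext
    exact hf x hx
  rw [oddSign_apply]
  change Perm.sign (σ.subtypePerm (p := fun i => w i = none) _) = 1
  rw [h1, Perm.sign_one]

/-- Transitive permutations all have the same sign. -/
lemma exists_sign_const (β : Type) [Fintype β] [DecidableEq β] : ∃ c : ℤˣ, ∀ τ : Equiv.Perm β,
    (∀ A : Finset β, (∀ i ∈ A, τ i ∈ A) → A = ∅ ∨ A = Finset.univ) → Perm.sign τ = c := by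
  by_cases hc : Fintype.card β ≤ 1
  · refine ⟨1, fun τ _ => ?_⟩
    haveI := Fintype.card_le_one_iff_subsingleton.1 hc
    rw [Subsingleton.elim τ 1, Perm.sign_one]
  · refine ⟨-(-1) ^ Fintype.card β, fun τ h => ?_⟩
    have hfix : ∀ x, τ x ≠ x := by
      intro x hx
      rcases h {x} (fun i hi => by
        rw [Finset.mem_singleton.1 hi, hx]; exact Finset.mem_singleton_self _) with h1 | h1
      · exact Finset.singleton_ne_empty _ h1
      · have h2 := congrArg Finset.card h1
        rw [Finset.card_singleton, Finset.card_univ] at h2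
        omega
    have hsame : ∀ x y, τ.SameCycle x y := by
      intro x y
      classical
      rcases h (Finset.univ.filter (fun z => τ.SameCycle x z)) (fun i hi => by
        rw [Finset.mem_filter] at hi ⊢
        exact ⟨Finset.mem_univ _, hi.2.apply_right⟩) with h1 | h1
      · have h2 : x ∈ Finset.univ.filter (fun z => τ.SameCycle x z) :=
          Finset.mem_filter.2 ⟨Finset.mem_univ _, Perm.SameCycle.refl _ _⟩
        rw [h1] at h2
        exact absurd h2 (Finset.notMem_empty _)
      · have h2 : y ∈ Finset.univ.filter (fun z => τ.SameCycle x z) := by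
          rw [h1]
          exact Finset.mem_univ _
        exact (Finset.mem_filter.1 h2).2
    obtain ⟨x0⟩ : Nonempty β := Fintype.card_pos_iff.1 (by omega)
    have hcyc : τ.IsCycle := ⟨x0, hfix x0, fun y _ => hsame x0 y⟩
    have hsupp : τ.support = Finset.univ := by
      rw [Finset.eq_univ_iff_forall]
      exact fun x => Perm.mem_support.2 (hfix x)
    rw [hcyc.sign, hsupp, Finset.card_univ]

/-- A finite set stable under a permutation is stable under the inverse. -/
lemma mem_of_closed {A : Finset ι} {g : Equiv.Perm ι} (h : ∀ i ∈ A, g i ∈ A) {i : ι}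
    (hi : g i ∈ A) : i ∈ A := by
  have h1 : A.image g = A := by
    apply Finset.eq_of_subset_of_card_le
    · intro j hj
      obtain ⟨i, hi, rfl⟩ := Finset.mem_image.1 hj
      exact h i hi
    · rw [Finset.card_image_of_injective _ g.injective]
  rw [← h1] at hi
  obtain ⟨j, hj, h2⟩ := Finset.mem_image.1 hi
  rwa [← g.injective h2]

lemma cyc_closed {c : Equiv.Perm ι} {S : Finset ι} (hc : c.IsCycleOn S) {A : Finset ι}
    (hA : ∀ i ∈ A, i ∈ S → c i ∈ A) {a : ι} (ha : a ∈ A) (haS : a ∈ S) : ∀ b ∈ S, b ∈ A := by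
  intro b hb
  obtain ⟨n, hn⟩ := hc.exists_pow_eq haS hb
  have key : ∀ n : ℕ, (c ^ n) a ∈ A ∧ (c ^ n) a ∈ S := by
    intro n
    induction n with
    | zero => exact ⟨ha, haS⟩
    | succ n ih =>
      rw [pow_succ', Perm.mul_apply]
      exact ⟨hA _ ih.1 ih.2, hc.1.mapsTo ih.2⟩
  rw [← hn.2]
  exact (key n).1

/-- The data of a labelling `w` and of the labelling `v` obtained by forgetting the label `l0`. -/
structure Merge (w : ι → Option L) (v : ι → Option M) (l0 : L) : Prop where
  none_iff : ∀ i, v i = none ↔ w i = none ∨ w i = some l0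
  eq_iff : ∀ i j, v i ≠ none → (v i = v j ↔ w i = w j)

section merge

variable {w : ι → Option L} {v : ι → Option M} {l0 : L}

lemma Merge.stab_le (h : Merge w v l0) : stab w ≤ stab v := by
  intro σ hσ i
  by_cases hi : v i = none
  · rw [hi, h.none_iff, hσ i, ← h.none_iff, hi]
  · exact ((h.eq_iff i (σ i) hi).2 (hσ i).symm).symm

lemma good_conj {σ g : Equiv.Perm ι} (hg : g ∈ stab v) (h : Good v σ Finset.univ) :
    Good v (g * σ * g⁻¹) Finset.univ := by
  obtain ⟨h1, h2⟩ := h
  have hσ : σ ∈ stab v := fun i => h1 i (Finset.mem_univ _)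
  refine ⟨fun i _ => (mul_mem (mul_mem hg hσ) (inv_mem hg) : g * σ * g⁻¹ ∈ stab v) i,
    fun A _ hA1 hA2 => ?_⟩
  rcases h2 (A.image (fun i => g⁻¹ i)) (Finset.subset_univ _) (fun i hi => by
      obtain ⟨j, hj, rfl⟩ := Finset.mem_image.1 hi
      rw [(inv_mem hg : g⁻¹ ∈ stab v) j]
      exact hA1 j hj) (fun i hi => by
      obtain ⟨j, hj, rfl⟩ := Finset.mem_image.1 hi
      refine Finset.mem_image.2 ⟨(g * σ * g⁻¹) j, hA2 j hj, ?_⟩
      beta_reduce
      rw [Perm.mul_apply, Perm.mul_apply, inv_app]) with h3 | h3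
  · exact Or.inl (Finset.image_eq_empty.1 h3)
  · refine Or.inr fun i _ hi => ?_
    have h4 := h3 (g⁻¹ i) (Finset.mem_univ _) (by
      rw [(inv_mem hg : g⁻¹ ∈ stab v) i, hi])
    obtain ⟨j, hj, h5⟩ := Finset.mem_image.1 h4
    rwa [← (g⁻¹ : Equiv.Perm ι).injective h5]

end merge

end Pool.Agent.Helper70_bl
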