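import Pool.Agent.Helper70_bl.Bl3

/-!
# Good permutations
-/

namespace Pool.Agent.Helper70_bl

open Equiv

set_option linter.unusedSectionVars false
set_option linter.style.haveILetI false

variable {ι : Type} [Fintype ι] [DecidableEq ι] {L M : Type}
variable {w : ι → Option L} {v : ι → Option M} {l0 : L}

lemma sign_good_A (h : Merge w v l0) {e o : ι} (he : w e = some l0) (ho : w o = none) :
    ∃ c : ℤˣ, ∀ g : stab w, Good v (g.1 * swap e o) Finset.univ → oddSign w g = c := by
  obtain ⟨c, hc⟩ := exists_sign_const {i // w i = none}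
  refine ⟨c, fun g hg => hc _ fun A hA => ?_⟩
  have hs : ∀ i, w i = none → i ≠ o → (g.1 * swap e o) i = g.1 i := by
    intro i hi hio
    rw [Perm.mul_apply, Equiv.swap_apply_of_ne_of_ne _ hio]
    rintro rfl
    rw [he] at hi
    exact absurd hi (Option.some_ne_none _)
  by_cases hoA : (⟨o, ho⟩ : {i // w i = none}) ∈ A
  · right
    have h1 := hg.2 ((Finset.univ.filter (fun x : {i // w i = none} => x ∉ A)).image Subtype.val)
      (Finset.subset_univ _) (fun i hi => by
        obtain ⟨x, hx, rfl⟩ := Finset.mem_image.1 hi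
        exact (h.none_iff _).2 (Or.inl x.2)) (fun i hi => by
        obtain ⟨x, hx, rfl⟩ := Finset.mem_image.1 hi
        have hx' : x ∉ A := (Finset.mem_filter.1 hx).2
        rw [hs x.1 x.2 (by rintro h2; exact hx' (by
          have : x = ⟨o, ho⟩ := Subtype.ext h2
          rw [this]; exact hoA))]
        refine Finset.mem_image.2 ⟨⟨g.1 x.1, by rw [g.2 x.1]; exact x.2⟩, ?_, rfl⟩
        rw [Finset.mem_filter]
        refine ⟨Finset.mem_univ _, fun h2 => hx' ?_⟩
        exact mem_of_closed hA (i := x) h2)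
    rcases h1 with h1 | h1
    · rw [Finset.eq_univ_iff_forall]
      intro x
      by_contra hx
      have h2 := Finset.image_eq_empty.1 h1
      have h3 : x ∈ Finset.univ.filter (fun x : {i // w i = none} => x ∉ A) :=
        Finset.mem_filter.2 ⟨Finset.mem_univ _, hx⟩
      rw [h2] at h3
      exact absurd h3 (Finset.notMem_empty _)
    · obtain ⟨x, -, hx⟩ := Finset.mem_image.1 (h1 e (Finset.mem_univ _)
        ((h.none_iff _).2 (Or.inr he)))
      have h2 := x.2
      rw [hx, he] at h2
      exact absurd h2 (Option.some_ne_none _)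
  · left
    have h1 := hg.2 (A.image Subtype.val)
      (Finset.subset_univ _) (fun i hi => by
        obtain ⟨x, hx, rfl⟩ := Finset.mem_image.1 hi
        exact (h.none_iff _).2 (Or.inl x.2)) (fun i hi => by
        obtain ⟨x, hx, rfl⟩ := Finset.mem_image.1 hi
        rw [hs x.1 x.2 (by rintro h2; exact hoA (by
          have : x = ⟨o, ho⟩ := Subtype.ext h2
          rw [← this]; exact hx))]
        exact Finset.mem_image.2 ⟨_, hA x hx, rfl⟩)
    rcases h1 with h1 | h1
    · exact Finset.image_eq_empty.1 h1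
    · obtain ⟨x, -, hx⟩ := Finset.mem_image.1 (h1 e (Finset.mem_univ _)
        ((h.none_iff _).2 (Or.inr he)))
      have h2 := x.2
      rw [hx, he] at h2
      exact absurd h2 (Option.some_ne_none _)

lemma sign_good_B (h : Merge w v l0) :
    ∃ c : ℤˣ, ∀ g : stab w, Good v g.1 Finset.univ → oddSign w g = c := by
  obtain ⟨c, hc⟩ := exists_sign_const {i // w i = none}
  refine ⟨c, fun g hg => hc _ fun A hA => ?_⟩
  have h1 := hg.2 (A.image Subtype.val)
    (Finset.subset_univ _) (fun i hi => by
      obtain ⟨x, hx, rfl⟩ := Finset.mem_image.1 hi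
      exact (h.none_iff _).2 (Or.inl x.2)) (fun i hi => by
      obtain ⟨x, hx, rfl⟩ := Finset.mem_image.1 hi
      exact Finset.mem_image.2 ⟨_, hA x hx, rfl⟩)
  rcases h1 with h1 | h1
  · exact Or.inl (Finset.image_eq_empty.1 h1)
  · right
    rw [Finset.eq_univ_iff_forall]
    intro x
    obtain ⟨y, hy, hyx⟩ := Finset.mem_image.1 (h1 x.1 (Finset.mem_univ _)
      ((h.none_iff _).2 (Or.inl x.2)))
    rwa [← Subtype.ext hyx]

lemma exists_good_A (h : Merge w v l0) {e o : ι} (he : w e = some l0) (ho : w o = none) :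
    ∃ g : stab w, Good v (g.1 * swap e o) Finset.univ := by
  classical
  obtain ⟨cE, hE1, hE2⟩ := Finset.exists_cycleOn (Finset.univ.filter (fun i => w i = some l0))
  obtain ⟨cO, hO1, hO2⟩ := Finset.exists_cycleOn (Finset.univ.filter (fun i => w i = none))
  have memE : ∀ i, i ∈ Finset.univ.filter (fun i => w i = some l0) ↔ w i = some l0 := by simp
  have memO : ∀ i, i ∈ Finset.univ.filter (fun i => w i = none) ↔ w i = none := by simp
  have fE : ∀ i, w i ≠ some l0 → cE i = i := by
    intro i hi
    by_contra hc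
    exact hi ((memE i).1 (hE2 (Perm.mem_support.2 hc)))
  have fO : ∀ i, w i ≠ none → cO i = i := by
    intro i hi
    by_contra hc
    exact hi ((memO i).1 (hO2 (Perm.mem_support.2 hc)))
  have mE : ∀ i, w i = some l0 → w (cE i) = some l0 := fun i hi =>
    (memE _).1 (hE1.1.mapsTo ((memE i).2 hi))
  have mO : ∀ i, w i = none → w (cO i) = none := fun i hi =>
    (memO _).1 (hO1.1.mapsTo ((memO i).2 hi))
  have gE : ∀ i, w i = some l0 → (cE * cO) i = cE i := by
    intro i hi
    rw [Perm.mul_apply, fO i (by rw [hi]; exact Option.some_ne_none _)]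
  have gO : ∀ i, w i = none → (cE * cO) i = cO i := by
    intro i hi
    rw [Perm.mul_apply, fE _ (by rw [mO i hi]; exact (Option.some_ne_none _).symm)]
  have hg : cE * cO ∈ stab w := by
    intro i
    by_cases h1 : w i = some l0
    · rw [gE i h1, mE i h1, h1]
    · by_cases h2 : w i = none
      · rw [gO i h2, mO i h2, h2]
      · rw [Perm.mul_apply, fO i h2, fE i h1]
  have heo : e ≠ o := by
    rintro rfl
    rw [he] at ho
    exact absurd ho (Option.some_ne_none _)
  have hse : (cE * cO * swap e o) e = cO o := by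
    rw [Perm.mul_apply, swap_apply_left, gO o ho]
  have hso : (cE * cO * swap e o) o = cE e := by
    rw [Perm.mul_apply, swap_apply_right, gE e he]
  have hsi : ∀ i, i ≠ e → i ≠ o → (cE * cO * swap e o) i = (cE * cO) i := by
    intro i h1 h2
    rw [Perm.mul_apply, swap_apply_of_ne_of_ne h1 h2]
  have hv : cE * cO * swap e o ∈ stab v := mul_mem (h.stab_le hg)
    (swap_mem_stab (by rw [(h.none_iff e).2 (Or.inr he), (h.none_iff o).2 (Or.inl ho)]))
  -- sets without `e` or `o`
  have stepE : ∀ B : Finset ι, (∀ i ∈ B, (cE * cO * swap e o) i ∈ B) → e ∉ B →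
      ∀ b ∈ B, w b = some l0 → False := by
    intro B hB heB b hb hwb
    apply heB
    refine cyc_closed hE1 (A := B) (fun i hi hiE => ?_) hb ((memE b).2 hwb) e ((memE e).2 he)
    have h1 := (memE i).1 hiE
    rw [← gE i h1, ← hsi i (by rintro rfl; exact heB hi)
      (by rintro rfl; rw [ho] at h1; exact absurd h1 (Option.some_ne_none _).symm)]
    exact hB i hi
  have stepO : ∀ B : Finset ι, (∀ i ∈ B, (cE * cO * swap e o) i ∈ B) → o ∉ B →
      ∀ b ∈ B, w b = none → False := by
    intro B hB hoB b hb hwb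
    apply hoB
    refine cyc_closed hO1 (A := B) (fun i hi hiO => ?_) hb ((memO b).2 hwb) o ((memO o).2 ho)
    have h1 := (memO i).1 hiO
    rw [← gO i h1, ← hsi i (by rintro rfl; rw [he] at h1; exact absurd h1 (Option.some_ne_none _))
      (by rintro rfl; exact hoB hi)]
    exact hB i hi
  refine ⟨⟨cE * cO, hg⟩, fun i _ => hv i, fun A _ hA1 hA2 => ?_⟩
  change ∀ i ∈ A, (cE * cO * swap e o) i ∈ A at hA2
  by_cases heA : e ∈ A
  · by_cases hoA : o ∈ A
    · right
      intro i _ hi
      by_contra hiA
      -- the complement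
      set B := Finset.univ.filter (fun j => v j = none ∧ j ∉ A) with hB
      have hB2 : ∀ j ∈ B, (cE * cO * swap e o) j ∈ B := by
        intro j hj
        obtain ⟨-, h1, h2⟩ := Finset.mem_filter.1 hj
        exact Finset.mem_filter.2 ⟨Finset.mem_univ _, by rw [hv j, h1],
          fun h3 => h2 (mem_of_closed hA2 h3)⟩
      have hiB : i ∈ B := Finset.mem_filter.2 ⟨Finset.mem_univ _, hi, hiA⟩
      rcases (h.none_iff i).1 hi with h1 | h1
      · exact stepO B hB2 (fun h2 => (Finset.mem_filter.1 h2).2.2 hoA) i hiB h1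
      · exact stepE B hB2 (fun h2 => (Finset.mem_filter.1 h2).2.2 heA) i hiB h1
    · exfalso
      have h1 := hA2 e heA
      rw [hse] at h1
      exact stepO A hA2 hoA _ h1 (mO o ho)
  · by_cases hoA : o ∈ A
    · exfalso
      have h1 := hA2 o hoA
      rw [hso] at h1
      exact stepE A hA2 heA _ h1 (mE e he)
    · left
      rw [Finset.eq_empty_iff_forall_notMem]
      intro b hb
      rcases (h.none_iff b).1 (hA1 b hb) with h1 | h1
      · exact stepO A hA2 hoA b hb h1
      · exact stepE A hA2 heA b hb h1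

lemma exists_good_B (hI : ∀ i j, v i = none → v j = none → w i = w j) :
    ∃ g : stab w, Good v g.1 Finset.univ := by
  classical
  obtain ⟨c, h1, h2⟩ := Finset.exists_cycleOn (Finset.univ.filter (fun i => v i = none))
  have memI : ∀ i, i ∈ Finset.univ.filter (fun i => v i = none) ↔ v i = none := by simp
  have f : ∀ i, v i ≠ none → c i = i := by
    intro i hi
    by_contra hc
    exact hi ((memI i).1 (h2 (Perm.mem_support.2 hc)))
  have m : ∀ i, v i = none → v (c i) = none := fun i hi =>
    (memI _).1 (h1.1.mapsTo ((memI i).2 hi))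
  have hg : c ∈ stab w := by
    intro i
    by_cases hi : v i = none
    · exact hI _ _ (m i hi) hi
    · rw [f i hi]
  have hv : c ∈ stab v := by
    intro i
    by_cases hi : v i = none
    · rw [m i hi, hi]
    · rw [f i hi]
  refine ⟨⟨c, hg⟩, fun i _ => hv i, fun A _ hA1 hA2 => ?_⟩
  by_cases hA : A = ∅
  · exact Or.inl hA
  · right
    obtain ⟨a, ha⟩ := Finset.nonempty_iff_ne_empty.2 hA
    intro i _ hi
    exact cyc_closed h1 (A := A) (fun j hj _ => hA2 j hj) ha ((memI a).2 (hA1 a ha)) i
      ((memI i).2 hi)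

end Pool.Agent.Helper70_bl
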