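import Pool.Agent.Helper70_bl.Bl4

/-!
# The coefficients on a super vector space
-/

namespace Pool.Agent.Helper70_bl

open Equiv

set_option linter.unusedSectionVars false
set_option linter.style.haveILetI false

variable {ι : Type} [Fintype ι] [DecidableEq ι] {L M : Type}
variable {w : ι → Option L} {v : ι → Option M} {l0 : L}

open Classical in
/-- The indicator function of the good permutations. -/
noncomputable def FF (v : ι → Option M) (σ : Perm ι) : ℚ := if Good v σ Finset.univ then 1 else 0

lemma good_of_FF {σ : Perm ι} (h : FF v σ ≠ 0) : Good v σ Finset.univ := by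
  by_contra hc
  exact h (if_neg hc)

lemma FF_of_good {σ : Perm ι} (h : Good v σ Finset.univ) : FF v σ = 1 := if_pos h

lemma FF_nonneg (σ : Perm ι) : 0 ≤ FF v σ := by
  unfold FF
  split_ifs <;> norm_num

lemma FF_conj {σ g : Perm ι} (hg : g ∈ stab v) : FF v (g * σ * g⁻¹) = FF v σ := by
  unfold FF
  congr 1
  apply propext
  constructor
  · intro h
    have h1 := good_conj (inv_mem hg) h
    have e : g⁻¹ * (g * σ * g⁻¹) * g⁻¹⁻¹ = σ := by group
    rwa [e] at h1
  · exact good_conj hg

lemma sum_FF {α : Perm ι → ℚ} (H : ∀ g g' : Perm ι, ∑ σ, FF v σ * α (g * σ * g') = 0)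
    (g g' : Perm ι) : ∑ ρ, FF v (g * ρ * g') * α ρ = 0 := by
  rw [← H g⁻¹ g'⁻¹, ← Equiv.sum_comp ((Equiv.mulLeft g).trans (Equiv.mulRight g'))
    (fun σ => FF v σ * α (g⁻¹ * σ * g'⁻¹))]
  apply Finset.sum_congr rfl
  intro ρ _
  change FF v (g * ρ * g') * α ρ = FF v (g * ρ * g') * α (g⁻¹ * (g * ρ * g') * g'⁻¹)
  congr 2
  group

/-- A function with the same equivariance on both sides. -/
structure BiEq (w : ι → Option L) (v : ι → Option M) (Φ : Perm ι → ℚ) : Prop where
  left : ∀ (g : stab w) (ρ : Perm ι), Φ (g.1 * ρ) = eps w g * Φ ρ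
  right : ∀ (g : stab w) (ρ : Perm ι), Φ (ρ * g.1) = eps w g * Φ ρ
  supp : ∀ ρ, Φ ρ ≠ 0 → ρ ∈ stab v

lemma bi_cases (h : Merge w v l0) {e o : ι} (he : w e = some l0) (ho : w o = none) (ρ : Perm ι) :
    ρ ∈ stab w ∨ (∃ g g' : stab w, ρ = g.1 * swap e o * g'.1) ∨
      ∀ Φ : Perm ι → ℚ, BiEq w v Φ → Φ ρ = 0 := by
  classical
  by_cases hv : ρ ∈ stab v
  swap
  · exact Or.inr (Or.inr fun Φ hΦ => by by_contra hc; exact hv (hΦ.supp ρ hc))
  have hT : ∀ i, v i ≠ none → w (ρ i) = w i := fun i hi => ((h.eq_iff i (ρ i) hi).1 (hv i).symm).symm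
  have hI : ∀ i, v i = none → w (ρ i) = none ∨ w (ρ i) = some l0 := fun i hi =>
    (h.none_iff _).1 (by rw [hv i, hi])
  by_cases h0 : ∀ i, w i = some l0 → w (ρ i) = some l0
  · left
    intro i
    by_cases hi : v i = none
    · rcases (h.none_iff i).1 hi with h1 | h1
      · rcases hI i hi with h2 | h2
        · rw [h2, h1]
        · exfalso
          have h3 : i ∈ Finset.univ.filter (fun j => w j = some l0) :=
            mem_of_closed (g := ρ) (fun j hj => by
              simp only [Finset.mem_filter, Finset.mem_univ, true_and] at hj ⊢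
              exact h0 j hj) (by
              simp only [Finset.mem_filter, Finset.mem_univ, true_and]
              exact h2)
          have h4 := (Finset.mem_filter.1 h3).2
          rw [h1] at h4
          exact absurd h4 (Option.some_ne_none _).symm
      · rw [h0 i h1, h1]
    · exact hT i hi
  right
  push Not at h0
  obtain ⟨e1, he1, hρe1⟩ := h0
  have hρe1' : w (ρ e1) = none := (hI e1 ((h.none_iff _).2 (Or.inr he1))).resolve_right hρe1
  by_cases h2 : ∃ e2, e2 ≠ e1 ∧ w e2 = some l0 ∧ w (ρ e2) = none
  · right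
    obtain ⟨e2, h21, he2, hρe2⟩ := h2
    intro Φ hΦ
    have ht : swap e1 e2 ∈ stab w := swap_mem_stab (by rw [he1, he2])
    have ht' : swap (ρ e1) (ρ e2) ∈ stab w := swap_mem_stab (by rw [hρe1', hρe2])
    have e1' := hΦ.right ⟨_, ht⟩ ρ
    have e2' := hΦ.left ⟨_, ht'⟩ ρ
    have h3 : ρ * swap e1 e2 = swap (ρ e1) (ρ e2) * ρ := Equiv.mul_swap_eq_swap_mul ρ e1 e2
    change Φ (ρ * swap e1 e2) = _ at e1'
    change Φ (swap (ρ e1) (ρ e2) * ρ) = _ at e2'
    rw [h3, e2'] at e1'
    have h4 : eps w ⟨_, ht⟩ = 1 := by
      rw [eps, oddSign_of_fix ht]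
      · norm_num
      · intro i hi
        rw [swap_apply_of_ne_of_ne]
        · rintro rfl
          rw [hi] at he1
          exact absurd he1 (Option.some_ne_none _).symm
        · rintro rfl
          rw [hi] at he2
          exact absurd he2 (Option.some_ne_none _).symm
    have h5 : eps w ⟨_, ht'⟩ = -1 := by
      rw [eps, oddSign_swap_none (fun hc => h21 (ρ.injective hc).symm) hρe1' hρe2 ht']
      norm_num
    rw [h4, h5] at e1'
    linarith
  · left
    push Not at h2
    set E := Finset.univ.filter (fun j => w j = some l0) with hE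
    have memE : ∀ j, j ∈ E ↔ w j = some l0 := by simp [hE]
    have h2' : ∀ j, j ≠ e1 → w j = some l0 → w (ρ j) = some l0 := fun j hj1 hj2 =>
      (hI j ((h.none_iff _).2 (Or.inr hj2))).resolve_left (h2 j hj1 hj2)
    -- the element `o1`
    obtain ⟨o1, ho1, hρo1⟩ : ∃ o1, w o1 = none ∧ w (ρ o1) = some l0 := by
      have hcard : ((E.erase e1).image ρ).card < E.card := by
        rw [Finset.card_image_of_injective _ ρ.injective]
        exact Finset.card_erase_lt_of_mem ((memE _).2 he1)
      obtain ⟨e2, he2, he2'⟩ := Finset.exists_mem_notMem_of_card_lt_card hcard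
      have h3 : ρ (ρ⁻¹ e2) = e2 := app_inv _ _
      have h4 : v (ρ⁻¹ e2) = none := by
        rw [← hv (ρ⁻¹ e2), h3]
        exact (h.none_iff _).2 (Or.inr ((memE _).1 he2))
      refine ⟨ρ⁻¹ e2, ?_, by rw [h3]; exact (memE _).1 he2⟩
      rcases (h.none_iff _).1 h4 with h5 | h5
      · exact h5
      · exfalso
        apply he2'
        refine Finset.mem_image.2 ⟨ρ⁻¹ e2, Finset.mem_erase.2 ⟨?_, (memE _).2 h5⟩, h3⟩
        intro h6
        rw [← h6, h3, (memE _).1 he2] at hρe1'
        exact absurd hρe1' (Option.some_ne_none _)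
    have huniq : ∀ i, w i = none → i ≠ o1 → w (ρ i) = none := by
      intro i hi hio
      rcases hI i ((h.none_iff _).2 (Or.inl hi)) with h3 | h3
      · exact h3
      · exfalso
        have ho1E : o1 ∉ E.erase e1 := by
          intro h4
          have := (memE _).1 (Finset.mem_of_mem_erase h4)
          rw [ho1] at this
          exact absurd this (Option.some_ne_none _).symm
        have h5 : (insert o1 (E.erase e1)).image ρ = E := by
          apply Finset.eq_of_subset_of_card_le
          · intro j hj
            obtain ⟨i', hi', rfl⟩ := Finset.mem_image.1 hj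
            rcases Finset.mem_insert.1 hi' with h6 | h6
            · rw [h6]
              exact (memE _).2 hρo1
            · obtain ⟨h7, h8⟩ := Finset.mem_erase.1 h6
              exact (memE _).2 (h2' i' h7 ((memE _).1 h8))
          · rw [Finset.card_image_of_injective _ ρ.injective, Finset.card_insert_of_notMem ho1E,
              Finset.card_erase_add_one ((memE _).2 he1)]
        have h6 : ρ i ∈ E := (memE _).2 h3
        rw [← h5] at h6
        obtain ⟨i', hi', h7⟩ := Finset.mem_image.1 h6
        have h8 := ρ.injective h7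
        subst h8
        rcases Finset.mem_insert.1 hi' with h9 | h9
        · exact hio h9
        · have := (memE _).1 (Finset.mem_of_mem_erase h9)
          rw [hi] at this
          exact absurd this (Option.some_ne_none _).symm
    have hne : ∀ {a b : ι}, w a = some l0 → w b = none → a ≠ b := by
      rintro a b ha hb rfl
      rw [ha] at hb
      exact absurd hb (Option.some_ne_none _)
    set g' := swap e e1 * swap o o1 with hg'
    have hg'm : g' ∈ stab w := mul_mem (swap_mem_stab (by rw [he, he1]))
      (swap_mem_stab (by rw [ho, ho1]))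
    have hg'e : g' e1 = e := by
      rw [hg', Perm.mul_apply, swap_apply_of_ne_of_ne (hne he1 ho) (hne he1 ho1),
        swap_apply_right]
    have hg'o : g' o1 = o := by
      rw [hg', Perm.mul_apply, swap_apply_right, swap_apply_of_ne_of_ne (hne he ho).symm
        (hne he1 ho).symm]
    have hinv_e : g'⁻¹ e = e1 := by rw [← hg'e, inv_app]
    have hinv_o : g'⁻¹ o = o1 := by rw [← hg'o, inv_app]
    have hgm : ρ * g'⁻¹ * swap e o ∈ stab w := by
      intro j
      rw [Perm.mul_apply, Perm.mul_apply]
      by_cases hje : j = e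
      · subst hje
        rw [swap_apply_left, hinv_o, hρo1, he]
      by_cases hjo : j = o
      · subst hjo
        rw [swap_apply_right, hinv_e, hρe1', ho]
      rw [swap_apply_of_ne_of_ne hje hjo]
      set i := g'⁻¹ j with hi
      have hgi : g' i = j := app_inv _ _
      have hwi : w i = w j := by rw [← hgi, hg'm i]
      have hie : i ≠ e1 := by
        intro hc
        rw [hc, hg'e] at hgi
        exact hje hgi.symm
      have hio : i ≠ o1 := by
        intro hc
        rw [hc, hg'o] at hgi
        exact hjo hgi.symm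
      rw [← hwi]
      by_cases h3 : v i = none
      · rcases (h.none_iff i).1 h3 with h4 | h4
        · rw [huniq i h4 hio, h4]
        · rw [h2' i hie h4, h4]
      · exact hT i h3
    refine ⟨⟨_, hgm⟩, ⟨g', hg'm⟩, ?_⟩
    change ρ = ρ * g'⁻¹ * swap e o * swap e o * g'
    rw [mul_assoc (ρ * g'⁻¹), swap_mul_self, mul_one, inv_mul_cancel_right]

end Pool.Agent.Helper70_bl
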