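import Pool.Agent.Helper70_bl.Bl5

/-!
# Combinations with vanishing good sums act as zero on a super vector space
-/

namespace Pool.Agent.Helper70_bl

open Equiv

set_option linter.unusedSectionVars false
set_option linter.style.haveILetI false

variable {ι : Type} [Fintype ι] [DecidableEq ι] {L M : Type}
variable {w : ι → Option L} {v : ι → Option M} {l0 : L}

/-- The equivariant sum. -/
noncomputable def BB (w : ι → Option L) (v : ι → Option M) (s ρ : Perm ι) : ℚ :=
  ∑ g : stab w, ∑ h : stab w, eps w g * eps w h * FF v (g.1 * ρ * (h.1 * s))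

lemma BB_left (s : Perm ι) (g0 : stab w) (ρ : Perm ι) :
    BB w v s (g0.1 * ρ) = eps w g0 * BB w v s ρ := by
  rw [BB, BB, ← Equiv.sum_comp (Equiv.mulRight g0) (fun g : stab w => ∑ h : stab w,
    eps w g * eps w h * FF v (g.1 * ρ * (h.1 * s))), Finset.mul_sum]
  apply Finset.sum_congr rfl
  intro g _
  rw [Finset.mul_sum]
  apply Finset.sum_congr rfl
  intro h _
  rw [Equiv.coe_mulRight, eps_mul]
  have e1 : eps w g0 * (eps w g * eps w g0 * eps w h * FF v ((g * g0 : stab w).1 * ρ * (h.1 * s))) =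
      (eps w g0 * eps w g0) * (eps w g * eps w h * FF v ((g * g0 : stab w).1 * ρ * (h.1 * s))) := by
    ring
  rw [e1, eps_sq, one_mul, Subgroup.coe_mul, mul_assoc g.1 g0.1 ρ]

lemma BB_right (s : Perm ι) (g0 : stab w) (ρ : Perm ι) :
    BB w v s (ρ * g0.1) = eps w g0 * BB w v s ρ := by
  rw [BB, BB, Finset.mul_sum]
  apply Finset.sum_congr rfl
  intro g _
  rw [← Equiv.sum_comp (Equiv.mulLeft g0) (fun h : stab w =>
    eps w g * eps w h * FF v (g.1 * ρ * (h.1 * s))), Finset.mul_sum]
  apply Finset.sum_congr rfl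
  intro h _
  rw [Equiv.coe_mulLeft, eps_mul]
  have e1 : eps w g0 * (eps w g * (eps w g0 * eps w h) * FF v (g.1 * ρ * ((g0 * h : stab w).1 * s))) =
      (eps w g0 * eps w g0) * (eps w g * eps w h * FF v (g.1 * ρ * ((g0 * h : stab w).1 * s))) := by
    ring
  have e2 : g.1 * (ρ * g0.1) * (h.1 * s) = g.1 * ρ * ((g0 * h : stab w).1 * s) := by
    rw [Subgroup.coe_mul]
    simp only [mul_assoc]
  rw [e1, eps_sq, one_mul, e2]

lemma BB_biEq (h : Merge w v l0) {s : Perm ι} (hs : s ∈ stab v) : BiEq w v (BB w v s) where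
  left g ρ := BB_left s g ρ
  right g ρ := BB_right s g ρ
  supp ρ hρ := by
    obtain ⟨g, -, hg⟩ := Finset.exists_ne_zero_of_sum_ne_zero hρ
    obtain ⟨h', -, hh⟩ := Finset.exists_ne_zero_of_sum_ne_zero hg
    have h1 : Good v (g.1 * ρ * (h'.1 * s)) Finset.univ := good_of_FF (right_ne_zero_of_mul hh)
    have h2 : g.1 * ρ * (h'.1 * s) ∈ stab v := fun i => h1.1 i (Finset.mem_univ _)
    have h3 : h'.1 * s ∈ stab v := mul_mem (h.stab_le h'.2) hs
    have h4 : g.1 ∈ stab v := h.stab_le g.2
    have h5 := mul_mem (mul_mem (inv_mem h4) h2) (inv_mem h3)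
    have e : g.1⁻¹ * (g.1 * ρ * (h'.1 * s)) * (h'.1 * s)⁻¹ = ρ := by group
    rwa [e] at h5

lemma sum_BB {α : Perm ι → ℚ} (H : ∀ g g' : Perm ι, ∑ σ, FF v σ * α (g * σ * g') = 0)
    (s : Perm ι) : ∑ ρ, BB w v s ρ * α ρ = 0 := by
  have h1 : ∀ ρ, BB w v s ρ * α ρ = ∑ g : stab w, ∑ h : stab w, eps w g * eps w h *
      (FF v (g.1 * ρ * (h.1 * s)) * α ρ) := by
    intro ρ
    rw [BB, Finset.sum_mul]
    apply Finset.sum_congr rfl
    intro g _
    rw [Finset.sum_mul]
    apply Finset.sum_congr rfl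
    intro h _
    ring
  rw [Finset.sum_congr rfl (fun ρ _ => h1 ρ), Finset.sum_comm]
  apply Finset.sum_eq_zero
  intro g _
  rw [Finset.sum_comm]
  apply Finset.sum_eq_zero
  intro h _
  rw [← Finset.mul_sum, sum_FF H, mul_zero]

/-- The value at one. -/
lemma BB_one (s : Perm ι) : BB w v s 1 =
    Fintype.card (stab w) * ∑ g : stab w, eps w g * FF v (g.1 * s) := by
  rw [BB, ← nsmul_eq_mul, ← Finset.card_univ, ← Finset.sum_const]
  apply Finset.sum_congr rfl
  intro g _
  rw [← Equiv.sum_comp (Equiv.mulLeft g) (fun h : stab w => eps w h * FF v (h.1 * s))]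
  apply Finset.sum_congr rfl
  intro h _
  rw [Equiv.coe_mulLeft, eps_mul, Subgroup.coe_mul, mul_one, ← mul_assoc]

lemma sum_eps_ne_zero {s : Perm ι} {c : ℤˣ}
    (hc : ∀ g : stab w, Good v (g.1 * s) Finset.univ → oddSign w g = c)
    (hex : ∃ g : stab w, Good v (g.1 * s) Finset.univ) :
    ∑ g : stab w, eps w g * FF v (g.1 * s) ≠ 0 := by
  have h1 : ∀ g : stab w, eps w g * FF v (g.1 * s) = ((c : ℤ) : ℚ) * FF v (g.1 * s) := by
    intro g
    by_cases hg : Good v (g.1 * s) Finset.univ
    · rw [eps, hc g hg]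
    · rw [FF, if_neg hg, mul_zero, mul_zero]
  rw [Finset.sum_congr rfl (fun g _ => h1 g), ← Finset.mul_sum]
  apply mul_ne_zero
  · rcases Int.units_eq_one_or c with h | h <;> rw [h] <;> norm_num
  · obtain ⟨g, hg⟩ := hex
    have h2 : 0 < ∑ g : stab w, FF v (g.1 * s) :=
      Finset.sum_pos' (fun g _ => FF_nonneg _) ⟨g, Finset.mem_univ _, by
        rw [FF_of_good hg]; norm_num⟩
    exact h2.ne'

lemma card_stab_ne : (Fintype.card (stab w) : ℚ) ≠ 0 := by
  have : 0 < Fintype.card (stab w) := Fintype.card_pos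
  positivity

/-- Both kinds of merged elements occur. -/
theorem coeff_A (h : Merge w v l0) {e o : ι} (he : w e = some l0) (ho : w o = none)
    {α : Perm ι → ℚ} (H : ∀ g g' : Perm ι, ∑ σ, FF v σ * α (g * σ * g') = 0) :
    ∑ σ : stab w, eps w σ * α σ.1 = 0 := by
  classical
  set s := swap e o with hs
  have hsv : s ∈ stab v := swap_mem_stab (by
    rw [(h.none_iff e).2 (Or.inr he), (h.none_iff o).2 (Or.inl ho)])
  have h1v : (1 : Perm ι) ∈ stab v := one_mem _
  obtain ⟨c, hc⟩ := sign_good_A h he ho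
  have hB21 : BB w v s 1 ≠ 0 := by
    rw [BB_one]
    exact mul_ne_zero card_stab_ne (sum_eps_ne_zero hc (exists_good_A h he ho))
  -- the value of `BB w v 1` at `s`
  have hB1s : BB w v 1 s = BB w v s 1 := by
    rw [BB, BB, Finset.sum_comm]
    apply Finset.sum_congr rfl
    intro h' _
    apply Finset.sum_congr rfl
    intro g _
    have h2 : FF v (g.1 * s * (h'.1 * 1)) = FF v (h'.1 * 1 * (g.1 * s)) := by
      rw [mul_one, ← FF_conj (h.stab_le h'.2)]
      congr 1
      group
    rw [h2, mul_comm (eps w g)]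
  -- the value of `BB w v 1` at `1`
  have hB11 : BB w v 1 1 = 0 := by
    rw [BB_one, Finset.sum_eq_zero, mul_zero]
    intro g _
    have h2 : ¬ Good v (g.1 * 1) Finset.univ := by
      rintro ⟨-, h3⟩
      rcases h3 (Finset.univ.filter (fun j => w j = none)) (Finset.subset_univ _)
        (fun i hi => (h.none_iff i).2 (Or.inl (Finset.mem_filter.1 hi).2))
        (fun i hi => by
          rw [Finset.mem_filter] at hi ⊢
          refine ⟨Finset.mem_univ _, ?_⟩
          rw [mul_one, g.2 i, hi.2]) with h4 | h4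
      · have h5 : o ∈ Finset.univ.filter (fun j => w j = none) :=
          Finset.mem_filter.2 ⟨Finset.mem_univ _, ho⟩
        rw [h4] at h5
        exact absurd h5 (Finset.notMem_empty _)
      · have h5 := (Finset.mem_filter.1 (h4 e (Finset.mem_univ _)
          ((h.none_iff e).2 (Or.inr he)))).2
        rw [he] at h5
        exact absurd h5 (Option.some_ne_none _)
    rw [FF, if_neg h2, mul_zero]
  have b1 := BB_biEq h h1v
  have b2 := BB_biEq h hsv
  -- the combination
  have key : ∀ ρ : Perm ι, BB w v 1 s * BB w v s ρ - BB w v s s * BB w v 1 ρ =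
      if hρ : ρ ∈ stab w then BB w v 1 s * BB w v s 1 * eps w ⟨ρ, hρ⟩ else 0 := by
    intro ρ
    by_cases hρ : ρ ∈ stab w
    · rw [dif_pos hρ]
      have h2 := b1.left ⟨ρ, hρ⟩ 1
      have h3 := b2.left ⟨ρ, hρ⟩ 1
      rw [mul_one] at h2 h3
      rw [h2, h3, hB11]
      ring
    · rw [dif_neg hρ]
      rcases bi_cases h he ho ρ with h2 | ⟨g, g', h2⟩ | h2
      · exact absurd h2 hρ
      · rw [h2, b1.right, b1.left, b2.right, b2.left]
        ring
      · rw [h2 _ b1, h2 _ b2]
        ring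
  have h3 : ∑ ρ, (BB w v 1 s * BB w v s ρ - BB w v s s * BB w v 1 ρ) * α ρ = 0 := by
    have h4 : ∀ ρ, (BB w v 1 s * BB w v s ρ - BB w v s s * BB w v 1 ρ) * α ρ =
        BB w v 1 s * (BB w v s ρ * α ρ) - BB w v s s * (BB w v 1 ρ * α ρ) := by
      intro ρ
      ring
    rw [Finset.sum_congr rfl (fun ρ _ => h4 ρ), Finset.sum_sub_distrib, ← Finset.mul_sum,
      ← Finset.mul_sum, sum_BB H, sum_BB H, mul_zero, mul_zero, sub_zero]
  have h5 : ∑ ρ, (BB w v 1 s * BB w v s ρ - BB w v s s * BB w v 1 ρ) * α ρ =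
      BB w v 1 s * BB w v s 1 * ∑ σ : stab w, eps w σ * α σ.1 := by
    have h6 : ∀ ρ, (BB w v 1 s * BB w v s ρ - BB w v s s * BB w v 1 ρ) * α ρ =
        if hρ : ρ ∈ stab w then BB w v 1 s * BB w v s 1 * (eps w ⟨ρ, hρ⟩ * α ρ) else 0 := by
      intro ρ
      rw [key]
      split_ifs
      · ring
      · rw [zero_mul]
    rw [Finset.sum_congr rfl (fun ρ _ => h6 ρ), Finset.mul_sum]
    symm
    refine Finset.sum_bij_ne_zero (fun σ _ _ => σ.1) (fun _ _ _ => Finset.mem_univ _)
      (fun a _ _ b _ _ hab => Subtype.ext hab) (fun ρ _ hρ => ?_) (fun σ _ _ => ?_)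
    · by_cases hρ' : ρ ∈ stab w
      · refine ⟨⟨ρ, hρ'⟩, Finset.mem_univ _, ?_, rfl⟩
        rwa [dif_pos hρ'] at hρ
      · rw [dif_neg hρ'] at hρ
        exact absurd rfl hρ
    · rw [dif_pos σ.2]
  rw [h5, hB1s] at h3
  exact (mul_eq_zero.1 h3).resolve_left (mul_ne_zero hB21 hB21)

/-- Only one kind of merged elements occurs. -/
theorem coeff_B (h : Merge w v l0) (hI : ∀ i j, v i = none → v j = none → w i = w j)
    {α : Perm ι → ℚ} (H : ∀ g g' : Perm ι, ∑ σ, FF v σ * α (g * σ * g') = 0) :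
    ∑ σ : stab w, eps w σ * α σ.1 = 0 := by
  classical
  have hle : stab v ≤ stab w := by
    intro σ hσ i
    by_cases hi : v i = none
    · exact hI _ _ (by rw [hσ i, hi]) hi
    · exact ((h.eq_iff i (σ i) hi).1 (hσ i).symm).symm
  obtain ⟨c, hc⟩ := sign_good_B h
  have hne : BB w v 1 1 ≠ 0 := by
    rw [BB_one]
    refine mul_ne_zero card_stab_ne (sum_eps_ne_zero (c := c) (fun g hg => hc g ?_) ?_)
    · rwa [mul_one] at hg
    · obtain ⟨g, hg⟩ := exists_good_B (w := w) hI
      exact ⟨g, by rwa [mul_one]⟩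
  have b1 := BB_biEq h (one_mem _ : (1 : Perm ι) ∈ stab v)
  have h3 := sum_BB (w := w) H 1
  have h5 : ∑ ρ, BB w v 1 ρ * α ρ = BB w v 1 1 * ∑ σ : stab w, eps w σ * α σ.1 := by
    have h6 : ∀ ρ, BB w v 1 ρ * α ρ =
        if hρ : ρ ∈ stab w then BB w v 1 1 * (eps w ⟨ρ, hρ⟩ * α ρ) else 0 := by
      intro ρ
      by_cases hρ : ρ ∈ stab w
      · rw [dif_pos hρ]
        have h2 := b1.left ⟨ρ, hρ⟩ 1
        rw [mul_one] at h2
        rw [h2]
        ring
      · rw [dif_neg hρ]
        have h2 : BB w v 1 ρ = 0 := by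
          by_contra hc
          exact hρ (hle (b1.supp ρ hc))
        rw [h2, zero_mul]
    rw [Finset.sum_congr rfl (fun ρ _ => h6 ρ), Finset.mul_sum]
    symm
    refine Finset.sum_bij_ne_zero (fun σ _ _ => σ.1) (fun _ _ _ => Finset.mem_univ _)
      (fun a _ _ b _ _ hab => Subtype.ext hab) (fun ρ _ hρ => ?_) (fun σ _ _ => ?_)
    · by_cases hρ' : ρ ∈ stab w
      · refine ⟨⟨ρ, hρ'⟩, Finset.mem_univ _, ?_, rfl⟩
        rwa [dif_pos hρ'] at hρ
      · rw [dif_neg hρ'] at hρ
        exact absurd rfl hρ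
    · rw [dif_pos σ.2]
  rw [h5] at h3
  exact (mul_eq_zero.1 h3).resolve_left hne

/-- If all good sums of the translates vanish then the combination acts as zero on the tensor
powers of the super vector space of dimension `(p + 1 | 1)`. -/
theorem zeroOn_of_sums [Nonempty ι] {p : ℕ} {α : Perm ι → ℚ}
    (H : ∀ (v : ι → Option (Fin p)) (i0 : ι), v i0 = none → ∀ g g' : Perm ι,
      ∑ σ, FF v σ * α (g * σ * g') = 0) : ZeroOn (p + 1) α := by
  classical
  intro w τ
  -- the even label to be merged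
  obtain ⟨l0, hl0⟩ : ∃ l0 : Fin (p + 1), (∃ i, w i = some l0) ∨ ∀ i, w i = none := by
    by_cases h : ∃ i l, w i = some l
    · obtain ⟨i, l, h⟩ := h
      exact ⟨l, Or.inl ⟨i, h⟩⟩
    · refine ⟨0, Or.inr fun i => ?_⟩
      cases hi : w i with
      | none => rfl
      | some l => exact absurd ⟨i, l, hi⟩ h
  set v : ι → Option (Fin p) := fun i => (w i).bind (finSuccEquiv' l0) with hv
  have hmerge : Merge w v l0 := by
    constructor
    · intro i
      rw [hv]
      beta_reduce
      cases hi : w i with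
      | none => simp
      | some l =>
        rw [Option.bind_some]
        constructor
        · intro h1
          right
          have : l = l0 := (finSuccEquiv' l0).injective (by rw [h1, finSuccEquiv'_at])
          rw [this]
        · rintro (h1 | h1)
          · exact absurd h1 (Option.some_ne_none _)
          · rw [Option.some_injective _ h1, finSuccEquiv'_at]
    · intro i j hi
      rw [hv] at hi ⊢
      beta_reduce at hi ⊢
      cases hi' : w i with
      | none => rw [hi'] at hi; exact absurd rfl hi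
      | some l =>
        rw [hi'] at hi
        cases hj : w j with
        | none =>
          rw [Option.bind_some, Option.bind_none]
          rw [Option.bind_some] at hi
          constructor
          · intro h; exact absurd h hi
          · intro h; exact absurd h (Option.some_ne_none _)
        | some l' =>
          rw [Option.bind_some, Option.bind_some, (finSuccEquiv' l0).injective.eq_iff,
            Option.some_inj]
  have H' : ∀ i0, v i0 = none → ∀ g g' : Perm ι, ∑ σ, FF v σ * (fun σ => α (τ * σ)) (g * σ * g') = 0 := by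
    intro i0 hi0 g g'
    rw [← H v i0 hi0 (τ * g) g']
    apply Finset.sum_congr rfl
    intro σ _
    beta_reduce
    have e2 : τ * (g * σ * g') = τ * g * σ * g' := by simp only [mul_assoc]
    rw [e2]
  change ∑ σ : stab w, eps w σ * (fun σ => α (τ * σ)) σ.1 = 0
  rcases hl0 with ⟨e, he⟩ | hall
  · by_cases ho : ∃ o, w o = none
    · obtain ⟨o, ho⟩ := ho
      exact coeff_A (α := fun σ => α (τ * σ)) hmerge he ho (H' e ((hmerge.none_iff e).2 (Or.inr he)))
    · refine coeff_B (α := fun σ => α (τ * σ)) hmerge (fun i j hi hj => ?_) (H' e ((hmerge.none_iff e).2 (Or.inr he)))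
      push Not at ho
      rw [((hmerge.none_iff i).1 hi).resolve_left (ho i),
        ((hmerge.none_iff j).1 hj).resolve_left (ho j)]
  · obtain ⟨i0⟩ := ‹Nonempty ι›
    exact coeff_B (α := fun σ => α (τ * σ)) hmerge (fun i j _ _ => by rw [hall i, hall j])
      (H' i0 ((hmerge.none_iff i0).2 (Or.inl (hall i0))))

end Pool.Agent.Helper70_bl
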