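import Pool.Agent.Helper70_bl.Bl6

/-!
# Faithfulness for few strands
-/

namespace Pool.Agent.Helper70_bl

open Equiv

set_option linter.unusedSectionVars false
set_option linter.style.haveILetI false

variable {ι : Type} [Fintype ι] [DecidableEq ι] {L M : Type}

lemma eps_congr {w : ι → Option L} {w' : ι → Option M} (h : ∀ i, w i = none ↔ w' i = none)
    {σ : Perm ι} (h1 : σ ∈ stab w) (h2 : σ ∈ stab w') : eps w ⟨σ, h1⟩ = eps w' ⟨σ, h2⟩ := by
  rw [eps, eps, oddSign_apply, oddSign_apply]
  congr 2
  exact Perm.sign_eq_sign_of_equiv _ _ (Equiv.subtypeEquivRight h) (fun x => rfl)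

open Classical in
/-- The sum over a stabilizer as a sum over all permutations. -/
lemma sum_stab {w : ι → L} (f : stab w → ℚ) : ∑ σ : stab w, f σ =
    ∑ σ : Perm ι, if h : σ ∈ stab w then f ⟨σ, h⟩ else 0 := by
  refine Finset.sum_bij_ne_zero (fun σ _ _ => σ.1) (fun _ _ _ => Finset.mem_univ _)
      (fun a _ _ b _ _ hab => Subtype.ext hab) (fun ρ _ hρ => ?_) (fun σ _ _ => ?_)
  · by_cases hρ' : ρ ∈ stab w
    · refine ⟨⟨ρ, hρ'⟩, Finset.mem_univ _, ?_, rfl⟩
      rwa [dif_pos hρ'] at hρ
    · rw [dif_neg hρ'] at hρ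
      exact absurd rfl hρ
  · rw [dif_pos σ.2]

/-- Any labels can be used as long as they are few. -/
lemma ZeroOn.relabel {p : ℕ} {α : Perm ι → ℚ} (hα : ZeroOn p α) [DecidableEq L]
    (w : ι → Option L) (O : Finset ι) (hO : ∀ i, w i = none ↔ i ∈ O) (u : ι → L)
    (hu : ∀ i, i ∉ O → w i = some (u i)) (hcard : ((Oᶜ).image u).card ≤ p) (τ : Perm ι) :
    ∑ σ : stab w, eps w σ * α (τ * σ.1) = 0 := by
  classical
  -- an injection of the labels
  have hle : Fintype.card ((Oᶜ).image u : Finset L) ≤ Fintype.card (Fin p) := by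
    rw [Fintype.card_coe, Fintype.card_fin]
    exact hcard
  obtain ⟨φ⟩ : Nonempty (((Oᶜ).image u : Finset L) ↪ Fin p) := Function.Embedding.nonempty_of_card_le hle
  have hmem : ∀ i, i ∉ O → u i ∈ (Oᶜ).image u := fun i hi =>
    Finset.mem_image_of_mem _ (Finset.mem_compl.2 hi)
  let w' : ι → Option (Fin p) := fun i => if h : i ∈ O then none else some (φ ⟨u i, hmem i h⟩)
  have h1 : ∀ i, w i = none ↔ w' i = none := by
    intro i
    rw [hO]
    change _ ↔ (if h : i ∈ O then none else some (φ ⟨u i, hmem i h⟩)) = none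
    split_ifs with h
    · simp [h]
    · simp [h]
  have h2 : ∀ i j, w i = w j ↔ w' i = w' j := by
    intro i j
    change _ ↔ (if h : i ∈ O then none else some (φ ⟨u i, hmem i h⟩)) =
      (if h : j ∈ O then none else some (φ ⟨u j, hmem j h⟩))
    by_cases hi : i ∈ O
    · rw [dif_pos hi, (hO i).2 hi]
      by_cases hj : j ∈ O
      · rw [dif_pos hj, (hO j).2 hj]
        exact ⟨fun _ => rfl, fun _ => rfl⟩
      · rw [dif_neg hj, hu j hj]
        simp
    · rw [dif_neg hi, hu i hi]
      by_cases hj : j ∈ O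
      · rw [dif_pos hj, (hO j).2 hj]
        simp
      · rw [dif_neg hj, hu j hj, Option.some_inj, Option.some_inj, φ.injective.eq_iff,
          Subtype.mk.injEq]
  have h3 : stab w = stab w' := by
    ext σ
    exact forall_congr' fun i => h2 _ _
  rw [← hα w' τ, sum_stab, sum_stab]
  apply Finset.sum_congr rfl
  intro σ _
  by_cases hσ : σ ∈ stab w
  · have hσ' : σ ∈ stab w' := h3 ▸ hσ
    rw [dif_pos hσ, dif_pos hσ', eps_congr h1 hσ hσ']
  · have hσ' : σ ∉ stab w' := h3 ▸ hσ
    rw [dif_neg hσ, dif_neg hσ']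

/-- The label of `i` for an involution: its class. -/
def cls (κ : Perm ι) (i : ι) : Finset ι := {i, κ i}

lemma mem_stab_cls {κ : Perm ι} (hκ : ∀ i, κ (κ i) = i) {σ : Perm ι} :
    σ ∈ stab (cls κ) ↔ ∀ i, σ i = i ∨ σ i = κ i := by
  constructor
  · intro h i
    have h1 : σ i ∈ cls κ (σ i) := by simp [cls]
    rw [h i] at h1
    simpa [cls] using h1
  · intro h i
    rcases h i with h1 | h1
    · rw [h1]
    · rw [h1, cls, cls, hκ, Finset.pair_comm]

lemma cls_eq_iff {κ : Perm ι} (hκ : ∀ i, κ (κ i) = i) {i j : ι} :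
    cls κ i = cls κ j ↔ i = j ∨ i = κ j := by
  constructor
  · intro h
    have h1 : i ∈ cls κ i := by simp [cls]
    rw [h] at h1
    simpa [cls] using h1
  · rintro (h | h)
    · rw [h]
    · rw [h, cls, cls, hκ, Finset.pair_comm]

lemma two_card {κ : Perm ι} (hκ : ∀ i, κ (κ i) = i) {S : Finset ι} (hS : ∀ i ∈ S, κ i ∈ S) :
    2 * (S.image (cls κ)).card ≤ S.card + (S.filter (fun i => κ i = i)).card := by
  rw [Finset.card_eq_sum_card_image (cls κ) S,
    Finset.card_eq_sum_card_fiberwise (f := cls κ) (s := S.filter (fun i => κ i = i))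
      (t := S.image (cls κ)) (fun i hi => Finset.mem_coe.2 (Finset.mem_image_of_mem _
        (Finset.mem_filter.1 (Finset.mem_coe.1 hi)).1)),
    ← Finset.sum_add_distrib, mul_comm, ← smul_eq_mul, ← Finset.sum_const]
  apply Finset.sum_le_sum
  intro b hb
  obtain ⟨i, hi, rfl⟩ := Finset.mem_image.1 hb
  by_cases hfix : κ i = i
  · have h1 : 0 < (S.filter (fun j => cls κ j = cls κ i)).card :=
      Finset.card_pos.2 ⟨i, Finset.mem_filter.2 ⟨hi, rfl⟩⟩
    have h2 : 0 < ((S.filter (fun i => κ i = i)).filter (fun j => cls κ j = cls κ i)).card :=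
      Finset.card_pos.2 ⟨i, Finset.mem_filter.2 ⟨Finset.mem_filter.2 ⟨hi, hfix⟩, rfl⟩⟩
    omega
  · have h1 : 1 < (S.filter (fun j => cls κ j = cls κ i)).card := by
      rw [Finset.one_lt_card]
      refine ⟨i, Finset.mem_filter.2 ⟨hi, rfl⟩, κ i, Finset.mem_filter.2 ⟨hS i hi, ?_⟩, Ne.symm hfix⟩
      exact (cls_eq_iff hκ).2 (Or.inr rfl)
    omega

/-- The sum over the stabilizer of an involution. -/
noncomputable def Fk (α : Perm ι → ℚ) (κ τ : Perm ι) : ℚ := ∑ h : stab (cls κ), α (τ * h.1)

lemma Fk_mul {α : Perm ι → ℚ} {κ τ σ : Perm ι} (hσ : σ ∈ stab (cls κ)) :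
    Fk α κ (τ * σ) = Fk α κ τ := by
  rw [Fk, Fk, ← Equiv.sum_comp (Equiv.mulLeft (⟨σ, hσ⟩ : stab (cls κ)))
    (fun h => α (τ * h.1))]
  apply Finset.sum_congr rfl
  intro h _
  rw [Equiv.coe_mulLeft, Subgroup.coe_mul, mul_assoc]

/-- The sum for an involution with one more pair. -/
lemma Fk_swap {α : Perm ι → ℚ} {κ τ : Perm ι} (hκ : ∀ i, κ (κ i) = i) {a b : ι} (hab : a ≠ b)
    (ha : κ a = a) (hb : κ b = b) :
    Fk α (κ * swap a b) τ = Fk α κ τ + Fk α κ (τ * swap a b) := by
  classical
  have hκ' : ∀ i, (κ * swap a b) ((κ * swap a b) i) = i := by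
    intro i
    rw [Perm.mul_apply, Perm.mul_apply]
    by_cases hia : i = a
    · rw [hia, swap_apply_left, hb, swap_apply_right, ha]
    by_cases hib : i = b
    · rw [hib, swap_apply_right, ha, swap_apply_left, hb]
    rw [swap_apply_of_ne_of_ne hia hib, swap_apply_of_ne_of_ne, hκ]
    · intro h
      exact hia (κ.injective (h.trans ha.symm))
    · intro h
      exact hib (κ.injective (h.trans hb.symm))
  have h1 : ∀ σ : Perm ι, σ ∈ stab (cls (κ * swap a b)) ↔ σ ∈ stab (cls κ) ∨
      σ * swap a b ∈ stab (cls κ) := by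
    intro σ
    rw [mem_stab_cls hκ', mem_stab_cls hκ, mem_stab_cls hκ]
    constructor
    · intro h
      rcases h a with h2 | h2
      · left
        intro i
        by_cases hia : i = a
        · rw [hia]; exact Or.inl h2
        by_cases hib : i = b
        · rcases h b with h3 | h3
          · rw [hib]; exact Or.inl h3
          · rw [Perm.mul_apply, swap_apply_right, ha] at h3
            exact absurd (σ.injective (h3.trans h2.symm)) hab.symm
        · have h3 := h i
          rwa [Perm.mul_apply, swap_apply_of_ne_of_ne hia hib] at h3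
      · right
        rw [Perm.mul_apply, swap_apply_left, hb] at h2
        have h4 : σ b = a := by
          rcases h b with h3 | h3
          · exact absurd (σ.injective (h3.trans h2.symm)) hab.symm
          · rwa [Perm.mul_apply, swap_apply_right, ha] at h3
        intro i
        rw [Perm.mul_apply]
        by_cases hia : i = a
        · rw [hia, swap_apply_left]; exact Or.inl h4
        by_cases hib : i = b
        · rw [hib, swap_apply_right]; exact Or.inl h2
        · have h3 := h i
          rw [Perm.mul_apply, swap_apply_of_ne_of_ne hia hib] at h3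
          rwa [swap_apply_of_ne_of_ne hia hib]
    · rintro (h | h)
      · intro i
        rw [Perm.mul_apply]
        by_cases hia : i = a
        · rw [hia]
          rcases h a with h2 | h2
          · exact Or.inl h2
          · rw [ha] at h2; exact Or.inl h2
        by_cases hib : i = b
        · rw [hib]
          rcases h b with h2 | h2
          · exact Or.inl h2
          · rw [hb] at h2; exact Or.inl h2
        rw [swap_apply_of_ne_of_ne hia hib]
        exact h i
      · intro i
        rw [Perm.mul_apply]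
        by_cases hia : i = a
        · have h2 := h b
          rw [Perm.mul_apply, swap_apply_right, hb, or_self] at h2
          rw [hia, swap_apply_left, hb]
          exact Or.inr h2
        by_cases hib : i = b
        · have h2 := h a
          rw [Perm.mul_apply, swap_apply_left, ha, or_self] at h2
          rw [hib, swap_apply_right, ha]
          exact Or.inr h2
        have h2 := h i
        rw [Perm.mul_apply, swap_apply_of_ne_of_ne hia hib] at h2
        rwa [swap_apply_of_ne_of_ne hia hib]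
  have h2 : ∀ σ : Perm ι, σ ∈ stab (cls κ) → σ * swap a b ∉ stab (cls κ) := by
    intro σ h3 h4
    have h5 := (mem_stab_cls hκ).1 h3 a
    have h6 := (mem_stab_cls hκ).1 h4 a
    rw [ha, or_self] at h5 h6
    rw [Perm.mul_apply, swap_apply_left] at h6
    exact hab (σ.injective (h5.trans h6.symm))
  have h3 : Fk α κ (τ * swap a b) =
      ∑ σ : Perm ι, if σ * swap a b ∈ stab (cls κ) then α (τ * σ) else 0 := by
    rw [Fk, sum_stab, ← Equiv.sum_comp (Equiv.mulLeft (swap a b))
      (fun σ => if σ * swap a b ∈ stab (cls κ) then α (τ * σ) else 0)]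
    apply Finset.sum_congr rfl
    intro σ _
    have e1 : σ ∈ stab (cls κ) ↔ swap a b * σ * swap a b ∈ stab (cls κ) := by
      have hc : ∀ σ : Perm ι, σ ∈ stab (cls κ) → swap a b * σ * swap a b ∈ stab (cls κ) := by
        intro σ hσ
        rw [mem_stab_cls hκ] at hσ ⊢
        have hσa : σ a = a := by have := hσ a; rwa [ha, or_self] at this
        have hσb : σ b = b := by have := hσ b; rwa [hb, or_self] at this
        intro i
        rw [Perm.mul_apply, Perm.mul_apply]
        by_cases hia : i = a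
        · rw [hia, swap_apply_left, hσb, swap_apply_right]; exact Or.inl rfl
        by_cases hib : i = b
        · rw [hib, swap_apply_right, hσa, swap_apply_left]; exact Or.inl rfl
        rw [swap_apply_of_ne_of_ne hia hib, swap_apply_of_ne_of_ne]
        · exact hσ i
        · intro h; exact hia (σ.injective (h.trans hσa.symm))
        · intro h; exact hib (σ.injective (h.trans hσb.symm))
      refine ⟨hc σ, fun h => ?_⟩
      have h4 := hc _ h
      have e : swap a b * (swap a b * σ * swap a b) * swap a b = σ := by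
        rw [← mul_assoc, ← mul_assoc, swap_mul_self, one_mul, mul_assoc, swap_mul_self, mul_one]
      rwa [e] at h4
    rw [Equiv.coe_mulLeft]
    by_cases hσ : σ ∈ stab (cls κ)
    · rw [dif_pos hσ, if_pos (e1.1 hσ), mul_assoc]
    · rw [dif_neg hσ, if_neg (fun h => hσ (e1.2 h))]
  rw [h3, Fk, Fk, sum_stab, sum_stab, ← Finset.sum_add_distrib]
  apply Finset.sum_congr rfl
  intro σ _
  by_cases h4 : σ ∈ stab (cls κ)
  · rw [dif_pos ((h1 σ).2 (Or.inl h4)), dif_pos h4, if_neg (h2 σ h4), add_zero]
  · by_cases h5 : σ * swap a b ∈ stab (cls κ)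
    · rw [dif_pos ((h1 σ).2 (Or.inr h5)), dif_neg h4, if_pos h5, zero_add]
    · rw [dif_neg (fun h => by rcases (h1 σ).1 h with h | h; exacts [h4 h, h5 h]), dif_neg h4,
        if_neg h5, add_zero]

/-- The labels for an involution and a set of fixed points without label. -/
def wO (κ : Perm ι) (O : Finset ι) (i : ι) : Option (Finset ι) :=
  if i ∈ O then none else some (cls κ i)

lemma wO_none {κ : Perm ι} {O : Finset ι} {i : ι} : wO κ O i = none ↔ i ∈ O := by
  unfold wO
  split_ifs with h <;> simp [h]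

lemma stab_cls_le {κ : Perm ι} (hκ : ∀ i, κ (κ i) = i) {O : Finset ι} (hO : ∀ i ∈ O, κ i = i) :
    stab (cls κ) ≤ stab (wO κ O) := by
  intro σ hσ i
  have h1 := (mem_stab_cls hκ).1 hσ
  by_cases hi : i ∈ O
  · have h2 := h1 i
    rw [hO i hi, or_self] at h2
    rw [h2]
  · have hσi : σ i ∉ O := by
      intro h2
      have h3 := h1 (σ i)
      rw [hO _ h2, or_self] at h3
      exact hi (by rw [← σ.injective h3]; exact h2)
    rw [wO, wO, if_neg hσi, if_neg hi, hσ i]

/-- Equivariance of the sums under the stabilizer. -/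
lemma Fk_eps {α : Perm ι → ℚ} {κ : Perm ι} {O : Finset ι}
    (hanti : ∀ a ∈ O, ∀ b ∈ O, a ≠ b → ∀ τ, Fk α κ (τ * swap a b) = -Fk α κ τ)
    (m : ℕ) (σ : stab (wO κ O)) (hm : (O.filter (fun i => σ.1 i ≠ i)).card ≤ m) (τ : Perm ι) :
    Fk α κ (τ * σ.1) = eps (wO κ O) σ * Fk α κ τ := by
  induction m generalizing σ τ with
  | zero =>
    have h0 : ∀ i ∈ O, σ.1 i = i := by
      intro i hi
      by_contra hc
      have : 0 < (O.filter (fun i => σ.1 i ≠ i)).card :=
        Finset.card_pos.2 ⟨i, Finset.mem_filter.2 ⟨hi, hc⟩⟩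
      omega
    have h1 : σ.1 ∈ stab (cls κ) := by
      intro i
      by_cases hi : i ∈ O
      · rw [h0 i hi]
      · have h2 := σ.2 i
        have h3 : σ.1 i ∉ O := by
          intro h3
          rw [wO_none.2 h3] at h2
          exact hi (wO_none.1 h2.symm)
        rw [wO, wO, if_neg h3, if_neg hi] at h2
        exact Option.some_injective _ h2
    rw [Fk_mul h1]
    have h2 : eps (wO κ O) σ = 1 := by
      have := oddSign_of_fix σ.2 (fun i hi => h0 i (wO_none.1 hi))
      rw [eps, this]
      norm_num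
    rw [h2, one_mul]
  | succ m ih =>
    by_cases hall : ∀ i ∈ O, σ.1 i = i
    · apply ih
      rw [Finset.filter_false_of_mem (fun i hi => by simp [hall i hi])]
      simp
    push Not at hall
    obtain ⟨r, hr, hσr⟩ := hall
    have hσrO : σ.1 r ∈ O := by
      rw [← wO_none (κ := κ), σ.2 r, wO_none]
      exact hr
    have hsw : swap r (σ.1 r) ∈ stab (wO κ O) := swap_mem_stab (by
      rw [wO_none.2 hr, wO_none.2 hσrO])
    set σ' : stab (wO κ O) := ⟨swap r (σ.1 r), hsw⟩ * σ with hσ'
    have hσ'v : σ'.1 = swap r (σ.1 r) * σ.1 := rfl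
    have hσσ' : σ = ⟨swap r (σ.1 r), hsw⟩ * σ' := by
      apply Subtype.ext
      rw [Subgroup.coe_mul, hσ'v, ← mul_assoc, swap_mul_self, one_mul]
    have hlt : (O.filter (fun i => σ'.1 i ≠ i)).card < (O.filter (fun i => σ.1 i ≠ i)).card := by
      apply Finset.card_lt_card
      refine ⟨fun i hi => ?_, fun hsub => ?_⟩
      · obtain ⟨h1, h2⟩ := Finset.mem_filter.1 hi
        refine Finset.mem_filter.2 ⟨h1, fun h3 => h2 ?_⟩
        rw [hσ'v, Perm.mul_apply, h3, swap_apply_of_ne_of_ne]
        · rintro rfl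
          exact hσr h3
        · intro h4
          have h5 : i = r := σ.1.injective (h3.trans h4)
          exact hσr (by rw [← h5]; exact h3)
      · have h1 := hsub (Finset.mem_filter.2 ⟨hr, hσr⟩)
        apply (Finset.mem_filter.1 h1).2
        rw [hσ'v, Perm.mul_apply, swap_apply_right]
    have h1 := ih σ' (by omega) (τ * swap r (σ.1 r))
    have h2 : τ * swap r (σ.1 r) * σ'.1 = τ * σ.1 := by
      rw [hσ'v, mul_assoc, ← mul_assoc (swap r (σ.1 r)), swap_mul_self, one_mul]
    rw [h2, hanti r hr _ hσrO (Ne.symm hσr)] at h1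
    have h3 : eps (wO κ O) σ = -eps (wO κ O) σ' := by
      rw [hσσ', eps_mul]
      have h4 : eps (wO κ O) ⟨swap r (σ.1 r), hsw⟩ = -1 := by
        rw [eps, oddSign_swap_none (Ne.symm hσr) (wO_none.2 hr) (wO_none.2 hσrO) hsw]
        norm_num
      rw [h4]
      have h5 : (⟨swap r (σ.1 r), hsw⟩ * σ' : stab (wO κ O)) = σ := hσσ'.symm
      rw [hσ']
      ring
    rw [h1, h3]
    ring

lemma Fk_zero {p : ℕ} {α : Perm ι → ℚ} (hα : ZeroOn p α) {κ : Perm ι} (hκ : ∀ i, κ (κ i) = i)
    {O : Finset ι} (hO : ∀ i ∈ O, κ i = i)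
    (hanti : ∀ a ∈ O, ∀ b ∈ O, a ≠ b → ∀ τ, Fk α κ (τ * swap a b) = -Fk α κ τ)
    (hcard : (Oᶜ).card + ((Oᶜ).filter (fun i => κ i = i)).card ≤ 2 * p + 1) (τ : Perm ι) :
    Fk α κ τ = 0 := by
  classical
  have h1 : ∀ τ, ∑ σ : stab (wO κ O), eps (wO κ O) σ * α (τ * σ.1) = 0 := by
    intro τ
    refine hα.relabel (wO κ O) O (fun i => wO_none) (cls κ) (fun i hi => if_neg hi) ?_ τ
    have h2 := two_card hκ (S := Oᶜ) (fun i hi => by
      rw [Finset.mem_compl] at hi ⊢
      intro h3
      have h4 := hO _ h3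
      rw [hκ] at h4
      exact hi (by rw [h4]; exact h3))
    omega
  have h2 : ∑ σ : stab (wO κ O), eps (wO κ O) σ * Fk α κ (τ * σ.1) = 0 := by
    have h3 : ∀ σ : stab (wO κ O), eps (wO κ O) σ * Fk α κ (τ * σ.1) =
        ∑ h : stab (cls κ), eps (wO κ O) σ * α (τ * σ.1 * h.1) := by
      intro σ
      rw [Fk, Finset.mul_sum]
    rw [Finset.sum_congr rfl (fun σ _ => h3 σ), Finset.sum_comm]
    apply Finset.sum_eq_zero
    intro h _
    have hh : h.1 ∈ stab (wO κ O) := stab_cls_le hκ hO h.2
    have h4 : ∀ σ : stab (wO κ O), eps (wO κ O) σ * α (τ * σ.1 * h.1) =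
        eps (wO κ O) ⟨h.1, hh⟩ * ((fun σ : stab (wO κ O) => eps (wO κ O) σ * α (τ * σ.1))
          (σ * ⟨h.1, hh⟩)) := by
      intro σ
      beta_reduce
      rw [eps_mul, Subgroup.coe_mul, ← mul_assoc τ]
      have e := eps_sq (wO κ O) ⟨h.1, hh⟩
      linear_combination (-(eps (wO κ O) σ * α (τ * σ.1 * h.1))) * e
    rw [Finset.sum_congr rfl (fun σ _ => h4 σ), ← Finset.mul_sum]
    have h5 : ∑ σ : stab (wO κ O), (fun σ : stab (wO κ O) => eps (wO κ O) σ * α (τ * σ.1))
        (σ * ⟨h.1, hh⟩) = ∑ σ : stab (wO κ O), eps (wO κ O) σ * α (τ * σ.1) :=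
      Equiv.sum_comp (Equiv.mulRight (⟨h.1, hh⟩ : stab (wO κ O)))
        (fun σ : stab (wO κ O) => eps (wO κ O) σ * α (τ * σ.1))
    rw [h5, h1 τ, mul_zero]
  have h3 : ∀ σ : stab (wO κ O), eps (wO κ O) σ * Fk α κ (τ * σ.1) = Fk α κ τ := by
    intro σ
    rw [Fk_eps hanti _ σ le_rfl τ, ← mul_assoc, eps_sq, one_mul]
  rw [Finset.sum_congr rfl (fun σ _ => h3 σ), Finset.sum_const, Finset.card_univ,
    nsmul_eq_mul] at h2
  exact (mul_eq_zero.1 h2).resolve_left card_stab_ne

lemma Fk_all {p : ℕ} {α : Perm ι → ℚ} (hα : ZeroOn p α) (hn : Fintype.card ι ≤ 2 * p + 1)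
    (f : ℕ) (κ : Perm ι) (hκ : ∀ i, κ (κ i) = i)
    (hf : (Finset.univ.filter (fun i => κ i = i)).card ≤ f) (τ : Perm ι) : Fk α κ τ = 0 := by
  induction f using Nat.strong_induction_on generalizing κ τ with
  | _ f ih =>
  set R := Finset.univ.filter (fun i => κ i = i) with hR
  have memR : ∀ i, i ∈ R ↔ κ i = i := by simp [hR]
  by_cases h1 : Fintype.card ι + R.card ≤ 2 * p + 1
  · refine Fk_zero hα hκ (O := ∅) (by simp) (by simp) ?_ τ
    rw [Finset.compl_empty, Finset.card_univ]
    exact h1
  by_cases h2 : Fintype.card ι + R.card ≤ 2 * p + 3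
  · have h3 : 0 < R.card := by omega
    obtain ⟨r, hr⟩ := Finset.card_pos.1 h3
    refine Fk_zero hα hκ (O := {r}) (fun i hi => by
      rw [Finset.mem_singleton.1 hi]; exact (memR r).1 hr) (fun a ha b hb hab => by
      rw [Finset.mem_singleton] at ha hb
      exact absurd (ha.trans hb.symm) hab) ?_ τ
    have h4 : (({r} : Finset ι)ᶜ).card = Fintype.card ι - 1 := by
      rw [Finset.card_compl, Finset.card_singleton]
    have h5 : (({r} : Finset ι)ᶜ.filter (fun i => κ i = i)).card = R.card - 1 := by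
      rw [← Finset.card_erase_of_mem hr]
      congr 1
      ext i
      simp only [Finset.mem_filter, Finset.mem_compl, Finset.mem_singleton, Finset.mem_erase,
        memR]
    have h6 : 0 < Fintype.card ι := Fintype.card_pos_iff.2 ⟨r⟩
    rw [h4, h5]
    omega
  · refine Fk_zero hα hκ (O := R) (fun i hi => (memR i).1 hi) (fun a ha b hb hab τ => ?_) ?_ τ
    · have hκa := (memR a).1 ha
      have hκb := (memR b).1 hb
      have hκ' : ∀ i, (κ * swap a b) ((κ * swap a b) i) = i := by
        intro i
        rw [Perm.mul_apply, Perm.mul_apply]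
        by_cases hia : i = a
        · rw [hia, swap_apply_left, hκb, swap_apply_right, hκa]
        by_cases hib : i = b
        · rw [hib, swap_apply_right, hκa, swap_apply_left, hκb]
        rw [swap_apply_of_ne_of_ne hia hib, swap_apply_of_ne_of_ne, hκ]
        · intro h
          exact hia (κ.injective (h.trans hκa.symm))
        · intro h
          exact hib (κ.injective (h.trans hκb.symm))
      have hlt : (Finset.univ.filter (fun i => (κ * swap a b) i = i)).card < R.card := by
        apply Finset.card_lt_card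
        refine ⟨fun i hi => ?_, fun hsub => ?_⟩
        · have h3 := (Finset.mem_filter.1 hi).2
          rw [memR]
          rw [Perm.mul_apply] at h3
          by_cases hia : i = a
          · rw [hia]; exact hκa
          by_cases hib : i = b
          · rw [hib]; exact hκb
          rwa [swap_apply_of_ne_of_ne hia hib] at h3
        · have h3 := (Finset.mem_filter.1 (hsub ha)).2
          rw [Perm.mul_apply, swap_apply_left, hκb] at h3
          exact hab h3.symm
      have h3 := ih _ (lt_of_lt_of_le hlt hf) (κ * swap a b) hκ' le_rfl τ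
      rw [Fk_swap hκ hab hκa hκb] at h3
      linarith
    · have h4 : (Rᶜ).card = Fintype.card ι - R.card := Finset.card_compl _
      have h5 : (Rᶜ.filter (fun i => κ i = i)).card = 0 := by
        rw [Finset.card_eq_zero, Finset.filter_eq_empty_iff]
        intro i hi
        rw [Finset.mem_compl, memR] at hi
        exact hi
      rw [h4, h5]
      omega

/-- The group algebra of the symmetric group acts faithfully on the `n`-th tensor power of a super
vector space of dimension `(p | 1)` if `n ≤ 2 p + 1`. -/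
theorem ZeroOn.eq_zero {p : ℕ} {α : Perm ι → ℚ} (hα : ZeroOn p α)
    (hn : Fintype.card ι ≤ 2 * p + 1) : α = 0 := by
  funext τ
  have h1 := Fk_all hα hn _ 1 (fun i => rfl) le_rfl τ
  rw [Fk] at h1
  have h2 : ∀ h : stab (cls (1 : Perm ι)), h = 1 := by
    intro h
    apply Subtype.ext
    apply Equiv.ext
    intro i
    have h3 := (mem_stab_cls (κ := (1 : Perm ι)) (fun i => rfl)).1 h.2 i
    rw [Perm.one_apply, or_self] at h3
    exact h3
  haveI : Unique (stab (cls (1 : Perm ι))) := ⟨⟨1⟩, h2⟩
  rw [Fintype.sum_unique, h2 default] at h1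
  simpa using h1

/-- The alternating sum of `p` strands does not act as zero. -/
theorem not_zeroOn_sign (p : ℕ) : ¬ ZeroOn p (fun σ : Perm (Fin p) => ((Perm.sign σ : ℤ) : ℚ)) := by
  intro h
  have h1 := h (fun i => some i) 1
  have h2 : ∀ h : stab (fun i : Fin p => some i), h = 1 := by
    intro h
    apply Subtype.ext
    apply Equiv.ext
    intro i
    exact Option.some_injective _ (h.2 i)
  haveI : Unique (stab (fun i : Fin p => some i)) := ⟨⟨1⟩, h2⟩
  rw [Fintype.sum_unique, h2 default, eps_one] at h1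
  simp at h1

end Pool.Agent.Helper70_bl
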