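import Pool.Agent.Helper70_bl.Bl7

/-!
# Varieties with a dual system of algebraic classes
-/

open CategoryTheory AlgebraicGeometry

universe u v w

namespace Pool.Agent.Helper70_bl

open Pool.Agent.H914 Pool.Agent.H914.VarClass Pool.Agent.H914.VarClass.Obj Pool.Agent.W492.BB
  Pool.Agent.W550.Corr Pool.Agent.TH133 Pool.Agent.TH829.Prime Pool.Agent.TH829.Kim

set_option linter.unusedSectionVars false

variable {k : Type u} [Field k] {𝒱 : VarClass k}

section chow

variable {C : TheoryData.{u, v, 0} 𝒱 ℚ} [hC : IsChowProj C] {X Y Z W V : 𝒱.Obj}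
variable {ι : Type} [Fintype ι] [DecidableEq ι]

include hC

/-- The product `a × a'` as an element of the ring of self-correspondences of degree zero. -/
noncomputable def eR {e : ℤ} {a a' : C.A X} (ha : C.Deg e a) (ha' : C.Deg ((X.dim : ℤ) - e) a') :
    R0 C X := ofA (C.ext a a') (by
      have h := ext_mem' (C := C) ha ha'
      rwa [add_sub_cancel] at h)

lemma ev_ext (a a' : C.A X) (x y : W ⟶ X) : ev (C.ext a a') x y = C.pull x a * C.pull y a' := by
  rw [ev, TheoryData.ext, map_mul, ← C.pull_comp, ← C.pull_comp, lift_fst, lift_snd]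

variable {b : ℕ} {e : Fin b → ℤ} {a a' : Fin b → C.A X}

/-- The sum of the products `a i × a' i`. -/
noncomputable def sR (ha : ∀ i, C.Deg (e i) (a i)) (ha' : ∀ i, C.Deg ((X.dim : ℤ) - e i) (a' i)) :
    R0 C X := ∑ i, eR (ha i) (ha' i)

lemma toA_sR (ha : ∀ i, C.Deg (e i) (a i)) (ha' : ∀ i, C.Deg ((X.dim : ℤ) - e i) (a' i)) :
    toA (sR ha ha') = ∑ i, C.ext (a i) (a' i) := by
  rw [sR, map_sum]
  rfl

lemma eR_mul (ha : ∀ i, C.Deg (e i) (a i)) (ha' : ∀ i, C.Deg ((X.dim : ℤ) - e i) (a' i))
    (hdual : ∀ i j, HasDegree C (a i * a' j) (if i = j then 1 else 0)) (i j : Fin b) :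
    eR (ha i) (ha' i) * eR (ha j) (ha' j) = if i = j then eR (ha i) (ha' i) else 0 := by
  apply toA_inj
  have h1 : HasDegree C (a' j * a i) (if i = j then 1 else 0) := by
    rw [ch_comm C]
    exact hdual i j
  rw [toA_mul]
  change C.comp (C.ext (a j) (a' j)) (C.ext (a i) (a' i)) = _
  rw [comp_ext_ext h1]
  split_ifs with h
  · subst h
    rw [one_smul]
    rfl
  · rw [zero_smul, map_zero]

/-- The family of orthogonal idempotents. -/
noncomputable def pR (ha : ∀ i, C.Deg (e i) (a i)) (ha' : ∀ i, C.Deg ((X.dim : ℤ) - e i) (a' i)) :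
    Option (Fin b) → R0 C X
  | none => 1 - sR ha ha'
  | some i => eR (ha i) (ha' i)

lemma pR_mul (ha : ∀ i, C.Deg (e i) (a i)) (ha' : ∀ i, C.Deg ((X.dim : ℤ) - e i) (a' i))
    (hdual : ∀ i j, HasDegree C (a i * a' j) (if i = j then 1 else 0)) (s t : Option (Fin b)) :
    pR ha ha' s * pR ha ha' t = if s = t then pR ha ha' s else 0 := by
  have h1 := eR_mul ha ha' hdual
  have hl : ∀ j, sR ha ha' * eR (ha j) (ha' j) = eR (ha j) (ha' j) := by
    intro j
    rw [sR, Finset.sum_mul, Finset.sum_congr rfl (fun i _ => h1 i j), Finset.sum_ite_eq',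
      if_pos (Finset.mem_univ _)]
  have hr : ∀ j, eR (ha j) (ha' j) * sR ha ha' = eR (ha j) (ha' j) := by
    intro j
    rw [sR, Finset.mul_sum, Finset.sum_congr rfl (fun i _ => h1 j i), Finset.sum_ite_eq,
      if_pos (Finset.mem_univ _)]
  have hs : sR ha ha' * sR ha ha' = sR ha ha' := by
    conv_lhs => rw [sR, Finset.sum_mul]
    rw [Finset.sum_congr rfl (fun i _ => by
      change eR (ha i) (ha' i) * sR ha ha' = eR (ha i) (ha' i)
      exact hr i)]
    rfl
  cases s with
  | none =>
    cases t with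
    | none =>
      rw [if_pos rfl, pR, mul_sub, sub_mul, sub_mul, mul_one, one_mul, mul_one, hs, sub_self,
        sub_zero]
    | some j =>
      rw [if_neg (Option.some_ne_none j).symm, pR, pR, sub_mul, one_mul, hl, sub_self]
  | some i =>
    cases t with
    | none =>
      rw [if_neg (Option.some_ne_none i), pR, pR, mul_sub, mul_one, hr, sub_self]
    | some j =>
      rw [pR, pR, h1]
      by_cases hij : i = j
      · rw [if_pos hij, if_pos (congrArg some hij)]
      · rw [if_neg hij, if_neg (fun h => hij (Option.some_injective _ h))]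

lemma pR_none (ha : ∀ i, C.Deg (e i) (a i)) (ha' : ∀ i, C.Deg ((X.dim : ℤ) - e i) (a' i)) :
    toA (pR ha ha' none) = dg C X - ∑ i, C.ext (a i) (a' i) := by
  rw [pR, map_sub, toA_one, toA_sR]

lemma tr_some (ha : ∀ i, C.Deg (e i) (a i)) (ha' : ∀ i, C.Deg ((X.dim : ℤ) - e i) (a' i))
    (hdual : ∀ i j, HasDegree C (a i * a' j) (if i = j then 1 else 0)) (i : Fin b) :
    HasDegree C (ev (toA (pR ha ha' (some i))) (𝟙 X) (𝟙 X)) 1 := by
  change HasDegree C (ev (C.ext (a i) (a' i)) (𝟙 X) (𝟙 X)) 1
  rw [ev_ext, C.pull_id, C.pull_id]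
  have h := hdual i i
  rwa [if_pos rfl] at h

lemma tr_none (hne : ∀ X : 𝒱.Obj, (1 : C.A X) ≠ 0) (ha : ∀ i, C.Deg (e i) (a i))
    (ha' : ∀ i, C.Deg ((X.dim : ℤ) - e i) (a' i))
    (hdual : ∀ i j, HasDegree C (a i * a' j) (if i = j then 1 else 0))
    (hb : HasDegree C (ev (dg C X) (𝟙 X) (𝟙 X)) b) :
    HasDegree C (ev (toA (pR ha ha' none)) (𝟙 X) (𝟙 X)) 0 := by
  have h1 : trL hne X 1 = b := hasDegree_uniq (hne X) (trL_spec (hne := hne) (1 : R0 C X)) hb
  have h2 : ∀ i, trL hne X (eR (ha i) (ha' i)) = 1 := fun i =>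
    hasDegree_uniq (hne X) (trL_spec (hne := hne) _) (tr_some ha ha' hdual i)
  have h3 : trL hne X (pR ha ha' none) = 0 := by
    rw [pR, map_sub, sR, map_sum, h1, Finset.sum_congr rfl (fun i _ => h2 i), Finset.sum_const,
      Finset.card_univ, Fintype.card_fin, nsmul_eq_mul, mul_one, sub_self]
  have h4 := trL_spec (hne := hne) (pR ha ha' none)
  rwa [h3] at h4

/-- A relation between permutations that does not hold on the super vector space of dimension
`(b + 1 | 1)` decomposes the diagonal. -/
theorem split_of_rel (hne : ∀ X : 𝒱.Obj, (1 : C.A X) ≠ 0) (ha : ∀ i, C.Deg (e i) (a i))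
    (ha' : ∀ i, C.Deg ((X.dim : ℤ) - e i) (a' i))
    (hdual : ∀ i j, HasDegree C (a i * a' j) (if i = j then 1 else 0))
    (hb : HasDegree C (ev (dg C X) (𝟙 X) (𝟙 X)) b) {I : Family C} (hI : IsAdequate C I)
    {α : Equiv.Perm ι → ℚ} (h : InI I (comb (fun _ => dg C X) α) (Fintype.card ι * X.dim))
    (hα : ¬ ZeroOn (b + 1) α) :
    dg C X - ∑ i, C.ext (a i) (a' i) ∈ I (X.prod X) X.dim := by
  rw [← pR_none ha ha']
  rcases isEmpty_or_nonempty ι with hι | hι
  · -- no strands: everything is trivial
    have h1 : α 1 ≠ 0 := by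
      intro h0
      apply hα
      intro w τ
      apply Finset.sum_eq_zero
      intro σ _
      rw [Subsingleton.elim (τ * σ.1) 1, h0, mul_zero]
    have h2 := h (X.prod X) isEmptyElim isEmptyElim
    rw [comb_apply, Fintype.sum_unique, Finset.univ_eq_empty, Finset.prod_empty,
      Fintype.card_eq_zero] at h2
    have h3 : (1 : C.A (X.prod X)) ∈ I (X.prod X) 0 := by
      have h4 := Submodule.smul_mem _ (α 1)⁻¹ (hI.congr (by push_cast; ring) h2 :
        α default • (1 : C.A (X.prod X)) ∈ I (X.prod X) 0)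
      rwa [smul_smul, Subsingleton.elim (default : Equiv.Perm ι) 1, inv_mul_cancel₀ h1,
        one_smul] at h4
    have h5 := hI.mul_mem' (toA_mem (pR ha ha' none)) h3
    rw [mul_one] at h5
    exact hI.congr (by ring) h5
  · by_contra hcon
    apply hα
    apply zeroOn_of_sums
    intro v i0 hi0 g g'
    by_contra hs
    apply hcon
    refine mem_of_sum_ne_zero hI (h.translate g g') v (P := fun s => toA (pR ha ha' s))
      (fun s => toA_mem _) (fun s t => ?_) (tr_none hne ha ha' hdual hb)
      (fun i => tr_some ha ha' hdual i) hi0 ?_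
    · rw [← toA_mul, pR_mul ha ha' hdual]
      by_cases hst : s = t
      · rw [if_pos hst, if_pos hst.symm, hst]
      · rw [if_neg hst, if_neg (Ne.symm hst), map_zero]
    · intro h0
      apply hs
      rw [← h0]
      apply Finset.sum_congr rfl
      intro σ _
      unfold FF
      split_ifs <;> simp

/-- A relation between permutations of the remaining part of the diagonal that does not hold on the
super vector space of dimension `(1 | 1)` decomposes the diagonal. -/
theorem split_of_rel_pi (hne : ∀ X : 𝒱.Obj, (1 : C.A X) ≠ 0) (ha : ∀ i, C.Deg (e i) (a i))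
    (ha' : ∀ i, C.Deg ((X.dim : ℤ) - e i) (a' i))
    (hdual : ∀ i j, HasDegree C (a i * a' j) (if i = j then 1 else 0))
    (hb : HasDegree C (ev (dg C X) (𝟙 X) (𝟙 X)) b) {I : Family C} (hI : IsAdequate C I)
    {α : Equiv.Perm ι → ℚ}
    (h : InI I (comb (fun _ => dg C X - ∑ i, C.ext (a i) (a' i)) α) (Fintype.card ι * X.dim))
    (hα : ¬ ZeroOn 1 α) :
    dg C X - ∑ i, C.ext (a i) (a' i) ∈ I (X.prod X) X.dim := by
  rw [← pR_none ha ha'] at h ⊢
  rcases isEmpty_or_nonempty ι with hι | hι
  · -- no strands: everything is trivial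
    have h1 : α 1 ≠ 0 := by
      intro h0
      apply hα
      intro w τ
      apply Finset.sum_eq_zero
      intro σ _
      rw [Subsingleton.elim (τ * σ.1) 1, h0, mul_zero]
    have h2 := h (X.prod X) isEmptyElim isEmptyElim
    rw [comb_apply, Fintype.sum_unique, Finset.univ_eq_empty, Finset.prod_empty,
      Fintype.card_eq_zero] at h2
    have h3 : (1 : C.A (X.prod X)) ∈ I (X.prod X) 0 := by
      have h4 := Submodule.smul_mem _ (α 1)⁻¹ (hI.congr (by push_cast; ring) h2 :
        α default • (1 : C.A (X.prod X)) ∈ I (X.prod X) 0)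
      rwa [smul_smul, Subsingleton.elim (default : Equiv.Perm ι) 1, inv_mul_cancel₀ h1,
        one_smul] at h4
    have h5 := hI.mul_mem' (toA_mem (pR ha ha' none)) h3
    rw [mul_one] at h5
    exact hI.congr (by ring) h5
  · by_contra hcon
    apply hα
    apply zeroOn_of_sums (p := 0)
    intro v i0 hi0 g g'
    by_contra hs
    apply hcon
    have hv : ∀ i, v i = none := by
      intro i
      cases hi : v i with
      | none => rfl
      | some l => exact l.elim0
    refine mem_of_sum_ne_zero' hI v (α := fun σ => α (g * σ * g'))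
      (P := fun _ => toA (pR ha ha' none)) (h.translate g g')
      (fun s t => ?_) (tr_none hne ha ha' hdual hb)
      (fun i => i.elim0) hi0 ?_
    · have hst : s = t := by
        rcases s with _ | s
        · rcases t with _ | t
          · rfl
          · exact t.elim0
        · exact s.elim0
      rw [if_pos hst, ← toA_mul, pR_mul ha ha' hdual, if_pos rfl]
    · intro h0
      apply hs
      rw [← h0]
      apply Finset.sum_congr rfl
      intro σ _
      unfold FF
      split_ifs <;> simp

/-- Products of congruent classes are congruent. -/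
lemma prod_congr_mod {I : Family C} (hI : IsAdequate C I) {d : ℤ} (S : Finset ι)
    {A B : ι → C.A W} (hA : ∀ i, A i ∈ C.gr W d) (hB : ∀ i, B i ∈ C.gr W d)
    (h : ∀ i, A i - B i ∈ I W d) : ∏ i ∈ S, A i ∈ C.gr W (S.card * d) ∧
      ∏ i ∈ S, A i - ∏ i ∈ S, B i ∈ I W (S.card * d) := by
  induction S using Finset.induction_on with
  | empty =>
    rw [Finset.prod_empty, Finset.prod_empty, sub_self, Finset.card_empty, Nat.cast_zero, zero_mul]
    exact ⟨C.one_mem W, Submodule.zero_mem _⟩
  | insert i S hi ih =>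
    have e1 : (((insert i S).card : ℕ) : ℤ) * d = d + S.card * d := by
      rw [Finset.card_insert_of_notMem hi]
      push_cast
      ring
    rw [Finset.prod_insert hi, Finset.prod_insert hi, e1]
    refine ⟨C.mul_mem (hA i) ih.1, ?_⟩
    have e2 : A i * ∏ i ∈ S, A i - B i * ∏ i ∈ S, B i =
        (A i - B i) * ∏ i ∈ S, A i + B i * (∏ i ∈ S, A i - ∏ i ∈ S, B i) := by ring
    rw [e2]
    exact Submodule.add_mem _ (hI.mul_mem (h i) ih.1) (hI.mul_mem' (hB i) ih.2)

/-- If the diagonal decomposes then the alternating sum of more than `b` strands vanishes. -/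
theorem rel_of_split (ha : ∀ i, C.Deg (e i) (a i))
    (ha' : ∀ i, C.Deg ((X.dim : ℤ) - e i) (a' i)) {I : Family C} (hI : IsAdequate C I)
    (h : dg C X - ∑ i, C.ext (a i) (a' i) ∈ I (X.prod X) X.dim) (hcard : b < Fintype.card ι) :
    InI I (comb (ι := ι) (fun _ => dg C X) (fun σ => ((Equiv.Perm.sign σ : ℤ) : ℚ)))
      (Fintype.card ι * X.dim) := by
  classical
  intro W x y
  rw [comb_apply]
  set T : C.A (X.prod X) := ∑ i, C.ext (a i) (a' i) with hT
  have hTm : T ∈ C.gr (X.prod X) X.dim := by
    rw [hT, ← toA_sR ha ha']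
    exact toA_mem _
  obtain ⟨φ⟩ : Nonempty (Fin b ↪ ι) := Function.Embedding.nonempty_of_card_le (by
    rw [Fintype.card_fin]; exact hcard.le)
  obtain ⟨j0, hj0⟩ : ∃ j0 : ι, j0 ∉ Set.range φ := by
    by_contra hcon
    push Not at hcon
    have h1 : Function.Surjective φ := fun j => by
      obtain ⟨l, hl⟩ := hcon j
      exact ⟨l, hl⟩
    have h2 := Fintype.card_le_of_surjective φ h1
    rw [Fintype.card_fin] at h2
    omega
  -- the determinant of the decomposable part vanishes
  have hdet : ∑ σ : Equiv.Perm ι, ((Equiv.Perm.sign σ : ℤ) : ℚ) •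
      ∏ i, ev T (x i) (y (σ i)) = 0 := by
    let A : Matrix ι ι (C.A W) := fun i j =>
      ∑ l, if φ l = j then C.pull (x i) (a l) else 0
    let B : Matrix ι ι (C.A W) := fun j i =>
      ∑ l, if φ l = j then C.pull (y i) (a' l) else 0
    have h1 : ∀ i j, (A * B) i j = ev T (x i) (y j) := by
      intro i j
      have hA : ∀ l, A i (φ l) = C.pull (x i) (a l) := by
        intro l
        change (∑ l', if φ l' = φ l then C.pull (x i) (a l') else 0) = _
        simp only [φ.injective.eq_iff, Finset.sum_ite_eq', Finset.mem_univ, if_true]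
      have hB : ∀ l, B (φ l) j = C.pull (y j) (a' l) := by
        intro l
        change (∑ l', if φ l' = φ l then C.pull (y j) (a' l') else 0) = _
        simp only [φ.injective.eq_iff, Finset.sum_ite_eq', Finset.mem_univ, if_true]
      rw [Matrix.mul_apply]
      have h2 : ∑ m, A i m * B m j = ∑ l : Fin b, A i (φ l) * B (φ l) j := by
        rw [← Finset.sum_map Finset.univ φ (fun m => A i m * B m j)]
        symm
        apply Finset.sum_subset (Finset.subset_univ _)
        intro m _ hm
        have h3 : A i m = 0 := by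
          change (∑ l, if φ l = m then C.pull (x i) (a l) else 0) = 0
          apply Finset.sum_eq_zero
          intro l _
          rw [if_neg]
          rintro rfl
          exact hm (Finset.mem_map_of_mem _ (Finset.mem_univ _))
        rw [h3, zero_mul]
      rw [h2, hT, ev, map_sum]
      apply Finset.sum_congr rfl
      intro l _
      rw [hA, hB]
      exact (ev_ext _ _ _ _).symm
    have h2 : (A * B).det = 0 := by
      rw [Matrix.det_mul, Matrix.det_eq_zero_of_column_eq_zero j0 (fun i => by
        change (∑ l, if φ l = j0 then C.pull (x i) (a l) else 0) = 0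
        apply Finset.sum_eq_zero
        intro l _
        rw [if_neg]
        intro h3
        exact hj0 ⟨l, h3⟩), zero_mul]
    rw [← h2, ← Matrix.det_transpose, Matrix.det_apply]
    apply Finset.sum_congr rfl
    intro σ _
    rw [Int.cast_smul_eq_zsmul]
    have h3 : ∏ i, ev T (x i) (y (σ i)) = ∏ i, (A * B).transpose (σ i) i := by
      apply Finset.prod_congr rfl
      intro i _
      rw [Matrix.transpose_apply, h1]
    rw [h3]
    rfl
  rw [← sub_zero (∑ σ : Equiv.Perm ι, ((Equiv.Perm.sign σ : ℤ) : ℚ) •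
      ∏ i, ev (dg C X) (x i) (y (σ i))), ← hdet, ← Finset.sum_sub_distrib]
  apply Submodule.sum_mem
  intro σ _
  rw [← smul_sub]
  apply Submodule.smul_mem
  have h1 := (prod_congr_mod hI (Finset.univ : Finset ι) (d := X.dim)
    (A := fun i => ev (dg C X) (x i) (y (σ i))) (B := fun i => ev T (x i) (y (σ i)))
    (fun i => ev_mem (dg_mem C X) _ _) (fun i => ev_mem hTm _ _) (fun i => by
      have h2 := hI.pull_mem (Obj.lift (x i) (y (σ i))) h
      rwa [TheoryData.up, map_sub] at h2)).2
  rwa [Finset.card_univ] at h1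

/-- If the diagonal decomposes then zero-cycles of degree zero vanish. -/
theorem zero_cycle (ha : ∀ i, C.Deg (e i) (a i))
    (h : dg C X = ∑ i, C.ext (a i) (a' i)) {x : C.A X} (hx : C.Deg X.dim x)
    (hx0 : HasDegree C x 0) : x = 0 := by
  have h1 : C.act (dg C X) x = x := act_dg C x
  have h2 : ∀ i, C.act (C.ext (a i) (a' i)) x = 0 := by
    intro i
    by_cases hi : e i = 0
    · have h3 := ha i
      rw [hi] at h3
      obtain ⟨q, hq⟩ := hC.gr_zero X (a i) h3
      have h4 : HasDegree C (a i * x) (q * 0) := by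
        rw [hq, smul_mul_assoc, one_mul]
        exact HasDegree.smul q hx0
      rw [act_ext' h4, mul_zero, zero_smul]
    · exact act_ext_zero_of_lt (C.mul_mem (ha i) hx) (by omega)
  rw [← h1, h]
  have h3 : C.act (∑ i, C.ext (a i) (a' i)) x = ∑ i, C.act (C.ext (a i) (a' i)) x := by
    have h4 : ∀ S : Finset (Fin b), C.act (∑ i ∈ S, C.ext (a i) (a' i)) x =
        ∑ i ∈ S, C.act (C.ext (a i) (a' i)) x := by
      intro S
      induction S using Finset.induction_on with
      | empty => rw [Finset.sum_empty, Finset.sum_empty, C.act_zero]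
      | insert i S hi ih => rw [Finset.sum_insert hi, Finset.sum_insert hi, C.act_add, ih]
    exact h4 _
  rw [h3, Finset.sum_eq_zero (fun i _ => h2 i)]

end chow

end Pool.Agent.Helper70_bl
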