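import Pool.Agent.Helper70_bl.Bl8

/-!
# Young symmetrizers
-/

open CategoryTheory AlgebraicGeometry

universe u v w

namespace Pool.Agent.Helper70_bl

open Pool.Agent.H914 Pool.Agent.H914.VarClass Pool.Agent.H914.VarClass.Obj Pool.Agent.W492.BB
  Pool.Agent.W550.Corr Pool.Agent.TH133 Pool.Agent.TH829.Prime Pool.Agent.TH829.Kim

set_option linter.unusedSectionVars false

section comb

variable {ι : Type} [Fintype ι] [DecidableEq ι]

/-- The permutations of `S` preserving the lines of the function `ℓ`. -/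
def lineF (ℓ : ι → ℕ) (S : Finset ι) : Finset (Equiv.Perm ι) :=
  Finset.univ.filter (fun g => (∀ i, i ∉ S → g i = i) ∧ ∀ i, ℓ (g i) = ℓ i)

lemma mem_lineF {ℓ : ι → ℕ} {S : Finset ι} {g : Equiv.Perm ι} :
    g ∈ lineF ℓ S ↔ (∀ i, i ∉ S → g i = i) ∧ ∀ i, ℓ (g i) = ℓ i := by
  simp [lineF]

lemma lineF_maps {ℓ : ι → ℕ} {S : Finset ι} {g : Equiv.Perm ι} (hg : g ∈ lineF ℓ S) {i : ι}
    (hi : i ∈ S) : g i ∈ S := by
  by_contra hc
  have h1 := (mem_lineF.1 hg).1 _ hc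
  have h2 := g.injective h1
  rw [h2] at hc
  exact hc hi

lemma lineF_swap {ℓ : ι → ℕ} {S : Finset ι} {a b : ι} (ha : a ∈ S) (hb : b ∈ S)
    (h : ℓ a = ℓ b) : Equiv.swap a b ∈ lineF ℓ S := by
  refine mem_lineF.2 ⟨fun i hi => ?_, fun i => ?_⟩
  · rw [Equiv.swap_apply_of_ne_of_ne]
    · rintro rfl; exact hi ha
    · rintro rfl; exact hi hb
  · rw [Equiv.swap_apply_def]
    split_ifs with h1 h2
    · rw [h1, h]
    · rw [h2, h]
    · rfl

lemma lineF_mul {ℓ : ι → ℕ} {S : Finset ι} {g h : Equiv.Perm ι} (hg : g ∈ lineF ℓ S)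
    (hh : h ∈ lineF ℓ S) : g * h ∈ lineF ℓ S := by
  rw [mem_lineF] at *
  refine ⟨fun i hi => ?_, fun i => ?_⟩
  · rw [Equiv.Perm.mul_apply, hh.1 i hi, hg.1 i hi]
  · rw [Equiv.Perm.mul_apply, hg.2, hh.2]

lemma lineF_mono {ℓ : ι → ℕ} {S T : Finset ι} (h : S ⊆ T) : lineF ℓ S ⊆ lineF ℓ T := by
  intro g hg
  rw [mem_lineF] at *
  exact ⟨fun i hi => hg.1 i (fun h1 => hi (h h1)), hg.2⟩

lemma lineF_inv {ℓ : ι → ℕ} {S : Finset ι} {g : Equiv.Perm ι} (hg : g ∈ lineF ℓ S) :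
    g⁻¹ ∈ lineF ℓ S := by
  rw [mem_lineF] at *
  refine ⟨fun i hi => ?_, fun i => ?_⟩
  · conv_lhs => rw [← hg.1 i hi]
    exact inv_app _ _
  · rw [← hg.2 (g⁻¹ i), app_inv]

/-- Splitting off one element. -/
lemma sum_lineF {M : Type*} [AddCommMonoid M] {ℓ : ι → ℕ} {S : Finset ι} {c : ι} (hc : c ∈ S)
    (f : Equiv.Perm ι → M) : ∑ g ∈ lineF ℓ S, f g =
      ∑ p ∈ S.filter (fun p => ℓ p = ℓ c), ∑ g ∈ lineF ℓ (S.erase c), f (g * Equiv.swap c p) := by
  rw [← Finset.sum_product']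
  symm
  refine Finset.sum_bij' (fun x _ => x.2 * Equiv.swap c x.1)
    (fun g _ => (g⁻¹ c, g * Equiv.swap c (g⁻¹ c))) ?_ ?_ ?_ ?_ ?_
  · rintro ⟨p, g⟩ h
    obtain ⟨h1, h2⟩ := Finset.mem_product.1 h
    obtain ⟨h3, h4⟩ := Finset.mem_filter.1 h1
    exact lineF_mul (lineF_mono (Finset.erase_subset _ _) h2) (lineF_swap hc h3 h4.symm)
  · intro g hg
    have h1 := lineF_inv hg
    have h2 : g⁻¹ c ∈ S := lineF_maps h1 hc
    have h3 : ℓ (g⁻¹ c) = ℓ c := (mem_lineF.1 h1).2 c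
    refine Finset.mem_product.2 ⟨Finset.mem_filter.2 ⟨h2, h3⟩, ?_⟩
    have h4 := lineF_mul hg (lineF_swap hc h2 h3.symm)
    rw [mem_lineF] at h4 ⊢
    refine ⟨fun i hi => ?_, h4.2⟩
    by_cases hic : i = c
    · rw [hic, Equiv.Perm.mul_apply, Equiv.swap_apply_left, app_inv]
    · exact h4.1 i (fun h5 => hi (Finset.mem_erase.2 ⟨hic, h5⟩))
  · rintro ⟨p, g⟩ h
    obtain ⟨h1, h2⟩ := Finset.mem_product.1 h
    have h3 : g c = c := (mem_lineF.1 h2).1 c (Finset.notMem_erase c S)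
    have h4 : (g * Equiv.swap c p)⁻¹ c = p := by
      rw [mul_inv_rev, Equiv.Perm.mul_apply, Equiv.swap_inv]
      have h5 : g⁻¹ c = c := by
        conv_lhs => rw [← h3]
        exact inv_app _ _
      rw [h5, Equiv.swap_apply_left]
    change ((g * Equiv.swap c p)⁻¹ c, g * Equiv.swap c p * Equiv.swap c ((g * Equiv.swap c p)⁻¹ c)) =
      (p, g)
    rw [h4, mul_assoc, Equiv.swap_mul_self, mul_one]
  · intro g hg
    change g * Equiv.swap c (g⁻¹ c) * Equiv.swap c (g⁻¹ c) = g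
    rw [mul_assoc, Equiv.swap_mul_self, mul_one]
  · rintro ⟨p, g⟩ h
    rfl

end comb

variable {k : Type u} [Field k] {𝒱 : VarClass k}

section chow

variable {C : TheoryData.{u, v, 0} 𝒱 ℚ} [hC : IsChowProj C] {X Y Z W V : 𝒱.Obj}
variable {ι : Type} [Fintype ι] [DecidableEq ι]

include hC

/-- The Young symmetrizer of the set `S` of cells. -/
noncomputable def young (row col : ι → ℕ) (p : ι → C.A (X.prod X)) (S : Finset ι) : FamI C X ι :=
  ∑ r ∈ lineF row S, ∑ c ∈ lineF col S, ((Equiv.Perm.sign c : ℤ) : ℚ) • mon p (c * r⁻¹) S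

/-- The contraction of one pair in a product of orthogonal idempotents. -/
lemma con_mon {L : Type} [DecidableEq L] {w : ι → Option L} {P : Option L → C.A (X.prod X)}
    (hP : ∀ s t, C.comp (P s) (P t) = if s = t then P s else 0) {σ : Equiv.Perm ι}
    {S : Finset ι} {c i : ι} (hc : c ∈ S) (hiS : i ∈ S) (hi : σ i = c) (hic : i ≠ c) :
    con c (mon (fun i => P (w i)) σ S) = if w i = w c then
      mon (fun i => P (w i)) (Equiv.swap c (σ c) * σ) (S.erase c) else 0 := by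
  rw [con_mon_move hc hiS hi hic]
  split_ifs with hw
  · have e1 : Function.update (fun i => P (w i)) i (C.comp (P (w i)) (P (w c))) =
        fun i => P (w i) := by
      rw [Function.update_eq_self_iff, hP, if_pos hw]
    rw [e1]
  · funext W x y
    change ∏ j ∈ S.erase c, ev (Function.update (fun i => P (w i)) i
      (C.comp (P (w i)) (P (w c))) j) (x j) _ = 0
    apply Finset.prod_eq_zero (Finset.mem_erase.2 ⟨hic, hiS⟩)
    rw [Function.update_self, hP, if_neg hw, ev, map_zero]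

end chow

end Pool.Agent.Helper70_bl
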