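import Pool.Agent.Helper70_bl.Ev1
import Mathlib.GroupTheory.Perm.Finite

/-!
# Transport of Young symmetrizers, one column
-/

open CategoryTheory AlgebraicGeometry

universe u v w

namespace Pool.Agent.Helper70_bl

open Pool.Agent.H914 Pool.Agent.H914.VarClass Pool.Agent.H914.VarClass.Obj Pool.Agent.W492.BB
  Pool.Agent.W550.Corr Pool.Agent.TH133 Pool.Agent.TH829.Prime Pool.Agent.TH829.Kim Equiv

set_option linter.unusedSectionVars false

section comb

variable {ι κ : Type} [Fintype ι] [DecidableEq ι] [Fintype κ] [DecidableEq κ] {S : Finset ι}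

/-- Permutations supported on `S`. -/
lemma sum_extend {M : Type*} [AddCommMonoid M] (f : κ ≃ {i // i ∈ S}) (ℓ : ι → ℕ)
    (F : Perm ι → M) : ∑ g ∈ lineF ℓ S, F g =
      ∑ g ∈ lineF (fun j => ℓ (f j)) Finset.univ, F (g.extendDomain f) := by
  have hS : ∀ g ∈ lineF ℓ S, ∀ i, g i ∈ S ↔ i ∈ S := fun g hg i =>
    ⟨fun h => by
      have := lineF_maps (lineF_inv hg) h
      rwa [inv_app] at this, fun h => lineF_maps hg h⟩
  symm
  refine Finset.sum_bij (fun g _ => g.extendDomain f) ?_ ?_ ?_ ?_
  · intro g hg
    refine mem_lineF.2 ⟨fun i hi => Perm.extendDomain_apply_not_subtype g f hi, fun i => ?_⟩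
    by_cases hi : i ∈ S
    · obtain ⟨j, hj⟩ := f.surjective ⟨i, hi⟩
      have h1 : i = (f j : ι) := by rw [hj]
      rw [h1, Perm.extendDomain_apply_image]
      exact (mem_lineF.1 hg).2 j
    · rw [Perm.extendDomain_apply_not_subtype g f hi]
  · intro g _ g' _ h
    exact Perm.extendDomainHom_injective f h
  · intro g hg
    refine ⟨f.symm.permCongr (g.subtypePerm (hS g hg)), mem_lineF.2
      ⟨fun j hj => absurd (Finset.mem_univ j) hj, fun j => ?_⟩, ?_⟩
    · rw [Equiv.permCongr_apply, Equiv.symm_symm, Equiv.apply_symm_apply]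
      exact (mem_lineF.1 hg).2 (f j)
    · apply Equiv.ext
      intro i
      by_cases hi : i ∈ S
      · obtain ⟨j, hj⟩ := f.surjective ⟨i, hi⟩
        have h1 : i = (f j : ι) := by rw [hj]
        rw [h1, Perm.extendDomain_apply_image, Equiv.permCongr_apply, Equiv.symm_symm,
          Equiv.apply_symm_apply]
        rfl
      · rw [Perm.extendDomain_apply_not_subtype _ f hi, (mem_lineF.1 hg).1 i hi]
  · intro g _
    rfl

lemma lineF_of_injective {ℓ : ι → ℕ} (h : Function.Injective ℓ) :
    lineF ℓ Finset.univ = {1} := by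
  ext g
  rw [mem_lineF, Finset.mem_singleton]
  constructor
  · intro hg
    exact Equiv.ext fun i => h (hg.2 i)
  · rintro rfl
    exact ⟨fun _ _ => rfl, fun _ => rfl⟩

lemma lineF_of_const {ℓ : ι → ℕ} (h : ∀ i j, ℓ i = ℓ j) : lineF ℓ Finset.univ = Finset.univ := by
  ext g
  rw [mem_lineF]
  exact ⟨fun _ => Finset.mem_univ _, fun _ => ⟨fun i hi => absurd (Finset.mem_univ i) hi,
    fun i => h _ _⟩⟩

variable {row col : ι → ℕ}

/-- A diagram is a rectangle, or it has a corner outside the diagonal through the corner. -/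
lemma IsDiag.cases' (_ : IsDiag row col S) (r : ℕ)
    (h22 : ∀ i ∈ S, ¬ (r + 2 ≤ row i ∧ 2 ≤ col i)) :
    S = ∅ ∨ (∃ c ∈ S, (row c = r ∧ col c = 0 ∨ row c = r + 1 ∧ col c = 1) ∧
      ∀ i ∈ S, row i ≤ row c ∧ col i ≤ col c) ∨
    ∃ c, IsCorner row col S c ∧ row c ≠ col c + r := by
  by_cases hcor : ∃ c, IsCorner row col S c ∧ row c ≠ col c + r
  · exact Or.inr (Or.inr hcor)
  · push Not at hcor
    rcases S.eq_empty_or_nonempty with h1 | h1
    · exact Or.inl h1
    · right; left
      obtain ⟨c, hc, hmax⟩ := Finset.exists_max_image S (fun i => row i + col i) h1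
      have hcc : IsCorner row col S c := by
        refine ⟨hc, fun i hi hr => ?_, fun i hi hr => ?_⟩
        · have := hmax i hi
          omega
        · have := hmax i hi
          omega
      have hc1 := hcor c hcc
      have hall : ∀ i ∈ S, row i ≤ row c ∧ col i ≤ col c := by
        by_contra hcon
        push Not at hcon
        have hB : (S.filter (fun i => ¬ (row i ≤ row c ∧ col i ≤ col c))).Nonempty := by
          obtain ⟨i, hi, hi2⟩ := hcon
          exact ⟨i, Finset.mem_filter.2 ⟨hi, fun h2 => by have := hi2 h2.1; omega⟩⟩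
        obtain ⟨d, hd, hdmax⟩ := Finset.exists_max_image _ (fun i => row i + col i) hB
        obtain ⟨hdS, hd1⟩ := Finset.mem_filter.1 hd
        have hdc : IsCorner row col S d := by
          refine ⟨hdS, fun i hi hr => ?_, fun i hi hr => ?_⟩
          · by_contra hcon
            have := hdmax i (Finset.mem_filter.2 ⟨hi, by omega⟩)
            omega
          · by_contra hcon
            have := hdmax i (Finset.mem_filter.2 ⟨hi, by omega⟩)
            omega
        have hd2 := hcor d hdc
        have := hmax d hdS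
        omega
      refine ⟨c, hc, ?_, hall⟩
      have := h22 c hc
      omega

/-- The cells of a column. -/
lemma exists_equiv_column (h : IsDiag row col S) {c : ι} (hc : c ∈ S) (hc0 : col c = 0)
    (hall : ∀ i ∈ S, row i ≤ row c ∧ col i ≤ col c) : ∃ f : Fin (row c + 1) ≃ {i // i ∈ S},
      ∀ j, row (f j) = j ∧ col (f j) = 0 := by
  let g : {i // i ∈ S} → Fin (row c + 1) := fun i => ⟨row i, by have := (hall i i.2).1; omega⟩
  have hg : Function.Bijective g := by
    constructor
    · intro i j hij
      have h1 : row i = row j := congrArg Fin.val hij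
      have h2 := (hall i i.2).2
      have h3 := (hall j j.2).2
      exact Subtype.ext (h.inj i i.2 j j.2 h1 (by omega))
    · intro j
      obtain ⟨m, hm, h1, -⟩ := h.low c hc j 0 (by have := j.2; omega) (by omega)
      exact ⟨⟨m, hm⟩, Fin.ext h1⟩
  refine ⟨(Equiv.ofBijective g hg).symm, fun j => ?_⟩
  have h1 : g ((Equiv.ofBijective g hg).symm j) = j := (Equiv.ofBijective g hg).apply_symm_apply j
  have h2 := (hall _ ((Equiv.ofBijective g hg).symm j).2).2
  exact ⟨congrArg Fin.val h1, by omega⟩

/-- The cells of a rectangle with two columns. -/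
lemma exists_equiv_two (h : IsDiag row col S) {c : ι} (hc : c ∈ S) (hc0 : col c = 1)
    (hall : ∀ i ∈ S, row i ≤ row c ∧ col i ≤ col c) :
    ∃ f : Fin (row c + 1) ⊕ Fin (row c + 1) ≃ {i // i ∈ S},
      ∀ j, (row (f (Sum.inl j)) = j ∧ col (f (Sum.inl j)) = 0) ∧
        row (f (Sum.inr j)) = j ∧ col (f (Sum.inr j)) = 1 := by
  let g : {i // i ∈ S} → Fin (row c + 1) ⊕ Fin (row c + 1) := fun i =>
    if col i = 0 then Sum.inl ⟨row i, by have := (hall i i.2).1; omega⟩ else
      Sum.inr ⟨row i, by have := (hall i i.2).1; omega⟩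
  have hg1 : ∀ (i : {i // i ∈ S}) (j : Fin (row c + 1)), g i = Sum.inl j →
      row i = j ∧ col i = 0 := by
    intro i j hij
    by_cases h0 : col i = 0
    · change (if col i = 0 then _ else _) = _ at hij
      rw [if_pos h0] at hij
      exact ⟨congrArg Fin.val (Sum.inl_injective hij), h0⟩
    · change (if col i = 0 then _ else _) = _ at hij
      rw [if_neg h0] at hij
      exact absurd hij (by simp)
  have hg2 : ∀ (i : {i // i ∈ S}) (j : Fin (row c + 1)), g i = Sum.inr j →
      row i = j ∧ col i = 1 := by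
    intro i j hij
    have h3 := (hall i i.2).2
    by_cases h0 : col i = 0
    · change (if col i = 0 then _ else _) = _ at hij
      rw [if_pos h0] at hij
      exact absurd hij (by simp)
    · change (if col i = 0 then _ else _) = _ at hij
      rw [if_neg h0] at hij
      exact ⟨congrArg Fin.val (Sum.inr_injective hij), by omega⟩
  have hg : Function.Bijective g := by
    constructor
    · intro i j hij
      rcases hi : g i with m | m
      · have h1 := hg1 i m hi
        have h2 := hg1 j m (hij ▸ hi)
        exact Subtype.ext (h.inj i i.2 j j.2 (by omega) (by omega))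
      · have h1 := hg2 i m hi
        have h2 := hg2 j m (hij ▸ hi)
        exact Subtype.ext (h.inj i i.2 j j.2 (by omega) (by omega))
    · rintro (j | j)
      · obtain ⟨m, hm, h1, h2⟩ := h.low c hc j 0 (by have := j.2; omega) (by omega)
        refine ⟨⟨m, hm⟩, ?_⟩
        change (if col m = 0 then _ else _) = _
        rw [if_pos h2]
        exact congrArg Sum.inl (Fin.ext h1)
      · obtain ⟨m, hm, h1, h2⟩ := h.low c hc j 1 (by have := j.2; omega) (by omega)
        refine ⟨⟨m, hm⟩, ?_⟩
        change (if col m = 0 then _ else _) = _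
        rw [if_neg (by omega)]
        exact congrArg Sum.inr (Fin.ext h1)
  refine ⟨(Equiv.ofBijective g hg).symm, fun j => ⟨?_, ?_⟩⟩
  · exact hg1 _ j ((Equiv.ofBijective g hg).apply_symm_apply (Sum.inl j))
  · exact hg2 _ j ((Equiv.ofBijective g hg).apply_symm_apply (Sum.inr j))

end comb

variable {k : Type u} [Field k] {𝒱 : VarClass k}

section chow

variable {C : TheoryData.{u, v, 0} 𝒱 ℚ} [hC : IsChowProj C] {X Y Z W V : 𝒱.Obj}
variable {ι κ : Type} [Fintype ι] [DecidableEq ι] [Fintype κ] [DecidableEq κ] {S : Finset ι}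
variable {row col : ι → ℕ}

include hC

/-- Transport of a Young symmetrizer. -/
lemma young_transport (f : κ ≃ {i // i ∈ S}) (p : C.A (X.prod X)) (x y : ι → (W ⟶ X)) :
    young row col (fun _ => p) S W x y =
      young (fun j => row (f j)) (fun j => col (f j)) (fun _ => p) Finset.univ W
        (fun j => x (f j)) (fun j => y (f j)) := by
  have h1 : ∀ (g : Perm κ), mon (fun _ => p) (g.extendDomain f) S W x y =
      mon (fun _ => p) g Finset.univ W (fun j => x (f j)) (fun j => y (f j)) := by
    intro g
    change ∏ i ∈ S, ev p (x i) (y (g.extendDomain f i)) =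
      ∏ j, ev p (x (f j)) (y (f (g j)))
    rw [← Finset.prod_coe_sort S (fun i => ev p (x i) (y (g.extendDomain f i)))]
    symm
    apply Fintype.prod_equiv f
    intro j
    rw [Perm.extendDomain_apply_image]
  rw [young, young, sum_extend f row]
  simp only [Finset.sum_apply]
  apply Finset.sum_congr rfl
  intro r _
  rw [sum_extend f col (fun c => (((Perm.sign c : ℤ) : ℚ) •
    mon (fun _ => p) (c * (r.extendDomain f)⁻¹) S) W x y)]
  apply Finset.sum_congr rfl
  intro c _
  rw [Perm.sign_extendDomain, Perm.extendDomain_inv, Perm.extendDomain_mul]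
  change ((Perm.sign c : ℤ) : ℚ) • mon (ι := ι) (fun _ => p) ((c * r⁻¹).extendDomain f) S W x y =
    ((Perm.sign c : ℤ) : ℚ) • mon (ι := κ) (fun _ => p) (c * r⁻¹) Finset.univ W
      (fun j => x (f j)) (fun j => y (f j))
  rw [h1]

omit hC in
/-- Extension of points. -/
lemma exists_extend (f : κ ≃ {i // i ∈ S}) (x0 : W ⟶ X) (x : κ → (W ⟶ X)) :
    ∃ x' : ι → (W ⟶ X), ∀ j, x' (f j) = x j := by
  refine ⟨fun i => if h : i ∈ S then x (f.symm ⟨i, h⟩) else x0, fun j => ?_⟩
  change (if h : (f j : ι) ∈ S then x (f.symm ⟨f j, h⟩) else x0) = x j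
  rw [dif_pos (f j).2]
  congr 1
  rw [Equiv.symm_apply_eq]

/-- One column. -/
lemma young_one_column {r' c' : κ → ℕ} (h1 : Function.Injective r') (h2 : ∀ i j, c' i = c' j)
    (p : κ → C.A (X.prod X)) : young r' c' p Finset.univ =
      comb p (fun σ => ((Perm.sign σ : ℤ) : ℚ)) := by
  rw [young, lineF_of_injective h1, lineF_of_const h2, Finset.sum_singleton, comb]
  apply Finset.sum_congr rfl
  intro c _
  rw [inv_one, mul_one]

/-- The case of one column. -/
lemma comb_of_column {p : C.A (X.prod X)} {I : Family C} {e : ℤ} (h : IsDiag row col S) {c : ι}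
    (hc : c ∈ S) (hc0 : col c = 0) (hall : ∀ i ∈ S, row i ≤ row c ∧ col i ≤ col c)
    (hy : InI I (young row col (fun _ => p) S) e) :
    InI I (comb (ι := Fin (row c + 1)) (fun _ => p) (fun σ => ((Perm.sign σ : ℤ) : ℚ))) e := by
  obtain ⟨f, hf⟩ := exists_equiv_column h hc hc0 hall
  intro W x y
  obtain ⟨x', hx'⟩ := exists_extend f (x 0) x
  obtain ⟨y', hy'⟩ := exists_extend f (y 0) y
  have h1 := hy W x' y'
  rw [young_transport f, young_one_column (fun i j hij => by
    rw [(hf i).1, (hf j).1] at hij
    exact Fin.ext hij) (fun i j => by rw [(hf i).2, (hf j).2])] at h1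
  simp only [hx', hy'] at h1
  exact h1

end chow

end Pool.Agent.Helper70_bl
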