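import Pool.Agent.Helper70_bl.Ev2

/-!
# Two columns of equal height
-/

open CategoryTheory AlgebraicGeometry

universe u v w

namespace Pool.Agent.Helper70_bl

open Pool.Agent.H914 Pool.Agent.H914.VarClass Pool.Agent.H914.VarClass.Obj Pool.Agent.W492.BB
  Pool.Agent.W550.Corr Pool.Agent.TH133 Pool.Agent.TH829.Prime Pool.Agent.TH829.Kim Equiv

set_option linter.unusedSectionVars false

section comb

/-- The permutations preserving the two columns. -/
lemma sum_two {K : ℕ} {M : Type*} [AddCommMonoid M] (F : Perm (Fin K ⊕ Fin K) → M)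
    {c' : Fin K ⊕ Fin K → ℕ} (h0 : ∀ j, c' (Sum.inl j) = 0) (h1 : ∀ j, c' (Sum.inr j) = 1) :
    ∑ g ∈ lineF c' Finset.univ, F g =
      ∑ c0 : Perm (Fin K), ∑ c1 : Perm (Fin K), F (Perm.sumCongr c0 c1) := by
  rw [← Finset.sum_product' Finset.univ Finset.univ (fun c0 c1 => F (Perm.sumCongr c0 c1))]
  symm
  refine Finset.sum_bij (fun g _ => Perm.sumCongr g.1 g.2) ?_ ?_ ?_ ?_
  · intro g _
    refine mem_lineF.2 ⟨fun i hi => absurd (Finset.mem_univ i) hi, fun i => ?_⟩
    rcases i with j | j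
    · change c' (Sum.inl (g.1 j)) = c' (Sum.inl j)
      rw [h0, h0]
    · change c' (Sum.inr (g.2 j)) = c' (Sum.inr j)
      rw [h1, h1]
  · intro g _ g' _ h
    have h2 : ∀ i, Perm.sumCongr g.1 g.2 i = Perm.sumCongr g'.1 g'.2 i := fun i => by rw [h]
    apply Prod.ext
    · apply Equiv.ext
      intro j
      exact Sum.inl_injective (h2 (Sum.inl j))
    · apply Equiv.ext
      intro j
      exact Sum.inr_injective (h2 (Sum.inr j))
  · intro g hg
    have h2 : Set.MapsTo g (Set.range (Sum.inl : Fin K → Fin K ⊕ Fin K))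
        (Set.range (Sum.inl : Fin K → Fin K ⊕ Fin K)) := by
      rintro _ ⟨j, rfl⟩
      have h3 := (mem_lineF.1 hg).2 (Sum.inl j)
      rw [h0] at h3
      rcases hgj : g (Sum.inl j) with m | m
      · exact ⟨m, rfl⟩
      · rw [hgj, h1] at h3
        exact absurd h3 (by norm_num)
    obtain ⟨⟨a, b⟩, hab⟩ := Perm.mem_sumCongrHom_range_of_perm_mapsTo_inl h2
    exact ⟨(a, b), Finset.mem_product.2 ⟨Finset.mem_univ _, Finset.mem_univ _⟩, hab⟩
  · intro g _
    rfl

end comb

variable {k : Type u} [Field k] {𝒱 : VarClass k}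

section chow

variable {C : TheoryData.{u, v, 0} 𝒱 ℚ} [hC : IsChowProj C] {X Y Z W V : 𝒱.Obj}

include hC

/-- The alternating sum over two columns, with the variables of the rows in `T` integrated out. -/
noncomputable def dsum {K : ℕ} (p : C.A (X.prod X)) (T : Finset (Fin K)) (W : 𝒱.Obj)
    (t z w : Fin K → (W ⟶ X)) : C.A W :=
  ∑ c0 : Perm (Fin K), ∑ c1 : Perm (Fin K),
    (((Perm.sign c0 : ℤ) : ℚ) * ((Perm.sign c1 : ℤ) : ℚ)) •
      ((∏ j ∈ Tᶜ, (ev p (t j) (z (c0 j)) * ev p (t j) (w (c1 j)))) *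
        ∏ j ∈ T, ev p (z (c0 j)) (w (c1 j)))

/-- The integration of one more variable. -/
lemma push_dsum {K : ℕ} {p : C.A (X.prod X)} (hp : C.comp p p = p)
    (hsym : ∀ (W : 𝒱.Obj) (x y : W ⟶ X), ev p x y = ev p y x) {T : Finset (Fin K)} {m : Fin K}
    (hm : m ∉ T) (t z w : Fin K → (W ⟶ X)) :
    C.push (fst W X) (dsum p T (W.prod X) (Function.update (fun j => fst W X ≫ t j) m (snd W X))
      (fun j => fst W X ≫ z j) (fun j => fst W X ≫ w j)) = dsum p (insert m T) W t z w := by
  rw [dsum, dsum, map_sum]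
  apply Finset.sum_congr rfl
  intro c0 _
  rw [map_sum]
  apply Finset.sum_congr rfl
  intro c1 _
  rw [map_smul]
  congr 1
  have hmT : m ∉ (insert m T)ᶜ := by simp
  have hT : Tᶜ = insert m (insert m T)ᶜ := by
    ext i
    simp only [Finset.mem_compl, Finset.mem_insert, not_or]
    by_cases hi : i = m
    · subst hi
      simp [hm]
    · simp [hi]
  have h1 : (∏ j ∈ Tᶜ, (ev p (Function.update (fun j => fst W X ≫ t j) m (snd W X) j)
      (fst W X ≫ z (c0 j)) * ev p (Function.update (fun j => fst W X ≫ t j) m (snd W X) j)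
      (fst W X ≫ w (c1 j)))) * ∏ j ∈ T, ev p (fst W X ≫ z (c0 j)) (fst W X ≫ w (c1 j)) =
      ev p (fst W X ≫ z (c0 m)) (snd W X) * ev p (fst W X ≫ w (c1 m)) (snd W X) *
        C.pull (fst W X) ((∏ j ∈ (insert m T)ᶜ, (ev p (t j) (z (c0 j)) *
          ev p (t j) (w (c1 j)))) * ∏ j ∈ T, ev p (z (c0 j)) (w (c1 j))) := by
    rw [hT, Finset.prod_insert hmT, Function.update_self, hsym _ (snd W X), hsym _ (snd W X),
      map_mul, map_prod, map_prod, mul_assoc]
    congr 2
    · apply Finset.prod_congr rfl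
      intro j hj
      have hjm : j ≠ m := by
        rintro rfl
        exact hmT hj
      rw [Function.update_of_ne hjm, map_mul, pull_ev, pull_ev]
    · apply Finset.prod_congr rfl
      intro j _
      rw [pull_ev]
  rw [h1, int_two hp hsym, Finset.prod_insert hm]
  ring

/-- A symmetric idempotent killed by the Young symmetrizer of two columns of height `K` is killed by
the antisymmetrizer of one column of height `K`. -/
theorem two_columns {K : ℕ} {p : C.A (X.prod X)} (hp : C.comp p p = p)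
    (hsym : ∀ (W : 𝒱.Obj) (x y : W ⟶ X), ev p x y = ev p y x) {I : Family C}
    (hI : IsAdequate C I) {r' c' : Fin K ⊕ Fin K → ℕ} (hr0 : ∀ j, r' (Sum.inl j) = j)
    (hr1 : ∀ j, r' (Sum.inr j) = j) (h0 : ∀ j, c' (Sum.inl j) = 0)
    (h1 : ∀ j, c' (Sum.inr j) = 1) {e : ℤ}
    (h : InI I (young r' c' (fun _ => p) Finset.univ) e) :
    InI I (comb (ι := Fin K) (fun _ => p) (fun σ => ((Perm.sign σ : ℤ) : ℚ)))
      (e - K * X.dim) := by
  -- the symmetrization of the rows
  have key0 : ∀ (W : 𝒱.Obj) (t z w : Fin K → (W ⟶ X)), dsum p ∅ W t z w ∈ I W e := by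
    intro W t z w
    set x : Fin K ⊕ Fin K → (W ⟶ X) := Sum.elim t t with hx
    set y : Fin K ⊕ Fin K → (W ⟶ X) := Sum.elim z w with hy
    have hxr : ∀ r ∈ lineF r' Finset.univ, ∀ i, x (r i) = x i := by
      intro r hr i
      have h2 := (mem_lineF.1 hr).2 i
      have h3 : ∀ i, r' i = (Sum.elim id id i : Fin K) := by
        rintro (j | j)
        · exact hr0 j
        · exact hr1 j
      rw [h3, h3] at h2
      have h4 := Fin.ext h2
      have h5 : ∀ i, x i = t (Sum.elim id id i) := by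
        rintro (j | j) <;> rfl
      rw [h5, h5, h4]
    have h2 : young r' c' (fun _ => p) Finset.univ W x y =
        ((lineF r' (Finset.univ : Finset (Fin K ⊕ Fin K))).card : ℚ) • dsum p ∅ W t z w := by
      rw [young, Nat.cast_smul_eq_nsmul, ← Finset.sum_const]
      simp only [Finset.sum_apply]
      apply Finset.sum_congr rfl
      intro r hr
      rw [sum_two _ h0 h1, dsum]
      apply Finset.sum_congr rfl
      intro c0 _
      apply Finset.sum_congr rfl
      intro c1 _
      change ((Perm.sign (Perm.sumCongr c0 c1) : ℤ) : ℚ) •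
        ∏ i, ev p (x i) (y ((Perm.sumCongr c0 c1 * r⁻¹) i)) = _
      have h3 : ∏ i, ev p (x i) (y ((Perm.sumCongr c0 c1 * r⁻¹) i)) =
          ∏ i, ev p (x i) (y (Perm.sumCongr c0 c1 i)) := by
        rw [← Equiv.prod_comp r (fun i => ev p (x i) (y ((Perm.sumCongr c0 c1 * r⁻¹) i)))]
        apply Finset.prod_congr rfl
        intro i _
        rw [Perm.mul_apply, inv_app, hxr r hr]
      rw [h3, Perm.sign_sumCongr, Fintype.prod_sum_type, ← Finset.prod_mul_distrib,
        Finset.prod_empty, mul_one, Finset.compl_empty]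
      push_cast
      rfl
    have h3 := h W x y
    rw [h2] at h3
    have hpos : ((lineF r' (Finset.univ : Finset (Fin K ⊕ Fin K))).card : ℚ) ≠ 0 := by
      have : 0 < (lineF r' (Finset.univ : Finset (Fin K ⊕ Fin K))).card :=
        Finset.card_pos.2 ⟨1, mem_lineF.2 ⟨fun _ _ => rfl, fun _ => rfl⟩⟩
      positivity
    have h4 := Submodule.smul_mem _ (((lineF r' (Finset.univ : Finset (Fin K ⊕ Fin K))).card :
      ℚ))⁻¹ h3
    rwa [smul_smul, inv_mul_cancel₀ hpos, one_smul] at h4
  -- integration of the variables of the rows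
  have key : ∀ (T : Finset (Fin K)) (W : 𝒱.Obj) (t z w : Fin K → (W ⟶ X)),
      dsum p T W t z w ∈ I W (e - T.card * X.dim) := by
    intro T
    induction T using Finset.induction_on with
    | empty =>
      intro W t z w
      refine hI.congr ?_ (key0 W t z w)
      rw [Finset.card_empty]
      push_cast
      ring
    | insert m T hm ih =>
      intro W t z w
      have h2 := push_fam hI (ih (W.prod X) (Function.update (fun j => fst W X ≫ t j) m (snd W X))
        (fun j => fst W X ≫ z j) (fun j => fst W X ≫ w j))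
      rw [push_dsum hp hsym hm] at h2
      refine hI.congr ?_ h2
      rw [Finset.card_insert_of_notMem hm]
      push_cast
      ring
  intro W z w
  have h2 := key Finset.univ W z z w
  rw [Finset.card_univ, Fintype.card_fin] at h2
  have h3 : dsum p Finset.univ W z z w = (Fintype.card (Perm (Fin K)) : ℚ) •
      comb (ι := Fin K) (fun _ => p) (fun σ => ((Perm.sign σ : ℤ) : ℚ)) W z w := by
    rw [dsum, Nat.cast_smul_eq_nsmul, ← Finset.card_univ, ← Finset.sum_const]
    apply Finset.sum_congr rfl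
    intro c0 _
    rw [comb_apply]
    apply Fintype.sum_equiv (Equiv.mulRight c0⁻¹)
    intro c1
    rw [Finset.compl_univ, Finset.prod_empty, one_mul]
    change _ = ((Perm.sign (c1 * c0⁻¹) : ℤ) : ℚ) • ∏ i, ev p (z i) (w ((c1 * c0⁻¹) i))
    rw [← Equiv.prod_comp c0 (fun i => ev p (z i) (w ((c1 * c0⁻¹) i)))]
    have h4 : ((Perm.sign (c1 * c0⁻¹) : ℤ) : ℚ) =
        ((Perm.sign c0 : ℤ) : ℚ) * ((Perm.sign c1 : ℤ) : ℚ) := by
      rw [sign_mul', Perm.sign_inv, mul_comm]
    rw [h4]
    congr 1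
    apply Finset.prod_congr rfl
    intro i _
    rw [Perm.mul_apply, inv_app]
  rw [h3] at h2
  have hpos : (Fintype.card (Perm (Fin K)) : ℚ) ≠ 0 := by
    exact_mod_cast Fintype.card_ne_zero
  have h4 := Submodule.smul_mem _ ((Fintype.card (Perm (Fin K)) : ℚ))⁻¹ h2
  rwa [smul_smul, inv_mul_cancel₀ hpos, one_smul] at h4

end chow

end Pool.Agent.Helper70_bl
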