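import Pool.Agent.Helper70_bl.Ev3

/-!
# Symmetric idempotents of trace `r`
-/

open CategoryTheory AlgebraicGeometry

universe u v w

namespace Pool.Agent.Helper70_bl

open Pool.Agent.H914 Pool.Agent.H914.VarClass Pool.Agent.H914.VarClass.Obj Pool.Agent.W492.BB
  Pool.Agent.W550.Corr Pool.Agent.TH133 Pool.Agent.TH829.Prime Pool.Agent.TH829.Kim Equiv

set_option linter.unusedSectionVars false

variable {k : Type u} [Field k] {𝒱 : VarClass k}

section chow

variable {C : TheoryData.{u, v, 0} 𝒱 ℚ} [hC : IsChowProj C] {X Y Z W V : 𝒱.Obj}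

include hC

/-- If the fundamental class dies then everything dies. -/
lemma comb_of_one {I : Family C} (hI : IsAdequate C I) {p : C.A (X.prod X)}
    (hpd : p ∈ C.gr (X.prod X) X.dim) {κ : Type} [Fintype κ] [DecidableEq κ] (α : Perm κ → ℚ)
    (h1 : ∀ W : 𝒱.Obj, (1 : C.A W) ∈ I W 0) :
    InI I (comb (ι := κ) (fun _ => p) α) (Fintype.card κ * X.dim) := by
  intro W x y
  rw [comb_apply]
  apply Submodule.sum_mem
  intro σ _
  apply Submodule.smul_mem
  have h2 := (prod_congr_mod (isAdequate_bot (C := C)) (Finset.univ : Finset κ) (d := X.dim)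
    (A := fun i => ev p (x i) (y (σ i))) (B := fun i => ev p (x i) (y (σ i)))
    (fun i => ev_mem hpd _ _) (fun i => ev_mem hpd _ _) (fun i => by
      rw [sub_self]; exact Submodule.zero_mem _)).1
  have h3 := hI.mul_mem' h2 (h1 W)
  rw [mul_one, Finset.card_univ] at h3
  exact hI.congr (by ring) h3

/-- A symmetric idempotent of trace `r` killed by the Young symmetrizer of a diagram without the
cell `(r + 2, 2)` is killed by the antisymmetrizer with `r + 1` factors. -/
theorem rel_of_young {p : C.A (X.prod X)} (hpd : p ∈ C.gr (X.prod X) X.dim)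
    (hp : C.comp p p = p) {r : ℕ} (hpr : HasDegree C (ev p (𝟙 X) (𝟙 X)) r)
    (hsym : ∀ (W : 𝒱.Obj) (x y : W ⟶ X), ev p x y = ev p y x) {I : Family C}
    (hI : IsAdequate C I) (n : ℕ) : ∀ (ι : Type) [Fintype ι] [DecidableEq ι] (row col : ι → ℕ)
    (S : Finset ι), S.card = n → IsDiag row col S → (∀ i ∈ S, ¬ (r + 2 ≤ row i ∧ 2 ≤ col i)) →
    InI I (young row col (fun _ => p) S) (S.card * X.dim) →
    InI I (comb (ι := Fin (r + 1)) (fun _ => p) (fun σ => ((Perm.sign σ : ℤ) : ℚ)))
      ((r + 1 : ℕ) * X.dim) := by
  induction n using Nat.strong_induction_on with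
  | _ n ih =>
  intro ι _ _ row col S hn hS h22 h
  rcases hS.cases' r h22 with h1 | ⟨c, hc, h1 | h1, hall⟩ | ⟨c, hc, hne⟩
  · -- the empty diagram
    subst h1
    have h2 : ∀ W : 𝒱.Obj, (1 : C.A W) ∈ I W 0 := by
      rcases isEmpty_or_nonempty ι with hι | hι
      · intro W
        have h3 := h W isEmptyElim isEmptyElim
        rw [young_empty, Finset.card_empty] at h3
        exact hI.congr (by push_cast; ring) h3
      · have h3 := h (X.prod X) (fun _ => fst X X) (fun _ => fst X X)
        rw [young_empty, Finset.card_empty] at h3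
        have h4 : (1 : C.A (X.prod X)) ∈ I (X.prod X) 0 := hI.congr (by push_cast; ring) h3
        exact fun W => hI.one_mem_of h4 W
    have h5 := comb_of_one hI hpd (κ := Fin (r + 1)) (fun σ => ((Perm.sign σ : ℤ) : ℚ)) h2
    rwa [Fintype.card_fin] at h5
  · -- one column
    have h2 := comb_of_column hS hc h1.2 hall h
    obtain ⟨f, -⟩ := exists_equiv_column hS hc h1.2 hall
    have h3 : S.card = row c + 1 := by
      have h4 := Fintype.card_congr f
      rw [Fintype.card_fin, Fintype.card_coe] at h4
      exact h4.symm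
    have h4 : ∀ m : ℕ, row c = m →
        InI I (comb (ι := Fin (m + 1)) (fun _ => p) (fun σ => ((Perm.sign σ : ℤ) : ℚ)))
          ((m + 1 : ℕ) * X.dim) := by
      rintro m rfl
      intro W x y
      refine hI.congr ?_ (h2 W x y)
      rw [h3]
    exact h4 r h1.1
  · -- two columns
    obtain ⟨f, hf⟩ := exists_equiv_two hS hc h1.2 hall
    have h3 : S.card = row c + 1 + (row c + 1) := by
      have h4 := Fintype.card_congr f
      rw [Fintype.card_sum, Fintype.card_fin, Fintype.card_coe] at h4
      exact h4.symm
    have h4 : InI I (young (fun j => row (f j)) (fun j => col (f j)) (fun _ => p)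
        (Finset.univ : Finset (Fin (row c + 1) ⊕ Fin (row c + 1)))) (S.card * X.dim) := by
      intro W x y
      obtain ⟨x', hx'⟩ := exists_extend f (x (Sum.inl 0)) x
      obtain ⟨y', hy'⟩ := exists_extend f (y (Sum.inl 0)) y
      have h5 := h W x' y'
      rw [young_transport f] at h5
      simp only [hx', hy'] at h5
      exact h5
    have h5 := two_columns hp hsym hI (fun j => (hf j).1.1) (fun j => (hf j).2.1)
      (fun j => (hf j).1.2) (fun j => (hf j).2.2) h4
    have h6 : comb (ι := Fin (row c + 1)) (C := C) (X := X) (fun _ => p)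
        (fun σ => ((Perm.sign σ : ℤ) : ℚ)) = young (fun j : Fin (row c + 1) => (j : ℕ))
          (fun _ => 0) (fun _ => p) Finset.univ :=
      (young_one_column Fin.val_injective (fun _ _ => rfl) _).symm
    rw [h6] at h5
    refine ih (row c + 1) (by omega) (Fin (row c + 1)) (fun j => (j : ℕ)) (fun _ => 0)
      Finset.univ (by rw [Finset.card_univ, Fintype.card_fin]) ?_ (fun i _ h7 => by omega) ?_
    · refine ⟨fun i _ j _ hr _ => Fin.ext hr, fun i _ a b ha hb => ?_⟩
      exact ⟨⟨a, by have := i.2; omega⟩, Finset.mem_univ _, rfl, by omega⟩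
    · intro W x y
      refine hI.congr ?_ (h5 W x y)
      rw [Finset.card_univ, Fintype.card_fin, h3]
      push_cast
      ring
  · -- a corner outside the diagonal
    have h1 := h.con1 hI c
    rw [con_young_D hp hpr hS.inj hc.mem (fun a ha har hac b hb hbcol hbc => ?_),
      hS.card_row hc, hS.card_col hc] at h1
    · have h2 := InI.cancel (by
        push_cast
        intro h3
        apply hne
        have h4 : ((row c : ℕ) : ℚ) = ((col c + r : ℕ) : ℚ) := by
          push_cast
          linarith
        exact_mod_cast h4) h1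
      have hcard : (S.erase c).card = n - 1 := by
        rw [Finset.card_erase_of_mem hc.mem, hn]
      have hpos : 0 < S.card := Finset.card_pos.2 ⟨c, hc.mem⟩
      refine ih (n - 1) (by omega) ι row col (S.erase c) hcard (hS.erase hc)
        (fun i hi => h22 i (Finset.mem_of_mem_erase hi)) ?_
      intro W x y
      refine hI.congr ?_ (h2 W x y)
      rw [hcard, hn, Nat.cast_sub (by omega)]
      push_cast
      ring
    · have hbr : row b < row c := by
        have h2 := hc.down b hb hbcol
        rcases h2.lt_or_eq with h3 | h3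
        · exact h3
        · exact absurd (hS.inj b hb c hc.mem h3 hbcol) hbc
      obtain ⟨m, hm, hm1, hm2⟩ := hS.low c hc.mem (row b) (col a) hbr.le (hc.right a ha har)
      refine ⟨m, Finset.mem_erase.2 ⟨?_, hm⟩, hm1, hm2⟩
      rintro rfl
      omega

end chow

end Pool.Agent.Helper70_bl
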