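import Pool.Agent.Helper70_bl.Bl15
import Pool.Agent.Helper70_bl.Ev5

/-!
# Symmetric motives of trace zero
-/

open CategoryTheory AlgebraicGeometry

universe u v w

namespace Pool.Agent.Helper70_bl

open Pool.Agent.H914 Pool.Agent.H914.VarClass Pool.Agent.H914.VarClass.Obj Pool.Agent.W492.BB
  Pool.Agent.W550.Corr Pool.Agent.TH133 Pool.Agent.TH829.Prime Pool.Agent.TH829.Kim

/-- The general criteria, and what they say for trace zero. -/
theorem selfdual {k : Type u} [Field k] {𝒱 : VarClass k} (C : TheoryData.{u, v, 0} 𝒱 ℚ)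
    [IsChowProj C] (X : 𝒱.Obj) (p : C.A (X.prod X)) (r : ℕ) (hpd : C.Deg X.dim p)
    (hp : C.comp p p = p) (hs : value C p (snd X X) (fst X X) = p)
    (hr : HasDegree C (value C p (𝟙 X) (𝟙 X)) r) :
    (∀ I : Family C, IsAdequate C I → List.TFAE [
      Relation C p I (r + 1) (fun σ => ((Equiv.Perm.sign σ : ℤ) : ℚ)),
      ∃ n, Relation C p I n (fun σ => ((Equiv.Perm.sign σ : ℤ) : ℚ)),
      ∃ n ≤ 3 * r + 8, Dependent C p I n,
      ∃ μ : YoungDiagram, (r + 2, 2) ∉ μ ∧ SchurZero C p I μ,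
      Exceptional C p I r]) ∧
    List.TFAE [
      Relation C p (ratFam C) (r + 1) (fun σ => ((Equiv.Perm.sign σ : ℤ) : ℚ)),
      Exceptional C p (ratFam C) r,
      ∃ I : Family C, IsAdequate C I ∧ (∀ Z i, ∀ z ∈ I Z i, SmashNilpotent C z) ∧
        Exceptional C p I r,
      ∀ P : Family C, IsPrime C P → Exceptional C p P r] ∧
    (r = 0 → ∀ I : Family C, IsAdequate C I →
      (Exceptional C p I r ↔ p ∈ I (X.prod X) X.dim)) := by
  refine ⟨fun I hI => even_tfae hpd hp hs hr hI, even_rat_tfae hpd hp hs hr, ?_⟩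
  rintro rfl I hI
  rw [((even_tfae hpd hp hs hr hI).out 4 0 :)]
  constructor
  · intro h
    have h1 := h (X.prod X) (fun _ => fst X X) (fun _ => snd X X)
    have h2 : value C p (fst X X) (snd X X) = p := by
      change C.pull (Obj.lift (fst X X) (snd X X)) p = p
      have h3 : Obj.lift (fst X X) (snd X X) = 𝟙 (X.prod X) := by
        apply prod_ext <;> simp
      rw [h3, C.pull_id]
    simpa [h2] using h1
  · intro h
    rw [relation_iff]
    exact comb_mem hI hpd h 0 _

end Pool.Agent.Helper70_bl
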