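import Pool.Agent.Helper70_bl.Ev5
import Mathlib.Algebra.Polynomial.Eval.Defs
import Mathlib.Algebra.Polynomial.Coeff

/-!
# Coefficient extraction
-/

set_option linter.unusedSectionVars false

namespace Pool.Agent.Helper70_bl

section vander

variable {M : Type*} [AddCommGroup M] [Module ℚ M]

/-- The coefficients of a polynomial function with values in a subspace belong to the subspace. -/
lemma vander (J : Submodule ℚ M) (d : ℕ) : ∀ F : ℕ → M,
    (∀ t : ℚ, ∑ k ∈ Finset.range d, t ^ k • F k ∈ J) → ∀ k < d, F k ∈ J := by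
  induction d with
  | zero => intro F _ k hk; exact absurd hk (Nat.not_lt_zero k)
  | succ d ih =>
    intro F h
    have h1 : ∀ k < d, F k ∈ J := by
      intro k hk
      have h2 := ih (fun k => ((2 : ℚ) ^ k - 2 ^ d) • F k) (fun t => by
        have h3 := Submodule.sub_mem _ (h (2 * t)) (Submodule.smul_mem _ ((2 : ℚ) ^ d) (h t))
        have h4 : ∑ k ∈ Finset.range (d + 1), (2 * t) ^ k • F k -
            (2 : ℚ) ^ d • ∑ k ∈ Finset.range (d + 1), t ^ k • F k =
            ∑ k ∈ Finset.range d, t ^ k • ((2 : ℚ) ^ k - 2 ^ d) • F k := by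
          rw [Finset.sum_range_succ, Finset.sum_range_succ, smul_add, Finset.smul_sum, smul_smul]
          have h5 : ∀ k, t ^ k • ((2 : ℚ) ^ k - 2 ^ d) • F k =
              (2 * t) ^ k • F k - (2 : ℚ) ^ d • t ^ k • F k := by
            intro k
            rw [smul_smul, smul_smul, ← sub_smul]
            congr 1
            rw [mul_pow]
            ring
          rw [Finset.sum_congr rfl (fun k _ => h5 k), Finset.sum_sub_distrib]
          have h6 : (2 * t) ^ d • F d = ((2 : ℚ) ^ d * t ^ d) • F d := by rw [mul_pow]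
          rw [h6]
          abel
        rwa [h4] at h3) k hk
      have h7 : ((2 : ℚ) ^ k - 2 ^ d) ≠ 0 := by
        have h8 : (2 : ℚ) ^ k < 2 ^ d := pow_lt_pow_right₀ (by norm_num) hk
        linarith
      have h9 := Submodule.smul_mem _ ((2 : ℚ) ^ k - 2 ^ d)⁻¹ h2
      rwa [smul_smul, inv_mul_cancel₀ h7, one_smul] at h9
    intro k hk
    rcases Nat.lt_succ_iff_lt_or_eq.1 hk with h2 | h2
    · exact h1 k h2
    · subst h2
      have h3 := h 1
      rw [Finset.sum_range_succ, one_pow, one_smul] at h3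
      have h4 : ∑ i ∈ Finset.range k, (1 : ℚ) ^ i • F i ∈ J :=
        Submodule.sum_mem _ fun i hi => Submodule.smul_mem _ _ (h1 i (Finset.mem_range.1 hi))
      exact (Submodule.add_mem_iff_right _ h4).1 h3

end vander

section poly

variable {R : Type*} [CommRing R] [Algebra ℚ R]

open Polynomial

/-- The coefficients of a polynomial whose rational values belong to a subspace. -/
lemma coeff_mem (J : Submodule ℚ R) (P : R[X]) (h : ∀ t : ℚ, P.eval (algebraMap ℚ R t) ∈ J)
    (k : ℕ) : P.coeff k ∈ J := by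
  by_cases hk : k < P.natDegree + 1
  · refine vander J (P.natDegree + 1) (fun k => P.coeff k) (fun t => ?_) k hk
    have h1 := h t
    rw [Polynomial.eval_eq_sum_range] at h1
    have h2 : ∑ k ∈ Finset.range (P.natDegree + 1), t ^ k • P.coeff k =
        ∑ i ∈ Finset.range (P.natDegree + 1), P.coeff i * algebraMap ℚ R t ^ i := by
      apply Finset.sum_congr rfl
      intro i _
      rw [Algebra.smul_def, map_pow, mul_comm]
    rw [h2]
    exact h1
  · rw [Polynomial.coeff_eq_zero_of_natDegree_lt (by omega)]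
    exact Submodule.zero_mem _

lemma coeff_mul_low (P Q : R[X]) : (P * Q).coeff 0 = P.coeff 0 * Q.coeff 0 ∧
    (P * Q).coeff 1 = P.coeff 0 * Q.coeff 1 + P.coeff 1 * Q.coeff 0 ∧
    (P * Q).coeff 2 = P.coeff 0 * Q.coeff 2 + P.coeff 1 * Q.coeff 1 + P.coeff 2 * Q.coeff 0 := by
  refine ⟨Polynomial.mul_coeff_zero P Q, ?_, ?_⟩
  · rw [Polynomial.coeff_mul, Finset.Nat.antidiagonal_succ]
    simp
  · rw [Polynomial.coeff_mul, Finset.Nat.sum_antidiagonal_eq_sum_range_succ_mk]
    simp [Finset.sum_range_succ]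

/-- The quadratic polynomial `a + b t + c t ^ 2`. -/
noncomputable def qp (a b c : R) : R[X] := C a + C b * X + C c * X ^ 2

lemma qp_coeff (a b c : R) : (qp a b c).coeff 0 = a ∧ (qp a b c).coeff 1 = b ∧
    (qp a b c).coeff 2 = c := by
  rw [qp]
  refine ⟨?_, ?_, ?_⟩ <;> simp [Polynomial.coeff_X, Polynomial.coeff_C]

lemma qp_eval (a b c : R) (t : R) : (qp a b c).eval t = a + b * t + c * t ^ 2 := by
  simp [qp]

lemma pow_aux1 (a : R) (N : ℕ) : (N : R) * a ^ (N - 1) * a = N * a ^ N := by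
  rcases N with _ | N
  · simp
  · rw [Nat.add_sub_cancel, mul_assoc, ← pow_succ]

lemma pow_aux2 (a : R) (N : ℕ) : (N.choose 2 : R) * a ^ (N - 2) * a =
    N.choose 2 * a ^ (N - 1) := by
  rcases N with _ | _ | N
  · simp
  · simp
  · rw [mul_assoc, ← pow_succ]
    rfl

lemma qp_pow_coeff (a b c : R) (N : ℕ) : ((qp a b c) ^ N).coeff 0 = a ^ N ∧
    ((qp a b c) ^ N).coeff 1 = N * a ^ (N - 1) * b ∧
    ((qp a b c) ^ N).coeff 2 = N * a ^ (N - 1) * c + N.choose 2 * a ^ (N - 2) * b ^ 2 := by
  induction N with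
  | zero => simp [Polynomial.coeff_one]
  | succ N ih =>
    obtain ⟨h0, h1, h2⟩ := ih
    obtain ⟨q0, q1, q2⟩ := qp_coeff a b c
    obtain ⟨m0, m1, m2⟩ := coeff_mul_low ((qp a b c) ^ N) (qp a b c)
    have e1 := pow_aux1 a N
    have e2 := pow_aux2 a N
    have e3 : ((N + 1).choose 2 : R) = N + N.choose 2 := by
      rw [Nat.choose_succ_succ', Nat.choose_one_right]
      push_cast
      ring
    rw [pow_succ, m0, m1, m2, h0, h1, h2, q0, q1, q2]
    refine ⟨(pow_succ a N).symm, ?_, ?_⟩
    · rw [Nat.add_sub_cancel]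
      push_cast
      linear_combination b * e1
    · have e4 : N + 1 - 2 = N - 1 := by omega
      rw [Nat.add_sub_cancel, e3, e4]
      push_cast
      linear_combination c * e1 + b ^ 2 * e2

/-- The second coefficient of a product of powers of a quadratic and a linear polynomial. -/
lemma qp_mul_coeff (a b c d e : R) (N n : ℕ) :
    ((qp a b c) ^ N * (qp d e 0) ^ n).coeff 2 =
      N * a ^ (N - 1) * c * d ^ n + N.choose 2 * a ^ (N - 2) * b ^ 2 * d ^ n +
      N * a ^ (N - 1) * b * (n * d ^ (n - 1) * e) + a ^ N * (n.choose 2 * d ^ (n - 2) * e ^ 2) := by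
  obtain ⟨h0, h1, h2⟩ := qp_pow_coeff a b c N
  obtain ⟨g0, g1, g2⟩ := qp_pow_coeff d e 0 n
  obtain ⟨m0, m1, m2⟩ := coeff_mul_low ((qp a b c) ^ N) ((qp d e 0) ^ n)
  rw [m2, h0, h1, h2, g0, g1, g2]
  ring

end poly

end Pool.Agent.Helper70_bl
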