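import Pool.Agent.Helper70_bl.Od9

/-!
# Kimura finite-dimensionality and smash-nilpotence
-/

open CategoryTheory AlgebraicGeometry

universe u v w

namespace Pool.Agent.Helper70_bl

open Pool.Agent.H914 Pool.Agent.H914.VarClass Pool.Agent.H914.VarClass.Obj Pool.Agent.W492.BB
  Pool.Agent.W550.Corr Pool.Agent.TH133 Pool.Agent.TH829.Prime Pool.Agent.TH829.Kim Equiv

set_option linter.unusedSectionVars false

variable {k : Type u} [Field k] {𝒱 : VarClass k}

section chow

variable {C : TheoryData.{u, v, 0} 𝒱 ℚ} [hC : IsChowProj C] {X Y Z W V : 𝒱.Obj}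

include hC

lemma ev_fst_snd (p : C.A (X.prod X)) : ev p (fst X X) (snd X X) = p := by
  change C.pull (Obj.lift (fst X X) (snd X X)) p = p
  have h3 : Obj.lift (fst X X) (snd X X) = 𝟙 (X.prod X) := by
    apply prod_ext <;> simp
  rw [h3, C.pull_id]

/-- The criterion for a decomposition into an even and an odd part. -/
theorem kimura_of_two {p : C.A (X.prod X)} (hpd : p ∈ C.gr (X.prod X) X.dim)
    (hp : C.comp p p = p) (hs : value C p (snd X X) (fst X X) = p) {r g : ℕ}
    (hr : HasDegree C (value C p (𝟙 X) (𝟙 X)) r)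
    (hg : HasDegree C (value C (dg C X - p) (𝟙 X) (𝟙 X)) (-(2 * g : ℚ))) {I : Family C}
    (hI : IsAdequate C I) (h1 : Exceptional C p I r) (h2 : OddExceptional C (dg C X - p) I g) :
    IsKimuraFinite C I X := by
  have hqd : dg C X - p ∈ C.gr (X.prod X) X.dim := Submodule.sub_mem _ (dg_mem C X) hpd
  have hq : C.comp (dg C X - p) (dg C X - p) = dg C X - p := by
    rw [comp_sub, sub_comp, sub_comp, comp_dg, comp_dg, dg_comp, hp]
    abel
  have hqs : value C (dg C X - p) (snd X X) (fst X X) = dg C X - p := by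
    change C.pull (Obj.lift (snd X X) (fst X X)) (dg C X - p) = _
    rw [map_sub]
    have h3 : C.pull (Obj.lift (snd X X) (fst X X)) p = p := hs
    have h4 : C.pull (Obj.lift (snd X X) (fst X X)) (dg C X) = dg C X := by
      have h5 := ev_dg_symm (C := C) (X := X) (X.prod X) (snd X X) (fst X X)
      rw [ev_fst_snd] at h5
      exact h5
    rw [h3, h4]
  have h3 : Relation C p I (r + 1) (fun σ => ((Equiv.Perm.sign σ : ℤ) : ℚ)) :=
    ((even_tfae hpd hp hs hr hI).out 4 0).1 h1
  have h4 : Relation C (dg C X - p) I (2 * g + 1) (fun _ => 1) :=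
    ((odd_tfae hqd hq hqs hg hI).out 4 0).1 h2
  refine ⟨p, hpd, ?_, ⟨r + 1, by omega, fun W x y => ?_⟩,
    ⟨2 * g + 1, by omega, fun W x y => ?_⟩⟩
  · rw [hp, sub_self]
    exact Submodule.zero_mem _
  · have h5 := (relation_sign_iff hpd).1 h3 W x y
    rw [toA_ofA] at h5
    rw [altPower_eq]
    exact h5
  · have h5 := (relation_one_iff hqd).1 h4 W x y
    rw [toA_ofA] at h5
    rw [symPower_eq]
    exact h5

/-- The partial evaluations of the symmetrizer at a cycle. -/
lemma sym_at {n : ℕ} {p : C.A (X.prod X)} {I : Family C} (hI : IsAdequate C I) {z : C.A X} {i : ℤ}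
    (hz : z ∈ C.gr X i) (hpz : C.comp (C.ext (1 : C.A X) z) p = C.ext (1 : C.A X) z)
    (h : InI I (comb (ι := Fin n) (fun _ => p) (fun _ => 1)) (n * X.dim)) (T : Finset (Fin n)) :
    ∀ (W : 𝒱.Obj) (x y : Fin n → (W ⟶ X)),
      ∑ σ : Perm (Fin n), (∏ j ∈ Tᶜ, ev p (x j) (y (σ j))) * ∏ j ∈ T, C.pull (y (σ j)) z ∈
        I W (n * X.dim + T.card * (i - X.dim)) := by
  induction T using Finset.induction_on with
  | empty =>
    intro W x y
    have h1 := h W x y
    rw [comb_apply] at h1
    refine hI.congr (i := (n * X.dim : ℤ)) (by simp) ?_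
    simpa using h1
  | insert m T hm ih =>
    intro W x y
    have h1 := ih (W.prod X) (Function.update (fun j => fst W X ≫ x j) m (snd W X))
      (fun j => fst W X ≫ y j)
    have h2 := push_fam hI (hI.mul_mem' (C.pull_mem (snd W X) hz) h1)
    refine hI.congr (by rw [Finset.card_insert_of_notMem hm]; push_cast; ring) (?_ : _ ∈ I W
      (i + (n * X.dim + T.card * (i - X.dim)) - X.dim))
    have hmT : m ∉ (insert m T)ᶜ := by simp
    have hT : Tᶜ = insert m (insert m T)ᶜ := by
      ext j
      simp only [Finset.mem_compl, Finset.mem_insert, not_or]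
      by_cases hj : j = m
      · subst hj
        simp [hm]
      · simp [hj]
    have h3 : C.push (fst W X) (C.pull (snd W X) z * ∑ σ : Perm (Fin n),
        (∏ j ∈ Tᶜ, ev p (Function.update (fun j => fst W X ≫ x j) m (snd W X) j)
          (fst W X ≫ y (σ j))) * ∏ j ∈ T, C.pull (fst W X ≫ y (σ j)) z) =
        ∑ σ : Perm (Fin n), (∏ j ∈ (insert m T)ᶜ, ev p (x j) (y (σ j))) *
          ∏ j ∈ insert m T, C.pull (y (σ j)) z := by
      rw [Finset.mul_sum, map_sum]
      apply Finset.sum_congr rfl
      intro σ _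
      have h4 : C.pull (snd W X) z * ((∏ j ∈ Tᶜ, ev p (Function.update
          (fun j => fst W X ≫ x j) m (snd W X) j) (fst W X ≫ y (σ j))) *
            ∏ j ∈ T, C.pull (fst W X ≫ y (σ j)) z) =
          ev (C.ext (1 : C.A X) z) (fst W X ≫ y (σ m)) (snd W X) * ev p (snd W X) (fst W X ≫ y (σ m)) *
          C.pull (fst W X) ((∏ j ∈ (insert m T)ᶜ, ev p (x j) (y (σ j))) *
            ∏ j ∈ T, C.pull (y (σ j)) z) := by
        rw [hT, Finset.prod_insert hmT, Function.update_self, ev_ext, map_one, one_mul, map_mul,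
          map_prod, map_prod]
        have h5 : ∏ j ∈ (insert m T)ᶜ, ev p (Function.update (fun j => fst W X ≫ x j) m
            (snd W X) j) (fst W X ≫ y (σ j)) =
            ∏ j ∈ (insert m T)ᶜ, C.pull (fst W X) (ev p (x j) (y (σ j))) := by
          apply Finset.prod_congr rfl
          intro j hj
          have hjm : j ≠ m := by
            rintro rfl
            exact hmT hj
          rw [Function.update_of_ne hjm, pull_ev]
        have h6 : ∏ j ∈ T, C.pull (fst W X ≫ y (σ j)) z =
            ∏ j ∈ T, C.pull (fst W X) (C.pull (y (σ j)) z) := by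
          apply Finset.prod_congr rfl
          intro j _
          rw [C.pull_comp]
        rw [h5, h6]
        ring
      rw [h4, C.proj_right, ← ev_comp, hpz, ev_ext, map_one, one_mul, Finset.prod_insert hm]
      ring
    rw [← h3]
    exact h2

omit hC in
/-- The exterior powers as products. -/
lemma extPow_eq_prod [IsChowProj C] (z : C.A X) (m : ℕ) : ∃ y : Fin (m + 1) → (powObj X m ⟶ X),
    extPow C z m = ∏ j, C.pull (y j) z := by
  induction m with
  | zero =>
    refine ⟨fun _ => 𝟙 X, ?_⟩
    rw [Fin.prod_univ_succ, Finset.univ_eq_empty, Finset.prod_empty, mul_one]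
    exact (C.pull_id z).symm
  | succ m ih =>
    obtain ⟨y, hy⟩ := ih
    refine ⟨Fin.cons (fst X (powObj X m)) fun j => snd X (powObj X m) ≫ y j, ?_⟩
    rw [Fin.prod_univ_succ]
    simp only [Fin.cons_zero, Fin.cons_succ]
    change C.ext z (extPow C z m) = _
    rw [hy, TheoryData.ext, map_prod]
    congr 1
    apply Finset.prod_congr rfl
    intro j _
    rw [C.pull_comp]
    rfl

/-- The cycles of an oddly finite-dimensional motive are smash-nilpotent. -/
theorem ext_zero {n : ℕ} {p : C.A (X.prod X)} {z : C.A X} {i : ℤ}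
    (hz : z ∈ C.gr X i) (hpz : C.comp (C.ext (1 : C.A X) z) p = C.ext (1 : C.A X) z)
    (h : Relation C p (ratFam C) (n + 1) (fun _ => 1)) : extPow C z n = 0 := by
  have hrat : IsAdequate C (ratFam C) := isAdequate_bot
  obtain ⟨y, hy⟩ := extPow_eq_prod (C := C) z n
  rw [relation_iff, Fintype.card_fin] at h
  have h1 := sym_at hrat hz hpz h Finset.univ (powObj X n) y y
  rw [Finset.compl_univ] at h1
  simp only [Finset.prod_empty, one_mul] at h1
  have h2 : ∀ σ : Perm (Fin (n + 1)), ∏ j, C.pull (y (σ j)) z = ∏ j, C.pull (y j) z := fun σ =>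
    Equiv.prod_comp σ (fun j => C.pull (y j) z)
  simp only [h2] at h1
  rw [Finset.sum_const, Finset.card_univ, ← hy, ← Nat.cast_smul_eq_nsmul ℚ] at h1
  have h3 : ((Fintype.card (Perm (Fin (n + 1))) : ℕ) : ℚ) • extPow C z n = 0 :=
    (Submodule.mem_bot ℚ).1 h1
  have hpos : ((Fintype.card (Perm (Fin (n + 1))) : ℕ) : ℚ) ≠ 0 := by
    exact_mod_cast Fintype.card_ne_zero
  exact (smul_eq_zero.1 h3).resolve_left hpos

end chow

end Pool.Agent.Helper70_bl
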