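import Pool.Agent.Helper70_bl.Od10

/-!
# The theorem on odd motives
-/

open CategoryTheory AlgebraicGeometry

universe u v w

namespace Pool.Agent.Helper70_bl

open Pool.Agent.H914 Pool.Agent.H914.VarClass Pool.Agent.H914.VarClass.Obj Pool.Agent.W492.BB
  Pool.Agent.W550.Corr Pool.Agent.TH133 Pool.Agent.TH829.Prime Pool.Agent.TH829.Kim

theorem odd_main {k : Type u} [Field k] {𝒱 : VarClass k} (C : TheoryData.{u, v, 0} 𝒱 ℚ)
    [IsChowProj C] (X : 𝒱.Obj) (p : C.A (X.prod X)) (g : ℕ) (hpd : C.Deg X.dim p)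
    (hp : C.comp p p = p) (hs : value C p (snd X X) (fst X X) = p)
    (hg : HasDegree C (value C p (𝟙 X) (𝟙 X)) (-(2 * g : ℚ))) :
    (∀ I : Family C, IsAdequate C I → List.TFAE [
      Relation C p I (2 * g + 1) (fun _ => 1),
      ∃ n, Relation C p I n (fun _ => 1),
      ∃ n ≤ 6 * g + 8, Dependent C p I n,
      ∃ μ : YoungDiagram, (2, 2 * g + 2) ∉ μ ∧ SchurZero C p I μ,
      OddExceptional C p I g]) ∧
    List.TFAE [
      Relation C p (ratFam C) (2 * g + 1) (fun _ => 1),
      OddExceptional C p (ratFam C) g,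
      ∃ I : Family C, IsAdequate C I ∧ (∀ Z i, ∀ z ∈ I Z i, SmashNilpotent C z) ∧
        OddExceptional C p I g,
      ∀ P : Family C, IsPrime C P → OddExceptional C p P g] ∧
    (OddExceptional C p (ratFam C) g → ∀ (z : C.A X) (i : ℤ), C.Deg i z →
      C.comp (C.ext (1 : C.A X) z) p = C.ext (1 : C.A X) z → PowZero C z (2 * g)) ∧
    (∀ r : ℕ, HasDegree C (value C (dg C X - p) (𝟙 X) (𝟙 X)) r → ∀ I : Family C,
      IsAdequate C I → Exceptional C (dg C X - p) I r → OddExceptional C p I g →
        IsKimuraFinite C I X) := by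
  refine ⟨fun I hI => odd_tfae hpd hp hs hg hI, odd_rat_tfae hpd hp hs hg, ?_, ?_⟩
  · intro h z i hz hpz
    have h1 : Relation C p (ratFam C) (2 * g + 1) (fun _ => 1) :=
      ((odd_rat_tfae hpd hp hs hg).out 1 0).1 h
    exact ext_zero hz hpz h1
  · intro r hr I hI h1 h2
    have hqd : dg C X - p ∈ C.gr (X.prod X) X.dim := Submodule.sub_mem _ (dg_mem C X) hpd
    have hq : C.comp (dg C X - p) (dg C X - p) = dg C X - p := by
      rw [comp_sub, sub_comp, sub_comp, comp_dg, comp_dg, dg_comp, hp]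
      abel
    have hqs : value C (dg C X - p) (snd X X) (fst X X) = dg C X - p := by
      change C.pull (Obj.lift (snd X X) (fst X X)) (dg C X - p) = _
      rw [map_sub]
      have h3 : C.pull (Obj.lift (snd X X) (fst X X)) p = p := hs
      have h4 : C.pull (Obj.lift (snd X X) (fst X X)) (dg C X) = dg C X := by
        have h5 := ev_dg_symm (C := C) (X := X) (X.prod X) (snd X X) (fst X X)
        rw [ev_fst_snd] at h5
        exact h5
      rw [h3, h4]
    refine kimura_of_two (g := g) hqd hq hqs hr ?_ hI h1 ?_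
    · rw [sub_sub_cancel]
      exact hg
    · rw [sub_sub_cancel]
      exact h2

end Pool.Agent.Helper70_bl
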