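import Pool.Agent.Helper70_bl.Od1

/-!
# Formal points
-/

open CategoryTheory AlgebraicGeometry

universe u v w

namespace Pool.Agent.Helper70_bl

open Pool.Agent.H914 Pool.Agent.H914.VarClass Pool.Agent.H914.VarClass.Obj Pool.Agent.W492.BB
  Pool.Agent.W550.Corr Pool.Agent.TH133 Pool.Agent.TH829.Prime Pool.Agent.TH829.Kim Polynomial

set_option linter.unusedSectionVars false

variable {k : Type u} [Field k] {𝒱 : VarClass k}

section chow

variable {C : TheoryData.{u, v, 0} 𝒱 ℚ} [hC : IsChowProj C] {X Y Z W V : 𝒱.Obj}

include hC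

/-- The bilinear extension of the values of `p` to formal linear combinations of points. -/
noncomputable def Bf (p : C.A (X.prod X)) (W : 𝒱.Obj) :
    ((W ⟶ X) →₀ ℚ) →ₗ[ℚ] ((W ⟶ X) →₀ ℚ) →ₗ[ℚ] C.A W :=
  Finsupp.linearCombination ℚ fun x => Finsupp.linearCombination ℚ fun y => ev p x y

lemma Bf_single (p : C.A (X.prod X)) (x y : W ⟶ X) :
    Bf p W (Finsupp.single x 1) (Finsupp.single y 1) = ev p x y := by
  simp [Bf]

/-- The pull-back of a formal point to `W × X`. -/
noncomputable def pf (W X : 𝒱.Obj) : ((W ⟶ X) →₀ ℚ) →ₗ[ℚ] ((W.prod X ⟶ X) →₀ ℚ) :=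
  Finsupp.lmapDomain ℚ ℚ fun x => fst W X ≫ x

/-- The generic point of the last factor. -/
noncomputable def gp (W X : 𝒱.Obj) : (W.prod X ⟶ X) →₀ ℚ := Finsupp.single (snd W X) 1

lemma Bf_symm {p : C.A (X.prod X)} (hsym : ∀ (W : 𝒱.Obj) (x y : W ⟶ X), ev p x y = ev p y x)
    (a b : (W ⟶ X) →₀ ℚ) : Bf p W a b = Bf p W b a := by
  induction a using Finsupp.induction_linear with
  | zero => simp
  | add a a' h h' => rw [map_add, map_add, LinearMap.add_apply, h, h']
  | single x s =>
    induction b using Finsupp.induction_linear with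
    | zero => simp
    | add b b' h h' => rw [map_add, map_add, LinearMap.add_apply, h, h']
    | single y t =>
      simp only [Bf, Finsupp.linearCombination_single, LinearMap.smul_apply]
      rw [hsym W x y, smul_comm]

lemma pull_Bf (p : C.A (X.prod X)) (a b : (W ⟶ X) →₀ ℚ) :
    C.pull (fst W X) (Bf p W a b) = Bf p (W.prod X) (pf W X a) (pf W X b) := by
  induction a using Finsupp.induction_linear with
  | zero => simp
  | add a a' h h' => rw [map_add, map_add, map_add, LinearMap.add_apply, LinearMap.add_apply,
      map_add, h, h']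
  | single x s =>
    induction b using Finsupp.induction_linear with
    | zero => simp
    | add b b' h h' => rw [map_add, map_add, map_add, map_add, h, h']
    | single y t =>
      simp only [Bf, pf, Finsupp.lmapDomain_apply, Finsupp.mapDomain_single,
        Finsupp.linearCombination_single, LinearMap.smul_apply, map_smul]
      rw [pull_ev]

/-- The integral of a product of two values. -/
lemma int_f {p : C.A (X.prod X)} (hp : C.comp p p = p)
    (hsym : ∀ (W : 𝒱.Obj) (x y : W ⟶ X), ev p x y = ev p y x) (a b : (W ⟶ X) →₀ ℚ) (R : C.A W) :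
    C.push (fst W X) (Bf p _ (pf W X a) (gp W X) * Bf p _ (pf W X b) (gp W X) *
      C.pull (fst W X) R) = Bf p W a b * R := by
  induction a using Finsupp.induction_linear with
  | zero => simp
  | add a a' h h' =>
    rw [map_add, map_add, LinearMap.add_apply, add_mul, add_mul, map_add, h, h', map_add,
      LinearMap.add_apply, add_mul]
  | single x s =>
    induction b using Finsupp.induction_linear with
    | zero => simp
    | add b b' h h' =>
      rw [map_add, map_add, LinearMap.add_apply, mul_add, add_mul, map_add, h, h', map_add,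
        add_mul]
    | single y t =>
      simp only [Bf, pf, gp, Finsupp.lmapDomain_apply, Finsupp.mapDomain_single,
        Finsupp.linearCombination_single, LinearMap.smul_apply, one_smul]
      rw [smul_mul_smul_comm, smul_mul_assoc, map_smul, int_two hp hsym, smul_smul,
        smul_mul_assoc]

/-- The integral of the value at the generic point. -/
lemma int_g {p : C.A (X.prod X)} {δ : ℚ} (hp0 : HasDegree C (ev p (𝟙 X) (𝟙 X)) δ) (R : C.A W) :
    C.push (fst W X) (Bf p _ (gp W X) (gp W X) * C.pull (fst W X) R) = δ • R := by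
  rw [gp, Bf_single, C.proj_right, push_ev_diag hp0, smul_mul_assoc, one_mul]

end chow

end Pool.Agent.Helper70_bl
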