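import Pool.Agent.Helper70_bl.Od2

/-!
# The Laplace operator on formal points
-/

open CategoryTheory AlgebraicGeometry

universe u v w

namespace Pool.Agent.Helper70_bl

open Pool.Agent.H914 Pool.Agent.H914.VarClass Pool.Agent.H914.VarClass.Obj Pool.Agent.W492.BB
  Pool.Agent.W550.Corr Pool.Agent.TH133 Pool.Agent.TH829.Prime Pool.Agent.TH829.Kim Polynomial

set_option linter.unusedSectionVars false

variable {k : Type u} [Field k] {𝒱 : VarClass k}

section chow

variable {C : TheoryData.{u, v, 0} 𝒱 ℚ} [hC : IsChowProj C] {X Y Z W V : 𝒱.Obj}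

include hC

lemma lap {p : C.A (X.prod X)} (hp : C.comp p p = p)
    (hsym : ∀ (W : 𝒱.Obj) (x y : W ⟶ X), ev p x y = ev p y x) {δ : ℚ}
    (hp0 : HasDegree C (ev p (𝟙 X) (𝟙 X)) δ) {I : Family C} (hI : IsAdequate C I) {e : ℤ}
    (c a : C.A W) (ε : ℤ) (y z : (W ⟶ X) →₀ ℚ) (N n : ℕ)
    (H : ∀ t : ℚ, C.pull (fst W X) c * ((C.pull (fst W X) a *
      Bf p _ (pf W X y + t • gp W X) (pf W X y + t • gp W X) +
      (ε : C.A (W.prod X)) * Bf p _ (pf W X y + t • gp W X) (pf W X z) ^ 2) ^ N *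
      Bf p _ (pf W X y + t • gp W X) (pf W X z) ^ n) ∈ I (W.prod X) e) :
    δ • (c * (N * (a * Bf p W y y + ε * Bf p W y z ^ 2) ^ (N - 1) * a * Bf p W y z ^ n)) +
    Bf p W y y * (c * (4 * (N.choose 2 * (a * Bf p W y y + ε * Bf p W y z ^ 2) ^ (N - 2) *
      a ^ 2 * Bf p W y z ^ n))) +
    Bf p W y z * (c * (8 * (N.choose 2 * (a * Bf p W y y + ε * Bf p W y z ^ 2) ^ (N - 2) *
      a * ε * Bf p W y z * Bf p W y z ^ n) +
      2 * (N * (a * Bf p W y y + ε * Bf p W y z ^ 2) ^ (N - 1) * a *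
        (n * Bf p W y z ^ (n - 1))))) +
    Bf p W z z * (c * (N * (a * Bf p W y y + ε * Bf p W y z ^ 2) ^ (N - 1) * ε *
        Bf p W y z ^ n +
      4 * (N.choose 2 * (a * Bf p W y y + ε * Bf p W y z ^ 2) ^ (N - 2) * ε ^ 2 *
        Bf p W y z ^ 2 * Bf p W y z ^ n) +
      2 * (N * (a * Bf p W y y + ε * Bf p W y z ^ 2) ^ (N - 1) * ε * Bf p W y z *
        (n * Bf p W y z ^ (n - 1))) +
      (a * Bf p W y y + ε * Bf p W y z ^ 2) ^ N * (n.choose 2 * Bf p W y z ^ (n - 2)))) ∈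
      I W (e - X.dim) := by
  set Y := Bf p W y y
  set L := Bf p W y z
  set Z := Bf p W z z
  set π := C.pull (fst W X) with hπ
  set q := a * Y + ε * L ^ 2 with hq
  have hY : Bf p _ (pf W X y) (pf W X y) = π Y := (pull_Bf p y y).symm
  have hL : Bf p _ (pf W X y) (pf W X z) = π L := (pull_Bf p y z).symm
  set S := Bf p _ (pf W X y) (gp W X) with hS
  set T := Bf p _ (pf W X z) (gp W X) with hT
  set G := Bf p _ (gp W X) (gp W X) with hG
  have h1 : ∀ t : ℚ, Bf p _ (pf W X y + t • gp W X) (pf W X y + t • gp W X) =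
      π Y + 2 * algebraMap ℚ _ t * S + algebraMap ℚ _ t ^ 2 * G := by
    intro t
    simp only [map_add, map_smul, LinearMap.add_apply, LinearMap.smul_apply]
    rw [hY, Bf_symm hsym (gp W X) (pf W X y), ← hS, ← hG]
    simp only [Algebra.smul_def]
    ring
  have h2 : ∀ t : ℚ, Bf p _ (pf W X y + t • gp W X) (pf W X z) =
      π L + algebraMap ℚ _ t * T := by
    intro t
    rw [map_add, LinearMap.add_apply, map_smul, LinearMap.smul_apply, hL,
      Bf_symm hsym (gp W X) (pf W X z), ← hT, Algebra.smul_def]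
  set P : (C.A (W.prod X))[X] := Polynomial.C (π c) *
    (qp (π q) (2 * π a * S + 2 * ε * π L * T) (π a * G + ε * T ^ 2) ^ N * qp (π L) T 0 ^ n) with hP
  have h3 := coeff_mem (I (W.prod X) e) P (fun t => by
    have h4 := H t
    rw [h1, h2] at h4
    rw [hP, eval_mul, eval_mul, eval_pow, eval_pow, eval_C, qp_eval, qp_eval]
    have h5 : π q + (2 * π a * S + 2 * ε * π L * T) * algebraMap ℚ _ t +
        (π a * G + ε * T ^ 2) * algebraMap ℚ _ t ^ 2 =
        π a * (π Y + 2 * algebraMap ℚ _ t * S + algebraMap ℚ _ t ^ 2 * G) +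
          (ε : C.A (W.prod X)) * (π L + algebraMap ℚ _ t * T) ^ 2 := by
      rw [hq, map_add, map_mul, map_mul, map_pow, map_intCast]
      ring
    have h6 : π L + T * algebraMap ℚ _ t + 0 * algebraMap ℚ _ t ^ 2 =
        π L + algebraMap ℚ _ t * T := by ring
    rw [h5, h6]
    exact h4) 2
  rw [hP, coeff_C_mul, qp_mul_coeff] at h3
  have h4 := push_fam hI h3
  have h5 : π c * (N * π q ^ (N - 1) * (π a * G + ε * T ^ 2) * π L ^ n +
      N.choose 2 * π q ^ (N - 2) * (2 * π a * S + 2 * ε * π L * T) ^ 2 * π L ^ n +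
      N * π q ^ (N - 1) * (2 * π a * S + 2 * ε * π L * T) * (n * π L ^ (n - 1) * T) +
      π q ^ N * (n.choose 2 * π L ^ (n - 2) * T ^ 2)) =
      G * π (c * (N * q ^ (N - 1) * a * L ^ n)) +
      S * S * π (c * (4 * (N.choose 2 * q ^ (N - 2) * a ^ 2 * L ^ n))) +
      S * T * π (c * (8 * (N.choose 2 * q ^ (N - 2) * a * ε * L * L ^ n) +
        2 * (N * q ^ (N - 1) * a * (n * L ^ (n - 1))))) +
      T * T * π (c * (N * q ^ (N - 1) * ε * L ^ n +
        4 * (N.choose 2 * q ^ (N - 2) * ε ^ 2 * L ^ 2 * L ^ n) +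
        2 * (N * q ^ (N - 1) * ε * L * (n * L ^ (n - 1))) +
        q ^ N * (n.choose 2 * L ^ (n - 2)))) := by
    simp only [map_add, map_mul, map_pow, map_natCast, map_intCast, map_ofNat]
    ring
  rw [h5, map_add, map_add, map_add, hπ, int_g hp0, int_f hp hsym, int_f hp hsym,
    int_f hp hsym] at h4
  exact h4

end chow

end Pool.Agent.Helper70_bl
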