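import Pool.Agent.Helper70_bl.Od3

/-!
# From the Gram determinant to powers of the form
-/

open CategoryTheory AlgebraicGeometry

universe u v w

namespace Pool.Agent.Helper70_bl

open Pool.Agent.H914 Pool.Agent.H914.VarClass Pool.Agent.H914.VarClass.Obj Pool.Agent.W492.BB
  Pool.Agent.W550.Corr Pool.Agent.TH133 Pool.Agent.TH829.Prime Pool.Agent.TH829.Kim Polynomial

set_option linter.unusedSectionVars false

variable {k : Type u} [Field k] {𝒱 : VarClass k}

section chow

variable {C : TheoryData.{u, v, 0} 𝒱 ℚ} [hC : IsChowProj C] {X Y Z W V : 𝒱.Obj}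

include hC

lemma Bf_mem {p : C.A (X.prod X)} (hpd : p ∈ C.gr (X.prod X) X.dim) (a b : (W ⟶ X) →₀ ℚ) :
    Bf p W a b ∈ C.gr W X.dim := by
  induction a using Finsupp.induction_linear with
  | zero => simp
  | add a a' h h' => rw [map_add, LinearMap.add_apply]; exact Submodule.add_mem _ h h'
  | single x s =>
    induction b using Finsupp.induction_linear with
    | zero => simp
    | add b b' h h' => rw [map_add]; exact Submodule.add_mem _ h h'
    | single y t =>
      simp only [Bf, Finsupp.linearCombination_single, LinearMap.smul_apply]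
      exact Submodule.smul_mem _ _ (Submodule.smul_mem _ _ (ev_mem hpd _ _))

lemma mul_pow_mem {I : Family C} (hI : IsAdequate C I) {a b : C.A W} {d e : ℤ}
    (ha : a ∈ C.gr W d) (hb : b ∈ I W e) (n : ℕ) : b * a ^ n ∈ I W (e + n * d) := by
  induction n with
  | zero => simpa using hb
  | succ n ih =>
    have h1 := hI.mul_mem' ha ih
    refine (hI.congr (by push_cast; ring) (?_ : _ ∈ I W (d + (e + n * d))))
    have h2 : b * a ^ (n + 1) = a * (b * a ^ n) := by ring
    rw [h2]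
    exact h1

/-- One step for the Gram determinant. -/
lemma stepQ {p : C.A (X.prod X)} (hp : C.comp p p = p)
    (hsym : ∀ (W : 𝒱.Obj) (x y : W ⟶ X), ev p x y = ev p y x) {g : ℕ}
    (hp0 : HasDegree C (ev p (𝟙 X) (𝟙 X)) (-(2 * g : ℚ))) {I : Family C} (hI : IsAdequate C I)
    {e : ℤ} (j N : ℕ)
    (H : ∀ (W : 𝒱.Obj) (y z : (W ⟶ X) →₀ ℚ), Bf p W z z ^ j *
      (Bf p W z z * Bf p W y y - Bf p W y z ^ 2) ^ (N + 1) ∈ I W e) :
    ∀ (W : 𝒱.Obj) (y z : (W ⟶ X) →₀ ℚ), Bf p W z z ^ (j + 1) *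
      (Bf p W z z * Bf p W y y - Bf p W y z ^ 2) ^ N ∈ I W (e - X.dim) := by
  intro W y z
  have h1 := lap hp hsym hp0 hI (e := e) (Bf p W z z ^ j) (Bf p W z z) (-1) y z (N + 1) 0
    (fun t => by
      have h2 := H (W.prod X) (pf W X y + t • gp W X) (pf W X z)
      have h3 : C.pull (fst W X) (Bf p W z z) = Bf p _ (pf W X z) (pf W X z) := pull_Bf p z z
      rw [map_pow, h3, pow_zero, mul_one]
      have h4 : ((-1 : ℤ) : C.A (W.prod X)) = -1 := by simp
      rw [h4, neg_one_mul, ← sub_eq_add_neg]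
      exact h2)
  set Y := Bf p W y y
  set L := Bf p W y z
  set Z := Bf p W z z
  have h4 : ((-1 : ℤ) : C.A W) = -1 := by simp
  simp only [h4, neg_one_mul, ← sub_eq_add_neg] at h1
  set q := Z * Y - L ^ 2 with hq
  have h5 : ((N + 1).choose 2 : C.A W) * 2 = (N + 1) * N := by
    have h6 := Nat.add_one_mul_choose_eq N 1
    rw [Nat.choose_one_right] at h6
    have h66 : (N + 1).choose 2 * 2 = (N + 1) * N := h6.symm
    exact_mod_cast congrArg (Nat.cast : ℕ → C.A W) h66
  have h6 := pow_aux2 q (N + 1)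
  have h7 : N + 1 - 1 = N := by omega
  have h77 : N + 1 - 2 = N - 1 := by omega
  rw [h7, h77] at h1 h6
  have h8 : ∀ E : C.A W, E = (((N : ℚ) + 1) * (-(2 * g : ℚ) - 1 + 2 * N)) • (Z ^ (j + 1) * q ^ N) →
      E ∈ I W (e - X.dim) → Z ^ (j + 1) * q ^ N ∈ I W (e - X.dim) := by
    intro E hE hEI
    rw [hE] at hEI
    have h9 : (((N : ℚ) + 1) * (-(2 * g : ℚ) - 1 + 2 * N)) ≠ 0 := by
      refine mul_ne_zero (by positivity) ?_
      intro h10
      have h11 : (2 * N : ℚ) = 2 * g + 1 := by linarith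
      have h12 : 2 * N = 2 * g + 1 := by exact_mod_cast h11
      omega
    have h10 := Submodule.smul_mem _ (((N : ℚ) + 1) * (-(2 * g : ℚ) - 1 + 2 * N))⁻¹ hEI
    rwa [smul_smul, inv_mul_cancel₀ h9, one_smul] at h10
  refine h8 _ ?_ h1
  simp only [Algebra.smul_def, map_mul, map_add, map_sub, map_neg, map_one, map_ofNat,
    map_natCast]
  push_cast
  simp only [pow_zero, mul_one, Nat.choose_zero_succ, Nat.cast_zero, zero_mul, mul_zero, add_zero]
  linear_combination (4 * Z ^ (j + 1)) * h6 + (2 * Z ^ (j + 1) * q ^ N) * h5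

/-- One step for the powers of the form. -/
lemma stepP {p : C.A (X.prod X)} (hpd : p ∈ C.gr (X.prod X) X.dim) (hp : C.comp p p = p)
    (hsym : ∀ (W : 𝒱.Obj) (x y : W ⟶ X), ev p x y = ev p y x) {g : ℕ}
    (hp0 : HasDegree C (ev p (𝟙 X) (𝟙 X)) (-(2 * g : ℚ))) {I : Family C} (hI : IsAdequate C I)
    (N n : ℕ) (hne : N + n ≠ g)
    (H : ∀ (W : 𝒱.Obj) (y z : (W ⟶ X) →₀ ℚ), Bf p W y y ^ (N + 1) * Bf p W y z ^ n ∈
      I W ((N + 1 + n : ℤ) * X.dim))
    (H' : 2 ≤ n → ∀ (W : 𝒱.Obj) (y z : (W ⟶ X) →₀ ℚ), Bf p W y y ^ (N + 1) *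
      Bf p W y z ^ (n - 2) ∈ I W ((N + 1 + n - 2 : ℤ) * X.dim)) :
    ∀ (W : 𝒱.Obj) (y z : (W ⟶ X) →₀ ℚ), Bf p W y y ^ N * Bf p W y z ^ n ∈
      I W ((N + n : ℤ) * X.dim) := by
  intro W y z
  have h1 := lap hp hsym hp0 hI (e := (N + 1 + n : ℤ) * X.dim) 1 1 0 y z (N + 1) n
    (fun t => by
      have h2 := H (W.prod X) (pf W X y + t • gp W X) (pf W X z)
      rw [map_one, one_mul, one_mul, Int.cast_zero, zero_mul, add_zero]
      exact h2)
  set Y := Bf p W y y with hY
  set L := Bf p W y z with hL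
  set Z := Bf p W z z with hZ
  simp only [Int.cast_zero, zero_mul, add_zero, one_mul, mul_one, one_pow, mul_zero,
    zero_add, ne_eq, OfNat.ofNat_ne_zero, not_false_eq_true, zero_pow] at h1
  have h5 : ((N + 1).choose 2 : C.A W) * 2 = (N + 1) * N := by
    have h6 := Nat.add_one_mul_choose_eq N 1
    rw [Nat.choose_one_right] at h6
    have h66 : (N + 1).choose 2 * 2 = (N + 1) * N := h6.symm
    exact_mod_cast congrArg (Nat.cast : ℕ → C.A W) h66
  have h6 := pow_aux2 Y (N + 1)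
  have h7 := pow_aux1 L n
  have h8 : N + 1 - 1 = N := by omega
  have h88 : N + 1 - 2 = N - 1 := by omega
  rw [h8, h88] at h1 h6
  have h9 : Z * (Y ^ (N + 1) * (n.choose 2 * L ^ (n - 2))) ∈
      I W ((N + 1 + n : ℤ) * X.dim - X.dim) := by
    by_cases hn : 2 ≤ n
    · have h10 := hI.mul_mem' (Bf_mem hpd z z) (H' hn W y z)
      have h11 := Submodule.smul_mem _ (n.choose 2 : ℚ) h10
      have h12 : Z * (Y ^ (N + 1) * (n.choose 2 * L ^ (n - 2))) =
          (n.choose 2 : ℚ) • (Z * (Y ^ (N + 1) * L ^ (n - 2))) := by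
        rw [Algebra.smul_def, map_natCast]
        ring
      rw [h12]
      exact hI.congr (by ring) h11
    · have h10 : n.choose 2 = 0 := Nat.choose_eq_zero_of_lt (by omega)
      rw [h10, Nat.cast_zero, zero_mul, mul_zero, mul_zero]
      exact Submodule.zero_mem _
  have h10 := (Submodule.add_mem_iff_left _ h9).1 h1
  have h11 : ∀ E : C.A W, E = (((N : ℚ) + 1) * (-(2 * g : ℚ) + 2 * N + 2 * n)) • (Y ^ N * L ^ n) →
      E ∈ I W ((N + 1 + n : ℤ) * X.dim - X.dim) → Y ^ N * L ^ n ∈ I W ((N + n : ℤ) * X.dim) := by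
    intro E hE hEI
    rw [hE] at hEI
    have h12 : (((N : ℚ) + 1) * (-(2 * g : ℚ) + 2 * N + 2 * n)) ≠ 0 := by
      refine mul_ne_zero (by positivity) ?_
      intro h13
      apply hne
      have h14 : ((N + n : ℕ) : ℚ) = g := by push_cast; linarith
      exact_mod_cast h14
    have h13 := Submodule.smul_mem _ (((N : ℚ) + 1) * (-(2 * g : ℚ) + 2 * N + 2 * n))⁻¹ hEI
    rw [smul_smul, inv_mul_cancel₀ h12, one_smul] at h13
    exact hI.congr (by ring) h13
  refine h11 _ ?_ h10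
  simp only [Algebra.smul_def, map_mul, map_add, map_sub, map_neg, map_one, map_ofNat,
    map_natCast]
  push_cast
  linear_combination (4 * L ^ n) * h6 + (2 * Y ^ N * L ^ n) * h5 + (2 * (N + 1) * Y ^ N) * h7

end chow

end Pool.Agent.Helper70_bl
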