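import Pool.Agent.Helper70_bl.Od4

/-!
# Permanents
-/

open CategoryTheory AlgebraicGeometry

universe u v w

namespace Pool.Agent.Helper70_bl

open Pool.Agent.H914 Pool.Agent.H914.VarClass Pool.Agent.H914.VarClass.Obj Pool.Agent.W492.BB
  Pool.Agent.W550.Corr Pool.Agent.TH133 Pool.Agent.TH829.Prime Pool.Agent.TH829.Kim Equiv

set_option linter.unusedSectionVars false

section comb

variable {κ : Type} [Fintype κ] [DecidableEq κ] {R : Type*} [CommRing R]

lemma ryser_key (f : κ → κ) : (∑ S : Finset κ, if ∀ i, f i ∈ S then (-1 : ℤ) ^ (Sᶜ.card) else 0) =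
    if Function.Surjective f then 1 else 0 := by
  have h1 : (∑ S : Finset κ, if ∀ i, f i ∈ S then (-1 : ℤ) ^ (Sᶜ.card) else 0) =
      ∑ T : Finset κ, if T ⊆ (Finset.univ.image f)ᶜ then (-1 : ℤ) ^ T.card else 0 := by
    apply Fintype.sum_equiv (Function.Involutive.toPerm compl (compl_involutive (α := Finset κ)))
    intro S
    have h2 : (∀ i, f i ∈ S) ↔ Sᶜ ⊆ (Finset.univ.image f)ᶜ := by
      rw [Finset.compl_subset_compl]
      constructor
      · intro h j hj
        obtain ⟨i, -, rfl⟩ := Finset.mem_image.1 hj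
        exact h i
      · intro h i
        exact h (Finset.mem_image_of_mem f (Finset.mem_univ i))
    exact if_congr h2 rfl rfl
  rw [h1, ← Finset.sum_filter]
  have h3 : (Finset.univ : Finset (Finset κ)).filter (fun T => T ⊆ (Finset.univ.image f)ᶜ) =
      ((Finset.univ.image f)ᶜ).powerset := by
    ext T
    simp
  rw [h3, Finset.sum_powerset_neg_one_pow_card]
  congr 1
  rw [Finset.compl_eq_empty_iff]
  apply propext
  constructor
  · intro h j
    have h4 : j ∈ Finset.univ.image f := by rw [h]; exact Finset.mem_univ j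
    obtain ⟨i, -, hi⟩ := Finset.mem_image.1 h4
    exact ⟨i, hi⟩
  · intro h
    exact Finset.image_univ_of_surjective h

/-- Ryser's formula for the permanent. -/
lemma ryser (b : κ → κ → R) : ∑ σ : Perm κ, ∏ i, b i (σ i) =
    ∑ S : Finset κ, ((-1 : ℤ) ^ (Sᶜ.card)) • ∏ i, ∑ j ∈ S, b i j := by
  symm
  calc ∑ S : Finset κ, ((-1 : ℤ) ^ (Sᶜ.card)) • ∏ i, ∑ j ∈ S, b i j
      = ∑ S : Finset κ, ∑ f : κ → κ, (if ∀ i, f i ∈ S then ((-1 : ℤ) ^ (Sᶜ.card)) else 0) •
          ∏ i, b i (f i) := by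
        apply Finset.sum_congr rfl
        intro S _
        rw [Finset.prod_univ_sum, Finset.smul_sum]
        simp only [ite_smul, zero_smul]
        rw [← Finset.sum_filter]
        apply Finset.sum_congr
        · ext f
          simp [Fintype.mem_piFinset]
        · intro f _
          rfl
    _ = ∑ f : κ → κ, (∑ S : Finset κ, if ∀ i, f i ∈ S then ((-1 : ℤ) ^ (Sᶜ.card)) else 0) •
          ∏ i, b i (f i) := by
        rw [Finset.sum_comm]
        simp only [Finset.sum_smul]
    _ = ∑ f : κ → κ, (if Function.Surjective f then (1 : ℤ) else 0) • ∏ i, b i (f i) := by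
        simp only [ryser_key]
    _ = ∑ σ : Perm κ, ∏ i, b i (σ i) := by
        simp only [ite_smul, one_smul, zero_smul]
        rw [← Finset.sum_filter]
        symm
        refine Finset.sum_bij (fun σ _ => (σ : κ → κ)) ?_ ?_ ?_ ?_
        · intro σ _
          exact Finset.mem_filter.2 ⟨Finset.mem_univ _, σ.surjective⟩
        · intro σ _ τ _ h
          exact Equiv.coe_fn_injective h
        · intro f hf
          have h1 := (Finset.mem_filter.1 hf).2
          exact ⟨Equiv.ofBijective f (Finite.surjective_iff_bijective.1 h1), Finset.mem_univ _, rfl⟩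
        · intro σ _
          rfl

end comb

variable {k : Type u} [Field k] {𝒱 : VarClass k}

section chow

variable {C : TheoryData.{u, v, 0} 𝒱 ℚ} [hC : IsChowProj C] {X Y Z W V : 𝒱.Obj}
variable {κ : Type} [Fintype κ] [DecidableEq κ]

include hC

/-- Polarization. -/
lemma perm_mem {p : C.A (X.prod X)} {J : Submodule ℚ (C.A W)}
    (H : ∀ a b : (W ⟶ X) →₀ ℚ, Bf p W a b ^ (Fintype.card κ) ∈ J) (x y : κ → (W ⟶ X)) :
    ∑ σ : Perm κ, ∏ i, ev p (x i) (y (σ i)) ∈ J := by
  have hz : ∀ (m : ℤ) {r : C.A W}, r ∈ J → m • r ∈ J := fun m r hr => by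
    rw [← Int.cast_smul_eq_zsmul ℚ]
    exact Submodule.smul_mem _ _ hr
  have h1 : ∀ (a : κ → ((W ⟶ X) →₀ ℚ)) (b : (W ⟶ X) →₀ ℚ), ∏ i, Bf p W (a i) b ∈ J := by
    intro a b
    have h2 := ryser (fun _ j : κ => Bf p W (a j) b)
    have h3 : ∀ σ : Perm κ, ∏ i, Bf p W (a (σ i)) b = ∏ i, Bf p W (a i) b := fun σ =>
      Equiv.prod_comp σ (fun i => Bf p W (a i) b)
    simp only [h3] at h2
    rw [Finset.sum_const, Finset.card_univ, ← Nat.cast_smul_eq_nsmul ℚ] at h2
    have h4 : ((Fintype.card (Perm κ) : ℕ) : ℚ) • ∏ i, Bf p W (a i) b ∈ J := by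
      rw [h2]
      apply Submodule.sum_mem
      intro S _
      apply hz
      rw [Finset.prod_const, Finset.card_univ]
      have h5 : ∑ j ∈ S, Bf p W (a j) b = Bf p W (∑ j ∈ S, a j) b := by
        rw [map_sum, LinearMap.sum_apply]
      rw [h5]
      exact H _ _
    have hpos : ((Fintype.card (Perm κ) : ℕ) : ℚ) ≠ 0 := by
      exact_mod_cast Fintype.card_ne_zero
    have h6 := Submodule.smul_mem _ ((Fintype.card (Perm κ) : ℕ) : ℚ)⁻¹ h4
    rwa [smul_smul, inv_mul_cancel₀ hpos, one_smul] at h6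
  have h2 : ∑ σ : Perm κ, ∏ i, ev p (x i) (y (σ i)) = ∑ σ : Perm κ, ∏ i,
      Bf p W (Finsupp.single (x i) 1) (Finsupp.single (y (σ i)) 1) := by
    simp only [Bf_single]
  rw [h2, ryser (fun i j => Bf p W (Finsupp.single (x i) 1) (Finsupp.single (y j) 1))]
  apply Submodule.sum_mem
  intro S _
  apply hz
  have h3 : ∀ i, ∑ j ∈ S, Bf p W (Finsupp.single (x i) 1) (Finsupp.single (y j) 1) =
      Bf p W (Finsupp.single (x i) 1) (∑ j ∈ S, Finsupp.single (y j) 1) := by
    intro i
    rw [map_sum]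
  simp only [h3]
  exact h1 _ _

/-- From the Gram determinant to the symmetrizer. -/
theorem sym_of_gram {p : C.A (X.prod X)} (hpd : p ∈ C.gr (X.prod X) X.dim)
    (hp : C.comp p p = p) (hsym : ∀ (W : 𝒱.Obj) (x y : W ⟶ X), ev p x y = ev p y x) {g : ℕ}
    (hp0 : HasDegree C (ev p (𝟙 X) (𝟙 X)) (-(2 * g : ℚ))) {I : Family C} (hI : IsAdequate C I)
    (H : ∀ (W : 𝒱.Obj) (y z : (W ⟶ X) →₀ ℚ),
      (Bf p W z z * Bf p W y y - Bf p W y z ^ 2) ^ (g + 1) ∈ I W ((2 * (g + 1) : ℤ) * X.dim)) :
    InI I (comb (ι := Fin (2 * g + 1)) (fun _ => p) (fun _ => 1)) ((2 * g + 1 : ℕ) * X.dim) := by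
  have h1 : ∀ i ≤ g + 1, ∀ (W : 𝒱.Obj) (y z : (W ⟶ X) →₀ ℚ), Bf p W z z ^ i *
      (Bf p W z z * Bf p W y y - Bf p W y z ^ 2) ^ (g + 1 - i) ∈
        I W ((2 * (g + 1) : ℤ) * X.dim - i * X.dim) := by
    intro i
    induction i with
    | zero =>
      intro _ W y z
      rw [pow_zero, one_mul]
      exact hI.congr (by push_cast; ring) (H W y z)
    | succ i ih =>
      intro hi W y z
      have h2 := stepQ hp hsym hp0 hI (e := (2 * (g + 1) : ℤ) * X.dim - i * X.dim) i
        (g + 1 - (i + 1)) (by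
          have h3 : g + 1 - (i + 1) + 1 = g + 1 - i := by omega
          rw [h3]
          exact ih (by omega)) W y z
      exact hI.congr (by push_cast; ring) h2
  have h2 : ∀ (j N : ℕ), N + j = g + 1 → ∀ n : ℕ, 2 * g + 1 ≤ 2 * N + n →
      ∀ (W : 𝒱.Obj) (y z : (W ⟶ X) →₀ ℚ), Bf p W y y ^ N * Bf p W y z ^ n ∈
        I W ((N + n : ℤ) * X.dim) := by
    intro j
    induction j with
    | zero =>
      intro N hN n _ W y z
      have hN' : N = g + 1 := by omega
      subst hN'
      have h3 := h1 (g + 1) le_rfl W y y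
      rw [Nat.sub_self, pow_zero, mul_one] at h3
      have h4 := mul_pow_mem hI (Bf_mem hpd y z) h3 n
      exact hI.congr (by push_cast; ring) h4
    | succ j ih =>
      intro N hN n hn
      refine stepP hpd hp hsym hp0 hI N n (by omega) ?_ ?_
      · intro W y z
        exact hI.congr (by push_cast; ring) (ih (N + 1) (by omega) n (by omega) W y z)
      · intro hn2 W y z
        refine hI.congr ?_ (ih (N + 1) (by omega) (n - 2) (by omega) W y z)
        rw [Nat.cast_sub hn2]
        push_cast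
        ring
  intro W x y
  rw [comb_apply]
  have h3 := perm_mem (κ := Fin (2 * g + 1)) (p := p)
    (J := I W (((2 * g + 1 : ℕ) : ℤ) * X.dim)) (fun a b => by
      rw [Fintype.card_fin]
      have h4 := h2 (g + 1) 0 (by omega) (2 * g + 1) (by omega) W a b
      rw [pow_zero, one_mul] at h4
      exact hI.congr (by push_cast; ring) h4) x y
  simpa only [one_smul] using h3

end chow

end Pool.Agent.Helper70_bl
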