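import Pool.Agent.Helper70_bl.Od5

/-!
# Two rows of equal length
-/

open CategoryTheory AlgebraicGeometry

universe u v w

namespace Pool.Agent.Helper70_bl

open Pool.Agent.H914 Pool.Agent.H914.VarClass Pool.Agent.H914.VarClass.Obj Pool.Agent.W492.BB
  Pool.Agent.W550.Corr Pool.Agent.TH133 Pool.Agent.TH829.Prime Pool.Agent.TH829.Kim Equiv

set_option linter.unusedSectionVars false

section comb

variable {K : ℕ} {R : Type*} [CommRing R] [Algebra ℚ R]

/-- The alternating sum over columns of height two. -/
lemma sum_cols {c' : Fin K ⊕ Fin K → ℕ} (h0 : ∀ j, c' (Sum.inl j) = j)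
    (h1 : ∀ j, c' (Sum.inr j) = j) (F : Fin K ⊕ Fin K → Fin K ⊕ Fin K → R) (T : Finset (Fin K)) :
    ∑ c ∈ lineF c' (T.disjSum T), ((Perm.sign c : ℤ) : ℚ) • ∏ i ∈ T.disjSum T, F i (c i) =
      ∏ j ∈ T, (F (Sum.inl j) (Sum.inl j) * F (Sum.inr j) (Sum.inr j) -
        F (Sum.inl j) (Sum.inr j) * F (Sum.inr j) (Sum.inl j)) := by
  induction T using Finset.induction_on with
  | empty =>
    have h2 : lineF c' ((∅ : Finset (Fin K)).disjSum ∅) = {1} := by
      ext g
      rw [mem_lineF, Finset.mem_singleton]
      constructor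
      · intro hg
        exact Equiv.ext fun i => hg.1 i (by simp)
      · rintro rfl
        exact ⟨fun _ _ => rfl, fun _ => rfl⟩
    rw [h2]
    simp
  | insert m T hm ih =>
    set c : Fin K ⊕ Fin K := Sum.inl m with hc
    set d : Fin K ⊕ Fin K := Sum.inr m with hd
    have hcd : c ≠ d := by simp [hc, hd]
    have e1 : (((insert m T).disjSum (insert m T)).filter (fun q => c' q = c' c)) = {c, d} := by
      ext q
      rw [Finset.mem_filter, Finset.mem_insert, Finset.mem_singleton]
      rcases q with q | q
      · rw [Finset.inl_mem_disjSum, h0, hc, h0]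
        constructor
        · rintro ⟨-, h2⟩
          left
          rw [Fin.ext h2]
        · rintro (h2 | h2)
          · have h3 := Sum.inl_injective h2
            subst h3
            exact ⟨Finset.mem_insert_self _ _, rfl⟩
          · exact absurd h2 (by simp [hd])
      · rw [Finset.inr_mem_disjSum, h1, hc, h0]
        constructor
        · rintro ⟨-, h2⟩
          right
          rw [Fin.ext h2]
        · rintro (h2 | h2)
          · exact absurd h2 (by simp)
          · have h3 := Sum.inr_injective h2
            subst h3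
            exact ⟨Finset.mem_insert_self _ _, rfl⟩
    have e2 : ((insert m T).disjSum (insert m T)).erase c = T.disjSum (insert m T) := by
      ext q
      rw [Finset.mem_erase]
      rcases q with q | q
      · rw [Finset.inl_mem_disjSum, Finset.inl_mem_disjSum, Finset.mem_insert, hc]
        constructor
        · rintro ⟨h2, h3 | h3⟩
          · exact absurd (congrArg Sum.inl h3) h2
          · exact h3
        · intro h2
          refine ⟨?_, Or.inr h2⟩
          intro h3
          have h4 := Sum.inl_injective h3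
          subst h4
          exact hm h2
      · rw [Finset.inr_mem_disjSum, Finset.inr_mem_disjSum, hc]
        exact ⟨fun h2 => h2.2, fun h2 => ⟨by simp, h2⟩⟩
    have e3 : (T.disjSum (insert m T)).filter (fun q => c' q = c' d) = {d} := by
      ext q
      rw [Finset.mem_filter, Finset.mem_singleton]
      rcases q with q | q
      · rw [Finset.inl_mem_disjSum, h0, hd, h1]
        constructor
        · rintro ⟨h2, h3⟩
          have h4 := Fin.ext h3
          subst h4
          exact absurd h2 hm
        · intro h2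
          exact absurd h2 (by simp)
      · rw [Finset.inr_mem_disjSum, h1, hd, h1]
        constructor
        · rintro ⟨-, h2⟩
          rw [Fin.ext h2]
        · intro h2
          have h3 := Sum.inr_injective h2
          subst h3
          exact ⟨Finset.mem_insert_self _ _, rfl⟩
    have e4 : (T.disjSum (insert m T)).erase d = T.disjSum T := by
      ext q
      rw [Finset.mem_erase]
      rcases q with q | q
      · rw [Finset.inl_mem_disjSum, Finset.inl_mem_disjSum, hd]
        exact ⟨fun h2 => h2.2, fun h2 => ⟨by simp, h2⟩⟩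
      · rw [Finset.inr_mem_disjSum, Finset.inr_mem_disjSum, Finset.mem_insert, hd]
        constructor
        · rintro ⟨h2, h3 | h3⟩
          · exact absurd (congrArg Sum.inr h3) h2
          · exact h3
        · intro h2
          refine ⟨?_, Or.inr h2⟩
          intro h3
          have h4 := Sum.inr_injective h3
          subst h4
          exact hm h2
    have hcS : c ∈ (insert m T).disjSum (insert m T) := by
      rw [hc, Finset.inl_mem_disjSum]; exact Finset.mem_insert_self _ _
    have hdS : d ∈ T.disjSum (insert m T) := by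
      rw [hd, Finset.inr_mem_disjSum]; exact Finset.mem_insert_self _ _
    rw [sum_lineF_pair hcS hcd e1, e2, sum_lineF_alone hdS e3, sum_lineF_alone hdS e3, e4,
      Finset.prod_insert hm, ← ih, Finset.mul_sum, ← Finset.sum_add_distrib]
    apply Finset.sum_congr rfl
    intro g hg
    have hgc : g c = c := (mem_lineF.1 hg).1 c (by rw [hc, Finset.inl_mem_disjSum]; exact hm)
    have hgd : g d = d := (mem_lineF.1 hg).1 d (by rw [hd, Finset.inr_mem_disjSum]; exact hm)
    have h5 : ∀ j ∈ T, (g * Equiv.swap c d) (Sum.inl j) = g (Sum.inl j) := by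
      intro j hj
      rw [Perm.mul_apply, Equiv.swap_apply_of_ne_of_ne]
      · intro h6
        have h7 := Sum.inl_injective h6
        subst h7
        exact hm hj
      · simp [hd]
    have h6 : ∀ j ∈ T, (g * Equiv.swap c d) (Sum.inr j) = g (Sum.inr j) := by
      intro j hj
      rw [Perm.mul_apply, Equiv.swap_apply_of_ne_of_ne]
      · simp [hc]
      · intro h6
        have h7 := Sum.inr_injective h6
        subst h7
        exact hm hj
    have h7 : (g * Equiv.swap c d) c = d := by
      rw [Perm.mul_apply, Equiv.swap_apply_left, hgd]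
    have h8 : (g * Equiv.swap c d) d = c := by
      rw [Perm.mul_apply, Equiv.swap_apply_right, hgc]
    have h9 : ((Perm.sign (g * Equiv.swap c d) : ℤ) : ℚ) = -((Perm.sign g : ℤ) : ℚ) := by
      rw [Perm.sign_mul, Perm.sign_swap hcd]
      push_cast
      ring
    have h10 : ∏ j ∈ T, F (Sum.inl j) ((g * Equiv.swap c d) (Sum.inl j)) =
        ∏ j ∈ T, F (Sum.inl j) (g (Sum.inl j)) :=
      Finset.prod_congr rfl (fun j hj => by rw [h5 j hj])
    have h11 : ∏ j ∈ T, F (Sum.inr j) ((g * Equiv.swap c d) (Sum.inr j)) =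
        ∏ j ∈ T, F (Sum.inr j) (g (Sum.inr j)) :=
      Finset.prod_congr rfl (fun j hj => by rw [h6 j hj])
    rw [Finset.prod_disjSum, Finset.prod_disjSum, Finset.prod_disjSum, Finset.prod_insert hm,
      Finset.prod_insert hm, Finset.prod_insert hm, Finset.prod_insert hm, h10, h11]
    rw [← hc, ← hd, h7, h8, hgc, hgd, h9]
    simp only [Algebra.smul_def, map_neg]
    ring

end comb

variable {k : Type u} [Field k] {𝒱 : VarClass k}

section chow

variable {C : TheoryData.{u, v, 0} 𝒱 ℚ} [hC : IsChowProj C] {X Y Z W V : 𝒱.Obj}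
variable {ι : Type} [Fintype ι] [DecidableEq ι]

include hC

lemma Bf_left (p : C.A (X.prod X)) (a : (W ⟶ X) →₀ ℚ) (y : W ⟶ X) :
    Bf p W a (Finsupp.single y 1) = ∑ x ∈ a.support, a x • ev p x y := by
  rw [Bf, Finsupp.linearCombination_apply, Finsupp.sum, LinearMap.sum_apply]
  apply Finset.sum_congr rfl
  intro x _
  rw [LinearMap.smul_apply, Finsupp.linearCombination_single, one_smul]

/-- The Young symmetrizer at formal points that are constant along the rows. -/
lemma young_formal {p : C.A (X.prod X)} {row col : ι → ℕ} {I : Family C} {e : ℤ}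
    (h : InI I (young row col (fun _ => p) Finset.univ) e) (U : ι → ((W ⟶ X) →₀ ℚ))
    (hU : ∀ r ∈ lineF row Finset.univ, ∀ i, U (r i) = U i) (y : ι → (W ⟶ X)) :
    ∑ c ∈ lineF col Finset.univ, ((Perm.sign c : ℤ) : ℚ) •
      ∏ i, Bf p W (U i) (Finsupp.single (y (c i)) 1) ∈ I W e := by
  set A := Fintype.piFinset (fun i => (U i).support) with hA
  have h1 : ∀ c : Perm ι, ∏ i, Bf p W (U i) (Finsupp.single (y (c i)) 1) =
      ∑ x ∈ A, (∏ i, U i (x i)) • ∏ i, ev p (x i) (y (c i)) := by
    intro c
    simp only [Bf_left]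
    rw [Finset.prod_univ_sum]
    apply Finset.sum_congr rfl
    intro x _
    rw [← Finset.prod_smul]
  have h2 : ∀ r ∈ lineF row (Finset.univ : Finset ι), ∀ c : Perm ι,
      ∑ x ∈ A, (∏ i, U i (x i)) • ∏ i, ev p (x i) (y (c i)) =
      ∑ x ∈ A, (∏ i, U i (x i)) • ∏ i, ev p (x i) (y ((c * r⁻¹) i)) := by
    intro r hr c
    symm
    refine Finset.sum_bij' (fun x _ => x ∘ r) (fun x _ => x ∘ (r⁻¹ : Perm ι)) ?_ ?_ ?_ ?_ ?_
    · intro x hx
      rw [hA, Fintype.mem_piFinset] at hx ⊢
      intro i
      have := hx (r i)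
      rwa [hU r hr] at this
    · intro x hx
      rw [hA, Fintype.mem_piFinset] at hx ⊢
      intro i
      have := hx ((r⁻¹ : Perm ι) i)
      rwa [hU r⁻¹ (lineF_inv hr)] at this
    · intro x _
      funext i
      change x (r (r.symm i)) = x i
      rw [Equiv.apply_symm_apply]
    · intro x _
      funext i
      change x (r.symm (r i)) = x i
      rw [Equiv.symm_apply_apply]
    · intro x _
      have h3 : ∏ i, U i (x i) = ∏ i, U i ((x ∘ r) i) := by
        rw [← Equiv.prod_comp r (fun i => U i (x i))]
        apply Finset.prod_congr rfl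
        intro i _
        rw [hU r hr]
        rfl
      have h4 : ∏ i, ev p (x i) (y ((c * r⁻¹) i)) = ∏ i, ev p ((x ∘ r) i) (y (c i)) := by
        rw [← Equiv.prod_comp r (fun i => ev p (x i) (y ((c * r⁻¹) i)))]
        apply Finset.prod_congr rfl
        intro i _
        rw [Perm.mul_apply, inv_app]
        rfl
      rw [h3, h4]
  have h3 : ((lineF row (Finset.univ : Finset ι)).card : ℚ) •
      (∑ c ∈ lineF col Finset.univ, ((Perm.sign c : ℤ) : ℚ) •
        ∏ i, Bf p W (U i) (Finsupp.single (y (c i)) 1)) =
      ∑ x ∈ A, (∏ i, U i (x i)) • young row col (fun _ => p) Finset.univ W x y := by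
    have h4 : ∀ x : ι → (W ⟶ X), young row col (fun _ => p) Finset.univ W x y =
        ∑ r ∈ lineF row Finset.univ, ∑ c ∈ lineF col Finset.univ,
          ((Perm.sign c : ℤ) : ℚ) • ∏ i, ev p (x i) (y ((c * r⁻¹) i)) := by
      intro x
      rw [young]
      simp only [Finset.sum_apply]
      rfl
    simp only [h4, Finset.smul_sum]
    rw [Finset.sum_comm]
    have h5 : ∀ r ∈ lineF row (Finset.univ : Finset ι), (∑ x ∈ A, ∑ c ∈ lineF col Finset.univ,
        (∏ i, U i (x i)) • ((Perm.sign c : ℤ) : ℚ) • ∏ i, ev p (x i) (y ((c * r⁻¹) i))) =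
        ∑ c ∈ lineF col Finset.univ, ((Perm.sign c : ℤ) : ℚ) •
          ∏ i, Bf p W (U i) (Finsupp.single (y (c i)) 1) := by
      intro r hr
      rw [Finset.sum_comm]
      apply Finset.sum_congr rfl
      intro c _
      rw [h1, h2 r hr, Finset.smul_sum]
      apply Finset.sum_congr rfl
      intro x _
      rw [smul_comm]
    rw [Finset.sum_congr rfl h5, Finset.sum_const, ← Nat.cast_smul_eq_nsmul ℚ, Finset.smul_sum]
  have h4 : ((lineF row (Finset.univ : Finset ι)).card : ℚ) •
      (∑ c ∈ lineF col Finset.univ, ((Perm.sign c : ℤ) : ℚ) •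
        ∏ i, Bf p W (U i) (Finsupp.single (y (c i)) 1)) ∈ I W e := by
    rw [h3]
    exact Submodule.sum_mem _ fun x _ => Submodule.smul_mem _ _ (h W x y)
  have hpos : ((lineF row (Finset.univ : Finset ι)).card : ℚ) ≠ 0 := by
    have : 0 < (lineF row (Finset.univ : Finset ι)).card :=
      Finset.card_pos.2 ⟨1, mem_lineF.2 ⟨fun _ _ => rfl, fun _ => rfl⟩⟩
    positivity
  have h5 := Submodule.smul_mem _ (((lineF row (Finset.univ : Finset ι)).card : ℚ))⁻¹ h4
  rwa [smul_smul, inv_mul_cancel₀ hpos, one_smul] at h5

end chow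

end Pool.Agent.Helper70_bl
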