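import Pool.Agent.Helper70_bl.Od6

/-!
# Contraction of the columns
-/

open CategoryTheory AlgebraicGeometry

universe u v w

namespace Pool.Agent.Helper70_bl

open Pool.Agent.H914 Pool.Agent.H914.VarClass Pool.Agent.H914.VarClass.Obj Pool.Agent.W492.BB
  Pool.Agent.W550.Corr Pool.Agent.TH133 Pool.Agent.TH829.Prime Pool.Agent.TH829.Kim Equiv

set_option linter.unusedSectionVars false

variable {k : Type u} [Field k] {𝒱 : VarClass k}

section chow

variable {C : TheoryData.{u, v, 0} 𝒱 ℚ} [hC : IsChowProj C] {X Y Z W V : 𝒱.Obj}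
variable {ι : Type} [Fintype ι] [DecidableEq ι]

include hC

omit hC in
lemma pf_single (y : W ⟶ X) :
    pf W X (Finsupp.single y 1) = Finsupp.single (fst W X ≫ y) 1 := by
  simp [pf]

/-- The value of the column of height two. -/
noncomputable def DD (p : C.A (X.prod X)) (a b : (W ⟶ X) →₀ ℚ) (y y' : W ⟶ X) : C.A W :=
  Bf p W a (Finsupp.single y 1) * Bf p W b (Finsupp.single y' 1) -
    Bf p W a (Finsupp.single y' 1) * Bf p W b (Finsupp.single y 1)

/-- The Gram determinant. -/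
noncomputable def QQ (p : C.A (X.prod X)) (a b : (W ⟶ X) →₀ ℚ) : C.A W :=
  Bf p W a a * Bf p W b b - Bf p W a b ^ 2

lemma pull_DD (p : C.A (X.prod X)) (a b : (W ⟶ X) →₀ ℚ) (y y' : W ⟶ X) :
    C.pull (fst W X) (DD p a b y y') =
      DD p (pf W X a) (pf W X b) (fst W X ≫ y) (fst W X ≫ y') := by
  rw [DD, DD, map_sub, map_mul, map_mul, pull_Bf, pull_Bf, pull_Bf, pull_Bf, pf_single, pf_single]

lemma pull_QQ (p : C.A (X.prod X)) (a b : (W ⟶ X) →₀ ℚ) :
    C.pull (fst W X) (QQ p a b) = QQ p (pf W X a) (pf W X b) := by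
  rw [QQ, QQ, map_sub, map_mul, map_pow, pull_Bf, pull_Bf, pull_Bf]

lemma int_DD {p : C.A (X.prod X)} (hp : C.comp p p = p)
    (hsym : ∀ (W : 𝒱.Obj) (x y : W ⟶ X), ev p x y = ev p y x) (a b : (W ⟶ X) →₀ ℚ) (R : C.A W) :
    C.push (fst W X) (C.push (fst (W.prod X) X)
      (DD p (pf _ X (pf W X a)) (pf _ X (pf W X b)) (fst (W.prod X) X ≫ snd W X)
        (snd (W.prod X) X) ^ 2 * C.pull (fst (W.prod X) X) (C.pull (fst W X) R))) =
      2 * QQ p a b * R := by
  set a1 := Bf p _ (pf W X a) (gp W X) with ha1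
  set a2 := Bf p _ (pf W X b) (gp W X) with ha2
  set b1 := Bf p _ (pf _ X (pf W X a)) (gp (W.prod X) X) with hb1
  set b2 := Bf p _ (pf _ X (pf W X b)) (gp (W.prod X) X) with hb2
  have h1 : DD p (pf _ X (pf W X a)) (pf _ X (pf W X b)) (fst (W.prod X) X ≫ snd W X)
      (snd (W.prod X) X) = C.pull (fst (W.prod X) X) a1 * b2 -
        b1 * C.pull (fst (W.prod X) X) a2 := by
    rw [DD, ← pf_single, ha1, ha2, pull_Bf, pull_Bf]
    rfl
  have h2 : (C.pull (fst (W.prod X) X) a1 * b2 - b1 * C.pull (fst (W.prod X) X) a2) ^ 2 *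
      C.pull (fst (W.prod X) X) (C.pull (fst W X) R) =
      b2 * b2 * C.pull (fst (W.prod X) X) (a1 * a1 * C.pull (fst W X) R) +
      b1 * b2 * C.pull (fst (W.prod X) X) (-(2 * (a1 * a2 * C.pull (fst W X) R))) +
      b1 * b1 * C.pull (fst (W.prod X) X) (a2 * a2 * C.pull (fst W X) R) := by
    simp only [map_mul, map_neg, map_ofNat]
    ring
  have h3a : C.pull (fst W X) (Bf p W b b) * (a1 * a1 * C.pull (fst W X) R) =
      a1 * a1 * C.pull (fst W X) (Bf p W b b * R) := by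
    rw [map_mul]; ring
  have h3b : C.pull (fst W X) (Bf p W a b) * (-(2 * (a1 * a2 * C.pull (fst W X) R))) =
      a1 * a2 * C.pull (fst W X) (-(2 * (Bf p W a b * R))) := by
    simp only [map_mul, map_neg, map_ofNat]
    ring
  have h3c : C.pull (fst W X) (Bf p W a a) * (a2 * a2 * C.pull (fst W X) R) =
      a2 * a2 * C.pull (fst W X) (Bf p W a a * R) := by
    rw [map_mul]; ring
  rw [h1, h2]
  simp only [map_add]
  rw [int_f hp hsym, int_f hp hsym, int_f hp hsym, ← pull_Bf, ← pull_Bf, ← pull_Bf, h3a, h3b, h3c,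
    int_f hp hsym, int_f hp hsym, int_f hp hsym, QQ]
  ring

/-- The contraction of two columns. -/
lemma gram_step {p : C.A (X.prod X)} (hp : C.comp p p = p)
    (hsym : ∀ (W : 𝒱.Obj) (x y : W ⟶ X), ev p x y = ev p y x) {I : Family C}
    (hI : IsAdequate C I) {e : ℤ} (m n : ℕ)
    (H : ∀ (W : 𝒱.Obj) (a b : (W ⟶ X) →₀ ℚ) (y y' : Fin (n + 2) → (W ⟶ X)),
      QQ p a b ^ m * ∏ j, DD p a b (y j) (y' j) ∈ I W e) :
    ∀ (W : 𝒱.Obj) (a b : (W ⟶ X) →₀ ℚ) (y y' : Fin n → (W ⟶ X)),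
      QQ p a b ^ (m + 1) * ∏ j, DD p a b (y j) (y' j) ∈ I W (e - 2 * X.dim) := by
  intro W a b y y'
  set R := QQ p a b ^ m * ∏ j, DD p a b (y j) (y' j) with hR
  have h1 := H ((W.prod X).prod X) (pf _ X (pf W X a)) (pf _ X (pf W X b))
    (Fin.cons (fst (W.prod X) X ≫ snd W X) (Fin.cons (fst (W.prod X) X ≫ snd W X)
      fun j => fst (W.prod X) X ≫ fst W X ≫ y j))
    (Fin.cons (snd (W.prod X) X) (Fin.cons (snd (W.prod X) X)
      fun j => fst (W.prod X) X ≫ fst W X ≫ y' j))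
  rw [Fin.prod_univ_succ, Fin.prod_univ_succ] at h1
  simp only [Fin.cons_zero, Fin.cons_succ] at h1
  have h2 : C.pull (fst (W.prod X) X) (C.pull (fst W X) R) =
      QQ p (pf _ X (pf W X a)) (pf _ X (pf W X b)) ^ m *
        ∏ j, DD p (pf _ X (pf W X a)) (pf _ X (pf W X b))
          (fst (W.prod X) X ≫ fst W X ≫ y j) (fst (W.prod X) X ≫ fst W X ≫ y' j) := by
    rw [hR, map_mul, map_mul, map_pow, map_pow, map_prod, map_prod, pull_QQ, pull_QQ]
    simp only [pull_DD]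
  have h3 : ∀ D E F : C.A ((W.prod X).prod X), E * (D * (D * F)) = D ^ 2 * (E * F) := by
    intro D E F
    ring
  rw [h3, ← h2] at h1
  have h4 := push_fam hI (push_fam hI h1)
  rw [int_DD hp hsym] at h4
  have h5 := Submodule.smul_mem _ (2 : ℚ)⁻¹ h4
  have h6 : (2 : ℚ)⁻¹ • (2 * QQ p a b * R) = QQ p a b ^ (m + 1) *
      ∏ j, DD p a b (y j) (y' j) := by
    rw [mul_assoc, ← smul_mul_assoc]
    have h7 : (2 : ℚ)⁻¹ • (2 : C.A W) = 1 := by
      rw [Algebra.smul_def, ← map_ofNat (algebraMap ℚ (C.A W)) 2, ← map_mul,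
        inv_mul_cancel₀ (by norm_num), map_one]
    rw [h7, hR]
    ring
  rw [h6] at h5
  exact hI.congr (by ring) h5

/-- A symmetric idempotent of trace `-2g` killed by the Young symmetrizer of two rows of length
`2g+2` is killed by the symmetrizer with `2g+1` factors. -/
theorem two_rows {p : C.A (X.prod X)} (hpd : p ∈ C.gr (X.prod X) X.dim)
    (hp : C.comp p p = p) (hsym : ∀ (W : 𝒱.Obj) (x y : W ⟶ X), ev p x y = ev p y x) {g : ℕ}
    (hp0 : HasDegree C (ev p (𝟙 X) (𝟙 X)) (-(2 * g : ℚ))) {I : Family C} (hI : IsAdequate C I)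
    {K : ℕ} (hK : K = 2 * (g + 1)) {r' c' : Fin K ⊕ Fin K → ℕ} (hr0 : ∀ j, r' (Sum.inl j) = 0)
    (hr1 : ∀ j, r' (Sum.inr j) = 1) (h0 : ∀ j, c' (Sum.inl j) = j)
    (h1 : ∀ j, c' (Sum.inr j) = j)
    (h : InI I (young r' c' (fun _ => p) Finset.univ) ((K + K : ℤ) * X.dim)) :
    InI I (comb (ι := Fin (2 * g + 1)) (fun _ => p) (fun _ => 1)) ((2 * g + 1 : ℕ) * X.dim) := by
  have h2 : ∀ (W : 𝒱.Obj) (a b : (W ⟶ X) →₀ ℚ) (y y' : Fin K → (W ⟶ X)),
      QQ p a b ^ 0 * ∏ j, DD p a b (y j) (y' j) ∈ I W ((K + K : ℤ) * X.dim) := by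
    intro W a b y y'
    rw [pow_zero, one_mul]
    have h3 := young_formal h (fun i => if r' i = 0 then a else b) (fun r hr i => by
      rw [(mem_lineF.1 hr).2 i]) (Sum.elim y y')
    have h4 := sum_cols h0 h1 (fun i j => Bf p W (if r' i = 0 then a else b)
      (Finsupp.single ((Sum.elim y y' : Fin K ⊕ Fin K → (W ⟶ X)) j) 1)) Finset.univ
    rw [Finset.univ_disjSum_univ] at h4
    rw [h4] at h3
    simp only [hr0, hr1, if_true, one_ne_zero, if_false, Sum.elim_inl, Sum.elim_inr] at h3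
    exact h3
  have h3 : ∀ m ≤ g + 1, ∀ n, n + 2 * m = K → ∀ (W : 𝒱.Obj) (a b : (W ⟶ X) →₀ ℚ)
      (y y' : Fin n → (W ⟶ X)), QQ p a b ^ m * ∏ j, DD p a b (y j) (y' j) ∈
        I W ((K + K : ℤ) * X.dim - 2 * m * X.dim) := by
    intro m
    induction m with
    | zero =>
      intro _ n hn
      have hn' : n = K := by omega
      subst hn'
      intro W a b y y'
      exact hI.congr (by push_cast; ring) (h2 W a b y y')
    | succ m ih =>
      intro hm n hn W a b y y'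
      exact hI.congr (by push_cast; ring)
        (gram_step hp hsym hI m n (ih (by omega) (n + 2) (by omega)) W a b y y')
  apply sym_of_gram hpd hp hsym hp0 hI
  intro W y z
  have h4 := h3 (g + 1) le_rfl 0 (by omega) W z y (fun j => j.elim0) (fun j => j.elim0)
  rw [Finset.univ_eq_empty, Finset.prod_empty, mul_one, QQ, Bf_symm hsym z y] at h4
  refine hI.congr ?_ h4
  rw [hK]
  push_cast
  ring

end chow

end Pool.Agent.Helper70_bl
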