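import Pool.Agent.Helper70_bl.Od7
import Pool.Agent.Helper70_bl.Ev6

/-!
# Symmetric idempotents of trace `-2g`
-/

open CategoryTheory AlgebraicGeometry

universe u v w

namespace Pool.Agent.Helper70_bl

open Pool.Agent.H914 Pool.Agent.H914.VarClass Pool.Agent.H914.VarClass.Obj Pool.Agent.W492.BB
  Pool.Agent.W550.Corr Pool.Agent.TH133 Pool.Agent.TH829.Prime Pool.Agent.TH829.Kim Equiv

set_option linter.unusedSectionVars false

section comb

variable {ι κ : Type} [Fintype ι] [DecidableEq ι] [Fintype κ] [DecidableEq κ] {S : Finset ι}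
variable {row col : ι → ℕ}

lemma IsDiag.swap (h : IsDiag row col S) : IsDiag col row S where
  inj i hi j hj h1 h2 := h.inj i hi j hj h2 h1
  low i hi r s hr hs := by
    obtain ⟨j, hj, h1, h2⟩ := h.low i hi s r hs hr
    exact ⟨j, hj, h2, h1⟩

lemma IsCorner.swap {c : ι} (h : IsCorner row col S c) : IsCorner col row S c where
  mem := h.mem
  right := h.down
  down := h.right

/-- The row with `n` cells. -/
def rowD (n : ℕ) : YoungDiagram where
  cells := {0} ×ˢ Finset.range n
  isLowerSet := by
    intro a b hab ha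
    simp only [Finset.coe_product, Finset.coe_range, Finset.coe_singleton, Set.mem_prod,
      Set.mem_Iio, Set.mem_singleton_iff] at ha ⊢
    have h1 := hab.1
    have h2 := hab.2
    omega

lemma mem_rowD {n : ℕ} {c : ℕ × ℕ} : c ∈ rowD n ↔ c.1 = 0 ∧ c.2 < n := by
  rw [← YoungDiagram.mem_cells]
  change c ∈ {0} ×ˢ Finset.range n ↔ _
  rw [Finset.mem_product, Finset.mem_range, Finset.mem_singleton]

lemma notMem_rowD {n r s : ℕ} (hr : r ≠ 0) : (r, s) ∉ rowD n := fun h1 => hr (mem_rowD.1 h1).1

lemma rowOf_rowD (n : ℕ) (i : (rowD n).cells) : rowOf (rowD n) i = 0 :=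
  (mem_rowD.1 ((YoungDiagram.mem_cells _).1 i.2)).1

lemma colOf_rowD (n : ℕ) : Function.Injective (colOf (rowD n)) := by
  intro i j hij
  exact Subtype.ext (Prod.ext ((rowOf_rowD n i).trans (rowOf_rowD n j).symm) hij)

lemma lineF_row_rowD (n : ℕ) : lineF (rowOf (rowD n)) Finset.univ = Finset.univ :=
  lineF_of_const fun i j => by rw [rowOf_rowD, rowOf_rowD]

lemma lineF_col_rowD (n : ℕ) : lineF (colOf (rowD n)) Finset.univ = {1} :=
  lineF_of_injective (colOf_rowD n)

lemma card_rowD (n : ℕ) : Fintype.card (rowD n).cells = n := by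
  rw [Fintype.card_coe]
  simp [rowD]

lemma acts_triv (n : ℕ) : ActsOnSpecht (fun _ : Perm (Fin n) => (1 : ℚ)) (rowD n) := by
  have hc : Fintype.card (rowD n).cells = Fintype.card (Fin n) := by
    rw [card_rowD, Fintype.card_fin]
  refine ⟨Fintype.equivOfCardEq hc, 1, ?_⟩
  rw [rowPerms_eq, colPerms_eq, lineF_row_rowD, lineF_col_rowD]
  simp only [Finset.sum_singleton, Perm.sign_one, Units.val_one, Int.cast_one, mul_one,
    Finset.sum_const, Finset.card_univ, nsmul_eq_mul]
  exact_mod_cast Fintype.card_ne_zero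

end comb

variable {k : Type u} [Field k] {𝒱 : VarClass k}

section chow

variable {C : TheoryData.{u, v, 0} 𝒱 ℚ} [hC : IsChowProj C] {X Y Z W V : 𝒱.Obj}
variable {ι κ : Type} [Fintype ι] [DecidableEq ι] [Fintype κ] [DecidableEq κ] {S : Finset ι}
variable {row col : ι → ℕ}

include hC

/-- One row. -/
lemma young_one_row {r' c' : κ → ℕ} (h1 : Function.Injective c') (h2 : ∀ i j, r' i = r' j)
    (p : C.A (X.prod X)) : young r' c' (fun _ => p) Finset.univ =
      comb (fun _ => p) (fun _ => (1 : ℚ)) := by
  rw [young, lineF_of_const h2, lineF_of_injective h1, comb]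
  simp only [Finset.sum_singleton, Perm.sign_one, Units.val_one, Int.cast_one, one_smul, one_mul]
  exact Fintype.sum_equiv (Equiv.inv (Perm κ)) _ _ (fun r => rfl)

/-- A symmetric idempotent of trace `-2g` killed by the Young symmetrizer of a diagram without the
cell `(2, 2g + 2)` is killed by the symmetrizer with `2g + 1` factors. -/
theorem sym_of_young {p : C.A (X.prod X)} (hpd : p ∈ C.gr (X.prod X) X.dim)
    (hp : C.comp p p = p) {g : ℕ} (hp0 : HasDegree C (ev p (𝟙 X) (𝟙 X)) (-(2 * g : ℚ)))
    (hsym : ∀ (W : 𝒱.Obj) (x y : W ⟶ X), ev p x y = ev p y x) {I : Family C}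
    (hI : IsAdequate C I) (n : ℕ) : ∀ (ι : Type) [Fintype ι] [DecidableEq ι] (row col : ι → ℕ)
    (S : Finset ι), S.card = n → IsDiag row col S →
    (∀ i ∈ S, ¬ (2 * g + 2 ≤ col i ∧ 2 ≤ row i)) →
    InI I (young row col (fun _ => p) S) (S.card * X.dim) →
    InI I (comb (ι := Fin (2 * g + 1)) (fun _ => p) (fun _ => 1)) ((2 * g + 1 : ℕ) * X.dim) := by
  induction n using Nat.strong_induction_on with
  | _ n ih =>
  intro ι _ _ row col S hn hS h22 h
  rcases hS.swap.cases' (2 * g) h22 with h1 | ⟨c, hc, h1 | h1, hall⟩ | ⟨c, hc, hne⟩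
  · -- the empty diagram
    subst h1
    have h2 : ∀ W : 𝒱.Obj, (1 : C.A W) ∈ I W 0 := by
      rcases isEmpty_or_nonempty ι with hι | hι
      · intro W
        have h3 := h W isEmptyElim isEmptyElim
        rw [young_empty, Finset.card_empty] at h3
        exact hI.congr (by push_cast; ring) h3
      · have h3 := h (X.prod X) (fun _ => fst X X) (fun _ => fst X X)
        rw [young_empty, Finset.card_empty] at h3
        have h4 : (1 : C.A (X.prod X)) ∈ I (X.prod X) 0 := hI.congr (by push_cast; ring) h3
        exact fun W => hI.one_mem_of h4 W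
    have h5 := comb_of_one hI hpd (κ := Fin (2 * g + 1)) (fun _ => (1 : ℚ)) h2
    rwa [Fintype.card_fin] at h5
  · -- one row
    obtain ⟨f, hf⟩ := exists_equiv_column hS.swap hc h1.2 hall
    have h3 : S.card = col c + 1 := by
      have h4 := Fintype.card_congr f
      rw [Fintype.card_fin, Fintype.card_coe] at h4
      exact h4.symm
    have h2 : InI I (comb (ι := Fin (col c + 1)) (fun _ => p) (fun _ => (1 : ℚ)))
        (S.card * X.dim) := by
      intro W x y
      obtain ⟨x', hx'⟩ := exists_extend f (x 0) x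
      obtain ⟨y', hy'⟩ := exists_extend f (y 0) y
      have h5 := h W x' y'
      rw [young_transport f, young_one_row (fun i j hij => by
        rw [(hf i).1, (hf j).1] at hij
        exact Fin.ext hij) (fun i j => by rw [(hf i).2, (hf j).2])] at h5
      simp only [hx', hy'] at h5
      exact h5
    have h4 : ∀ m : ℕ, col c = m →
        InI I (comb (ι := Fin (m + 1)) (fun _ => p) (fun _ => (1 : ℚ)))
          ((m + 1 : ℕ) * X.dim) := by
      rintro m rfl
      intro W x y
      refine hI.congr ?_ (h2 W x y)
      rw [h3]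
    exact h4 (2 * g) h1.1
  · -- two rows
    obtain ⟨f, hf⟩ := exists_equiv_two hS.swap hc h1.2 hall
    have h3 : S.card = col c + 1 + (col c + 1) := by
      have h4 := Fintype.card_congr f
      rw [Fintype.card_sum, Fintype.card_fin, Fintype.card_coe] at h4
      exact h4.symm
    refine two_rows (K := col c + 1) (r' := fun j => row (f j)) (c' := fun j => col (f j))
      hpd hp hsym hp0 hI (by omega) (fun j => (hf j).1.2)
      (fun j => (hf j).2.2) (fun j => (hf j).1.1) (fun j => (hf j).2.1) ?_
    intro W x y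
    obtain ⟨x', hx'⟩ := exists_extend f (x (Sum.inl 0)) x
    obtain ⟨y', hy'⟩ := exists_extend f (y (Sum.inl 0)) y
    have h5 := h W x' y'
    rw [young_transport f] at h5
    simp only [hx', hy'] at h5
    refine hI.congr ?_ h5
    rw [h3]
    push_cast
    ring
  · -- a corner outside the diagonal
    have hc' : IsCorner row col S c := hc.swap
    have h1 := h.con1 hI c
    rw [con_young_D hp hp0 hS.inj hc.mem (fun a ha har hac b hb hbcol hbc => ?_),
      hS.card_row hc', hS.card_col hc'] at h1
    · have h2 := InI.cancel (by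
        push_cast
        intro h3
        apply hne
        have h4 : ((col c : ℕ) : ℚ) = ((row c + 2 * g : ℕ) : ℚ) := by
          push_cast
          linarith
        exact_mod_cast h4) h1
      have hcard : (S.erase c).card = n - 1 := by
        rw [Finset.card_erase_of_mem hc.mem, hn]
      have hpos : 0 < S.card := Finset.card_pos.2 ⟨c, hc.mem⟩
      refine ih (n - 1) (by omega) ι row col (S.erase c) hcard (hS.erase hc')
        (fun i hi => h22 i (Finset.mem_of_mem_erase hi)) ?_
      intro W x y
      refine hI.congr ?_ (h2 W x y)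
      rw [hcard, hn, Nat.cast_sub (by omega)]
      push_cast
      ring
    · have hbr : row b < row c := by
        have h2 := hc'.down b hb hbcol
        rcases h2.lt_or_eq with h3 | h3
        · exact h3
        · exact absurd (hS.inj b hb c hc.mem h3 hbcol) hbc
      obtain ⟨m, hm, hm1, hm2⟩ := hS.low c hc.mem (row b) (col a) hbr.le (hc'.right a ha har)
      refine ⟨m, Finset.mem_erase.2 ⟨?_, hm⟩, hm1, hm2⟩
      rintro rfl
      omega

end chow

end Pool.Agent.Helper70_bl
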