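import Pool.Agent.Helper70_bl.BlDefs

/-!
# Relations outside the rectangle with three rows
-/

open CategoryTheory AlgebraicGeometry

universe u v w

namespace Pool.Agent.Helper70_bl

open Pool.Agent.H914 Pool.Agent.H914.VarClass Pool.Agent.H914.VarClass.Obj Pool.Agent.W492.BB
  Pool.Agent.W550.Corr Pool.Agent.TH133 Pool.Agent.TH829.Prime

variable {k : Type u} [Field k] {𝒱 : VarClass k}

/-- For some `n` there is a relation between the classes `p_σ`, `σ ∈ S_n`, modulo the adequate
relation `I`, that acts non-trivially on the Specht module of a Young diagram that does not contain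
the rectangle with three rows and `2g + 3` columns. -/
def OddExceptional (C : TheoryData.{u, v, 0} 𝒱 ℚ) {X : 𝒱.Obj} (p : C.A (X.prod X)) (I : Family C)
    (g : ℕ) : Prop :=
  ∃ (n : ℕ) (α : Equiv.Perm (Fin n) → ℚ) (μ : YoungDiagram),
    Relation C p I n α ∧ (2, 2 * g + 2) ∉ μ ∧ ActsOnSpecht α μ

/-- The external power `z × ⋯ × z` with `m + 1` factors vanishes. -/
def PowZero (C : TheoryData.{u, v, 0} 𝒱 ℚ) {X : 𝒱.Obj} (z : C.A X) (m : ℕ) : Prop :=
  extPow C z m = 0

end Pool.Agent.Helper70_bl
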