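import Pool.Agent.Helper70_bl.Od8
import Pool.Agent.Helper70_bl.OdDefs

/-!
# Oddly finite-dimensional symmetric motives
-/

open CategoryTheory AlgebraicGeometry

universe u v w

namespace Pool.Agent.Helper70_bl

open Pool.Agent.H914 Pool.Agent.H914.VarClass Pool.Agent.H914.VarClass.Obj Pool.Agent.W492.BB
  Pool.Agent.W550.Corr Pool.Agent.TH133 Pool.Agent.TH829.Prime Pool.Agent.TH829.Kim Equiv

set_option linter.unusedSectionVars false

variable {k : Type u} [Field k] {𝒱 : VarClass k}

section chow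

variable {C : TheoryData.{u, v, 0} 𝒱 ℚ} [hC : IsChowProj C] {X Y Z W V : 𝒱.Obj}

include hC

/-- The symmetric relation in terms of `Dies`. -/
lemma relation_one_iff {p : C.A (X.prod X)} (hpd : p ∈ C.gr (X.prod X) X.dim) {I : Family C}
    {n : ℕ} : Relation C p I n (fun _ => 1) ↔ Dies I false (ofA p hpd) n := by
  refine forall_congr' fun W => forall_congr' fun x => forall_congr' fun y => ?_
  have h1 : ∑ σ : Equiv.Perm (Fin n), (1 : ℚ) •
      (List.ofFn fun i => value C p (x i) (y (σ i))).prod =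
      gd false (fun _ _ => toA (ofA p hpd)) x y := by
    rw [← symPower_eq (C := C), symPower]
    apply Finset.sum_congr rfl
    intro σ _
    rw [one_smul, toA_ofA]
  rw [h1]

/-- The criteria modulo an adequate relation. -/
theorem odd_tfae {p : C.A (X.prod X)} (hpd : p ∈ C.gr (X.prod X) X.dim)
    (hp : C.comp p p = p) (hs : value C p (snd X X) (fst X X) = p) {g : ℕ}
    (hg : HasDegree C (value C p (𝟙 X) (𝟙 X)) (-(2 * g : ℚ))) {I : Family C}
    (hI : IsAdequate C I) :
    List.TFAE [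
      Relation C p I (2 * g + 1) (fun _ => 1),
      ∃ n, Relation C p I n (fun _ => 1),
      ∃ n ≤ 6 * g + 8, Dependent C p I n,
      ∃ μ : YoungDiagram, (2, 2 * g + 2) ∉ μ ∧ SchurZero C p I μ,
      OddExceptional C p I g] := by
  have hsym := ev_symm_of hs
  have hg' : HasDegree C (ev p (𝟙 X) (𝟙 X)) (-(2 * g : ℚ)) := hg
  have key : ∀ {n : ℕ} {row col : Fin n → ℕ}, IsDiag row col (Finset.univ : Finset (Fin n)) →
      (∀ i, ¬ (2 * g + 2 ≤ col i ∧ 2 ≤ row i)) →
      InI I (young row col (fun _ => p) Finset.univ) (Fintype.card (Fin n) * X.dim) →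
      Relation C p I (2 * g + 1) (fun _ => 1) := by
    intro n row col hD h22 h
    rw [relation_iff, Fintype.card_fin]
    rw [← Finset.card_univ] at h
    exact sym_of_young hpd hp hg' hsym hI _ (Fin n) row col Finset.univ rfl hD
      (fun i _ => h22 i) h
  have h10 : ∀ n : ℕ, (fun _ : Perm (Fin n) => (1 : ℚ)) ≠ 0 := by
    intro n h
    have h1 := congrFun h 1
    simp at h1
  tfae_have 1 → 2 := fun h => ⟨_, h⟩
  tfae_have 1 → 3 := fun h => ⟨2 * g + 1, by omega, _, h10 _, h⟩
  tfae_have 2 → 5 := by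
    rintro ⟨n, h⟩
    exact ⟨n, _, rowD n, h, notMem_rowD (by omega), acts_triv n⟩
  tfae_have 5 → 1 := by
    rintro ⟨n, α, μ, hα, hμ, hact⟩
    obtain ⟨row, col, hD, h2, h1⟩ := exists_young_of_acts hact (relation_iff.1 hα)
    exact key hD (fun i hi => hμ (μ.up_left_mem hi.2 hi.1 (h2 i))) h1
  tfae_have 3 → 1 := by
    rintro ⟨n, hn, α, hα, h⟩
    obtain ⟨row, col, hD, h1⟩ := exists_young hα (relation_iff.1 h)
    refine key hD (fun i hi => ?_) h1
    have h2 := card_of_cell hD hi.2 hi.1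
    rw [Fintype.card_fin] at h2
    omega
  tfae_have 1 → 4 := by
    intro h
    refine ⟨rowD (2 * g + 1), notMem_rowD (by omega), ?_⟩
    rw [schurZero_iff, young_one_row (colOf_rowD _) (fun i j => by rw [rowOf_rowD, rowOf_rowD]),
      card_rowD]
    rw [relation_iff, Fintype.card_fin] at h
    intro W x y
    have hc : Fintype.card (rowD (2 * g + 1)).cells = Fintype.card (Fin (2 * g + 1)) := by
      rw [card_rowD, Fintype.card_fin]
    let T := Fintype.equivOfCardEq hc
    have h1 := h W (fun i => x (T.symm i)) (fun i => y (T.symm i))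
    rw [comb_apply] at h1 ⊢
    have h2 : ∑ σ : Equiv.Perm (rowD (2 * g + 1)).cells, (1 : ℚ) •
        ∏ i, ev p (x i) (y (σ i)) = ∑ σ : Equiv.Perm (Fin (2 * g + 1)),
          (1 : ℚ) • ∏ i, ev p (x (T.symm i)) (y (T.symm (σ i))) := by
      apply Fintype.sum_equiv T.permCongr
      intro σ
      congr 1
      apply Fintype.prod_equiv T
      intro i
      rw [Equiv.permCongr_apply, Equiv.symm_apply_apply, Equiv.symm_apply_apply]
    rw [h2]
    exact h1
  tfae_have 4 → 1 := by
    rintro ⟨μ, hμ, h⟩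
    have h1 := schurZero_iff.1 h
    rw [← Finset.card_univ] at h1
    rw [relation_iff, Fintype.card_fin]
    exact sym_of_young hpd hp hg' hsym hI _ _ (rowOf μ) (colOf μ) Finset.univ rfl (isDiag_of μ)
      (fun i _ hi => hμ (μ.up_left_mem hi.2 hi.1 ((YoungDiagram.mem_cells _).1 i.2))) h1
  tfae_finish

/-- The criteria up to rational equivalence. -/
theorem odd_rat_tfae {p : C.A (X.prod X)} (hpd : p ∈ C.gr (X.prod X) X.dim)
    (hp : C.comp p p = p) (hs : value C p (snd X X) (fst X X) = p) {g : ℕ}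
    (hg : HasDegree C (value C p (𝟙 X) (𝟙 X)) (-(2 * g : ℚ))) :
    List.TFAE [
      Relation C p (ratFam C) (2 * g + 1) (fun _ => 1),
      OddExceptional C p (ratFam C) g,
      ∃ I : Family C, IsAdequate C I ∧ (∀ Z i, ∀ z ∈ I Z i, SmashNilpotent C z) ∧
        OddExceptional C p I g,
      ∀ P : Family C, IsPrime C P → OddExceptional C p P g] := by
  have hrat : IsAdequate C (ratFam C) := isAdequate_bot
  have hA := fun {I : Family C} (hI : IsAdequate C I) => (odd_tfae hpd hp hs hg hI).out 0 4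
  tfae_have 1 ↔ 2 := hA hrat
  tfae_have 2 → 3 := fun h => ⟨ratFam C, hrat, fun Z i z hz =>
    ⟨0, (Submodule.mem_bot ℚ).1 hz⟩, h⟩
  tfae_have 3 → 4 := by
    rintro ⟨I, hI, hI0, h⟩ P hP
    refine (hA hP.toIsAdequate).1 fun W x y => ?_
    have h1 := (hA hI).2 h W x y
    exact (smashNilpotent_iff (hI.le_gr _ _ h1)).1 (hI0 _ _ _ h1) P hP
  tfae_have 4 → 1 := by
    intro h
    have h1 : ∀ P : Family C, IsPrime C P → ∃ n, Dies P false (ofA p hpd) (n + 1) := fun P hP =>
      ⟨2 * g, (relation_one_iff hpd).1 ((hA hP.toIsAdequate).2 (h P hP))⟩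
    obtain ⟨n, hn⟩ := dies_of_prime false (ofA p hpd) h1
    have h2 : (∃ n, Relation C p (ratFam C) n (fun _ => 1)) →
        Relation C p (ratFam C) (2 * g + 1) (fun _ => 1) :=
      ((odd_tfae hpd hp hs hg hrat).out 1 0).1
    exact h2 ⟨n + 1, (relation_one_iff hpd).2 hn⟩
  tfae_finish

end chow

end Pool.Agent.Helper70_bl
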