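import Pool.Agent.Helper70_bl.Bl14

/-!
# Counting cells
-/

set_option linter.unusedSectionVars false

namespace Pool.Agent.Helper70_bl

section count

variable {ι : Type} [Fintype ι] [DecidableEq ι]

/-- The column `c`. -/
def colSet (col : ι → ℕ) (c : ℕ) : Finset ι := Finset.univ.filter (fun j => col j = c)

lemma mem_colSet {col : ι → ℕ} {c : ℕ} {j : ι} : j ∈ colSet col c ↔ col j = c := by
  simp [colSet]

lemma col_injOn {row col : ι → ℕ} (hD : IsDiag row col (Finset.univ : Finset ι)) (c : ℕ) :
    Set.InjOn row (colSet col c : Set ι) := by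
  intro i hi j hj h
  have h1 := mem_colSet.1 (Finset.mem_coe.1 hi)
  have h2 := mem_colSet.1 (Finset.mem_coe.1 hj)
  exact hD.inj i (Finset.mem_univ _) j (Finset.mem_univ _) h (h1.trans h2.symm)

lemma col_image {row col : ι → ℕ} (hD : IsDiag row col (Finset.univ : Finset ι)) (c : ℕ) :
    (colSet col c).image row = Finset.range (colSet col c).card := by
  have hcard := Finset.card_image_of_injOn (col_injOn hD c)
  apply Finset.eq_of_subset_of_card_le
  · intro x hx
    obtain ⟨j, hj, rfl⟩ := Finset.mem_image.1 hx
    have hj' := mem_colSet.1 hj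
    have h1 : Finset.range (row j + 1) ⊆ (colSet col c).image row := by
      intro r hr
      have hr' := Finset.mem_range.1 hr
      obtain ⟨m, -, hm1, hm2⟩ := hD.low j (Finset.mem_univ _) r c (by omega) (by omega)
      exact Finset.mem_image.2 ⟨m, mem_colSet.2 hm2, hm1⟩
    have h2 := Finset.card_le_card h1
    rw [Finset.card_range, hcard] at h2
    exact Finset.mem_range.2 (by omega)
  · rw [Finset.card_range, hcard]

lemma row_lt {row col : ι → ℕ} (hD : IsDiag row col (Finset.univ : Finset ι)) (j : ι) :
    row j < (colSet col (col j)).card := by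
  rw [← Finset.mem_range, ← col_image hD]
  exact Finset.mem_image_of_mem _ (mem_colSet.2 rfl)

lemma exists_cell {row col : ι → ℕ} (hD : IsDiag row col (Finset.univ : Finset ι)) {r c : ℕ}
    (h : r < (colSet col c).card) : ∃ j, row j = r ∧ col j = c := by
  rw [← Finset.mem_range, ← col_image hD] at h
  obtain ⟨j, hj, hr⟩ := Finset.mem_image.1 h
  exact ⟨j, hr, mem_colSet.1 hj⟩

/-- The number of cells of the column `c` in the first `k` rows. -/
def nCell (row col : ι → ℕ) (k c : ℕ) : ℕ :=
  (Finset.univ.filter (fun j => row j < k ∧ col j = c)).card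

/-- The number of cells in the first `k` rows. -/
def nRow (row : ι → ℕ) (k : ℕ) : ℕ := (Finset.univ.filter (fun j => row j < k)).card

lemma nCell_eq {row col : ι → ℕ} (hD : IsDiag row col (Finset.univ : Finset ι)) (k c : ℕ) :
    nCell row col k c = min k (colSet col c).card := by
  have h1 : (Finset.univ.filter (fun j => row j < k ∧ col j = c)).image row =
      Finset.range (min k (colSet col c).card) := by
    ext r
    rw [Finset.mem_image, Finset.mem_range, lt_min_iff]
    constructor
    · rintro ⟨j, hj, rfl⟩
      obtain ⟨h1, rfl⟩ := (Finset.mem_filter.1 hj).2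
      exact ⟨h1, row_lt hD j⟩
    · rintro ⟨h1, h2⟩
      obtain ⟨j, rfl, hj2⟩ := exists_cell hD h2
      exact ⟨j, Finset.mem_filter.2 ⟨Finset.mem_univ _, h1, hj2⟩, rfl⟩
  have h2 : Set.InjOn row ((Finset.univ.filter (fun j => row j < k ∧ col j = c) : Finset ι) :
      Set ι) := by
    intro i hi j hj h
    have hi' := (Finset.mem_filter.1 (Finset.mem_coe.1 hi)).2.2
    have hj' := (Finset.mem_filter.1 (Finset.mem_coe.1 hj)).2.2
    exact hD.inj i (Finset.mem_univ _) j (Finset.mem_univ _) h (hi'.trans hj'.symm)
  rw [nCell, ← Finset.card_image_of_injOn h2, h1, Finset.card_range]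

lemma nCell_le {u f row col : ι → ℕ} (hD : IsDiag row col (Finset.univ : Finset ι))
    (hinj : ∀ i j, u i = u j → f i = f j → i = j)
    (hf : ∀ c, (colSet f c).card = (colSet col c).card) (k c : ℕ) :
    nCell u f k c ≤ nCell row col k c := by
  rw [nCell_eq hD]
  apply le_min
  · have h2 : Set.InjOn u ((Finset.univ.filter (fun j => u j < k ∧ f j = c) : Finset ι) :
        Set ι) := by
      intro i hi j hj h
      have hi' := (Finset.mem_filter.1 (Finset.mem_coe.1 hi)).2.2
      have hj' := (Finset.mem_filter.1 (Finset.mem_coe.1 hj)).2.2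
      exact hinj i j h (hi'.trans hj'.symm)
    rw [nCell, ← Finset.card_image_of_injOn h2]
    have h3 : (Finset.univ.filter (fun j => u j < k ∧ f j = c)).image u ⊆ Finset.range k := by
      intro r hr
      obtain ⟨j, hj, rfl⟩ := Finset.mem_image.1 hr
      exact Finset.mem_range.2 (Finset.mem_filter.1 hj).2.1
    have h4 := Finset.card_le_card h3
    rwa [Finset.card_range] at h4
  · rw [← hf]
    apply Finset.card_le_card
    intro j hj
    exact mem_colSet.2 (Finset.mem_filter.1 hj).2.2

lemma nRow_eq_sum (u f : ι → ℕ) (k : ℕ) {t : Finset ℕ} (ht : ∀ i, f i ∈ t) :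
    nRow u k = ∑ c ∈ t, nCell u f k c := by
  rw [nRow, Finset.card_eq_sum_card_fiberwise (f := f) (t := t) (fun i _ => ht i)]
  apply Finset.sum_congr rfl
  intro c _
  rw [Finset.filter_filter]
  rfl

lemma nRow_le {u f row col : ι → ℕ} (hD : IsDiag row col (Finset.univ : Finset ι))
    (hinj : ∀ i j, u i = u j → f i = f j → i = j)
    (hf : ∀ c, (colSet f c).card = (colSet col c).card) (k : ℕ) : nRow u k ≤ nRow row k := by
  rw [nRow_eq_sum u f k (t := Finset.univ.image f ∪ Finset.univ.image col) (fun i =>
    Finset.mem_union_left _ (Finset.mem_image_of_mem _ (Finset.mem_univ _))),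
    nRow_eq_sum row col k (t := Finset.univ.image f ∪ Finset.univ.image col) (fun i =>
    Finset.mem_union_right _ (Finset.mem_image_of_mem _ (Finset.mem_univ _)))]
  exact Finset.sum_le_sum fun c _ => nCell_le hD hinj hf k c

/-- If the shapes agree then the cells `(row i, f i)` belong to the diagram. -/
lemma exists_of_inj {f row col : ι → ℕ} (hD : IsDiag row col (Finset.univ : Finset ι))
    (hinj : ∀ i j, row i = row j → f i = f j → i = j)
    (hf : ∀ c, (colSet f c).card = (colSet col c).card) (i : ι) :
    ∃ j, row j = row i ∧ col j = f i := by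
  apply exists_cell hD
  set t := Finset.univ.image f ∪ Finset.univ.image col with ht
  have h1 : ∀ k, ∀ c ∈ t, nCell row f k c = nCell row col k c := by
    intro k
    rw [← Finset.sum_eq_sum_iff_of_le (fun c _ => nCell_le hD hinj hf k c),
      ← nRow_eq_sum row f k (fun i => Finset.mem_union_left _
        (Finset.mem_image_of_mem _ (Finset.mem_univ _))),
      ← nRow_eq_sum row col k (fun i => Finset.mem_union_right _
        (Finset.mem_image_of_mem _ (Finset.mem_univ _)))]
  have h2 := h1 (colSet col (f i)).card (f i) (Finset.mem_union_left _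
    (Finset.mem_image_of_mem _ (Finset.mem_univ _)))
  rw [nCell_eq hD, min_self, ← hf, nCell] at h2
  have h3 : Finset.univ.filter (fun j => row j < (colSet f (f i)).card ∧ f j = f i) =
      colSet f (f i) := by
    apply Finset.eq_of_subset_of_card_le
    · intro j hj
      exact mem_colSet.2 (Finset.mem_filter.1 hj).2.2
    · exact h2.ge
  have h4 : i ∈ colSet f (f i) := mem_colSet.2 rfl
  rw [← h3] at h4
  rw [← hf]
  exact (Finset.mem_filter.1 h4).2.1

lemma colSet_comp (g : Equiv.Perm ι) (col : ι → ℕ) (c : ℕ) :
    (colSet (fun i => col (g i)) c).card = (colSet col c).card := by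
  apply Finset.card_bij (fun i _ => g i)
  · intro i hi
    have h := (mem_colSet (col := fun i => col (g i))).1 hi
    exact mem_colSet.2 h
  · intro i _ j _ h
    exact g.injective h
  · intro j hj
    refine ⟨g.symm j, (mem_colSet (col := fun i => col (g i))).2 ?_, g.apply_symm_apply j⟩
    change col (g (g.symm j)) = c
    rw [g.apply_symm_apply]
    exact mem_colSet.1 hj

/-- The lemma of von Neumann: either two elements of a row are moved into one column, or the
permutation is a product of a column permutation and a row permutation. -/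
lemma pair_or_mul {row col : ι → ℕ} (hD : IsDiag row col (Finset.univ : Finset ι))
    (g : Equiv.Perm ι) : (∃ i j, i ≠ j ∧ row i = row j ∧ col (g i) = col (g j)) ∨
      ∃ q ∈ lineF col Finset.univ, ∃ p ∈ lineF row Finset.univ, g = q * p := by
  by_cases hp : ∃ i j, i ≠ j ∧ row i = row j ∧ col (g i) = col (g j)
  · exact Or.inl hp
  · right
    push Not at hp
    have hinj : ∀ i j, row i = row j → col (g i) = col (g j) → i = j := by
      intro i j h1 h2
      by_contra h3
      exact hp i j h3 h1 h2
    choose p hp1 hp2 using fun i => exists_of_inj (f := fun i => col (g i)) hD hinj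
      (colSet_comp g col) i
    have hpi : Function.Injective p := by
      intro i j h
      apply hinj
      · rw [← hp1 i, ← hp1 j, h]
      · rw [← hp2 i, ← hp2 j, h]
    let P : Equiv.Perm ι := Equiv.ofBijective p (Finite.injective_iff_bijective.1 hpi)
    have hP : ∀ i, P i = p i := fun i => rfl
    refine ⟨g * P⁻¹, mem_lineF.2 ⟨fun i hi => absurd (Finset.mem_univ i) hi, fun i => ?_⟩, P,
      mem_lineF.2 ⟨fun i hi => absurd (Finset.mem_univ i) hi, fun i => ?_⟩, ?_⟩
    · have h1 := hp2 (P⁻¹ i)
      rw [← hP, app_inv] at h1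
      rw [Equiv.Perm.mul_apply, ← h1]
    · rw [hP, hp1]
    · rw [mul_assoc, inv_mul_cancel, mul_one]

/-- Two diagrams: either some pair is in one row of the first and in one column of the second, or
the first diagram is dominated by the second one. -/
lemma pair_or_le {row row' col' : ι → ℕ} (hD : IsDiag row' col' (Finset.univ : Finset ι))
    (g : Equiv.Perm ι) {k : ℕ} (hk : nRow row' k < nRow row k) :
    ∃ i j, i ≠ j ∧ row i = row j ∧ col' (g i) = col' (g j) := by
  by_contra hp
  push Not at hp
  have hinj : ∀ i j, row i = row j → col' (g i) = col' (g j) → i = j := by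
    intro i j h1 h2
    by_contra h3
    exact hp i j h3 h1 h2
  have h1 := nRow_le (u := row) (f := fun i => col' (g i)) hD hinj (colSet_comp g col') k
  omega

end count

end Pool.Agent.Helper70_bl
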