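import Pool.Agent.Helper70_bl.Yg1
import Mathlib.LinearAlgebra.Matrix.Trace

/-!
# The group algebra as an algebra of matrices
-/

set_option linter.unusedSectionVars false

namespace Pool.Agent.Helper70_bl

open Matrix

section group

variable {G : Type} [Group G] [Fintype G] [DecidableEq G]

/-- The matrix of the left multiplication by `g`. -/
def dl (g : G) : Matrix G G ℚ := Matrix.of fun x y => if x = g * y then 1 else 0

lemma dl_apply (g x y : G) : dl g x y = if x = g * y then 1 else 0 := rfl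

lemma dl_mul (g h : G) : dl g * dl h = dl (g * h) := by
  ext x y
  rw [Matrix.mul_apply, dl_apply]
  have h1 : ∀ z, dl g x z * dl h z y = if z = h * y then (if x = g * z then 1 else 0) else 0 := by
    intro z
    rw [dl_apply, dl_apply]
    split_ifs <;> simp
  simp only [h1, Finset.sum_ite_eq', Finset.mem_univ, if_true, mul_assoc]

lemma dl_one : dl (1 : G) = 1 := by
  ext x y
  rw [dl_apply, one_mul, Matrix.one_apply]

lemma dl_transpose (g : G) : (dl g)ᵀ = dl g⁻¹ := by
  ext x y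
  rw [Matrix.transpose_apply, dl_apply, dl_apply]
  congr 1
  apply propext
  constructor
  · rintro rfl
    group
  · rintro rfl
    group

/-- The element of the group algebra. -/
def Mt (α : G → ℚ) : Matrix G G ℚ := ∑ g, α g • dl g

lemma Mt_apply (α : G → ℚ) (x y : G) : Mt α x y = α (x * y⁻¹) := by
  rw [Mt, Matrix.sum_apply]
  have h1 : ∀ g, (α g • dl g) x y = if g = x * y⁻¹ then α g else 0 := by
    intro g
    rw [Matrix.smul_apply, dl_apply, smul_eq_mul]
    by_cases h : x = g * y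
    · rw [if_pos h, if_pos (by rw [h]; group), mul_one]
    · rw [if_neg h, if_neg (fun h1 => h (by rw [h1]; group)), mul_zero]
  simp only [h1, Finset.sum_ite_eq', Finset.mem_univ, if_true]

lemma Mt_inj {α β : G → ℚ} (h : Mt α = Mt β) : α = β := by
  funext x
  have h1 := Mt_apply α x 1
  rw [h, Mt_apply, inv_one, mul_one] at h1
  exact h1.symm

/-- The group algebra. -/
def alg (G : Type) [Group G] [Fintype G] [DecidableEq G] : Submodule ℚ (Matrix G G ℚ) where
  carrier := {x | ∃ α : G → ℚ, x = Mt α}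
  add_mem' := by
    rintro _ _ ⟨α, rfl⟩ ⟨β, rfl⟩
    refine ⟨α + β, ?_⟩
    rw [Mt, Mt, Mt, ← Finset.sum_add_distrib]
    exact Finset.sum_congr rfl fun g _ => (add_smul _ _ _).symm
  zero_mem' := ⟨0, by simp [Mt]⟩
  smul_mem' := by
    rintro c _ ⟨α, rfl⟩
    refine ⟨c • α, ?_⟩
    rw [Mt, Mt, Finset.smul_sum]
    exact Finset.sum_congr rfl fun g _ => smul_smul _ _ _

lemma mem_alg {x : Matrix G G ℚ} : x ∈ alg G ↔ ∃ α : G → ℚ, x = Mt α := Iff.rfl

lemma dl_mem (g : G) : dl g ∈ alg G := by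
  refine ⟨fun h => if h = g then 1 else 0, ?_⟩
  rw [Mt]
  simp only [ite_smul, one_smul, zero_smul, Finset.sum_ite_eq', Finset.mem_univ, if_true]

lemma mul_dl_mem {x : Matrix G G ℚ} (hx : x ∈ alg G) (g : G) : x * dl g ∈ alg G := by
  obtain ⟨α, rfl⟩ := hx
  rw [Mt, Finset.sum_mul]
  refine Submodule.sum_mem _ fun h _ => ?_
  rw [smul_mul_assoc, dl_mul]
  exact Submodule.smul_mem _ _ (dl_mem _)

lemma dl_mul_mem {x : Matrix G G ℚ} (hx : x ∈ alg G) (g : G) : dl g * x ∈ alg G := by
  obtain ⟨α, rfl⟩ := hx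
  rw [Mt, Finset.mul_sum]
  refine Submodule.sum_mem _ fun h _ => ?_
  rw [mul_smul_comm, dl_mul]
  exact Submodule.smul_mem _ _ (dl_mem _)

lemma mul_mem_alg {x y : Matrix G G ℚ} (hx : x ∈ alg G) (hy : y ∈ alg G) : x * y ∈ alg G := by
  obtain ⟨β, rfl⟩ := hy
  rw [Mt, Finset.mul_sum]
  refine Submodule.sum_mem _ fun h _ => ?_
  rw [mul_smul_comm]
  exact Submodule.smul_mem _ _ (mul_dl_mem hx _)

lemma transpose_mem {x : Matrix G G ℚ} (hx : x ∈ alg G) : xᵀ ∈ alg G := by
  obtain ⟨α, rfl⟩ := hx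
  rw [Mt, Matrix.transpose_sum]
  refine Submodule.sum_mem _ fun h _ => ?_
  rw [Matrix.transpose_smul, dl_transpose]
  exact Submodule.smul_mem _ _ (dl_mem _)

lemma transpose_mul_self_ne {x : Matrix G G ℚ} (hx : x ≠ 0) : xᵀ * x ≠ 0 := by
  intro h
  apply hx
  ext i j
  have h1 : (xᵀ * x) j j = 0 := by rw [h]; rfl
  rw [Matrix.mul_apply] at h1
  have h2 : ∀ m ∈ Finset.univ, xᵀ j m * x m j = 0 := by
    rw [← Finset.sum_eq_zero_iff_of_nonneg]
    · exact h1
    · intro m _
      rw [Matrix.transpose_apply]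
      exact mul_self_nonneg _
  have h3 := h2 i (Finset.mem_univ _)
  rw [Matrix.transpose_apply] at h3
  rw [mul_self_eq_zero.1 h3]
  rfl

/-- The sum of the conjugates. -/
def cj (x : Matrix G G ℚ) : Matrix G G ℚ := ∑ g : G, dl g * x * dl g⁻¹

lemma cj_add (x y : Matrix G G ℚ) : cj (x + y) = cj x + cj y := by
  rw [cj, cj, cj, ← Finset.sum_add_distrib]
  exact Finset.sum_congr rfl fun g _ => by rw [mul_add, add_mul]

lemma cj_smul (c : ℚ) (x : Matrix G G ℚ) : cj (c • x) = c • cj x := by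
  rw [cj, cj, Finset.smul_sum]
  exact Finset.sum_congr rfl fun g _ => by rw [mul_smul_comm, smul_mul_assoc]

lemma cj_sum {ι : Type} (S : Finset ι) (f : ι → Matrix G G ℚ) :
    cj (∑ i ∈ S, f i) = ∑ i ∈ S, cj (f i) := by
  simp only [cj, Finset.mul_sum, Finset.sum_mul]
  exact Finset.sum_comm

lemma cj_dl_mul (u : G) (y : Matrix G G ℚ) : cj (dl u * y) = cj (y * dl u) := by
  rw [cj, cj]
  apply Fintype.sum_equiv (Equiv.mulRight u)
  intro g
  change dl g * (dl u * y) * dl g⁻¹ = dl (g * u) * (y * dl u) * dl (g * u)⁻¹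
  have h1 : dl g⁻¹ = dl u * dl (g * u)⁻¹ := by
    rw [dl_mul]
    congr 1
    group
  rw [h1, ← dl_mul]
  simp only [mul_assoc]

lemma cj_transpose (x : Matrix G G ℚ) : (cj x)ᵀ = cj xᵀ := by
  rw [cj, cj, Matrix.transpose_sum]
  apply Finset.sum_congr rfl
  intro g _
  rw [Matrix.transpose_mul, Matrix.transpose_mul, dl_transpose, dl_transpose, inv_inv, mul_assoc]

lemma cj_mem {x : Matrix G G ℚ} (hx : x ∈ alg G) : cj x ∈ alg G := by
  rw [cj]
  exact Submodule.sum_mem _ fun g _ => mul_dl_mem (dl_mul_mem hx _) _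

lemma cj_comm (x : Matrix G G ℚ) (h : G) : dl h * cj x = cj x * dl h := by
  rw [cj, Finset.mul_sum, Finset.sum_mul]
  apply Fintype.sum_equiv (Equiv.mulLeft h)
  intro g
  change dl h * (dl g * x * dl g⁻¹) = dl (h * g) * x * dl (h * g)⁻¹ * dl h
  rw [mul_assoc (dl (h * g) * x), dl_mul]
  have h1 : (h * g)⁻¹ * h = g⁻¹ := by group
  rw [h1, ← dl_mul]
  simp only [mul_assoc]

lemma trace_dl (g : G) : (dl g).trace = if g = 1 then (Fintype.card G : ℚ) else 0 := by
  rw [Matrix.trace]
  split_ifs with h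
  · subst h
    simp [dl_one]
  · apply Finset.sum_eq_zero
    intro x _
    rw [Matrix.diag_apply, dl_apply, if_neg]
    intro h1
    apply h
    have h2 : g * x = 1 * x := by rw [← h1, one_mul]
    exact mul_right_cancel h2

lemma trace_cj (x : Matrix G G ℚ) : (cj x).trace = Fintype.card G * x.trace := by
  rw [cj, Matrix.trace_sum]
  have h1 : ∀ g : G, (dl g * x * dl g⁻¹).trace = x.trace := by
    intro g
    rw [Matrix.trace_mul_comm, ← mul_assoc, dl_mul, inv_mul_cancel, dl_one, one_mul]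
  simp only [h1, Finset.sum_const, Finset.card_univ, nsmul_eq_mul]

/-- The class functions. -/
noncomputable def clsMap (G : Type) [Group G] [Fintype G] [DecidableEq G] :
    (ConjClasses G → ℚ) →ₗ[ℚ] Matrix G G ℚ where
  toFun φ := Mt (fun g => φ (ConjClasses.mk g))
  map_add' φ ψ := by
    rw [Mt, Mt, Mt, ← Finset.sum_add_distrib]
    exact Finset.sum_congr rfl fun g _ => add_smul _ _ _
  map_smul' c φ := by
    rw [Mt, Mt, Finset.smul_sum]
    exact Finset.sum_congr rfl fun g _ => (smul_smul _ _ _).symm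

lemma mem_range_clsMap {x : Matrix G G ℚ} (hx : x ∈ alg G)
    (h : ∀ g, dl g * x = x * dl g) : x ∈ LinearMap.range (clsMap G) := by
  obtain ⟨α, rfl⟩ := hx
  have h1 : ∀ g y : G, IsConj g y → α g = α y := by
    intro g y hgy
    obtain ⟨c, rfl⟩ := isConj_iff.1 hgy
    have h2 : dl c * Mt α * dl c⁻¹ = Mt α := by
      rw [h, mul_assoc, dl_mul, mul_inv_cancel, dl_one, mul_one]
    have h3 : (dl c * Mt α * dl c⁻¹) (c * g * c⁻¹) 1 = Mt α (c * g * c⁻¹) 1 := by rw [h2]
    rw [Mt_apply, inv_one, mul_one] at h3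
    rw [← h3, Matrix.mul_apply]
    have h4 : ∀ z, (dl c * Mt α) (c * g * c⁻¹) z * dl c⁻¹ z 1 =
        if z = c⁻¹ then (dl c * Mt α) (c * g * c⁻¹) z else 0 := by
      intro z
      rw [dl_apply, mul_one]
      split_ifs <;> simp
    simp only [h4, Finset.sum_ite_eq', Finset.mem_univ, if_true]
    rw [Matrix.mul_apply]
    have h5 : ∀ z, dl c (c * g * c⁻¹) z * Mt α z c⁻¹ =
        if z = g * c⁻¹ then Mt α z c⁻¹ else 0 := by
      intro z
      rw [dl_apply]
      by_cases hz : z = g * c⁻¹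
      · rw [if_pos hz, if_pos (by rw [hz]; group), one_mul]
      · rw [if_neg hz, if_neg, zero_mul]
        intro h6
        apply hz
        have h7 : c * (g * c⁻¹) = c * z := by rw [← h6]; group
        exact (mul_left_cancel h7).symm
    simp only [h5, Finset.sum_ite_eq', Finset.mem_univ, if_true]
    rw [Mt_apply]
    congr 1
    group
  refine ⟨fun κ => Quotient.liftOn κ α h1, ?_⟩
  change Mt _ = Mt α
  congr 1

lemma finrank_range_clsMap : Module.finrank ℚ (LinearMap.range (clsMap G)) ≤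
    Fintype.card (ConjClasses G) := by
  classical
  have h1 := LinearMap.finrank_range_le (clsMap G)
  rwa [Module.finrank_fintype_fun_eq_card] at h1

end group

end Pool.Agent.Helper70_bl
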