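import Pool.Agent.Helper70_bl.Yg2

/-!
# Young symmetrizers in the group algebra
-/

set_option linter.unusedSectionVars false

namespace Pool.Agent.Helper70_bl

open Matrix Equiv

section sym

variable {ι : Type} [Fintype ι] [DecidableEq ι]

/-- The row symmetrizer. -/
def aM (row : ι → ℕ) : Matrix (Perm ι) (Perm ι) ℚ := ∑ r ∈ lineF row Finset.univ, dl r

/-- The column antisymmetrizer. -/
def bM (col : ι → ℕ) : Matrix (Perm ι) (Perm ι) ℚ :=
  ∑ c ∈ lineF col Finset.univ, ((Perm.sign c : ℤ) : ℚ) • dl c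

variable {row col row' col' : ι → ℕ}

lemma aM_mem : aM row ∈ alg (Perm ι) := Submodule.sum_mem _ fun g _ => dl_mem g

lemma bM_mem : bM col ∈ alg (Perm ι) :=
  Submodule.sum_mem _ fun g _ => Submodule.smul_mem _ _ (dl_mem g)

lemma aM_mul_dl {p : Perm ι} (hp : p ∈ lineF row Finset.univ) : aM row * dl p = aM row := by
  rw [aM, Finset.sum_mul]
  apply Finset.sum_bij' (fun r _ => r * p) (fun r _ => r * p⁻¹)
  · intro r hr
    exact lineF_mul hr hp
  · intro r hr
    exact lineF_mul hr (lineF_inv hp)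
  · intro r _
    group
  · intro r _
    group
  · intro r _
    rw [dl_mul]

lemma dl_mul_aM {p : Perm ι} (hp : p ∈ lineF row Finset.univ) : dl p * aM row = aM row := by
  rw [aM, Finset.mul_sum]
  apply Finset.sum_bij' (fun r _ => p * r) (fun r _ => p⁻¹ * r)
  · intro r hr
    exact lineF_mul hp hr
  · intro r hr
    exact lineF_mul (lineF_inv hp) hr
  · intro r _
    group
  · intro r _
    group
  · intro r _
    rw [dl_mul]

lemma sign_sq (q : Perm ι) : ((Perm.sign q : ℤ) : ℚ) * ((Perm.sign q : ℤ) : ℚ) = 1 := by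
  rcases Int.units_eq_one_or (Perm.sign q) with h | h <;> rw [h] <;> norm_num

lemma sign_mul' (q r : Perm ι) : ((Perm.sign (q * r) : ℤ) : ℚ) =
    ((Perm.sign q : ℤ) : ℚ) * ((Perm.sign r : ℤ) : ℚ) := by
  rw [Perm.sign_mul, Units.val_mul]
  push_cast
  rfl

lemma bM_mul_dl {q : Perm ι} (hq : q ∈ lineF col Finset.univ) :
    bM col * dl q = ((Perm.sign q : ℤ) : ℚ) • bM col := by
  rw [bM, Finset.sum_mul, Finset.smul_sum]
  apply Finset.sum_bij' (fun r _ => r * q) (fun r _ => r * q⁻¹)
  · intro r hr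
    exact lineF_mul hr hq
  · intro r hr
    exact lineF_mul hr (lineF_inv hq)
  · intro r _
    group
  · intro r _
    group
  · intro r _
    rw [smul_mul_assoc, dl_mul, smul_smul, sign_mul']
    congr 1
    rw [mul_comm, mul_assoc, sign_sq, mul_one]

lemma dl_mul_bM {q : Perm ι} (hq : q ∈ lineF col Finset.univ) :
    dl q * bM col = ((Perm.sign q : ℤ) : ℚ) • bM col := by
  rw [bM, Finset.mul_sum, Finset.smul_sum]
  apply Finset.sum_bij' (fun r _ => q * r) (fun r _ => q⁻¹ * r)
  · intro r hr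
    exact lineF_mul hq hr
  · intro r hr
    exact lineF_mul (lineF_inv hq) hr
  · intro r _
    group
  · intro r _
    group
  · intro r _
    rw [mul_smul_comm, dl_mul, smul_smul, sign_mul']
    congr 1
    rw [← mul_assoc, sign_sq, one_mul]

lemma aM_transpose : (aM row)ᵀ = aM row := by
  rw [aM, Matrix.transpose_sum]
  refine Finset.sum_bij' (fun r _ => r⁻¹) (fun r _ => r⁻¹) ?_ ?_ ?_ ?_ ?_
  · intro r hr
    exact lineF_inv hr
  · intro r hr
    exact lineF_inv hr
  · intro r _
    exact inv_inv r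
  · intro r _
    exact inv_inv r
  · intro r _
    exact dl_transpose r

lemma bM_transpose : (bM col)ᵀ = bM col := by
  rw [bM, Matrix.transpose_sum]
  refine Finset.sum_bij' (fun r _ => r⁻¹) (fun r _ => r⁻¹) ?_ ?_ ?_ ?_ ?_
  · intro r hr
    exact lineF_inv hr
  · intro r hr
    exact lineF_inv hr
  · intro r _
    exact inv_inv r
  · intro r _
    exact inv_inv r
  · intro r _
    rw [Matrix.transpose_smul, dl_transpose, Perm.sign_inv]

lemma eq_zero_of_neg {x : Matrix (Perm ι) (Perm ι) ℚ} (h : x = -x) : x = 0 := by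
  ext i j
  have h1 : x i j = (-x) i j := by rw [← h]
  rw [Matrix.neg_apply] at h1
  rw [Matrix.zero_apply]
  linarith

lemma b_dl_a (hD : IsDiag row col (Finset.univ : Finset ι)) (g : Perm ι) :
    ∃ l : ℚ, bM col * dl g * aM row = l • (bM col * aM row) := by
  rcases pair_or_mul hD g with ⟨i, j, hij, h1, h2⟩ | ⟨q, hq, p, hp, rfl⟩
  · refine ⟨0, ?_⟩
    rw [zero_smul]
    apply eq_zero_of_neg
    have h3 : swap i j ∈ lineF row Finset.univ :=
      lineF_swap (Finset.mem_univ _) (Finset.mem_univ _) h1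
    have h4 : swap (g i) (g j) ∈ lineF col Finset.univ :=
      lineF_swap (Finset.mem_univ _) (Finset.mem_univ _) h2
    have h5 : g * swap i j = swap (g i) (g j) * g := by
      rw [Equiv.mul_swap_eq_swap_mul]
    conv_lhs => rw [← dl_mul_aM h3, ← mul_assoc, mul_assoc (bM col), dl_mul, h5, ← dl_mul,
      ← mul_assoc, bM_mul_dl h4, Perm.sign_swap (fun h => hij (g.injective h))]
    simp
  · refine ⟨((Perm.sign q : ℤ) : ℚ), ?_⟩
    rw [← dl_mul, ← mul_assoc, bM_mul_dl hq, mul_assoc, dl_mul_aM hp, smul_mul_assoc]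

lemma b_x_a (hD : IsDiag row col (Finset.univ : Finset ι)) {x : Matrix (Perm ι) (Perm ι) ℚ}
    (hx : x ∈ alg (Perm ι)) : ∃ l : ℚ, bM col * x * aM row = l • (bM col * aM row) := by
  obtain ⟨α, rfl⟩ := hx
  choose l hl using b_dl_a hD
  refine ⟨∑ g, α g * l g, ?_⟩
  rw [Mt, Finset.mul_sum, Finset.sum_mul, Finset.sum_smul]
  apply Finset.sum_congr rfl
  intro g _
  rw [mul_smul_comm, smul_mul_assoc, hl, smul_smul]

lemma a_dl_b (hD : IsDiag row' col' (Finset.univ : Finset ι)) {k : ℕ}
    (hk : nRow row' k < nRow row k) (g : Perm ι) : aM row * dl g * bM col' = 0 := by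
  obtain ⟨i, j, hij, h1, h2⟩ := pair_or_le (row := row) hD g⁻¹ hk
  apply eq_zero_of_neg
  have h3 : swap i j ∈ lineF row Finset.univ :=
    lineF_swap (Finset.mem_univ _) (Finset.mem_univ _) h1
  have h4 : swap (g⁻¹ i) (g⁻¹ j) ∈ lineF col' Finset.univ :=
    lineF_swap (Finset.mem_univ _) (Finset.mem_univ _) h2
  have h5 : swap i j * g = g * swap (g⁻¹ i) (g⁻¹ j) := by
    rw [Equiv.mul_swap_eq_swap_mul, app_inv, app_inv]
  conv_lhs => rw [← aM_mul_dl h3, mul_assoc (aM row), dl_mul, h5, ← dl_mul, ← mul_assoc, mul_assoc,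
    dl_mul_bM h4, Perm.sign_swap (fun h => hij (g⁻¹.injective h))]
  simp

lemma a_x_b (hD : IsDiag row' col' (Finset.univ : Finset ι)) {k : ℕ}
    (hk : nRow row' k < nRow row k) {x : Matrix (Perm ι) (Perm ι) ℚ}
    (hx : x ∈ alg (Perm ι)) : aM row * x * bM col' = 0 := by
  obtain ⟨α, rfl⟩ := hx
  rw [Mt, Finset.mul_sum, Finset.sum_mul]
  apply Finset.sum_eq_zero
  intro g _
  rw [mul_smul_comm, smul_mul_assoc, a_dl_b hD hk, smul_zero]

/-- The central element of a tableau. -/
def zM (row col : ι → ℕ) : Matrix (Perm ι) (Perm ι) ℚ := cj (bM col * aM row)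

lemma zM_transpose : (zM row col)ᵀ = zM row col := by
  rw [zM, cj_transpose, Matrix.transpose_mul, aM_transpose, bM_transpose, aM, Finset.sum_mul,
    Finset.mul_sum, cj_sum, cj_sum]
  apply Finset.sum_congr rfl
  intro r _
  exact cj_dl_mul _ _

lemma zM_mem : zM row col ∈ alg (Perm ι) := cj_mem (mul_mem_alg bM_mem aM_mem)

lemma trace_ba (hD : IsDiag row col (Finset.univ : Finset ι)) :
    (bM col * aM row).trace = Fintype.card (Perm ι) := by
  rw [bM, aM, Finset.sum_mul, Matrix.trace_sum]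
  have h1 : ∀ c ∈ lineF col (Finset.univ : Finset ι), ∀ r ∈ lineF row (Finset.univ : Finset ι),
      c * r = 1 → c = 1 ∧ r = 1 := by
    intro c hc r hr hcr
    have h2 : c = 1 := by
      apply Equiv.ext
      intro i
      apply hD.inj _ (Finset.mem_univ _) _ (Finset.mem_univ _)
      · have h3 : c = r⁻¹ := eq_inv_of_mul_eq_one_left hcr
        rw [h3]
        exact (mem_lineF.1 (lineF_inv hr)).2 i
      · exact (mem_lineF.1 hc).2 i
    refine ⟨h2, ?_⟩
    rwa [h2, one_mul] at hcr
  have h1c : (1 : Perm ι) ∈ lineF col (Finset.univ : Finset ι) :=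
    mem_lineF.2 ⟨fun _ _ => rfl, fun _ => rfl⟩
  have h1r : (1 : Perm ι) ∈ lineF row (Finset.univ : Finset ι) :=
    mem_lineF.2 ⟨fun _ _ => rfl, fun _ => rfl⟩
  have h2 : ∀ c ∈ lineF col (Finset.univ : Finset ι),
      ((((Perm.sign c : ℤ) : ℚ) • dl c) * ∑ r ∈ lineF row Finset.univ, dl r).trace =
      if c = 1 then (Fintype.card (Perm ι) : ℚ) else 0 := by
    intro c hc
    rw [smul_mul_assoc, Matrix.trace_smul, Finset.mul_sum, Matrix.trace_sum]
    split_ifs with h
    · subst h
      rw [Finset.sum_eq_single 1]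
      · rw [dl_mul, trace_dl, if_pos (one_mul _)]
        simp
      · intro r hr hr1
        rw [dl_mul, trace_dl, if_neg]
        intro h3
        exact hr1 (h1 1 hc r hr h3).2
      · intro h3
        exact absurd h1r h3
    · rw [Finset.sum_eq_zero, smul_zero]
      intro r hr
      rw [dl_mul, trace_dl, if_neg]
      intro h3
      exact h (h1 c hc r hr h3).1
  rw [Finset.sum_congr rfl h2, Finset.sum_ite_eq' (lineF col Finset.univ) 1, if_pos h1c]

lemma zM_ne (hD : IsDiag row col (Finset.univ : Finset ι)) : zM row col ≠ 0 := by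
  intro h
  have h1 := trace_cj (bM col * aM row)
  rw [trace_ba hD] at h1
  rw [zM] at h
  rw [h, Matrix.trace_zero] at h1
  have h2 : (Fintype.card (Perm ι) : ℚ) ≠ 0 := by
    exact_mod_cast Fintype.card_ne_zero
  exact mul_ne_zero h2 h2 h1.symm

lemma zM_mul (hD : IsDiag row' col' (Finset.univ : Finset ι)) {k : ℕ}
    (hk : nRow row' k < nRow row k) : zM row col * zM row' col' = 0 := by
  rw [zM, zM, cj, cj, Finset.sum_mul]
  apply Finset.sum_eq_zero
  intro g _
  rw [Finset.mul_sum]
  apply Finset.sum_eq_zero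
  intro h _
  have h1 : aM row * (dl g⁻¹ * dl h) * bM col' = 0 :=
    a_x_b hD hk (mul_mem_alg (dl_mem _) (dl_mem _))
  have h2 : dl g * (bM col * aM row) * dl g⁻¹ * (dl h * (bM col' * aM row') * dl h⁻¹) =
      dl g * bM col * (aM row * (dl g⁻¹ * dl h) * bM col') * aM row' * dl h⁻¹ := by
    simp only [mul_assoc]
  rw [h2, h1]
  simp

lemma zM_mul' (hD : IsDiag row col (Finset.univ : Finset ι)) {k : ℕ}
    (hk : nRow row k < nRow row' k) : zM row col * zM row' col' = 0 := by
  have h1 := zM_mul (row := row') (col := col') hD hk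
  have h2 := congrArg Matrix.transpose h1
  rwa [Matrix.transpose_mul, zM_transpose, zM_transpose, Matrix.transpose_zero] at h2

end sym

end Pool.Agent.Helper70_bl
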