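import Pool.Agent.Helper70_bl.Yg3
import Mathlib.GroupTheory.Perm.Cycle.Type

/-!
# The Young diagrams with `n` cells
-/

set_option linter.unusedSectionVars false

namespace Pool.Agent.Helper70_bl

open Equiv

lemma card_cellsOfRowLens (w : List ℕ) : (YoungDiagram.cellsOfRowLens w).card = w.sum := by
  induction w with
  | nil => rfl
  | cons m w ih =>
    rw [YoungDiagram.cellsOfRowLens, Finset.card_union_of_disjoint, Finset.card_product,
      Finset.card_map, ih, Finset.card_singleton, Finset.card_range, one_mul, List.sum_cons]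
    rw [Finset.disjoint_left]
    intro c h1 h2
    have h3 : c.1 = 0 := by
      have := (Finset.mem_product.1 h1).1
      rwa [Finset.mem_singleton] at this
    obtain ⟨d, -, hd⟩ := Finset.mem_map.1 h2
    rw [← hd] at h3
    exact Nat.succ_ne_zero _ h3

/-- The number of cells in the first `k` rows. -/
def nR (μ : YoungDiagram) (k : ℕ) : ℕ := (μ.cells.filter (fun c => c.1 < k)).card

lemma nR_succ (μ : YoungDiagram) (k : ℕ) : nR μ (k + 1) = nR μ k + μ.rowLen k := by
  rw [nR, nR, YoungDiagram.rowLen_eq_card, ← Finset.card_union_of_disjoint]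
  · congr 1
    ext c
    rw [Finset.mem_union, Finset.mem_filter, Finset.mem_filter, YoungDiagram.mem_row_iff,
      YoungDiagram.mem_cells]
    constructor
    · rintro ⟨h1, h2⟩
      rcases Nat.lt_succ_iff_lt_or_eq.1 h2 with h3 | h3
      · exact Or.inl ⟨h1, h3⟩
      · exact Or.inr ⟨h1, h3⟩
    · rintro (⟨h1, h2⟩ | ⟨h1, h2⟩)
      · exact ⟨h1, by omega⟩
      · exact ⟨h1, by omega⟩
  · rw [Finset.disjoint_left]
    intro c h1 h2
    have h3 := (Finset.mem_filter.1 h1).2
    have h4 := (YoungDiagram.mem_row_iff.1 h2).2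
    omega

lemma eq_of_nR {μ ν : YoungDiagram} (h : ∀ k, nR μ k = nR ν k) : μ = ν := by
  have h1 : ∀ k, μ.rowLen k = ν.rowLen k := by
    intro k
    have h2 := h (k + 1)
    rw [nR_succ, nR_succ, h k] at h2
    omega
  apply YoungDiagram.ext
  ext ⟨i, j⟩
  rw [YoungDiagram.mem_cells, YoungDiagram.mem_cells, YoungDiagram.mem_iff_lt_rowLen,
    YoungDiagram.mem_iff_lt_rowLen, h1]

/-- A tableau with `n` cells. -/
lemma exists_tableau {n : ℕ} {μ : YoungDiagram} (hμ : μ.cells.card = n) :
    ∃ row col : Fin n → ℕ, IsDiag row col Finset.univ ∧ ∀ k, nRow row k = nR μ k := by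
  let T := Finset.equivFinOfCardEq hμ
  refine ⟨fun i => (T.symm i).1.1, fun i => (T.symm i).1.2, ⟨?_, ?_⟩, ?_⟩
  · intro i _ j _ h1 h2
    exact T.symm.injective (Subtype.ext (Prod.ext h1 h2))
  · intro i _ r s hr hs
    have h1 : (r, s) ∈ μ.cells := (YoungDiagram.mem_cells _).2
      (μ.up_left_mem hr hs ((YoungDiagram.mem_cells _).1 (T.symm i).2))
    refine ⟨T ⟨(r, s), h1⟩, Finset.mem_univ _, ?_, ?_⟩
    · rw [T.symm_apply_apply]
    · rw [T.symm_apply_apply]
  · intro k
    rw [nRow, nR]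
    refine Finset.card_bij (fun i _ => (T.symm i).1) ?_ ?_ ?_
    · intro i hi
      exact Finset.mem_filter.2 ⟨(T.symm i).2, (Finset.mem_filter.1 hi).2⟩
    · intro i _ j _ h
      exact T.symm.injective (Subtype.ext h)
    · intro c hc
      obtain ⟨h1, h2⟩ := Finset.mem_filter.1 hc
      refine ⟨T ⟨c, h1⟩, Finset.mem_filter.2 ⟨Finset.mem_univ _, ?_⟩, ?_⟩
      · rw [T.symm_apply_apply]
        exact h2
      · rw [T.symm_apply_apply]

/-- The list of the lengths of the cycles. -/
def lens {n : ℕ} (σ : Perm (Fin n)) : List ℕ := σ.partition.parts.sort (fun a b => a ≥ b)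

lemma lens_sorted {n : ℕ} (σ : Perm (Fin n)) : (lens σ).SortedGE :=
  (Multiset.pairwise_sort _ _).sortedGE

lemma lens_pos {n : ℕ} (σ : Perm (Fin n)) : ∀ x ∈ lens σ, 0 < x := by
  intro x hx
  rw [lens, Multiset.mem_sort] at hx
  exact σ.partition.parts_pos hx

lemma lens_sum {n : ℕ} (σ : Perm (Fin n)) : (lens σ).sum = n := by
  have h1 : ((lens σ : List ℕ) : Multiset ℕ).sum = σ.partition.parts.sum := by
    rw [lens, Multiset.sort_eq]
  rw [Multiset.sum_coe, σ.partition.parts_sum, Fintype.card_fin] at h1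
  exact h1

/-- The Young diagram of the cycle type. -/
def diagOf {n : ℕ} (σ : Perm (Fin n)) : YoungDiagram := YoungDiagram.ofRowLens _ (lens_sorted σ)

lemma card_diagOf {n : ℕ} (σ : Perm (Fin n)) : (diagOf σ).cells.card = n :=
  (card_cellsOfRowLens _).trans (lens_sum σ)

lemma isConj_of_diagOf {n : ℕ} {σ τ : Perm (Fin n)} (h : diagOf σ = diagOf τ) : IsConj σ τ := by
  have h1 : lens σ = lens τ := by
    rw [← YoungDiagram.rowLens_ofRowLens_eq_self (hw := lens_sorted σ) (lens_pos σ),
      ← YoungDiagram.rowLens_ofRowLens_eq_self (hw := lens_sorted τ) (lens_pos τ)]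
    exact congrArg _ h
  rw [Perm.partition_eq_of_isConj]
  apply Nat.Partition.ext
  rw [← Multiset.sort_eq σ.partition.parts (fun a b => a ≥ b),
    ← Multiset.sort_eq τ.partition.parts (fun a b => a ≥ b)]
  exact congrArg _ h1

/-- One tableau for each conjugacy class. -/
theorem exists_tableaux (n : ℕ) : ∃ row col : ConjClasses (Perm (Fin n)) → Fin n → ℕ,
    (∀ κ, IsDiag (row κ) (col κ) Finset.univ) ∧
      ∀ κ κ', κ ≠ κ' → ∃ k, nRow (row κ) k ≠ nRow (row κ') k := by
  choose row col h1 h2 using fun κ : ConjClasses (Perm (Fin n)) =>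
    exists_tableau (card_diagOf (Quotient.out κ))
  refine ⟨row, col, h1, fun κ κ' hκ => ?_⟩
  by_contra hcon
  push Not at hcon
  apply hκ
  have h3 : diagOf (Quotient.out κ) = diagOf (Quotient.out κ') := by
    apply eq_of_nR
    intro k
    rw [← h2, ← h2, hcon]
  have h4 := isConj_of_diagOf h3
  rw [← Quotient.out_eq κ, ← Quotient.out_eq κ']
  exact Quotient.sound h4

end Pool.Agent.Helper70_bl
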