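import Pool.Agent.Helper70_bl.Yg4

/-!
# Every nonzero ideal contains a Young symmetrizer
-/

set_option linter.unusedSectionVars false

namespace Pool.Agent.Helper70_bl

open Equiv

section

variable {G : Type} [Group G] [Fintype G] [DecidableEq G]
variable {J : Submodule ℚ (Matrix G G ℚ)}

lemma left_mem (hl : ∀ g, ∀ x ∈ J, dl g * x ∈ J) {u x : Matrix G G ℚ} (hu : u ∈ alg G)
    (hx : x ∈ J) : u * x ∈ J := by
  obtain ⟨α, rfl⟩ := hu
  rw [Mt, Finset.sum_mul]
  refine Submodule.sum_mem _ fun g _ => ?_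
  rw [smul_mul_assoc]
  exact Submodule.smul_mem _ _ (hl g x hx)

lemma right_mem (hr : ∀ g, ∀ x ∈ J, x * dl g ∈ J) {u x : Matrix G G ℚ} (hu : u ∈ alg G)
    (hx : x ∈ J) : x * u ∈ J := by
  obtain ⟨α, rfl⟩ := hu
  rw [Mt, Finset.mul_sum]
  refine Submodule.sum_mem _ fun g _ => ?_
  rw [mul_smul_comm]
  exact Submodule.smul_mem _ _ (hr g x hx)

end

/-- The sum of the central elements generates everything. -/
lemma exists_one (n : ℕ) (row col : ConjClasses (Perm (Fin n)) → Fin n → ℕ)
    (hD : ∀ κ, IsDiag (row κ) (col κ) Finset.univ)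
    (hdiff : ∀ κ κ', κ ≠ κ' → ∃ k, nRow (row κ) k ≠ nRow (row κ') k) :
    ∃ l : ConjClasses (Perm (Fin n)) → ℚ, ∑ κ, l κ • zM (row κ) (col κ) = 1 := by
  have hz : ∀ κ, zM (row κ) (col κ) ∈ LinearMap.range (clsMap (Perm (Fin n))) := fun κ =>
    mem_range_clsMap zM_mem (fun g => cj_comm _ g)
  let z : ConjClasses (Perm (Fin n)) → LinearMap.range (clsMap (Perm (Fin n))) := fun κ =>
    ⟨zM (row κ) (col κ), hz κ⟩
  have hli : LinearIndependent ℚ z := by
    rw [Fintype.linearIndependent_iff]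
    intro l hl κ
    have h1 : ∑ κ, l κ • zM (row κ) (col κ) = 0 := by
      have h2 := congrArg Subtype.val hl
      rw [AddSubmonoidClass.coe_finset_sum] at h2
      exact h2
    have h2 : (∑ κ', l κ' • zM (row κ') (col κ')) * zM (row κ) (col κ) =
        l κ • (zM (row κ) (col κ) * zM (row κ) (col κ)) := by
      rw [Finset.sum_mul, Finset.sum_eq_single κ]
      · rw [smul_mul_assoc]
      · intro κ' _ hκ'
        obtain ⟨k, hk⟩ := hdiff κ' κ hκ'
        rw [smul_mul_assoc]
        rcases Nat.lt_or_gt_of_ne hk with h3 | h3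
        · rw [zM_mul' (hD κ') h3, smul_zero]
        · rw [zM_mul (hD κ) h3, smul_zero]
      · intro h3
        exact absurd (Finset.mem_univ _) h3
    rw [h1, zero_mul] at h2
    have h3 := transpose_mul_self_ne (zM_ne (hD κ))
    rw [zM_transpose] at h3
    rcases smul_eq_zero.1 h2.symm with h4 | h4
    · exact h4
    · exact absurd h4 h3
  have hcard : Fintype.card (ConjClasses (Perm (Fin n))) =
      Module.finrank ℚ (LinearMap.range (clsMap (Perm (Fin n)))) :=
    le_antisymm hli.fintype_card_le_finrank finrank_range_clsMap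
  have hspan := hli.span_eq_top_of_card_eq_finrank' hcard
  have h1 : (1 : Matrix (Perm (Fin n)) (Perm (Fin n)) ℚ) ∈
      LinearMap.range (clsMap (Perm (Fin n))) := by
    apply mem_range_clsMap
    · rw [← dl_one]
      exact dl_mem _
    · intro g
      rw [mul_one, one_mul]
  have h2 : (⟨1, h1⟩ : LinearMap.range (clsMap (Perm (Fin n)))) ∈
      Submodule.span ℚ (Set.range z) := by
    rw [hspan]
    exact Submodule.mem_top
  obtain ⟨l, hl⟩ := (Submodule.mem_span_range_iff_exists_fun ℚ).1 h2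
  refine ⟨l, ?_⟩
  have h3 := congrArg Subtype.val hl
  rw [AddSubmonoidClass.coe_finset_sum] at h3
  exact h3

/-- Every nonzero two-sided ideal of the group algebra of a symmetric group contains the Young
symmetrizer of some tableau. -/
theorem exists_symmetrizer {n : ℕ} (J : Submodule ℚ (Matrix (Perm (Fin n)) (Perm (Fin n)) ℚ))
    (hJ : J ≤ alg (Perm (Fin n))) (hl : ∀ g, ∀ x ∈ J, dl g * x ∈ J)
    (hr : ∀ g, ∀ x ∈ J, x * dl g ∈ J) (hne : J ≠ ⊥) :
    ∃ row col : Fin n → ℕ, IsDiag row col Finset.univ ∧ bM col * aM row ∈ J := by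
  obtain ⟨row, col, hD, hdiff⟩ := exists_tableaux n
  obtain ⟨l, hl1⟩ := exists_one n row col hD hdiff
  obtain ⟨x, hx, hx0⟩ := Submodule.exists_mem_ne_zero_of_ne_bot hne
  obtain ⟨κ, hκ⟩ : ∃ κ, x * zM (row κ) (col κ) ≠ 0 := by
    by_contra hcon
    push Not at hcon
    apply hx0
    rw [← mul_one x, ← hl1, Finset.mul_sum]
    apply Finset.sum_eq_zero
    intro κ _
    rw [mul_smul_comm, hcon, smul_zero]
  obtain ⟨g, hg⟩ : ∃ g, x * dl g * (bM (col κ) * aM (row κ)) ≠ 0 := by
    by_contra hcon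
    push Not at hcon
    apply hκ
    rw [zM, cj, Finset.mul_sum]
    apply Finset.sum_eq_zero
    intro g _
    rw [← mul_assoc, ← mul_assoc, hcon, zero_mul]
  set y := x * dl g with hy
  have hyJ : y ∈ J := hr g x hx
  refine ⟨row κ, col κ, hD κ, ?_⟩
  have h1 := transpose_mul_self_ne hg
  rw [Matrix.transpose_mul, Matrix.transpose_mul, aM_transpose, bM_transpose] at h1
  have h2 : bM (col κ) * (y.transpose * y * bM (col κ)) * aM (row κ) ≠ 0 := by
    intro h3
    apply h1
    have h4 : aM (row κ) * bM (col κ) * y.transpose * (y * (bM (col κ) * aM (row κ))) =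
        aM (row κ) * (bM (col κ) * (y.transpose * y * bM (col κ)) * aM (row κ)) := by
      simp only [mul_assoc]
    rw [h4, h3, mul_zero]
  obtain ⟨c, hc⟩ := b_x_a (hD κ) (x := y.transpose * y * bM (col κ))
    (mul_mem_alg (mul_mem_alg (transpose_mem (hJ hyJ)) (hJ hyJ)) bM_mem)
  have hc0 : c ≠ 0 := by
    rintro rfl
    apply h2
    rw [hc, zero_smul]
  have h5 : bM (col κ) * (y.transpose * y * bM (col κ)) * aM (row κ) ∈ J := by
    have h6 : bM (col κ) * (y.transpose * y * bM (col κ)) * aM (row κ) =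
        bM (col κ) * y.transpose * (y * (bM (col κ) * aM (row κ))) := by
      simp only [mul_assoc]
    rw [h6]
    exact left_mem hl (mul_mem_alg bM_mem (transpose_mem (hJ hyJ)))
      (right_mem hr (mul_mem_alg bM_mem aM_mem) hyJ)
  rw [hc] at h5
  have h7 := Submodule.smul_mem _ c⁻¹ h5
  rwa [smul_smul, inv_mul_cancel₀ hc0, one_smul] at h7

end Pool.Agent.Helper70_bl
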