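import Pool.Agent.Helper70_bl.Yg5

/-!
# Relations between few graphs
-/

open CategoryTheory AlgebraicGeometry

universe u v w

namespace Pool.Agent.Helper70_bl

open Pool.Agent.H914 Pool.Agent.H914.VarClass Pool.Agent.H914.VarClass.Obj Pool.Agent.W492.BB
  Pool.Agent.W550.Corr Pool.Agent.TH133 Pool.Agent.TH829.Prime Pool.Agent.TH829.Kim Equiv

set_option linter.unusedSectionVars false

section comb

variable {ι : Type} [Fintype ι] [DecidableEq ι]

lemma dl_mul_Mt {G : Type} [Group G] [Fintype G] [DecidableEq G] (g : G) (α : G → ℚ) :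
    dl g * Mt α = Mt (fun σ => α (g⁻¹ * σ)) := by
  rw [Mt, Mt, Finset.mul_sum]
  apply Fintype.sum_equiv (Equiv.mulLeft g)
  intro h
  change dl g * α h • dl h = α (g⁻¹ * (g * h)) • dl (g * h)
  rw [mul_smul_comm, dl_mul, inv_mul_cancel_left]

lemma Mt_mul_dl {G : Type} [Group G] [Fintype G] [DecidableEq G] (g : G) (α : G → ℚ) :
    Mt α * dl g = Mt (fun σ => α (σ * g⁻¹)) := by
  rw [Mt, Mt, Finset.sum_mul]
  apply Fintype.sum_equiv (Equiv.mulRight g)
  intro h
  change α h • dl h * dl g = α (h * g * g⁻¹) • dl (h * g)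
  rw [smul_mul_assoc, dl_mul, mul_inv_cancel_right]

lemma bM_mul_aM (row col : ι → ℕ) : bM col * aM row =
    Mt (fun σ => ∑ r ∈ lineF row Finset.univ, ∑ c ∈ lineF col Finset.univ,
      if c * r⁻¹ = σ then ((Perm.sign c : ℤ) : ℚ) else 0) := by
  have h1 : ∀ σ : Perm ι, (∑ r ∈ lineF row Finset.univ, ∑ c ∈ lineF col Finset.univ,
      if c * r⁻¹ = σ then ((Perm.sign c : ℤ) : ℚ) else 0) • dl σ =
      ∑ r ∈ lineF row Finset.univ, ∑ c ∈ lineF col Finset.univ,
      if c * r⁻¹ = σ then ((Perm.sign c : ℤ) : ℚ) • dl σ else 0 := by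
    intro σ
    rw [Finset.sum_smul]
    apply Finset.sum_congr rfl
    intro r _
    rw [Finset.sum_smul]
    apply Finset.sum_congr rfl
    intro c _
    rw [ite_smul, zero_smul]
  rw [Mt, Finset.sum_congr rfl (fun σ _ => h1 σ), Finset.sum_comm, aM, Finset.mul_sum]
  refine Finset.sum_bij' (fun r _ => r⁻¹) (fun r _ => r⁻¹) (fun r hr => lineF_inv hr)
    (fun r hr => lineF_inv hr) (fun r _ => inv_inv r) (fun r _ => inv_inv r) ?_
  intro r _
  rw [Finset.sum_comm, bM, Finset.sum_mul]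
  apply Finset.sum_congr rfl
  intro c _
  rw [Finset.sum_ite_eq, if_pos (Finset.mem_univ _), smul_mul_assoc, dl_mul, inv_inv]

lemma card_of_cell {row col : ι → ℕ} (hD : IsDiag row col (Finset.univ : Finset ι)) {i : ι}
    {r s : ℕ} (hr : r ≤ row i) (hs : s ≤ col i) : (r + 1) * (s + 1) ≤ Fintype.card ι := by
  have h1 : Finset.range (r + 1) ×ˢ Finset.range (s + 1) ⊆
      (Finset.univ : Finset ι).image (fun j => (row j, col j)) := by
    rintro ⟨x, y⟩ hxy
    obtain ⟨h1, h2⟩ := Finset.mem_product.1 hxy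
    have h3 := Finset.mem_range.1 h1
    have h4 := Finset.mem_range.1 h2
    obtain ⟨j, -, hj1, hj2⟩ := hD.low i (Finset.mem_univ _) x y (by omega) (by omega)
    exact Finset.mem_image.2 ⟨j, Finset.mem_univ _, by rw [hj1, hj2]⟩
  have h2 := (Finset.card_le_card h1).trans Finset.card_image_le
  rwa [Finset.card_product, Finset.card_range, Finset.card_range, Finset.card_univ] at h2

end comb

variable {k : Type u} [Field k] {𝒱 : VarClass k}

section chow

variable {C : TheoryData.{u, v, 0} 𝒱 ℚ} [hC : IsChowProj C] {X : 𝒱.Obj}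

include hC

lemma comb_add {ι : Type} [Fintype ι] [DecidableEq ι] (p : ι → C.A (X.prod X))
    (α β : Perm ι → ℚ) : comb p (α + β) = comb p α + comb p β := by
  rw [comb, comb, comb, ← Finset.sum_add_distrib]
  exact Finset.sum_congr rfl fun σ _ => add_smul _ _ _

lemma comb_smul {ι : Type} [Fintype ι] [DecidableEq ι] (p : ι → C.A (X.prod X)) (c : ℚ)
    (α : Perm ι → ℚ) : comb p (c • α) = c • comb p α := by
  rw [comb, comb, Finset.smul_sum]
  exact Finset.sum_congr rfl fun σ _ => (smul_smul _ _ _).symm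

/-- The ideal of the relations. -/
noncomputable def relSub (I : Family C) (p : C.A (X.prod X)) (n : ℕ) (e : ℤ) :
    Submodule ℚ (Matrix (Perm (Fin n)) (Perm (Fin n)) ℚ) where
  carrier := {x | ∃ α, x = Mt α ∧ InI I (comb (fun _ => p) α) e}
  add_mem' := by
    rintro _ _ ⟨α, rfl, hα⟩ ⟨β, rfl, hβ⟩
    refine ⟨α + β, ?_, ?_⟩
    · rw [Mt, Mt, Mt, ← Finset.sum_add_distrib]
      exact Finset.sum_congr rfl fun g _ => (add_smul _ _ _).symm
    · rw [comb_add]
      exact fun W x y => Submodule.add_mem _ (hα W x y) (hβ W x y)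
  zero_mem' := by
    refine ⟨0, by simp [Mt], ?_⟩
    intro W x y
    rw [comb_apply]
    simp
  smul_mem' := by
    rintro c _ ⟨α, rfl, hα⟩
    refine ⟨c • α, ?_, ?_⟩
    · rw [Mt, Mt, Finset.smul_sum]
      exact Finset.sum_congr rfl fun g _ => smul_smul _ _ _
    · rw [comb_smul]
      exact fun W x y => Submodule.smul_mem _ _ (hα W x y)

/-- A nontrivial relation gives a vanishing Young symmetrizer. -/
theorem exists_young {I : Family C} {p : C.A (X.prod X)} {n : ℕ} {e : ℤ}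
    {α : Perm (Fin n) → ℚ} (hα : α ≠ 0) (h : InI I (comb (fun _ => p) α) e) :
    ∃ row col : Fin n → ℕ, IsDiag row col Finset.univ ∧
      InI I (young row col (fun _ => p) Finset.univ) e := by
  obtain ⟨row, col, hD, β, hβ, hβI⟩ := exists_symmetrizer (relSub I p n e)
    (by rintro _ ⟨α, rfl, -⟩; exact ⟨α, rfl⟩)
    (by
      rintro g _ ⟨α, rfl, hα⟩
      refine ⟨_, dl_mul_Mt g α, ?_⟩
      have h1 := hα.translate g⁻¹ 1
      simpa using h1)
    (by
      rintro g _ ⟨α, rfl, hα⟩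
      refine ⟨_, Mt_mul_dl g α, ?_⟩
      have h1 := hα.translate 1 g⁻¹
      simpa using h1)
    (by
      intro h1
      have h2 : Mt α ∈ relSub I p n e := ⟨α, rfl, h⟩
      rw [h1, Submodule.mem_bot] at h2
      apply hα
      apply Mt_inj
      rw [h2]
      simp [Mt])
  refine ⟨row, col, hD, ?_⟩
  rw [bM_mul_aM] at hβ
  rw [young_eq_comb, Mt_inj hβ]
  exact hβI

variable {b : ℕ} {e : Fin b → ℤ} {a a' : Fin b → C.A X}

/-- A linear relation between the graphs of the permutations of at most `3 b + 8` factors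
decomposes the diagonal. -/
theorem split_of_dependent (hne : ∀ X : 𝒱.Obj, (1 : C.A X) ≠ 0) (ha : ∀ i, C.Deg (e i) (a i))
    (ha' : ∀ i, C.Deg ((X.dim : ℤ) - e i) (a' i))
    (hdual : ∀ i j, HasDegree C (a i * a' j) (if i = j then 1 else 0))
    (hs : ∑ i, C.ext (a i) (a' i) = ∑ i, C.ext (a' i) (a i))
    (hb : HasDegree C (ev (dg C X) (𝟙 X) (𝟙 X)) b) {I : Family C} (hI : IsAdequate C I)
    {n : ℕ} (hn : n ≤ 3 * b + 8) {α : Perm (Fin n) → ℚ} (hα : α ≠ 0)
    (h : InI I (comb (fun _ => dg C X) α) (Fintype.card (Fin n) * X.dim)) :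
    dg C X - ∑ i, C.ext (a i) (a' i) ∈ I (X.prod X) X.dim := by
  obtain ⟨row, col, hD, h1⟩ := exists_young hα h
  refine split_of_young hne ha ha' hdual hs hb hI hD (fun i hi => ?_) h1
  have h2 := card_of_cell hD hi.1 hi.2
  rw [Fintype.card_fin] at h2
  omega

/-- The same for the remaining part of the diagonal. -/
theorem split_of_dependent_pi (hne : ∀ X : 𝒱.Obj, (1 : C.A X) ≠ 0) (ha : ∀ i, C.Deg (e i) (a i))
    (ha' : ∀ i, C.Deg ((X.dim : ℤ) - e i) (a' i))
    (hdual : ∀ i j, HasDegree C (a i * a' j) (if i = j then 1 else 0))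
    (hs : ∑ i, C.ext (a i) (a' i) = ∑ i, C.ext (a' i) (a i))
    (hb : HasDegree C (ev (dg C X) (𝟙 X) (𝟙 X)) b) {I : Family C} (hI : IsAdequate C I)
    {n : ℕ} (hn : n ≤ 8) {α : Perm (Fin n) → ℚ} (hα : α ≠ 0)
    (h : InI I (comb (fun _ => dg C X - ∑ i, C.ext (a i) (a' i)) α)
      (Fintype.card (Fin n) * X.dim)) :
    dg C X - ∑ i, C.ext (a i) (a' i) ∈ I (X.prod X) X.dim := by
  obtain ⟨row, col, hD, h1⟩ := exists_young hα h
  refine split_of_young_pi hne ha ha' hdual hs hb hI hD (fun i hi => ?_) h1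
  have h2 := card_of_cell hD hi.1 hi.2
  rw [Fintype.card_fin] at h2
  omega

end chow

end Pool.Agent.Helper70_bl
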