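import Pool.Agent.Helper70_bl.Yg6

/-!
# Relations acting on Specht modules
-/

open CategoryTheory AlgebraicGeometry

universe u v w

namespace Pool.Agent.Helper70_bl

open Pool.Agent.H914 Pool.Agent.H914.VarClass Pool.Agent.H914.VarClass.Obj Pool.Agent.W492.BB
  Pool.Agent.W550.Corr Pool.Agent.TH133 Pool.Agent.TH829.Prime Pool.Agent.TH829.Kim Equiv

set_option linter.unusedSectionVars false

section comb

variable {ι : Type} [Fintype ι] [DecidableEq ι]

/-- If an element of an ideal acts on a Specht module then the ideal contains the symmetrizer. -/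
theorem symm_mem {J : Submodule ℚ (Matrix (Perm ι) (Perm ι) ℚ)}
    (hJ : J ≤ alg (Perm ι)) (hl : ∀ g, ∀ x ∈ J, dl g * x ∈ J)
    (hr : ∀ g, ∀ x ∈ J, x * dl g ∈ J) {row col : ι → ℕ} (hD : IsDiag row col Finset.univ)
    {y : Matrix (Perm ι) (Perm ι) ℚ} (hyJ : y ∈ J) (hg : y * (bM col * aM row) ≠ 0) :
    bM col * aM row ∈ J := by
  have h1 := transpose_mul_self_ne hg
  rw [Matrix.transpose_mul, Matrix.transpose_mul, aM_transpose, bM_transpose] at h1
  have h2 : bM col * (y.transpose * y * bM col) * aM row ≠ 0 := by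
    intro h3
    apply h1
    have h4 : aM row * bM col * y.transpose * (y * (bM col * aM row)) =
        aM row * (bM col * (y.transpose * y * bM col) * aM row) := by
      simp only [mul_assoc]
    rw [h4, h3, mul_zero]
  obtain ⟨c, hc⟩ := b_x_a hD (x := y.transpose * y * bM col)
    (mul_mem_alg (mul_mem_alg (transpose_mem (hJ hyJ)) (hJ hyJ)) bM_mem)
  have hc0 : c ≠ 0 := by
    rintro rfl
    apply h2
    rw [hc, zero_smul]
  have h5 : bM col * (y.transpose * y * bM col) * aM row ∈ J := by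
    have h6 : bM col * (y.transpose * y * bM col) * aM row =
        bM col * y.transpose * (y * (bM col * aM row)) := by
      simp only [mul_assoc]
    rw [h6]
    exact left_mem hl (mul_mem_alg bM_mem (transpose_mem (hJ hyJ)))
      (right_mem hr (mul_mem_alg bM_mem aM_mem) hyJ)
  rw [hc] at h5
  have h7 := Submodule.smul_mem _ c⁻¹ h5
  rwa [smul_smul, inv_mul_cancel₀ hc0, one_smul] at h7

/-- Transport of the row and column groups. -/
lemma sum_transport {κ : Type} [Fintype κ] [DecidableEq κ] (T : κ ≃ ι) (ℓ : κ → ℕ)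
    (f : Perm ι → ℚ) : ∑ r ∈ lineF (fun i => ℓ (T.symm i)) Finset.univ, f r =
      ∑ r ∈ lineF ℓ Finset.univ, f (T.permCongr r) := by
  refine Finset.sum_bij' (fun r _ => T.symm.permCongr r) (fun r _ => T.permCongr r) ?_ ?_ ?_ ?_ ?_
  · intro r hr
    refine mem_lineF.2 ⟨fun i hi => absurd (Finset.mem_univ i) hi, fun i => ?_⟩
    have h1 := (mem_lineF.1 hr).2 (T i)
    change ℓ (T.symm (r (T.symm.symm i))) = ℓ i
    rw [Equiv.symm_symm, h1, T.symm_apply_apply]
  · intro r hr
    refine mem_lineF.2 ⟨fun i hi => absurd (Finset.mem_univ i) hi, fun i => ?_⟩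
    have h1 := (mem_lineF.1 hr).2 (T.symm i)
    change ℓ (T.symm (T (r (T.symm i)))) = ℓ (T.symm i)
    rw [T.symm_apply_apply, h1]
  · intro r _
    ext i
    simp [Equiv.permCongr_apply]
  · intro r _
    ext i
    simp [Equiv.permCongr_apply]
  · intro r _
    congr 1
    ext i
    simp [Equiv.permCongr_apply]

/-- The coefficient of the product with a symmetrizer. -/
lemma mul_symm_apply {κ : Type} [Fintype κ] [DecidableEq κ] (T : κ ≃ ι) (row col : κ → ℕ)
    (α : Perm ι → ℚ) (τ : Perm ι) : (Mt α * (bM (fun i => col (T.symm i)) *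
      aM (fun i => row (T.symm i)))) τ 1 = ∑ r ∈ lineF row Finset.univ,
        ∑ c ∈ lineF col Finset.univ, ((Perm.sign c : ℤ) : ℚ) * α (τ * T.permCongr (r * c)) := by
  have h1 : ∀ h : Perm ι, (Mt α * dl h) τ 1 = α (τ * h⁻¹) := by
    intro h
    rw [Mt_mul_dl, Mt_apply, inv_one, mul_one]
  have h2 : Mt α * (bM (fun i => col (T.symm i)) * aM (fun i => row (T.symm i))) =
      ∑ r ∈ lineF (fun i => row (T.symm i)) Finset.univ,
        ∑ c ∈ lineF (fun i => col (T.symm i)) Finset.univ,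
          ((Perm.sign c : ℤ) : ℚ) • (Mt α * dl (c * r)) := by
    rw [aM, Finset.mul_sum, Finset.mul_sum]
    apply Finset.sum_congr rfl
    intro r _
    rw [bM, Finset.sum_mul, Finset.mul_sum]
    apply Finset.sum_congr rfl
    intro c _
    rw [smul_mul_assoc, mul_smul_comm, dl_mul]
  rw [h2, Matrix.sum_apply]
  have h3 : ∀ r : Perm ι, (∑ c ∈ lineF (fun i => col (T.symm i)) Finset.univ,
      ((Perm.sign c : ℤ) : ℚ) • (Mt α * dl (c * r))) τ 1 =
      ∑ c ∈ lineF (fun i => col (T.symm i)) Finset.univ,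
        ((Perm.sign c : ℤ) : ℚ) * α (τ * (r⁻¹ * c⁻¹)) := by
    intro r
    rw [Matrix.sum_apply]
    apply Finset.sum_congr rfl
    intro c _
    rw [Matrix.smul_apply, h1, smul_eq_mul, mul_inv_rev]
  simp only [h3]
  -- replace the permutations by their inverses
  have h4 : ∀ (ℓ : ι → ℕ) (f : Perm ι → ℚ), ∑ r ∈ lineF ℓ Finset.univ, f r⁻¹ =
      ∑ r ∈ lineF ℓ Finset.univ, f r := by
    intro ℓ f
    exact Finset.sum_bij' (fun r _ => r⁻¹) (fun r _ => r⁻¹) (fun r hr => lineF_inv hr)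
      (fun r hr => lineF_inv hr) (fun r _ => inv_inv r) (fun r _ => inv_inv r) (fun r _ => rfl)
  rw [h4 _ (fun r => ∑ c ∈ lineF (fun i => col (T.symm i)) Finset.univ,
        ((Perm.sign c : ℤ) : ℚ) * α (τ * (r * c⁻¹))), sum_transport T row]
  apply Finset.sum_congr rfl
  intro r _
  have h5 : ∀ c : Perm ι, ((Perm.sign c : ℤ) : ℚ) = ((Perm.sign c⁻¹ : ℤ) : ℚ) := by
    intro c
    rw [Perm.sign_inv]
  rw [Finset.sum_congr rfl (fun c _ => by rw [h5 c]),
    h4 _ (fun c => ((Perm.sign c : ℤ) : ℚ) * α (τ * (T.permCongr r * c))), sum_transport T col]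
  apply Finset.sum_congr rfl
  intro c _
  have h6 : T.permCongr r * T.permCongr c = T.permCongr (r * c) := Equiv.ext fun i => by
    change T (r (T.symm (T (c (T.symm i))))) = T (r (c (T.symm i)))
    rw [T.symm_apply_apply]
  rw [Perm.sign_permCongr, h6]

end comb

/-- The sign acts non-trivially on the Specht module of one column. -/
lemma acts_sign (n : ℕ) : ActsOnSpecht (fun σ : Perm (Fin n) => ((Perm.sign σ : ℤ) : ℚ))
    (column n) := by
  have hc : Fintype.card (column n).cells = Fintype.card (Fin n) := by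
    rw [card_column, Fintype.card_fin]
  refine ⟨Fintype.equivOfCardEq hc, 1, ?_⟩
  rw [rowPerms_eq, colPerms_eq, lineF_row_column, lineF_col_column, Finset.sum_singleton]
  have h1 : ∀ c : Perm (column n).cells, ((Perm.sign c : ℤ) : ℚ) *
      ((Perm.sign (1 * (Fintype.equivOfCardEq hc).permCongr (1 * c)) : ℤ) : ℚ) = 1 := by
    intro c
    rw [one_mul, one_mul, Perm.sign_permCongr, sign_sq]
  simp only [h1, Finset.sum_const, Finset.card_univ, nsmul_eq_mul, mul_one]
  exact_mod_cast Fintype.card_ne_zero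

variable {k : Type u} [Field k] {𝒱 : VarClass k}

section chow

variable {C : TheoryData.{u, v, 0} 𝒱 ℚ} [hC : IsChowProj C] {X : 𝒱.Obj}

include hC

/-- A relation that acts on the Specht module of `μ` gives a vanishing Young symmetrizer. -/
theorem exists_young_of_acts {I : Family C} {p : C.A (X.prod X)} {n : ℕ} {e : ℤ}
    {α : Perm (Fin n) → ℚ} {μ : YoungDiagram} (hα : ActsOnSpecht α μ)
    (h : InI I (comb (fun _ => p) α) e) :
    ∃ row col : Fin n → ℕ, IsDiag row col Finset.univ ∧ (∀ i, (row i, col i) ∈ μ) ∧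
      InI I (young row col (fun _ => p) Finset.univ) e := by
  obtain ⟨T, τ, hT⟩ := hα
  rw [rowPerms_eq, colPerms_eq, ← mul_symm_apply T (rowOf μ) (colOf μ)] at hT
  have hD : IsDiag (fun i => rowOf μ (T.symm i)) (fun i => colOf μ (T.symm i))
      (Finset.univ : Finset (Fin n)) := by
    refine ⟨fun i _ j _ h1 h2 => ?_, fun i _ r s h1 h2 => ?_⟩
    · exact T.symm.injective ((isDiag_of μ).inj _ (Finset.mem_univ _) _ (Finset.mem_univ _) h1 h2)
    · obtain ⟨j, -, hj1, hj2⟩ := (isDiag_of μ).low _ (Finset.mem_univ _) r s h1 h2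
      refine ⟨T j, Finset.mem_univ _, ?_, ?_⟩
      · rw [T.symm_apply_apply, hj1]
      · rw [T.symm_apply_apply, hj2]
  have h1 := symm_mem (J := relSub I p n e)
    (by rintro _ ⟨α, rfl, -⟩; exact ⟨α, rfl⟩)
    (by
      rintro g _ ⟨α, rfl, hα⟩
      refine ⟨_, dl_mul_Mt g α, ?_⟩
      have h1 := hα.translate g⁻¹ 1
      simpa using h1)
    (by
      rintro g _ ⟨α, rfl, hα⟩
      refine ⟨_, Mt_mul_dl g α, ?_⟩
      have h1 := hα.translate 1 g⁻¹
      simpa using h1) hD (y := Mt α) ⟨α, rfl, h⟩ (by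
      intro h0
      apply hT
      rw [h0]
      rfl)
  obtain ⟨β, hβ, hβI⟩ := h1
  refine ⟨_, _, hD, fun i => ?_, ?_⟩
  · exact (YoungDiagram.mem_cells _).1 (T.symm i).2
  · rw [bM_mul_aM] at hβ
    rw [young_eq_comb, Mt_inj hβ]
    exact hβI

variable {b : ℕ} {e : Fin b → ℤ} {a a' : Fin b → C.A X}

theorem split_of_acts (hne : ∀ X : 𝒱.Obj, (1 : C.A X) ≠ 0) (ha : ∀ i, C.Deg (e i) (a i))
    (ha' : ∀ i, C.Deg ((X.dim : ℤ) - e i) (a' i))
    (hdual : ∀ i j, HasDegree C (a i * a' j) (if i = j then 1 else 0))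
    (hs : ∑ i, C.ext (a i) (a' i) = ∑ i, C.ext (a' i) (a i))
    (hb : HasDegree C (ev (dg C X) (𝟙 X) (𝟙 X)) b) {I : Family C} (hI : IsAdequate C I)
    (h : Exceptional C (dg C X) I b) :
    dg C X - ∑ i, C.ext (a i) (a' i) ∈ I (X.prod X) X.dim := by
  obtain ⟨n, α, μ, hα, hμ, hact⟩ := h
  obtain ⟨row, col, hD, h2, h1⟩ := exists_young_of_acts hact (relation_iff.1 hα)
  exact split_of_young hne ha ha' hdual hs hb hI hD
    (fun i hi => hμ (μ.up_left_mem hi.1 hi.2 (h2 i))) h1

theorem split_of_acts_pi (hne : ∀ X : 𝒱.Obj, (1 : C.A X) ≠ 0) (ha : ∀ i, C.Deg (e i) (a i))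
    (ha' : ∀ i, C.Deg ((X.dim : ℤ) - e i) (a' i))
    (hdual : ∀ i j, HasDegree C (a i * a' j) (if i = j then 1 else 0))
    (hs : ∑ i, C.ext (a i) (a' i) = ∑ i, C.ext (a' i) (a i))
    (hb : HasDegree C (ev (dg C X) (𝟙 X) (𝟙 X)) b) {I : Family C} (hI : IsAdequate C I)
    (h : Exceptional C (dg C X - ∑ i, C.ext (a i) (a' i)) I 0) :
    dg C X - ∑ i, C.ext (a i) (a' i) ∈ I (X.prod X) X.dim := by
  obtain ⟨n, α, μ, hα, hμ, hact⟩ := h
  obtain ⟨row, col, hD, h2, h1⟩ := exists_young_of_acts hact (relation_iff.1 hα)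
  exact split_of_young_pi hne ha ha' hdual hs hb hI hD
    (fun i hi => hμ (μ.up_left_mem (by omega) hi.2 (h2 i))) h1

end chow

end Pool.Agent.Helper70_bl
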